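import Mathlib

/-!
# Project PHI (MP_b68e99_co): `RT* ≥ 1 + φ² / (d - 1)` for all exchanges of `d` intervals.  Definitions.

`X : ℤ → ℝ` is a two-sided orbit, `u t` the index of the exchanged interval containing `X t`, `v t` the index (from the left) of the
image interval containing `X t`.  The gap `(i, j)`, `X i < X j`, contains a cut iff `u i ≠ u j` and an image cut iff `v i ≠ v j`.
`j` is the base of the pair `(i, j)`.
-/

set_option autoImplicit false

namespace Pool.Agent.PHI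

/-! ## Two-sided orbits -/

/-- `k` lies in the gap `(i, j)`. -/
def Btw (X : ℤ → ℝ) (i j k : ℤ) : Prop := X i < X k ∧ X k < X j

/-- Two-sided orbit of an exchange of `D + 1` intervals. -/
structure Orb (X : ℤ → ℝ) (u v : ℤ → ℕ) (D : ℕ) : Prop where
  inj : Function.Injective X
  umono : ∀ i j, X i ≤ X j → u i ≤ u j
  vmono : ∀ i j, X i ≤ X j → v i ≤ v j
  ule : ∀ i, u i ≤ D
  vle : ∀ i, v i ≤ D
  uv : ∀ i j, u i = u j ↔ v (i + 1) = v (j + 1)
  ord : ∀ i j, u i = u j → (X i < X j ↔ X (i + 1) < X (j + 1))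
  irr0 : ∀ t, u t = 0 → v (t + 1) ≠ 0
  irrD : ∀ t, u t = D → v (t + 1) ≠ D
  nomin : ∀ t, ∃ s, X s < X t
  nomax : ∀ t, ∃ s, X t < X s

/-- Orbit with bounded runs and uniform recurrence.
`run`, `run0`: two points at time distance `n` have equal labels during `t` steps only if `t + 1 ≤ ε n` (`n ≥ n0`), `t + 1 ≤ F n`
(all `n ≥ 1`).  `vis`: every gap is visited in every long time window.  `fine`: a gap which is not visited during `K1` consecutive
times has a label `≥ n0` and contains at most one cut and at most one image cut.  `visu`, `visv`: every label occurs in every time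
window of length `K1`. -/
structure Sys (X : ℤ → ℝ) (u v : ℤ → ℕ) (D : ℕ) (eps F : ℝ) (n0 K1 : ℕ) : Prop extends Orb X u v D where
  run : ∀ i j : ℤ, i < j → (n0 : ℤ) ≤ j - i → ∀ t : ℕ, (∀ m : ℕ, m < t → u (i + m) = u (j + m)) →
    (t : ℝ) + 1 ≤ eps * ((j - i : ℤ) : ℝ)
  run0 : ∀ i j : ℤ, i < j → ∀ t : ℕ, (∀ m : ℕ, m < t → u (i + m) = u (j + m)) → (t : ℝ) + 1 ≤ F * ((j - i : ℤ) : ℝ)
  vis : ∀ i j : ℤ, X i < X j → ∃ K : ℕ, ∀ t : ℤ, ∃ k : ℤ, t ≤ k ∧ k < t + K ∧ Btw X i j k
  fine : ∀ i j t : ℤ, X i < X j → (∀ k : ℤ, t ≤ k → k < t + K1 → ¬ Btw X i j k) →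
    (n0 : ℤ) ≤ |i - j| ∧ u j ≤ u i + 1 ∧ v j ≤ v i + 1
  visu : ∀ t : ℤ, ∀ c : ℕ, c ≤ D → ∃ k : ℤ, t ≤ k ∧ k < t + K1 ∧ u k = c
  visv : ∀ t : ℤ, ∀ c : ℕ, c ≤ D → ∃ k : ℤ, t ≤ k ∧ k < t + K1 ∧ v k = c

/-- Reflection of the positions. -/
def Xr (X : ℤ → ℝ) : ℤ → ℝ := fun t => -X t

/-- Reflection of the labels. -/
def ur (D : ℕ) (u : ℤ → ℕ) : ℤ → ℕ := fun t => D - u t

/-! ## Pairs -/

/-- Time distance from the base `j` to the last earlier visitor of the gap `(i, j)`. -/
noncomputable def ee (X : ℤ → ℝ) (i j : ℤ) : ℕ := sInf {k : ℕ | 0 < k ∧ Btw X i j (j - k)}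

/-- Time distance from the base `j` to the first later visitor of the gap `(i, j)`. -/
noncomputable def ff (X : ℤ → ℝ) (i j : ℤ) : ℕ := sInf {k : ℕ | 0 < k ∧ Btw X i j (j + k)}

/-- `h = e + f` -/
noncomputable def hh (X : ℤ → ℝ) (i j : ℤ) : ℕ := ee X i j + ff X i j

/-- Record pair: no visitor of the gap between the times `i` and `j`. -/
def Rec (X : ℤ → ℝ) (i j : ℤ) : Prop := X i < X j ∧ j - ee X i j < i ∧ i < j + ff X i j

/-- The label of the pair. -/
def nn (i j : ℤ) : ℕ := (i - j).natAbs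

/-- Distance from the base to the visitor on the other side in time. -/
noncomputable def ww (X : ℤ → ℝ) (i j : ℤ) : ℕ := if i < j then ff X i j else ee X i j

/-- Past extent of the sub-box. -/
noncomputable def sa (X : ℤ → ℝ) (i j : ℤ) : ℕ := if i < j then nn i j else ee X i j

/-- Future extent of the sub-box. -/
noncomputable def sb (X : ℤ → ℝ) (i j : ℤ) : ℕ := if i < j then ff X i j else nn i j

/-- Sum of the two extents of the sub-box. -/
noncomputable def hs (X : ℤ → ℝ) (i j : ℤ) : ℕ := sa X i j + sb X i j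

/-- `i` is the left neighbour of the base `j` in the open time window `(j - sa, j + sb)` belonging to the pair `(y, j)`: the pair
`(i, j)` is the next farther pair of `(y, j)`. -/
def Nf (X : ℤ → ℝ) (y j i : ℤ) : Prop :=
  X i < X j ∧ j - sa X y j < i ∧ i < j + sb X y j ∧ ∀ k, j - sa X y j < k → k < j + sb X y j → ¬ Btw X i j k

/-- The visitor farther from the base. -/
noncomputable def y1 (X : ℤ → ℝ) (i j : ℤ) : ℤ :=
  if X (j - ee X i j) < X (j + ff X i j) then j - ee X i j else j + ff X i j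

/-- The visitor closer to the base. -/
noncomputable def y2 (X : ℤ → ℝ) (i j : ℤ) : ℤ :=
  if X (j - ee X i j) < X (j + ff X i j) then j + ff X i j else j - ee X i j

/-- The visitor on the other side in time, seen from the base. -/
noncomputable def zz (X : ℤ → ℝ) (i j : ℤ) : ℤ := if i < j then j + ff X i j else j - ee X i j

/-! ## Flags -/

/-- the three cells of a gap -/
inductive Fl
  | a
  | b
  | c
  deriving DecidableEq

/-- the mirror image of a cell -/
def Fl.star : Fl → Fl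
  | .a => .c
  | .b => .b
  | .c => .a

/-- `a ↦ b`, `b ↦ c`, `c ↦ c` -/
def fa : Fl → Fl
  | .a => .b
  | .b => .c
  | .c => .c

/-- `c ↦ b`, `b ↦ c`, `a ↦ c` -/
def fc : Fl → Fl
  | .a => .c
  | .b => .c
  | .c => .b

/-- `c ↦ c`, `b ↦ b`, `a ↦ b` -/
def gc : Fl → Fl
  | .a => .b
  | .b => .b
  | .c => .c

/-- `a ↦ c`, `b ↦ b`, `c ↦ b` -/
def ga : Fl → Fl
  | .a => .c
  | .b => .b
  | .c => .b

open Classical in
/-- The cell of the gap `(i, j)` in which the labels `w` change. -/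
noncomputable def cell (w : ℤ → ℕ) (X : ℤ → ℝ) (i j : ℤ) : Fl :=
  if w i ≠ w (y1 X i j) then .a else if w (y1 X i j) ≠ w (y2 X i j) then .b else .c

open Classical in
/-- The cell (`b` or `c`) of the next farther pair in which the labels `w` change, if they change in `(y, j)`. -/
noncomputable def cellL (w : ℤ → ℕ) (X : ℤ → ℝ) (y j : ℤ) : Fl :=
  if w y ≠ w (zz X y j) then .b else .c

/-- Number of steps until the death of the pair. -/
noncomputable def du (u : ℤ → ℕ) (i j : ℤ) : ℕ := sInf {k : ℕ | u (i + k) ≠ u (j + k)}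

/-- Number of steps since the birth of the pair. -/
noncomputable def dv (v : ℤ → ℕ) (i j : ℤ) : ℕ := sInf {k : ℕ | v (i - k) ≠ v (j - k)}

/-- Number of the times at which the pair is alive. -/
noncomputable def life (u v : ℤ → ℕ) (i j : ℤ) : ℕ := du u i j + dv v i j + 1

/-- Cell of the death. -/
noncomputable def fd (X : ℤ → ℝ) (u : ℤ → ℕ) (i j : ℤ) : Fl := cell u X (i + du u i j) (j + du u i j)

/-- Cell of the birth. -/
noncomputable def fb (X : ℤ → ℝ) (v : ℤ → ℕ) (i j : ℤ) : Fl := cell v X (i - dv v i j) (j - dv v i j)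

/-- Death cell seen from the next farther pair. -/
noncomputable def Lfd (X : ℤ → ℝ) (u : ℤ → ℕ) (i j : ℤ) : Fl := cellL u X (i + du u i j) (j + du u i j)

/-- Birth cell seen from the next farther pair. -/
noncomputable def Lfb (X : ℤ → ℝ) (v : ℤ → ℕ) (i j : ℤ) : Fl := cellL v X (i - dv v i j) (j - dv v i j)

/-! ## The certificate -/

/-- `V(x, y) = (x + y) log (x + y) - x log x - y log y` -/
noncomputable def VV (x y : ℝ) : ℝ := (x + y) * Real.log (x + y) - x * Real.log x - y * Real.log y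

/-- The golden ratio. -/
noncomputable def phi : ℝ := (1 + Real.sqrt 5) / 2

/-- The certificate: functions of the two flags, the box `(e, f)` and the life `l`. -/
structure Cert (P : Fl → Fl → ℝ → ℝ → ℝ → ℝ) (C : ℝ) : Prop where
  C0 : 0 ≤ C
  sym : ∀ x y e f l, P x y e f l = P y x e f l
  bd : ∀ x y e f l, 0 ≤ l → l ≤ e → l ≤ f → |P x y e f l| ≤ C * l
  lip : ∀ x y e f l l', 0 ≤ l → l ≤ l' → l' ≤ e → l' ≤ f → |P x y e f l' - P x y e f l| ≤ C * (l' - l)
  dP : ∀ n r s l, 0 ≤ l → l ≤ n → l ≤ r → l ≤ s → ∀ x y,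
    P (fa x) (fa y) s n l + P (fc x) (fc y) r n l ≤ P x y (n + r) s l + P x.star y.star (n + s) r l
  dF : ∀ n r s l, 0 ≤ l → l ≤ n → l ≤ r → l ≤ s → ∀ x y,
    P (gc x) (gc y) r n l + P (ga x) (ga y) s n l ≤ P x y r (n + s) l + P x.star y.star s (n + r) l
  t1 : ∀ e f l1 l2, 0 ≤ l1 → 0 ≤ l2 → l1 + l2 ≤ e → l1 + l2 ≤ f → ∀ x y, x ≠ .a → y ≠ .a →
    P x .a e f l1 + P .a y e f l2 + phi ^ 2 * VV l1 l2 ≤ P x y e f (l1 + l2) + VV e f
  t2 : ∀ e f l1 l2, 0 ≤ l1 → 0 ≤ l2 → l1 + l2 ≤ e → l1 + l2 ≤ f → ∀ y, y ≠ .a →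
    P .a .a e f l1 + P .a y e f l2 + phi ^ 2 * VV l1 l2 ≤ P .a y e f (l1 + l2) + VV e f

/-! ## Values -/

section Values
variable (P : Fl → Fl → ℝ → ℝ → ℝ → ℝ) (eps : ℝ) (X : ℤ → ℝ) (u v : ℤ → ℕ)

/-- The value of the pair `(i, j)` as a piece, seen from the base `j`. -/
noncomputable def pj (i j : ℤ) : ℝ :=
  if X (j - ee X i j) < X (j + ff X i j) then P (fb X v i j) (fd X u i j) (ff X i j) (ee X i j) (life u v i j / eps)
  else P (fb X v i j) (fd X u i j) (ee X i j) (ff X i j) (life u v i j / eps)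

/-- The value of the pair `(i, j)` as a divided pair, seen from the base `j`. -/
noncomputable def bj (i j : ℤ) : ℝ :=
  P (Lfb X v i j) (Lfd X u i j) (ww X i j) (nn i j) (life u v i j / eps)

open Classical in
/-- The next farther pair of `(y, j)` dies now by a cut in its first cell. -/
def acut (y j : ℤ) : Prop := ∃ i, Nf X y j i ∧ u i ≠ u j ∧ cell u X i j = .a

open Classical in
/-- The contribution of the pair `(y, j)` now. -/
noncomputable def FF (y j : ℤ) : ℝ :=
  if h : ∃ i, Nf X y j i then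
    pj P eps X u v h.choose j / life u v h.choose j +
      phi ^ 2 / eps * (Real.log (life u v y j / eps) - Real.log (life u v h.choose j / eps))
  else phi ^ 2 / eps * Real.log (life u v y j / eps)

end Values

/-- The error of one division. -/
noncomputable def err (C eps : ℝ) (e f : ℕ) : ℝ := (C + phi ^ 2 * (1 + Real.log (min (e : ℝ) f))) / eps

/-- `V_disc(e, f)` -/
noncomputable def Vd (e f : ℕ) : ℝ := ∑ a ∈ Finset.range e, ∑ b ∈ Finset.range f, 1 / ((a : ℝ) + b + 1)

/-! ## Lists of pieces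

A piece is `(l, s)`: life `l`, followed by `s` (0 or 1) steps without a next farther pair. -/

/-- Total length. -/
def len : List (ℕ × ℕ) → ℕ
  | [] => 0
  | p :: ps => p.1 + p.2 + len ps

/-- Sum of `G` over the times of the pieces; `x`, `y` are the first and the last flag. -/
noncomputable def val (G : Fl → Fl → ℕ → ℝ) (w : ℝ) : Fl → Fl → List (ℕ × ℕ) → ℝ
  | _, _, [] => 0
  | x, y, [p] => p.1 * G x y p.1 + p.2 * w
  | x, y, p :: q :: ps => p.1 * G x .a p.1 + p.2 * w + val G w .a y (q :: ps)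

/-- Admissible lists: lives `≥ 1`, at most one step without a pair after a piece, none after the last piece. -/
def Adm : List (ℕ × ℕ) → Prop
  | [] => False
  | [p] => 1 ≤ p.1 ∧ p.2 = 0
  | p :: q :: ps => 1 ≤ p.1 ∧ p.2 ≤ 1 ∧ Adm (q :: ps)

/-! ## Means -/

/-- Bounded function. -/
def Bd (f : ℤ → ℝ) : Prop := ∃ C : ℝ, ∀ t, |f t| ≤ C

/-- Shift invariant mean on the bounded functions. -/
structure Mean (E : (ℤ → ℝ) → ℝ) : Prop where
  add : ∀ f g, Bd f → Bd g → E (fun t => f t + g t) = E f + E g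
  smul : ∀ (c : ℝ) f, Bd f → E (fun t => c * f t) = c * E f
  mono : ∀ f g, Bd f → Bd g → (∀ t, f t ≤ g t) → E f ≤ E g
  one : E (fun _ => 1) = 1
  shift : ∀ f, Bd f → E (fun t => f (t + 1)) = E f

/-! ## Windows and index sets -/

open Classical in
/-- `1` if `j` is the leftmost point with its label in the time window `[j - a, j + b]` and the label is not `0`. -/
noncomputable def dif (X : ℤ → ℝ) (u : ℤ → ℕ) (j : ℤ) (a b : ℕ) : ℝ :=
  if u j ≠ 0 ∧ ∀ k : ℤ, j - a ≤ k → k ≤ j + b → X k < X j → u k ≠ u j then 1 else 0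

/-- `i` is the left neighbour of `j` in the time window `[j - a, j + b]`. -/
def IsNb (X : ℤ → ℝ) (i j : ℤ) (a b : ℕ) : Prop :=
  X i < X j ∧ j - a ≤ i ∧ i ≤ j + b ∧ ∀ k : ℤ, j - a ≤ k → k ≤ j + b → ¬ Btw X i j k

open Classical in
/-- `1 / label` of the left neighbour of `j` in the time window `[j - a, j + b]`. -/
noncomputable def lab (X : ℤ → ℝ) (j : ℤ) (a b : ℕ) : ℝ :=
  if h : ∃ i, IsNb X i j a b then 1 / (nn h.choose j : ℝ) else 0

open Classical in
/-- The record pairs `(j + m, j)` with `K1 < h < K`. -/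
noncomputable def QQ (X : ℤ → ℝ) (K1 K : ℕ) (j : ℤ) : Finset ℤ :=
  (Finset.Icc (-(K : ℤ)) K).filter fun m => Rec X (j + m) j ∧ K1 < hh X (j + m) j ∧ hh X (j + m) j < K

open Classical in
/-- The record pairs `(j + m, j)` with `K1 < h_sub < K`. -/
noncomputable def RR (X : ℤ → ℝ) (K1 K : ℕ) (j : ℤ) : Finset ℤ :=
  (Finset.Icc (-(K : ℤ)) K).filter fun m => Rec X (j + m) j ∧ K1 < hs X (j + m) j ∧ hs X (j + m) j < K

open Classical in
/-- The record pairs `(j + m, j)` with `h_sub < K ≤ h` (at most one). -/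
noncomputable def CC (X : ℤ → ℝ) (K : ℕ) (j : ℤ) : Finset ℤ :=
  (Finset.Icc (-(K : ℤ)) K).filter fun m => Rec X (j + m) j ∧ hs X (j + m) j < K ∧ K ≤ hh X (j + m) j

end Pool.Agent.PHI
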