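import Pool.Agent.PHI.Defs

/-! Module PHI-Ana.  The inequality for a list of pieces, by induction on the list.

`Ana_conv`: convexity of `l log l`. `Ana_step`: one division (`t1` or `t2` of the certificate), the errors come from replacing the
life `p.1` of the first piece by `p.1 + p.2`. -/

set_option autoImplicit false

namespace Pool.Agent.PHI

private theorem Ana_conv {a b : ℝ} (ha : 0 < a) (hab : a ≤ b) :
    b * Real.log b - a * Real.log a ≤ (b - a) * (1 + Real.log b) := by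
  have hb : 0 < b := ha.trans_le hab
  have h1 := Real.log_le_sub_one_of_pos (div_pos hb ha)
  rw [Real.log_div hb.ne' ha.ne'] at h1
  have h2 : a * (b / a - 1) = b - a := by
    field_simp
  have h3 := mul_le_mul_of_nonneg_left h1 ha.le
  rw [h2] at h3
  nlinarith

private theorem Ana_one {Q eps : ℝ} (he : 0 < eps) {l : ℕ} (hl : 1 ≤ l) :
    (l : ℝ) * (Q / l - phi ^ 2 / eps * Real.log (l / eps)) = Q - phi ^ 2 * ((l : ℝ) / eps * Real.log (l / eps)) := by
  have h1 : (l : ℝ) ≠ 0 := by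
    have : 0 < l := hl
    positivity
  have h2 := he.ne'
  field_simp

private theorem Ana_step {P : Fl → Fl → ℝ → ℝ → ℝ → ℝ} {C eps : ℝ} (hP : Cert P C) (he : 0 < eps) {e f : ℕ} (h1 : 1 ≤ e)
    (h2 : 1 ≤ f) {x y : Fl}
    (ht : ∀ l1 l2 : ℝ, 0 ≤ l1 → 0 ≤ l2 → l1 + l2 ≤ e → l1 + l2 ≤ f →
      P x .a e f l1 + P .a y e f l2 + phi ^ 2 * VV l1 l2 ≤ P x y e f (l1 + l2) + VV e f)
    {p q : ℕ × ℕ} {ps : List (ℕ × ℕ)} (hA : Adm (p :: q :: ps)) (h3 : (len (p :: q :: ps) : ℝ) / eps ≤ e)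
    (h4 : (len (p :: q :: ps) : ℝ) / eps ≤ f)
    (ih : val (fun x y l => P x y e f (l / eps) / l - phi ^ 2 / eps * Real.log (l / eps)) 0 .a y (q :: ps) ≤
      P .a y e f (len (q :: ps) / eps) - phi ^ 2 * ((len (q :: ps) : ℝ) / eps * Real.log (len (q :: ps) / eps)) +
        (((q :: ps).length : ℝ) - 1) * (VV e f + err C eps e f)) :
    val (fun x y l => P x y e f (l / eps) / l - phi ^ 2 / eps * Real.log (l / eps)) 0 x y (p :: q :: ps) ≤
      P x y e f (len (p :: q :: ps) / eps) -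
        phi ^ 2 * ((len (p :: q :: ps) : ℝ) / eps * Real.log (len (p :: q :: ps) / eps)) +
        (((p :: q :: ps).length : ℝ) - 1) * (VV e f + err C eps e f) := by
  obtain ⟨hp1, hp2, -⟩ := hA
  have hval : val (fun x y l => P x y e f (l / eps) / l - phi ^ 2 / eps * Real.log (l / eps)) 0 x y (p :: q :: ps) =
      P x .a e f (p.1 / eps) - phi ^ 2 * ((p.1 : ℝ) / eps * Real.log (p.1 / eps)) +
      val (fun x y l => P x y e f (l / eps) / l - phi ^ 2 / eps * Real.log (l / eps)) 0 .a y (q :: ps) := by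
    have h5 := Ana_one (Q := P x .a e f (p.1 / eps)) he hp1
    rw [← h5]
    show (p.1 : ℝ) * _ + (p.2 : ℝ) * 0 + _ = _
    rw [mul_zero, add_zero]
  rw [hval]
  set a : ℝ := (p.1 : ℝ) / eps with ha
  set b : ℝ := ((p.1 : ℝ) + p.2) / eps with hb
  set l : ℝ := (len (q :: ps) : ℝ) / eps with hl
  have hlen : (len (p :: q :: ps) : ℝ) / eps = b + l := by
    have h5 : len (p :: q :: ps) = p.1 + p.2 + len (q :: ps) := rfl
    rw [h5, hb, hl]
    push_cast
    ring
  rw [hlen] at h3 h4 ⊢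
  have hp1' : (1 : ℝ) ≤ p.1 := by exact_mod_cast hp1
  have hp2' : (p.2 : ℝ) ≤ 1 := by exact_mod_cast hp2
  have hp20 : (0 : ℝ) ≤ p.2 := by positivity
  have ha0 : 0 < a := by positivity
  have hba : b - a = p.2 / eps := by
    rw [ha, hb]
    ring
  have hba0 : 0 ≤ b - a := by
    rw [hba]
    positivity
  have hba1 : b - a ≤ 1 / eps := by
    rw [hba]
    exact div_le_div_of_nonneg_right hp2' he.le
  have hl0 : 0 ≤ l := by positivity
  have hb0 : 0 < b := by linarith
  have h5 := hP.lip x .a e f a b ha0.le (by linarith) (by linarith) (by linarith)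
  have h6 : P x .a e f a ≤ P x .a e f b + C * (1 / eps) := by
    have h7 := (abs_le.1 h5).1
    have h8 : C * (b - a) ≤ C * (1 / eps) := mul_le_mul_of_nonneg_left hba1 hP.C0
    linarith
  have hmin1 : (1 : ℝ) ≤ min (e : ℝ) f := le_min (by exact_mod_cast h1) (by exact_mod_cast h2)
  have hbmin : b ≤ min (e : ℝ) f := le_min (by linarith) (by linarith)
  have hlog : Real.log b ≤ Real.log (min (e : ℝ) f) := Real.log_le_log hb0 hbmin
  have hlog0 : 0 ≤ Real.log (min (e : ℝ) f) := Real.log_nonneg hmin1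
  have h7 : b * Real.log b - a * Real.log a ≤ 1 / eps * (1 + Real.log (min (e : ℝ) f)) := by
    refine (Ana_conv ha0 (by linarith)).trans ?_
    calc (b - a) * (1 + Real.log b) ≤ (b - a) * (1 + Real.log (min (e : ℝ) f)) :=
          mul_le_mul_of_nonneg_left (by linarith) hba0
      _ ≤ 1 / eps * (1 + Real.log (min (e : ℝ) f)) := mul_le_mul_of_nonneg_right hba1 (by linarith)
  have h8 := ht b l hb0.le hl0 h3 h4
  have h9 : phi ^ 2 * (b * Real.log b - a * Real.log a) ≤ phi ^ 2 * (1 / eps * (1 + Real.log (min (e : ℝ) f))) :=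
    mul_le_mul_of_nonneg_left h7 (sq_nonneg _)
  have herr : err C eps e f = C * (1 / eps) + phi ^ 2 * (1 / eps * (1 + Real.log (min (e : ℝ) f))) := by
    unfold err
    ring
  have hlen2 : (((p :: q :: ps).length : ℕ) : ℝ) = ((q :: ps).length : ℝ) + 1 := by
    rw [List.length_cons]
    push_cast
    ring
  unfold VV at h8 ⊢
  unfold VV at ih
  rw [hlen2]
  linarith

private theorem Ana_a {P : Fl → Fl → ℝ → ℝ → ℝ → ℝ} {C eps : ℝ} (hP : Cert P C) (he : 0 < eps) {e f : ℕ} (h1 : 1 ≤ e)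
    (h2 : 1 ≤ f) {y : Fl} (hy : y ≠ .a) : ∀ ps : List (ℕ × ℕ), Adm ps → (len ps : ℝ) / eps ≤ e →
      (len ps : ℝ) / eps ≤ f →
    val (fun x y l => P x y e f (l / eps) / l - phi ^ 2 / eps * Real.log (l / eps)) 0 .a y ps ≤
      P .a y e f (len ps / eps) - phi ^ 2 * ((len ps : ℝ) / eps * Real.log (len ps / eps)) +
        ((ps.length : ℝ) - 1) * (VV e f + err C eps e f)
  | [], hA, _, _ => hA.elim
  | [p], hA, _, _ => by
    obtain ⟨hp1, hp2⟩ := hA
    have h5 := Ana_one (Q := P .a y e f (p.1 / eps)) he hp1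
    have h6 : len [p] = p.1 := by
      show p.1 + p.2 + 0 = p.1
      omega
    rw [h6]
    show (p.1 : ℝ) * _ + (p.2 : ℝ) * 0 ≤ _
    rw [mul_zero, add_zero, List.length_singleton, Nat.cast_one, sub_self, zero_mul, add_zero]
    exact h5.le
  | p :: q :: ps, hA, h3, h4 => by
    have hlt : (len (q :: ps) : ℝ) / eps ≤ (len (p :: q :: ps) : ℝ) / eps := by
      refine div_le_div_of_nonneg_right ?_ he.le
      have : len (q :: ps) ≤ len (p :: q :: ps) := by
        show len (q :: ps) ≤ p.1 + p.2 + len (q :: ps)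
        omega
      exact_mod_cast this
    exact Ana_step hP he h1 h2 (fun l1 l2 a1 a2 a3 a4 => hP.t2 e f l1 l2 a1 a2 a3 a4 y hy) hA h3 h4
      (Ana_a hP he h1 h2 hy (q :: ps) hA.2.2 (hlt.trans h3) (hlt.trans h4))

theorem ana {P : Fl → Fl → ℝ → ℝ → ℝ → ℝ} {C eps : ℝ} (hP : Cert P C) (he : 0 < eps) {e f : ℕ} (h1 : 1 ≤ e) (h2 : 1 ≤ f)
    {x y : Fl} (hx : x ≠ .a) (hy : y ≠ .a) {ps : List (ℕ × ℕ)} (hA : Adm ps) (h3 : (len ps : ℝ) / eps ≤ e)
    (h4 : (len ps : ℝ) / eps ≤ f) :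
    val (fun x y l => P x y e f (l / eps) / l - phi ^ 2 / eps * Real.log (l / eps)) 0 x y ps ≤
      P x y e f (len ps / eps) - phi ^ 2 * ((len ps : ℝ) / eps * Real.log (len ps / eps)) +
        ((ps.length : ℝ) - 1) * (VV e f + err C eps e f) := by
  match ps, hA, h3, h4 with
  | [], hA, _, _ => exact hA.elim
  | [p], hA, _, _ =>
    obtain ⟨hp1, hp2⟩ := hA
    have h5 := Ana_one (Q := P x y e f (p.1 / eps)) he hp1
    have h6 : len [p] = p.1 := by
      show p.1 + p.2 + 0 = p.1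
      omega
    rw [h6]
    show (p.1 : ℝ) * _ + (p.2 : ℝ) * 0 ≤ _
    rw [mul_zero, add_zero, List.length_singleton, Nat.cast_one, sub_self, zero_mul, add_zero]
    exact h5.le
  | p :: q :: ps, hA, h3, h4 =>
    have hlt : (len (q :: ps) : ℝ) / eps ≤ (len (p :: q :: ps) : ℝ) / eps := by
      refine div_le_div_of_nonneg_right ?_ he.le
      have : len (q :: ps) ≤ len (p :: q :: ps) := by
        show len (q :: ps) ≤ p.1 + p.2 + len (q :: ps)
        omega
      exact_mod_cast this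
    exact Ana_step hP he h1 h2 (fun l1 l2 a1 a2 a3 a4 => hP.t1 e f l1 l2 a1 a2 a3 a4 x y hx hy) hA h3 h4
      (Ana_a hP he h1 h2 hy (q :: ps) hA.2.2 (hlt.trans h3) (hlt.trans h4))

end Pool.Agent.PHI
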