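import Pool.Agent.PHI.Bas

/-! Module PHI-Nxb.  The next closer pair `(y1 X i j, j)` of a record pair `(i, j)` is a record pair, its sub-box is the box of `(i, j)`,
and the boxes of the record pairs of one base are nested. -/

set_option autoImplicit false

namespace Pool.Agent.PHI

variable {X : ℤ → ℝ} {u v : ℤ → ℕ} {D : ℕ} {eps F : ℝ} {n0 K1 : ℕ}

private lemma Nxb_ee_le {X : ℤ → ℝ} {i j : ℤ} {k : ℕ} (hk : 0 < k) (hb : Btw X i j (j - k)) : ee X i j ≤ k :=
  Nat.sInf_le ⟨hk, hb⟩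

private lemma Nxb_ff_le {X : ℤ → ℝ} {i j : ℤ} {k : ℕ} (hk : 0 < k) (hb : Btw X i j (j + k)) : ff X i j ≤ k :=
  Nat.sInf_le ⟨hk, hb⟩

private lemma Nxb_main (h : Sys X u v D eps F n0 K1) {i j : ℤ} (hr : Rec X i j) :
    Rec X (y1 X i j) j ∧ sa X (y1 X i j) j = ee X i j ∧ sb X (y1 X i j) j = ff X i j := by
  obtain ⟨e1, e2, e3⟩ := ee_spec h hr.1
  obtain ⟨f1, f2, f3⟩ := ff_spec h hr.1
  have hy := y1_btw h hr.1
  obtain ⟨a1, a2, a3⟩ := ee_spec h hy.2
  obtain ⟨b1, b2, b3⟩ := ff_spec h hy.2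
  have hsub : ∀ k, Btw X (y1 X i j) j k → Btw X i j k := fun k hk => ⟨lt_trans hy.1 hk.1, hk.2⟩
  by_cases hc : X (j - ee X i j) < X (j + ff X i j)
  · have hyy : y1 X i j = j - ee X i j := by
      unfold y1
      rw [if_pos hc]
    have hff : ff X (y1 X i j) j = ff X i j := by
      refine ff_eq f1 ⟨?_, f2.2⟩ fun l l1 l2 hb => f3 l l1 l2 (hsub _ hb)
      rw [hyy]
      exact hc
    have hee : ee X i j < ee X (y1 X i j) j := by
      have h1 : ee X i j ≤ ee X (y1 X i j) j := Nxb_ee_le a1 (hsub _ a2)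
      refine lt_of_le_of_ne h1 fun h2 => ?_
      have h3 := a2.1
      rw [← h2, ← hyy] at h3
      exact lt_irrefl _ h3
    have hlt : y1 X i j < j := by
      rw [hyy]
      omega
    refine ⟨⟨hy.2, ?_, ?_⟩, ?_, ?_⟩
    · omega
    · omega
    · unfold sa nn
      rw [if_pos hlt, hyy]
      omega
    · unfold sb
      rw [if_pos hlt, hff]
  · have hyy : y1 X i j = j + ff X i j := by
      unfold y1
      rw [if_neg hc]
    have hc2 : X (j + ff X i j) < X (j - ee X i j) := by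
      refine lt_of_le_of_ne (not_lt.1 hc) fun he => ?_
      have h1 := h.inj he
      omega
    have hee : ee X (y1 X i j) j = ee X i j := by
      refine ee_eq e1 ⟨?_, e2.2⟩ fun l l1 l2 hb => e3 l l1 l2 (hsub _ hb)
      rw [hyy]
      exact hc2
    have hff : ff X i j < ff X (y1 X i j) j := by
      have h1 : ff X i j ≤ ff X (y1 X i j) j := Nxb_ff_le b1 (hsub _ b2)
      refine lt_of_le_of_ne h1 fun h2 => ?_
      have h3 := b2.1
      rw [← h2, ← hyy] at h3
      exact lt_irrefl _ h3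
    have hlt : ¬ y1 X i j < j := by
      rw [hyy]
      omega
    refine ⟨⟨hy.2, ?_, ?_⟩, ?_, ?_⟩
    · omega
    · omega
    · unfold sa
      rw [if_neg hlt, hee]
    · unfold sb nn
      rw [if_neg hlt, hyy]
      omega

theorem nc_rec (h : Sys X u v D eps F n0 K1) {i j : ℤ} (hr : Rec X i j) : Rec X (y1 X i j) j :=
  (Nxb_main h hr).1

theorem nc_sa (h : Sys X u v D eps F n0 K1) {i j : ℤ} (hr : Rec X i j) : sa X (y1 X i j) j = ee X i j :=
  (Nxb_main h hr).2.1

theorem nc_sb (h : Sys X u v D eps F n0 K1) {i j : ℤ} (hr : Rec X i j) : sb X (y1 X i j) j = ff X i j :=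
  (Nxb_main h hr).2.2

theorem nc_hs (h : Sys X u v D eps F n0 K1) {i j : ℤ} (hr : Rec X i j) : hs X (y1 X i j) j = hh X i j := by
  unfold hs hh
  rw [nc_sa h hr, nc_sb h hr]

theorem nc_Nf (h : Sys X u v D eps F n0 K1) {i j : ℤ} (hr : Rec X i j) : Nf X (y1 X i j) j i := by
  unfold Nf
  rw [nc_sa h hr, nc_sb h hr]
  exact ⟨hr.1, hr.2.1, hr.2.2, fun k h1 h2 => not_btw k h1 h2⟩

/-- the boxes are nested: a farther record pair has its box in the sub-box of a closer one -/
theorem nest (h : Sys X u v D eps F n0 K1) {i y j : ℤ} (hi : Rec X i j) (hy : Rec X y j) (hiy : X i < X y) :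
    ee X i j ≤ sa X y j ∧ ff X i j ≤ sb X y j ∧ hh X i j ≤ hs X y j := by
  have hb : Btw X i j y := ⟨hiy, hy.1⟩
  obtain ⟨a1, a2, -⟩ := ee_spec h hy.1
  obtain ⟨b1, b2, -⟩ := ff_spec h hy.1
  have hsub : ∀ k, Btw X y j k → Btw X i j k := fun k hk => ⟨lt_trans hiy hk.1, hk.2⟩
  have key : ee X i j ≤ sa X y j ∧ ff X i j ≤ sb X y j := by
    rcases lt_or_gt_of_ne hy.ne with hlt | hlt
    · unfold sa sb
      rw [if_pos hlt, if_pos hlt]
      refine ⟨Nxb_ee_le hy.nn_pos ?_, Nxb_ff_le b1 (hsub _ b2)⟩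
      have h1 : j - (nn y j : ℤ) = y := by
        unfold nn
        omega
      rw [h1]
      exact hb
    · have hlt2 : ¬ y < j := by omega
      unfold sa sb
      rw [if_neg hlt2, if_neg hlt2]
      refine ⟨Nxb_ee_le a1 (hsub _ a2), Nxb_ff_le hy.nn_pos ?_⟩
      have h1 : j + (nn y j : ℤ) = y := by
        unfold nn
        omega
      rw [h1]
      exact hb
  refine ⟨key.1, key.2, ?_⟩
  unfold hh hs
  omega

/-- at most one record pair crosses a level -/
theorem cross_unique (h : Sys X u v D eps F n0 K1) {i y j : ℤ} {T : ℕ} (hi : Rec X i j) (hy : Rec X y j)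
    (h1 : hs X i j < T) (h2 : T ≤ hh X i j) (h3 : hs X y j < T) (h4 : T ≤ hh X y j) : i = y := by
  rcases lt_trichotomy (X i) (X y) with hlt | heq | hlt
  · have := (nest h hi hy hlt).2.2
    omega
  · exact h.inj heq
  · have := (nest h hy hi hlt).2.2
    omega

end Pool.Agent.PHI
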