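import Pool.Agent.PHI.Bds
import Pool.Agent.PHI.Nxb

/-! Module PHI-Tel.  Telescoping at one base: the sets `RR` and `QQ` of record pairs differ by at most one pair crossing the level `K`
(this is `CC` up to a pair crossing both levels) and at most one pair crossing the level `K1 + 1` (`cross_unique`). -/

set_option autoImplicit false

namespace Pool.Agent.PHI

variable {X : ℤ → ℝ} {u v : ℤ → ℕ} {D : ℕ} {eps F : ℝ} {n0 K1 : ℕ}

private theorem Tel_card (h : Sys X u v D eps F n0 K1) {s : Finset ℤ} {j : ℤ} {T : ℕ}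
    (hT : ∀ m ∈ s, Rec X (j + m) j ∧ hs X (j + m) j < T ∧ T ≤ hh X (j + m) j) : s.card ≤ 1 := by
  rw [Finset.card_le_one]
  intro a ha b hb
  obtain ⟨a1, a2, a3⟩ := hT a ha
  obtain ⟨b1, b2, b3⟩ := hT b hb
  have h1 := cross_unique h a1 b1 a2 a3 b2 b3
  omega

private theorem Tel_sum {s : Finset ℤ} {g : ℤ → ℝ} {B : ℝ} (hB : 0 ≤ B) (hc : s.card ≤ 1) (hg : ∀ m ∈ s, g m ≤ B) :
    ∑ m ∈ s, g m ≤ B := by
  have h1 := Finset.sum_le_card_nsmul s g B hg
  rw [nsmul_eq_mul] at h1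
  have h2 : (s.card : ℝ) ≤ 1 := by exact_mod_cast hc
  nlinarith

private theorem Tel_sdiff (s t : Finset ℤ) (g : ℤ → ℝ) :
    ∑ m ∈ s, g m - ∑ m ∈ t, g m = ∑ m ∈ s \ t, g m - ∑ m ∈ t \ s, g m := by
  exact (Finset.sum_sdiff_sub_sum_sdiff (f := g) (s₁ := t) (s₂ := s)).symm

private theorem Tel_RQ {K : ℕ} {j m : ℤ} (hm : m ∈ RR X K1 K j \ QQ X K1 K j) :
    Rec X (j + m) j ∧ K1 < hs X (j + m) j ∧ hs X (j + m) j < K ∧ K ≤ hh X (j + m) j ∧ m ∈ CC X K j := by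
  classical
  obtain ⟨h1, h2⟩ := Finset.mem_sdiff.1 hm
  obtain ⟨h3, h4, h5, h6⟩ := Finset.mem_filter.1 h1
  have h7 := h4.sab
  have h8 : K ≤ hh X (j + m) j := by
    by_contra h9
    exact h2 (Finset.mem_filter.2 ⟨h3, h4, by omega, by omega⟩)
  exact ⟨h4, h5, h6, h8, Finset.mem_filter.2 ⟨h3, h4, h6, h8⟩⟩

private theorem Tel_QR {K : ℕ} {j m : ℤ} (hm : m ∈ QQ X K1 K j \ RR X K1 K j) :
    Rec X (j + m) j ∧ hs X (j + m) j < K1 + 1 ∧ K1 + 1 ≤ hh X (j + m) j := by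
  classical
  obtain ⟨h1, h2⟩ := Finset.mem_sdiff.1 hm
  obtain ⟨h3, h4, h5, h6⟩ := Finset.mem_filter.1 h1
  have h7 := h4.sab
  refine ⟨h4, ?_, by omega⟩
  by_contra h9
  exact h2 (Finset.mem_filter.2 ⟨h3, h4, by omega, by omega⟩)

private theorem Tel_CR {K : ℕ} {j m : ℤ} (hm : m ∈ CC X K j \ (RR X K1 K j \ QQ X K1 K j)) :
    m ∈ CC X K j ∧ Rec X (j + m) j ∧ hs X (j + m) j < K1 + 1 ∧ K ≤ hh X (j + m) j := by
  classical
  obtain ⟨h1, h2⟩ := Finset.mem_sdiff.1 hm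
  obtain ⟨h3, h4, h5, h6⟩ := Finset.mem_filter.1 h1
  refine ⟨h1, h4, ?_, h6⟩
  by_contra h9
  refine h2 (Finset.mem_sdiff.2 ⟨Finset.mem_filter.2 ⟨h3, h4, by omega, h5⟩, fun h10 => ?_⟩)
  have h11 := (Finset.mem_filter.1 h10).2.2.2
  omega

private theorem Tel_log (h : Sys X u v D eps F n0 K1) (he : 0 < eps) {i j : ℤ} (hr : Rec X i j) (h1 : hs X i j < K1 + 1)
    (h2 : K1 + 1 ≤ hh X i j) : Real.log (life u v i j / eps) ≤ Real.log (K1 + 1) := by
  have h3 := (life_rec h hr (by omega)).1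
  have h4 := hr.sab.2.2.2.2
  have h5 : (life u v i j : ℝ) / eps ≤ nn i j := by
    rw [div_le_iff₀ he]
    linarith
  have h6 : (nn i j : ℝ) ≤ K1 + 1 := by
    have h7 : nn i j ≤ K1 + 1 := by omega
    exact_mod_cast h7
  have h8 : 0 < (life u v i j : ℝ) := by
    unfold life
    push_cast
    positivity
  exact Real.log_le_log (div_pos h8 he) (h5.trans h6)

theorem CC_card (h : Sys X u v D eps F n0 K1) (K : ℕ) (j : ℤ) : (CC X K j).card ≤ 1 := by
  classical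
  refine Tel_card h (j := j) (T := K) fun m hm => ?_
  exact (Finset.mem_filter.1 hm).2

theorem tel (h : Sys X u v D eps F n0 K1) (he : 0 < eps) {K : ℕ} (hK : K1 < K) (j : ℤ) :
    ∑ m ∈ CC X K j, Real.log (life u v (j + m) j / eps) - 2 * Real.log (K1 + 1) ≤
      ∑ m ∈ RR X K1 K j, Real.log (life u v (j + m) j / eps) - ∑ m ∈ QQ X K1 K j, Real.log (life u v (j + m) j / eps) := by
  classical
  have hB : (0 : ℝ) ≤ Real.log (K1 + 1) := by
    apply Real.log_nonneg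
    have h1 : (0 : ℝ) ≤ K1 := Nat.cast_nonneg K1
    linarith
  rw [Tel_sdiff]
  have hsub : RR X K1 K j \ QQ X K1 K j ⊆ CC X K j := fun m hm => (Tel_RQ hm).2.2.2.2
  have h1 := Finset.sum_sdiff (f := fun m => Real.log (life u v (j + m) j / eps)) hsub
  have h2 : ∑ m ∈ CC X K j \ (RR X K1 K j \ QQ X K1 K j), Real.log (life u v (j + m) j / eps) ≤ Real.log (K1 + 1) := by
    refine Tel_sum hB ?_ fun m hm => ?_
    · exact (Finset.card_le_card Finset.sdiff_subset).trans (CC_card h K j)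
    · obtain ⟨-, h3, h4, h5⟩ := Tel_CR hm
      exact Tel_log h he h3 h4 (by omega)
  have h3 : ∑ m ∈ QQ X K1 K j \ RR X K1 K j, Real.log (life u v (j + m) j / eps) ≤ Real.log (K1 + 1) := by
    refine Tel_sum hB (Tel_card h (j := j) (T := K1 + 1) fun m hm => Tel_QR hm) fun m hm => ?_
    obtain ⟨h4, h5, h6⟩ := Tel_QR hm
    exact Tel_log h he h4 h5 h6
  linarith

theorem bnd (h : Sys X u v D eps F n0 K1) {P : Fl → Fl → ℝ → ℝ → ℝ → ℝ} {C : ℝ} (hP : Cert P C) (he : 0 < eps)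
    {K : ℕ} (hK : K1 < K) (j : ℤ) :
    ∑ m ∈ RR X K1 K j, bj P eps X u v (j + m) j / life u v (j + m) j ≤
      ∑ m ∈ QQ X K1 K j, bj P eps X u v (j + m) j / life u v (j + m) j + 2 * C / eps := by
  classical
  have hB : 0 ≤ C / eps := div_nonneg hP.C0 he.le
  have h0 := Tel_sdiff (RR X K1 K j) (QQ X K1 K j) fun m => bj P eps X u v (j + m) j / life u v (j + m) j
  have h1 : ∑ m ∈ RR X K1 K j \ QQ X K1 K j, bj P eps X u v (j + m) j / life u v (j + m) j ≤ C / eps := by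
    refine Tel_sum hB (Tel_card h (j := j) (T := K) fun m hm => ?_) fun m hm => ?_
    · obtain ⟨h2, -, h3, h4, -⟩ := Tel_RQ hm
      exact ⟨h2, h3, h4⟩
    · obtain ⟨h2, -, h3, h4, -⟩ := Tel_RQ hm
      exact (le_abs_self _).trans (bj_bd h hP he h2 (by omega))
  have h2 : ∑ m ∈ QQ X K1 K j \ RR X K1 K j, -(bj P eps X u v (j + m) j / life u v (j + m) j) ≤ C / eps := by
    refine Tel_sum hB (Tel_card h (j := j) (T := K1 + 1) fun m hm => Tel_QR hm) fun m hm => ?_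
    obtain ⟨h3, -, h4⟩ := Tel_QR hm
    exact (neg_le_abs _).trans (bj_bd h hP he h3 (by omega))
  rw [Finset.sum_neg_distrib] at h2
  have h3 : 2 * C / eps = C / eps + C / eps := by ring
  rw [h3]
  linarith

end Pool.Agent.PHI
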