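import Pool.Agent.PHI.Wlb
import Pool.Agent.PHI.Tel

/-! Module PHI-Crb.  Crossing pairs, second estimate: the labels of the left neighbours in the windows of length `K / 2` dominate a
logarithm of the smaller side of the box of a crossing pair. -/

set_option autoImplicit false

namespace Pool.Agent.PHI

variable {X : ℤ → ℝ} {u v : ℤ → ℕ} {D : ℕ} {eps F : ℝ} {n0 K1 : ℕ}

private theorem Crb_nb {X : ℤ → ℝ} {j z : ℤ} {a b : ℕ} (hz : X z < X j) (h1 : j - a ≤ z) (h2 : z ≤ j + b) :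
    ∃ i, IsNb X i j a b := by
  classical
  let S : Finset ℤ := (Finset.Icc (j - a) (j + b)).filter fun k => X k < X j
  have hzS : z ∈ S := Finset.mem_filter.2 ⟨Finset.mem_Icc.2 ⟨h1, h2⟩, hz⟩
  obtain ⟨i, hi, hmax⟩ := Finset.exists_max_image S X ⟨z, hzS⟩
  obtain ⟨hi1, hi2⟩ := Finset.mem_filter.1 hi
  obtain ⟨hi3, hi4⟩ := Finset.mem_Icc.1 hi1
  refine ⟨i, hi2, hi3, hi4, fun k hk1 hk2 hk => ?_⟩
  have hk3 := hmax k (Finset.mem_filter.2 ⟨Finset.mem_Icc.2 ⟨hk1, hk2⟩, hk.2⟩)
  exact absurd hk.1 (not_lt.2 hk3)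

private theorem Crb_lab {X : ℤ → ℝ} {j z : ℤ} {a b c : ℕ} (hz : X z < X j) (h1 : j - a ≤ z) (h2 : z ≤ j + b)
    (hc : ∀ k : ℤ, j - a ≤ k → k ≤ j + b → X z ≤ X k → X k < X j → nn k j ≤ c) :
    1 / (c : ℝ) ≤ lab X j a b := by
  have hex := Crb_nb hz h1 h2
  unfold lab
  rw [dif_pos hex]
  obtain ⟨hs1, hs2, hs3, hs4⟩ := hex.choose_spec
  have hle : X z ≤ X hex.choose := by
    by_contra hlt
    exact hs4 z h1 h2 ⟨not_le.1 hlt, hz⟩
  have hn := hc hex.choose hs2 hs3 hle hs1
  have hpos : 0 < nn hex.choose j := by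
    unfold nn
    rw [Int.natAbs_pos]
    intro h0
    have h5 : hex.choose = j := by omega
    rw [h5] at hs1
    exact lt_irrefl _ hs1
  have h6 : (0 : ℝ) < (nn hex.choose j : ℝ) := by exact_mod_cast hpos
  have h7 : ((nn hex.choose j : ℕ) : ℝ) ≤ (c : ℝ) := by exact_mod_cast hn
  exact one_div_le_one_div_of_le h6 h7

private theorem Crb_harm (m n : ℕ) (hm : 0 < m) (hmn : m ≤ n + 1) :
    Real.log (((n : ℝ) + 1) / m) ≤ ∑ b ∈ Finset.Ico m (n + 1), 1 / (b : ℝ) := by
  have hm0 : (0 : ℝ) < m := by exact_mod_cast hm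
  have key : ∀ n : ℕ, m ≤ n → Real.log ((n : ℝ) / m) ≤ ∑ b ∈ Finset.Ico m n, 1 / (b : ℝ) := by
    intro n hn
    induction n, hn using Nat.le_induction with
    | base =>
      rw [div_self hm0.ne']
      simp
    | succ n hn ih =>
      have hn0 : (0 : ℝ) < n := by exact_mod_cast (lt_of_lt_of_le hm hn)
      rw [Finset.sum_Ico_succ_top hn]
      have h1 : ((n + 1 : ℕ) : ℝ) / m = ((n : ℝ) / m) * (1 + 1 / n) := by
        push_cast
        field_simp
      rw [h1, Real.log_mul (by positivity) (by positivity)]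
      have h2 : Real.log (1 + 1 / (n : ℝ)) ≤ 1 / (n : ℝ) := by
        have h3 := Real.log_le_sub_one_of_pos (show (0 : ℝ) < 1 + 1 / (n : ℝ) by positivity)
        linarith
      linarith
  have h1 := key (n + 1) hmn
  push_cast at h1
  exact h1

private theorem Crb_log {K m : ℕ} (hm : 0 < m) (hmK : m ≤ K / 4) (hK : 4 ≤ K) :
    Real.log (K / (4 * (m : ℝ))) ≤ ∑ b ∈ Finset.Ico m (K / 4 + 1), 1 / (b : ℝ) := by
  refine le_trans ?_ (Crb_harm m (K / 4) hm (by omega))
  have hm0 : (0 : ℝ) < m := by exact_mod_cast hm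
  have hK0 : (0 : ℝ) < K := by
    have : 0 < K := by omega
    exact_mod_cast this
  apply Real.log_le_log (by positivity)
  rw [div_le_div_iff₀ (by positivity) hm0]
  have h1 : (K : ℝ) ≤ 4 * (((K / 4 : ℕ) : ℝ) + 1) := by
    have : K ≤ 4 * (K / 4 + 1) := by omega
    exact_mod_cast this
  nlinarith

theorem cr2_pt (h : Sys X u v D eps F n0 K1) {K : ℕ} (hK : 4 ≤ K) {i j : ℤ} (hr : Rec X i j) (hh' : K ≤ hh X i j) :
    max 0 (Real.log (K / (4 * ((min (ee X i j) (ff X i j) : ℕ) : ℝ)))) ≤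
      ∑ a ∈ Finset.range (K / 2 + 1), lab X j a (K / 2 + 1 - 1 - a) := by
  have hij : X i < X j := hr.1
  obtain ⟨he0, he1, he2⟩ := ee_spec h hij
  obtain ⟨hf0, hf1, hf2⟩ := ff_spec h hij
  have hsum : K ≤ ee X i j + ff X i j := hh'
  have hnn : ∀ a ∈ Finset.range (K / 2 + 1), 0 ≤ lab X j a (K / 2 + 1 - 1 - a) := fun a _ => (lab_nonneg X j a _).1
  refine max_le (Finset.sum_nonneg hnn) ?_
  generalize hee : ee X i j = e at *
  generalize hff : ff X i j = f at *
  by_cases hm : min e f ≤ K / 4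
  · have hm0 : 0 < min e f := lt_min he0 hf0
    refine le_trans (Crb_log hm0 hm hK) ?_
    rcases le_total f e with hfe | hef
    · rw [min_eq_right hfe] at hm ⊢
      have heM : K / 2 ≤ e := by omega
      have hrefl := Finset.sum_range_reflect (fun a => lab X j a (K / 2 + 1 - 1 - a)) (K / 2 + 1)
      rw [← hrefl]
      refine le_trans (Finset.sum_le_sum (g := fun b => lab X j (K / 2 + 1 - 1 - b) (K / 2 + 1 - 1 - (K / 2 + 1 - 1 - b))) ?_) ?_
      · intro b hb
        obtain ⟨hb1, hb2⟩ := Finset.mem_Ico.1 hb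
        have hbM : b ≤ K / 2 := by omega
        have hidx : K / 2 + 1 - 1 - (K / 2 + 1 - 1 - b) = b := by omega
        show 1 / (b : ℝ) ≤ lab X j (K / 2 + 1 - 1 - b) (K / 2 + 1 - 1 - (K / 2 + 1 - 1 - b))
        rw [hidx]
        refine Crb_lab (z := j + f) hf1.2 (by omega) (by omega) ?_
        intro k hk1 hk2 hk3 hk4
        have hbt : Btw X i j k := ⟨lt_of_lt_of_le hf1.1 hk3, hk4⟩
        have hkj : j < k := by
          by_contra hle
          rcases lt_or_eq_of_le (not_lt.1 hle) with hlt | heq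
          · have hl : k = j - ((j - k).toNat : ℕ) := by omega
            refine he2 (j - k).toNat (by omega) (by omega) ?_
            rw [← hl]
            exact hbt
          · rw [heq] at hk4
            exact lt_irrefl _ hk4
        unfold nn
        omega
      · refine Finset.sum_le_sum_of_subset_of_nonneg ?_ ?_
        · intro b hb
          obtain ⟨hb1, hb2⟩ := Finset.mem_Ico.1 hb
          exact Finset.mem_range.2 (by omega)
        · intro b _ _
          exact (lab_nonneg X j _ _).1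
    · rw [min_eq_left hef] at hm ⊢
      have hfM : K / 2 ≤ f := by omega
      refine le_trans (Finset.sum_le_sum (g := fun a => lab X j a (K / 2 + 1 - 1 - a)) ?_) ?_
      · intro a ha
        obtain ⟨ha1, ha2⟩ := Finset.mem_Ico.1 ha
        refine Crb_lab (z := j - e) he1.2 (by omega) (by omega) ?_
        intro k hk1 hk2 hk3 hk4
        have hbt : Btw X i j k := ⟨lt_of_lt_of_le he1.1 hk3, hk4⟩
        have hkj : k < j := by
          by_contra hle
          rcases lt_or_eq_of_le (not_lt.1 hle) with hlt | heq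
          · have hl : k = j + ((k - j).toNat : ℕ) := by omega
            refine hf2 (k - j).toNat (by omega) (by omega) ?_
            rw [← hl]
            exact hbt
          · rw [← heq] at hk4
            exact lt_irrefl _ hk4
        unfold nn
        omega
      · refine Finset.sum_le_sum_of_subset_of_nonneg ?_ ?_
        · intro b hb
          obtain ⟨hb1, hb2⟩ := Finset.mem_Ico.1 hb
          exact Finset.mem_range.2 (by omega)
        · intro b _ _
          exact (lab_nonneg X j _ _).1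
  · refine le_trans ?_ (Finset.sum_nonneg hnn)
    apply Real.log_nonpos (by positivity)
    have hm1 : K < 4 * min e f := by omega
    have hm2 : (K : ℝ) ≤ 4 * ((min e f : ℕ) : ℝ) := by exact_mod_cast hm1.le
    have hm3 : (0 : ℝ) < 4 * ((min e f : ℕ) : ℝ) := by
      have : 0 < 4 * min e f := by omega
      exact_mod_cast this
    exact (div_le_one hm3).2 hm2

theorem cr2 {E : (ℤ → ℝ) → ℝ} (hE : Mean E) (h : Sys X u v D eps F n0 K1) {K : ℕ} (hK : 4 ≤ K) :
    E (fun j => ∑ m ∈ CC X K j,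
      max 0 (Real.log (K / (4 * ((min (ee X (j + m) j) (ff X (j + m) j) : ℕ) : ℝ))))) ≤ F * D := by
  have hS0 : ∀ j, 0 ≤ ∑ a ∈ Finset.range (K / 2 + 1), lab X j a (K / 2 + 1 - 1 - a) := fun j =>
    Finset.sum_nonneg fun a _ => (lab_nonneg X j a _).1
  have hS1 : ∀ j, ∑ a ∈ Finset.range (K / 2 + 1), lab X j a (K / 2 + 1 - 1 - a) ≤ ((K / 2 + 1 : ℕ) : ℝ) := by
    intro j
    refine le_trans (Finset.sum_le_sum (g := fun _ => (1 : ℝ)) fun a _ => (lab_nonneg X j a _).2) ?_
    rw [Finset.sum_const, Finset.card_range, nsmul_eq_mul, mul_one]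
  have hpt : ∀ j, ∑ m ∈ CC X K j,
      max 0 (Real.log (K / (4 * ((min (ee X (j + m) j) (ff X (j + m) j) : ℕ) : ℝ)))) ≤
        ∑ a ∈ Finset.range (K / 2 + 1), lab X j a (K / 2 + 1 - 1 - a) := by
    intro j
    have h1 : ∑ m ∈ CC X K j,
        max 0 (Real.log (K / (4 * ((min (ee X (j + m) j) (ff X (j + m) j) : ℕ) : ℝ)))) ≤
          ((CC X K j).card : ℝ) * ∑ a ∈ Finset.range (K / 2 + 1), lab X j a (K / 2 + 1 - 1 - a) := by
      rw [← nsmul_eq_mul]
      refine Finset.sum_le_card_nsmul _ _ _ fun m hm => ?_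
      unfold CC at hm
      simp only [Finset.mem_filter] at hm
      exact cr2_pt h hK hm.2.1 hm.2.2.2
    refine le_trans h1 ?_
    have h2 : ((CC X K j).card : ℝ) ≤ 1 := by exact_mod_cast CC_card h K j
    calc ((CC X K j).card : ℝ) * ∑ a ∈ Finset.range (K / 2 + 1), lab X j a (K / 2 + 1 - 1 - a)
        ≤ 1 * ∑ a ∈ Finset.range (K / 2 + 1), lab X j a (K / 2 + 1 - 1 - a) :=
          mul_le_mul_of_nonneg_right h2 (hS0 j)
      _ = _ := one_mul _
  have hf0 : ∀ j, 0 ≤ ∑ m ∈ CC X K j,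
      max 0 (Real.log (K / (4 * ((min (ee X (j + m) j) (ff X (j + m) j) : ℕ) : ℝ)))) := fun j =>
    Finset.sum_nonneg fun m _ => le_max_left _ _
  refine le_trans (hE.mono _ _ ⟨((K / 2 + 1 : ℕ) : ℝ), fun j => ?_⟩ ⟨((K / 2 + 1 : ℕ) : ℝ), fun j => ?_⟩ hpt) (wlb hE h (K / 2 + 1))
  · rw [abs_of_nonneg (hf0 j)]
    exact le_trans (hpt j) (hS1 j)
  · rw [abs_of_nonneg (hS0 j)]
    exact hS1 j

end Pool.Agent.PHI
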