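import Pool.Agent.PHI.Bas

/-! Module PHI-Cdf.  Windows in a box: if the record pair is cut, the base is the leftmost point with its label in every time
window inside the box, and the windows of length `M` inside the box are counted. -/

set_option autoImplicit false

namespace Pool.Agent.PHI

variable {X : ℤ → ℝ} {u v : ℤ → ℕ} {D : ℕ} {eps F : ℝ} {n0 K1 : ℕ}

theorem dif_one (h : Sys X u v D eps F n0 K1) {i j : ℤ} (hij : X i < X j) (hu : u i ≠ u j) {a b : ℕ} (ha : a < ee X i j)
    (hb : b < ff X i j) : dif X u j a b = 1 := by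
  have h1 : u i < u j := lt_of_le_of_ne (h.umono i j hij.le) hu
  unfold dif
  rw [if_pos]
  refine ⟨by omega, fun k hk1 hk2 hk3 => ?_⟩
  have h2 := not_btw (X := X) (i := i) (j := j) k (by omega) (by omega)
  have h3 : X k ≤ X i := by
    by_contra hc
    exact h2 ⟨not_le.1 hc, hk3⟩
  have h4 := h.umono k i h3
  omega

theorem dif_nonneg (X : ℤ → ℝ) (u : ℤ → ℕ) (j : ℤ) (a b : ℕ) : 0 ≤ dif X u j a b ∧ dif X u j a b ≤ 1 := by
  unfold dif
  split_ifs
  · exact ⟨zero_le_one, le_rfl⟩
  · exact ⟨le_rfl, zero_le_one⟩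

theorem cnt_dif (h : Sys X u v D eps F n0 K1) {i j : ℤ} (hij : X i < X j) (hu : u i ≠ u j) {M : ℕ} (hM : 2 * M ≤ hh X i j) :
    ((min (min (ee X i j) (ff X i j)) M : ℕ) : ℝ) ≤ ∑ a ∈ Finset.range M, dif X u j a (M - 1 - a) := by
  have hf := (ff_spec h hij).1
  unfold hh at hM
  have h1 : ∑ a ∈ Finset.Ico (M - ff X i j) (min (ee X i j) M), dif X u j a (M - 1 - a) ≤
      ∑ a ∈ Finset.range M, dif X u j a (M - 1 - a) := by
    refine Finset.sum_le_sum_of_subset_of_nonneg ?_ fun a _ _ => (dif_nonneg X u j a _).1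
    intro a ha
    rw [Finset.mem_Ico] at ha
    rw [Finset.mem_range]
    exact lt_of_lt_of_le ha.2 (min_le_right _ _)
  have h2 : ∑ a ∈ Finset.Ico (M - ff X i j) (min (ee X i j) M), dif X u j a (M - 1 - a) =
      ((min (ee X i j) M - (M - ff X i j) : ℕ) : ℝ) := by
    rw [Finset.sum_congr rfl fun a ha => ?_, Finset.sum_const, Nat.card_Ico, nsmul_eq_mul, mul_one]
    rw [Finset.mem_Ico] at ha
    have h3 := ha.2
    rw [lt_min_iff] at h3
    exact dif_one h hij hu h3.1 (by omega)
  rw [h2] at h1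
  refine le_trans ?_ h1
  rw [Nat.cast_le]
  rcases le_total M (ff X i j) with h3 | h3
  · rw [Nat.sub_eq_zero_of_le h3, Nat.sub_zero]
    exact min_le_min (min_le_left _ _) le_rfl
  · have h4 : M ≤ ee X i j := by omega
    rw [min_eq_right h4]
    refine le_trans (min_le_left _ _) (le_trans (min_le_right _ _) ?_)
    omega

end Pool.Agent.PHI
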