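import Pool.Agent.PHI.Mna
import Pool.Agent.PHI.Cdf

/-! Module PHI-Dcw.  Double counting of the cuts over the windows of length `N`: `dc_pt` for a fixed window (the leftmost points of
the labels `1, .., D` of the window), `dc` for the mean. -/

set_option autoImplicit false

namespace Pool.Agent.PHI

variable {X : ℤ → ℝ} {u v : ℤ → ℕ} {D : ℕ} {eps F : ℝ} {n0 K1 : ℕ}

theorem dc_pt (h : Sys X u v D eps F n0 K1) (N : ℕ) (t : ℤ) :
    ∑ a ∈ Finset.range N, dif X u (t + a) a (N - 1 - a) ≤ D := by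
  classical
  unfold dif
  rw [Finset.sum_boole]
  have h1 : ((Finset.range N).filter fun a : ℕ => u (t + a) ≠ 0 ∧ ∀ k : ℤ, t + a - a ≤ k →
      k ≤ t + a + ((N - 1 - a : ℕ) : ℤ) → X k < X (t + a) → u k ≠ u (t + a)).card ≤ (Finset.Icc 1 D).card := by
    refine Finset.card_le_card_of_injOn (fun a : ℕ => u (t + a)) ?_ ?_
    · intro a ha
      have ha1 := (Finset.mem_filter.1 (Finset.mem_coe.1 ha)).2
      exact Finset.mem_coe.2 (Finset.mem_Icc.2 ⟨Nat.one_le_iff_ne_zero.2 ha1.1, h.ule _⟩)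
    · intro a ha b hb hab
      obtain ⟨ha0, ha1⟩ := Finset.mem_filter.1 (Finset.mem_coe.1 ha)
      obtain ⟨hb0, hb1⟩ := Finset.mem_filter.1 (Finset.mem_coe.1 hb)
      have ha2 := Finset.mem_range.1 ha0
      have hb2 := Finset.mem_range.1 hb0
      have hab' : u (t + a) = u (t + b) := hab
      rcases lt_trichotomy (X (t + a)) (X (t + b)) with h2 | h2 | h2
      · exact absurd hab' (hb1.2 (t + a) (by omega) (by omega) h2)
      · have h3 := h.inj h2
        omega
      · exact absurd hab'.symm (ha1.2 (t + b) (by omega) (by omega) h2)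
  rw [Nat.card_Icc, Nat.add_sub_cancel] at h1
  exact_mod_cast h1

theorem dc {E : (ℤ → ℝ) → ℝ} (hE : Mean E) (h : Sys X u v D eps F n0 K1) (N : ℕ) :
    E (fun j => ∑ a ∈ Finset.range N, dif X u j a (N - 1 - a)) ≤ D := by
  have hb : ∀ a : ℕ, Bd (fun j => dif X u j a (N - 1 - a)) := fun a => ⟨1, fun t => by
    obtain ⟨h1, h2⟩ := dif_nonneg X u t a (N - 1 - a)
    rw [abs_of_nonneg h1]
    exact h2⟩
  have hs : ∀ a : ℕ, Bd (fun t => dif X u (t + a) a (N - 1 - a)) := fun a => (hb a).shiftk a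
  have h1 : E (fun j => ∑ a ∈ Finset.range N, dif X u j a (N - 1 - a)) =
      E (fun t => ∑ a ∈ Finset.range N, dif X u (t + a) a (N - 1 - a)) := by
    rw [hE.sum _ fun a _ => hb a, hE.sum _ fun a _ => hs a]
    exact Finset.sum_congr rfl fun a _ => (hE.shiftk (hb a) a).symm
  rw [h1]
  exact hE.le_const (Bd.sum _ fun a _ => hs a) fun t => dc_pt h N t

end Pool.Agent.PHI
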