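import Pool.Agent.PHI.Trb
import Pool.Agent.PHI.Dcw

/-! Module PHI-Crc.  Bases without crossing pair: a record pair with large sub-box and without next farther pair exists (`bad`), the
time before has a cut with a large box (`cr3_pt`), and the mean of such times is small (`cr3`). -/

set_option autoImplicit false

namespace Pool.Agent.PHI

variable {X : ℤ → ℝ} {u v : ℤ → ℕ} {D : ℕ} {eps F : ℝ} {n0 K1 : ℕ}

theorem exists_big (h : Sys X u v D eps F n0 K1) (K : ℕ) (j : ℤ) : ∃ y, Rec X y j ∧ K ≤ hh X y j := by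
  classical
  obtain ⟨s, hs⟩ := h.nomin j
  obtain ⟨N, hN⟩ : ∃ N : ℕ, N = max K (s - j).natAbs := ⟨_, rfl⟩
  have hN1 : K ≤ N := by
    rw [hN]
    exact le_max_left _ _
  have hN2 : (s - j).natAbs ≤ N := by
    rw [hN]
    exact le_max_right _ _
  have hne : ((Finset.Icc (j - (N : ℤ)) (j + (N : ℤ))).filter fun m => X m < X j).Nonempty :=
    ⟨s, Finset.mem_filter.2 ⟨Finset.mem_Icc.2 ⟨by omega, by omega⟩, hs⟩⟩
  obtain ⟨i, hi, hmax⟩ := Finset.exists_max_image _ X hne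
  obtain ⟨hi1, hi2⟩ := Finset.mem_filter.1 hi
  obtain ⟨hi3, hi4⟩ := Finset.mem_Icc.1 hi1
  have hno : ∀ k : ℤ, j - (N : ℤ) ≤ k → k ≤ j + (N : ℤ) → ¬ Btw X i j k := by
    intro k hk1 hk2 hb
    have h4 := hmax k (Finset.mem_filter.2 ⟨Finset.mem_Icc.2 ⟨hk1, hk2⟩, hb.2⟩)
    exact absurd hb.1 (not_lt.2 h4)
  obtain ⟨e1, e2, -⟩ := ee_spec h hi2
  obtain ⟨f1, f2, -⟩ := ff_spec h hi2
  have he : N < ee X i j := by
    by_contra hc
    exact hno _ (by omega) (by omega) e2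
  have hf : N < ff X i j := by
    by_contra hc
    exact hno _ (by omega) (by omega) f2
  refine ⟨i, ⟨hi2, by omega, by omega⟩, ?_⟩
  unfold hh
  omega

private theorem Crc_bad (h : Sys X u v D eps F n0 K1) (K : ℕ) (j : ℤ) (hC : CC X K j = ∅) :
    ∀ n : ℕ, ∀ y, Rec X y j → K ≤ hh X y j → hh X y j ≤ n → ∃ y, Rec X y j ∧ K ≤ hs X y j ∧ ¬ ∃ i, Nf X y j i := by
  classical
  intro n
  induction n with
  | zero =>
    intro y hr _ hn
    have h1 := (ee_spec h hr.1).1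
    unfold hh at hn
    omega
  | succ n ih =>
    intro y hr hK hn
    obtain ⟨-, -, s1, -, s2⟩ := hr.sab
    have hKs : K ≤ hs X y j := by
      by_contra hc
      have h1 : y - j ∈ CC X K j := by
        unfold CC
        rw [Finset.mem_filter, Finset.mem_Icc, add_sub_cancel]
        refine ⟨?_, hr, by omega, hK⟩
        unfold nn at s2
        omega
      rw [hC] at h1
      exact absurd h1 (Finset.notMem_empty _)
    by_cases hex : ∃ i, Nf X y j i
    · obtain ⟨i, hi⟩ := hex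
      have h2 := nf_hh h hr hi
      exact ih i (nf_rec h hr hi) (by omega) (by omega)
    · exact ⟨y, hr, hKs, hex⟩

theorem bad (h : Sys X u v D eps F n0 K1) (K : ℕ) (j : ℤ) (hC : CC X K j = ∅) :
    ∃ y, Rec X y j ∧ K ≤ hs X y j ∧ ¬ ∃ i, Nf X y j i := by
  obtain ⟨y, hr, hK⟩ := exists_big h K j
  exact Crc_bad h K j hC (hh X y j) y hr hK le_rfl

theorem cr3_pt (h : Sys X u v D eps F n0 K1) {K : ℕ} (hK : K1 < K) (hn : 2 * n0 ≤ K) (j : ℤ) (hC : CC X K j = ∅) :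
    (n0 : ℝ) ≤ ∑ a ∈ Finset.range (K / 2), dif X u (j - 1) a (K / 2 - 1 - a) := by
  obtain ⟨y, hr, hKs, hex⟩ := bad h K j hC
  obtain ⟨-, -, s1, -, -⟩ := hr.sab
  obtain ⟨n1, n2, -, -, -⟩ := fine_rec h hr (by omega)
  obtain ⟨-, hr', -, ha, hb, i, hi, hu⟩ := tr_virt_back h hr (by omega) hex
  have he := nf_ee h hr' hi
  have hf := nf_ff h hr' hi
  have hh' := nf_hh h hr' hi
  have hs' : hs X (y - 1) (j - 1) = hs X y j := by
    unfold hs
    rw [ha, hb]
  have hab : n0 ≤ sa X y j ∧ n0 ≤ sb X y j := by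
    unfold sa sb
    unfold ww at n2
    split_ifs at n2 ⊢
    · exact ⟨n1, n2⟩
    · exact ⟨n2, n1⟩
  have h1 := cnt_dif h hi.1 hu (M := K / 2) (by omega)
  refine le_trans ?_ h1
  have h2 : n0 ≤ min (min (ee X i (j - 1)) (ff X i (j - 1))) (K / 2) := by
    refine le_min (le_min ?_ ?_) ?_
    · rw [he, ha]
      exact hab.1
    · rw [hf, hb]
      exact hab.2
    · omega
  exact_mod_cast h2

open Classical in
theorem cr3 {E : (ℤ → ℝ) → ℝ} (hE : Mean E) (h : Sys X u v D eps F n0 K1) {K : ℕ} (hK : K1 < K) (hn : 2 * n0 ≤ K) :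
    (n0 : ℝ) * E (fun j => if CC X K j = ∅ then 1 else 0) ≤ D := by
  have hb : Bd (fun j => ∑ a ∈ Finset.range (K / 2), dif X u j a (K / 2 - 1 - a)) :=
    Bd.sum _ fun a _ => ⟨1, fun t => by
      obtain ⟨h1, h2⟩ := dif_nonneg X u t a (K / 2 - 1 - a)
      rw [abs_of_nonneg h1]
      exact h2⟩
  have hi : Bd (fun j => if CC X K j = ∅ then (1 : ℝ) else 0) := ⟨1, fun t => by
    show |if CC X K t = ∅ then (1 : ℝ) else 0| ≤ 1
    split_ifs <;> simp⟩
  rw [← hE.smul (n0 : ℝ) _ hi]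
  refine le_trans ?_ (dc hE h (K / 2))
  rw [← hE.shiftk hb (-1)]
  refine hE.mono _ _ (Bd.smul _ hi) (hb.shiftk (-1)) fun t => ?_
  by_cases hC : CC X K t = ∅
  · have h1 := cr3_pt h hK hn t hC
    rw [if_pos hC, mul_one]
    exact h1
  · rw [if_neg hC, mul_zero]
    exact Finset.sum_nonneg fun a _ => (dif_nonneg X u _ a _).1

end Pool.Agent.PHI
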