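import Pool.Agent.PHI.Cra
import Pool.Agent.PHI.Crb
import Pool.Agent.PHI.Crc

/-! Module PHI-G3p.  The entropy terms.  For a crossing pair `log life` is at least `log q - q / life`, `q` the smaller of `K / 2` and the smaller
side of the box, and `log q` is at least `log (K / 4)` minus the logarithm estimated in `cr2`; sum over `CC`, take the mean, use `cr1`, `cr2`, `cr3`.
-/

set_option autoImplicit false

namespace Pool.Agent.PHI

variable {X : ℤ → ℝ} {u v : ℤ → ℕ} {D : ℕ} {eps F : ℝ} {n0 K1 : ℕ}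

private theorem G3p_log {K μ : ℕ} (hK4 : 4 ≤ K) (hμ : 1 ≤ μ) {l : ℝ} (hl : 1 ≤ l) :
    Real.log K - Real.log 4 ≤
      Real.log l + (max 0 (Real.log (K / (4 * (μ : ℝ)))) + ((min μ (K / 2) : ℕ) : ℝ) / l) := by
  have hK0 : (0 : ℝ) < K := by
    have : 0 < K := by omega
    exact_mod_cast this
  have hμ0 : (0 : ℝ) < μ := by exact_mod_cast hμ
  have hl0 : 0 < l := by linarith
  have hq1 : 1 ≤ min μ (K / 2) := le_min hμ (by omega)
  have hq0 : (0 : ℝ) < ((min μ (K / 2) : ℕ) : ℝ) := by exact_mod_cast hq1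
  have h1 : Real.log ((min μ (K / 2) : ℕ) : ℝ) ≤ Real.log l + ((min μ (K / 2) : ℕ) : ℝ) / l := by
    have h2 := Real.log_le_sub_one_of_pos (div_pos hq0 hl0)
    rw [Real.log_div hq0.ne' hl0.ne'] at h2
    linarith
  have h3 : Real.log K - Real.log 4 ≤
      Real.log ((min μ (K / 2) : ℕ) : ℝ) + max 0 (Real.log (K / (4 * (μ : ℝ)))) := by
    rcases le_total μ (K / 2) with hc | hc
    · rw [min_eq_left hc]
      have h4 := le_max_right 0 (Real.log (K / (4 * (μ : ℝ))))
      have h5 : Real.log (K / (4 * (μ : ℝ))) = Real.log K - (Real.log 4 + Real.log μ) := by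
        rw [Real.log_div hK0.ne' (by positivity), Real.log_mul (by norm_num) hμ0.ne']
      linarith
    · rw [min_eq_right hc]
      have h4 := le_max_left 0 (Real.log (K / (4 * (μ : ℝ))))
      have h5 : Real.log K - Real.log 4 ≤ Real.log ((K / 2 : ℕ) : ℝ) := by
        rw [← Real.log_div hK0.ne' (by norm_num)]
        apply Real.log_le_log (by positivity)
        have h6 : K ≤ 4 * (K / 2) := by omega
        have h7 : (K : ℝ) ≤ 4 * ((K / 2 : ℕ) : ℝ) := by exact_mod_cast h6
        linarith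
      linarith
  linarith

private theorem G3p_mem {K : ℕ} {j m : ℤ} (hm : m ∈ CC X K j) :
    Rec X (j + m) j ∧ hs X (j + m) j < K ∧ K ≤ hh X (j + m) j := by
  classical
  unfold CC at hm
  simp only [Finset.mem_filter] at hm
  exact hm.2

private theorem G3p_sub (X : ℤ → ℝ) (K : ℕ) (j : ℤ) : CC X K j ⊆ Finset.Icc (-(K : ℤ)) K := by
  classical
  unfold CC
  intro m hm
  simp only [Finset.mem_filter] at hm
  exact hm.1

private theorem G3p_mu (h : Sys X u v D eps F n0 K1) {i j : ℤ} (hr : Rec X i j) : 1 ≤ min (ee X i j) (ff X i j) :=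
  le_min (ee_spec h hr.1).1 (ff_spec h hr.1).1

theorem g3 {E : (ℤ → ℝ) → ℝ} (hE : Mean E) (h : Sys X u v D eps F n0 K1) (he : 0 < eps) (hn0 : 1 ≤ n0) {K : ℕ} (hK : K1 < K)
    (hn : 2 * n0 ≤ K) (hK4 : 4 ≤ K) (hl : Real.log 4 + Real.log eps ≤ Real.log K) :
    (1 - D / n0) * (Real.log K - Real.log 4 - Real.log eps) - F * D - D ≤
      E (fun j => ∑ m ∈ CC X K j, Real.log (life u v (j + m) j / eps)) := by
  have hK0 : (0 : ℝ) < K := by
    have : 0 < K := by omega
    exact_mod_cast this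
  have b1 : Bd (fun j => if CC X K j = ∅ then (1 : ℝ) else 0) := by
    refine ⟨1, fun j => ?_⟩
    show |if CC X K j = ∅ then (1 : ℝ) else 0| ≤ 1
    split_ifs <;> norm_num
  have b2 : Bd (fun j => ∑ m ∈ CC X K j,
      max 0 (Real.log (K / (4 * ((min (ee X (j + m) j) (ff X (j + m) j) : ℕ) : ℝ))))) := by
    refine Bd.sum_filter (C := Real.log K) (Finset.Icc (-(K : ℤ)) K) (fun j => CC X K j) (fun j => G3p_sub X K j)
      (f := fun m j => max 0 (Real.log (K / (4 * ((min (ee X (j + m) j) (ff X (j + m) j) : ℕ) : ℝ))))) ?_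
    intro j m hm
    have hμ := G3p_mu h (G3p_mem hm).1
    have hμ1 : (1 : ℝ) ≤ ((min (ee X (j + m) j) (ff X (j + m) j) : ℕ) : ℝ) := by exact_mod_cast hμ
    show |max 0 (Real.log (K / (4 * ((min (ee X (j + m) j) (ff X (j + m) j) : ℕ) : ℝ))))| ≤ Real.log K
    rw [abs_of_nonneg (le_max_left _ _)]
    refine max_le (Real.log_nonneg ?_) ?_
    · have : 1 ≤ K := by omega
      exact_mod_cast this
    · apply Real.log_le_log (by positivity)
      apply div_le_self hK0.le
      linarith
  have b3 : Bd (fun j => ∑ m ∈ CC X K j,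
      ((min (min (ee X (j + m) j) (ff X (j + m) j)) (K / 2) : ℕ) : ℝ) / life u v (j + m) j) := by
    refine Bd.sum_filter (C := ((K / 2 : ℕ) : ℝ)) (Finset.Icc (-(K : ℤ)) K) (fun j => CC X K j) (fun j => G3p_sub X K j)
      (f := fun m j => ((min (min (ee X (j + m) j) (ff X (j + m) j)) (K / 2) : ℕ) : ℝ) / life u v (j + m) j) ?_
    intro j m hm
    have h1 : (1 : ℝ) ≤ life u v (j + m) j := by exact_mod_cast life_pos u v (j + m) j
    show |((min (min (ee X (j + m) j) (ff X (j + m) j)) (K / 2) : ℕ) : ℝ) / life u v (j + m) j| ≤ _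
    rw [abs_of_nonneg (by positivity)]
    refine (div_le_self (by positivity) h1).trans ?_
    exact_mod_cast min_le_right _ _
  have b4 : Bd (fun j => ∑ m ∈ CC X K j, Real.log (life u v (j + m) j / eps)) := by
    refine Bd.sum_filter (C := |Real.log eps| + Real.log K) (Finset.Icc (-(K : ℤ)) K) (fun j => CC X K j)
      (fun j => G3p_sub X K j) (f := fun m j => Real.log (life u v (j + m) j / eps)) ?_
    intro j m hm
    obtain ⟨hr, h1, h2⟩ := G3p_mem hm
    exact log_bd h he hr (lt_of_lt_of_le hK h2) (lt_of_le_of_lt hr.sab.2.2.2.2 h1)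
  have hpt : ∀ j : ℤ, Real.log K - Real.log 4 - Real.log eps ≤
      (∑ m ∈ CC X K j, Real.log (life u v (j + m) j / eps)) +
        ((Real.log K - Real.log 4 - Real.log eps) * (if CC X K j = ∅ then (1 : ℝ) else 0) +
          ((∑ m ∈ CC X K j, max 0 (Real.log (K / (4 * ((min (ee X (j + m) j) (ff X (j + m) j) : ℕ) : ℝ))))) +
            ∑ m ∈ CC X K j,
              ((min (min (ee X (j + m) j) (ff X (j + m) j)) (K / 2) : ℕ) : ℝ) / life u v (j + m) j)) := by
    intro j
    rcases Finset.eq_empty_or_nonempty (CC X K j) with h0 | ⟨m, hm⟩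
    · rw [if_pos h0, h0]
      simp
    · have hc : CC X K j = {m} := by
        apply Finset.eq_singleton_iff_unique_mem.2
        refine ⟨hm, fun x hx => ?_⟩
        exact Finset.card_le_one.1 (CC_card h K j) x hx m hm
      have hne : CC X K j ≠ ∅ := Finset.nonempty_iff_ne_empty.1 ⟨m, hm⟩
      rw [if_neg hne, hc, Finset.sum_singleton, Finset.sum_singleton, Finset.sum_singleton]
      have h1 : (1 : ℝ) ≤ life u v (j + m) j := by exact_mod_cast life_pos u v (j + m) j
      have h2 := G3p_log hK4 (G3p_mu h (G3p_mem hm).1) h1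
      rw [Real.log_div (by positivity) he.ne']
      linarith
  have hL := hE.mono _ _ (Bd.const (Real.log K - Real.log 4 - Real.log eps))
    (Bd.add b4 (Bd.add (Bd.smul (Real.log K - Real.log 4 - Real.log eps) b1) (Bd.add b2 b3))) hpt
  rw [hE.const, hE.add _ _ b4 (Bd.add (Bd.smul _ b1) (Bd.add b2 b3)), hE.add _ _ (Bd.smul _ b1) (Bd.add b2 b3),
    hE.smul _ _ b1, hE.add _ _ b2 b3] at hL
  have c1 := cr1 hE h K
  have c2 := cr2 hE h hK4
  have c3 := cr3 hE h hK hn
  have hn1 : (0 : ℝ) < n0 := by exact_mod_cast hn0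
  have c4 : E (fun j => if CC X K j = ∅ then (1 : ℝ) else 0) ≤ D / n0 := by
    rw [le_div_iff₀ hn1, mul_comm]
    exact c3
  have hLn : 0 ≤ Real.log K - Real.log 4 - Real.log eps := by linarith
  have c5 := mul_le_mul_of_nonneg_left c4 hLn
  have c6 : (1 - (D : ℝ) / n0) * (Real.log K - Real.log 4 - Real.log eps) =
      (Real.log K - Real.log 4 - Real.log eps) - (Real.log K - Real.log 4 - Real.log eps) * (D / n0) := by ring
  rw [c6]
  linarith

end Pool.Agent.PHI
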