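import Pool.Agent.PHI.Lfa

/-! Module PHI-Fne.  Consequences of `fine` for a record pair with `K1 < h`: bounds of the label, of the life and uniqueness of the cut.
`Fne_fine`: `fine` for a gap contained in the gap `(i, j)`.  `Fne_run`: a visitor of the gap has the labels of `i` and `j` during the
whole life of `(i, j)`. -/

set_option autoImplicit false

namespace Pool.Agent.PHI

variable {X : ℤ → ℝ} {u v : ℤ → ℕ} {D : ℕ} {eps F : ℝ} {n0 K1 : ℕ}

private theorem Fne_fine (h : Sys X u v D eps F n0 K1) {i j a b : ℤ} (hK : K1 < hh X i j) (hab : X a < X b)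
    (hs : ∀ k, Btw X a b k → Btw X i j k) : (n0 : ℤ) ≤ |a - b| ∧ u b ≤ u a + 1 ∧ v b ≤ v a + 1 := by
  refine h.fine a b (j - ee X i j + 1) hab ?_
  intro k h1 h2 h3
  refine not_btw k ?_ ?_ (hs k h3)
  · omega
  · unfold hh at hK
    omega

private theorem Fne_run (h : Sys X u v D eps F n0 K1) {i j z : ℤ} (hz : Btw X i j z) (m : ℕ)
    (hm : m < dv v i j + du u i j) :
    u (i - dv v i j + m) = u (j - dv v i j + m) ∧ u (z - dv v i j + m) = u (j - dv v i j + m) := by
  have hij : X i < X j := hz.1.trans hz.2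
  have hne : i ≠ j := by
    rintro rfl
    exact lt_irrefl _ hij
  obtain ⟨h1, h2⟩ := btw_iterb h hij (dv v i j) (dv_spec h hne).2
  have h3 := (h2 z).2 hz
  obtain ⟨h4, h5⟩ := btw_iter h h1 m (fun l hl => run_of h hne l (by omega))
  have h6 := (h5 (z - dv v i j)).2 h3
  have h7 := run_of h hne m hm
  exact ⟨h7, u_of_btw h h7 h6⟩

private theorem Fne_life (h : Sys X u v D eps F n0 K1) {i j a b : ℤ} {n : ℕ} (hn : n0 ≤ n)
    (hab : b - a = n) (h0 : 0 < n)
    (hu : ∀ m : ℕ, m < dv v i j + du u i j → u (a - dv v i j + m) = u (b - dv v i j + m)) :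
    (life u v i j : ℝ) ≤ eps * n := by
  have h1 := h.run (a - dv v i j) (b - dv v i j) (by omega) (by omega) (dv v i j + du u i j) hu
  have h2 : ((b - dv v i j - (a - dv v i j) : ℤ) : ℝ) = n := by
    have h3 : b - dv v i j - (a - dv v i j) = (n : ℤ) := by omega
    rw [h3]
    simp
  rw [h2] at h1
  unfold life
  push_cast at h1 ⊢
  linarith

theorem fine_rec (h : Sys X u v D eps F n0 K1) {i j : ℤ} (hr : Rec X i j) (hK : K1 < hh X i j) :
    n0 ≤ nn i j ∧ n0 ≤ ww X i j ∧ n0 ≤ hh X i j - nn i j - ww X i j ∧ u j ≤ u i + 1 ∧ v j ≤ v i + 1 := by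
  have hij := hr.1
  have h1 := Fne_fine h hK hij (fun k hk => hk)
  obtain ⟨e1, e2, -⟩ := ee_spec h hij
  obtain ⟨f1, f2, -⟩ := ff_spec h hij
  have h2 := Fne_fine h hK e2.2 (fun k hk => ⟨e2.1.trans hk.1, hk.2⟩)
  have h3 := Fne_fine h hK f2.2 (fun k hk => ⟨f2.1.trans hk.1, hk.2⟩)
  have h4 := Fne_fine h hK e2.1 (fun k hk => ⟨hk.1, hk.2.trans e2.2⟩)
  have h5 := Fne_fine h hK f2.1 (fun k hk => ⟨hk.1, hk.2.trans f2.2⟩)
  have hn : (nn i j : ℤ) = |i - j| := by
    unfold nn
    exact Int.natCast_natAbs _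
  refine ⟨?_, ?_, ?_, h1.2.1, h1.2.2⟩
  · omega
  · unfold ww
    split_ifs with hlt
    · have h6 := h3.1
      rw [show j + (ff X i j : ℤ) - j = ff X i j by ring, abs_of_nonneg (by omega)] at h6
      omega
    · have h6 := h2.1
      rw [show j - (ee X i j : ℤ) - j = -(ee X i j : ℤ) by ring, abs_neg, abs_of_nonneg (by omega)] at h6
      omega
  · unfold hh ww
    split_ifs with hlt
    · obtain ⟨h6, h7⟩ := hr.pa hlt
      have h8 := h4.1
      rw [abs_of_nonneg (by omega)] at h8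
      omega
    · have hlt' : j < i := lt_of_le_of_ne (not_lt.1 hlt) (Ne.symm hr.ne)
      obtain ⟨h6, h7⟩ := hr.fu hlt'
      have h8 := h5.1
      rw [abs_of_nonpos (by omega)] at h8
      omega

theorem life_rec (h : Sys X u v D eps F n0 K1) {i j : ℤ} (hr : Rec X i j) (hK : K1 < hh X i j) :
    (life u v i j : ℝ) ≤ eps * nn i j ∧ (life u v i j : ℝ) ≤ eps * ww X i j ∧
      (life u v i j : ℝ) ≤ eps * ((hh X i j - nn i j - ww X i j : ℕ) : ℝ) := by
  have hij := hr.1
  obtain ⟨e1, e2, -⟩ := ee_spec h hij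
  obtain ⟨f1, f2, -⟩ := ff_spec h hij
  obtain ⟨n1, n2, n3, -, -⟩ := fine_rec h hr hK
  refine ⟨life_le h hr.ne n1, ?_, ?_⟩
  · unfold ww at n2 ⊢
    split_ifs at n2 ⊢ with hlt
    · refine Fne_life h (a := j) (b := j + ff X i j) n2 (by ring) f1 ?_
      intro m hm
      exact (Fne_run h f2 m hm).2.symm
    · refine Fne_life h (a := j - ee X i j) (b := j) n2 (by ring) e1 ?_
      intro m hm
      exact (Fne_run h e2 m hm).2
  · rcases lt_or_ge i j with hlt | hge
    · obtain ⟨h6, h7⟩ := hr.pa hlt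
      have h8 : ww X i j = ff X i j := by
        unfold ww
        rw [if_pos hlt]
      have h9 : hh X i j - nn i j - ww X i j = ee X i j - nn i j := by
        rw [h8]
        unfold hh
        omega
      rw [h9] at n3 ⊢
      refine Fne_life h (a := j - ee X i j) (b := i) n3 (by omega) (by omega) ?_
      intro m hm
      obtain ⟨h10, h11⟩ := Fne_run h e2 m hm
      rw [h11, h10]
    · have hlt' : j < i := lt_of_le_of_ne hge (Ne.symm hr.ne)
      obtain ⟨h6, h7⟩ := hr.fu hlt'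
      have h8 : ww X i j = ee X i j := by
        unfold ww
        rw [if_neg (not_lt.2 hge)]
      have h9 : hh X i j - nn i j - ww X i j = ff X i j - nn i j := by
        rw [h8]
        unfold hh
        omega
      rw [h9] at n3 ⊢
      refine Fne_life h (a := i) (b := j + ff X i j) n3 (by omega) (by omega) ?_
      intro m hm
      obtain ⟨h10, h11⟩ := Fne_run h f2 m hm
      rw [h11, h10]

/-- the life is bounded by both extents of the box and of the sub-box -/
theorem life_box (h : Sys X u v D eps F n0 K1) (he : 0 ≤ eps) {i j : ℤ} (hr : Rec X i j) (hK : K1 < hh X i j) :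
    (life u v i j : ℝ) ≤ eps * ee X i j ∧ (life u v i j : ℝ) ≤ eps * ff X i j := by
  obtain ⟨h1, h2, -⟩ := life_rec h hr hK
  rcases lt_or_ge i j with hlt | hge
  · obtain ⟨h6, h7⟩ := hr.pa hlt
    have h8 : ww X i j = ff X i j := by
      unfold ww
      rw [if_pos hlt]
    rw [h8] at h2
    refine ⟨h1.trans (mul_le_mul_of_nonneg_left ?_ he), h2⟩
    exact_mod_cast h7.le
  · have hlt' : j < i := lt_of_le_of_ne hge (Ne.symm hr.ne)
    obtain ⟨h6, h7⟩ := hr.fu hlt'
    have h8 : ww X i j = ee X i j := by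
      unfold ww
      rw [if_neg (not_lt.2 hge)]
    rw [h8] at h2
    refine ⟨h2, h1.trans (mul_le_mul_of_nonneg_left ?_ he)⟩
    exact_mod_cast h7.le

/-- all labels in the gap are `u i` or `u j = u i + 1`, so the cell of a cut is unique -/
theorem cell_cases (h : Sys X u v D eps F n0 K1) {i j : ℤ} (hr : Rec X i j) (hK : K1 < hh X i j) (w : ℤ → ℕ)
    (hw : w = u ∨ w = v) (hne : w i ≠ w j) :
    (w i ≠ w (y1 X i j) ∧ w (y1 X i j) = w (y2 X i j) ∧ w (y2 X i j) = w j ∧ cell w X i j = .a) ∨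
    (w i = w (y1 X i j) ∧ w (y1 X i j) ≠ w (y2 X i j) ∧ w (y2 X i j) = w j ∧ cell w X i j = .b) ∨
    (w i = w (y1 X i j) ∧ w (y1 X i j) = w (y2 X i j) ∧ w (y2 X i j) ≠ w j ∧ cell w X i j = .c) := by
  have hij := hr.1
  obtain ⟨-, -, -, h1, h2⟩ := fine_rec h hr hK
  have hm : ∀ a b, X a ≤ X b → w a ≤ w b := by
    rcases hw with rfl | rfl
    · exact h.umono
    · exact h.vmono
  have h3 : w j ≤ w i + 1 := by
    rcases hw with rfl | rfl
    · exact h1
    · exact h2
  have h4 := hm _ _ (y1_btw h hij).1.le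
  have h5 := hm _ _ (y1_lt_y2 h hij).le
  have h6 := hm _ _ (y2_btw h hij).2.le
  by_cases h7 : w i = w (y1 X i j)
  · by_cases h8 : w (y1 X i j) = w (y2 X i j)
    · refine Or.inr (Or.inr ⟨h7, h8, by omega, ?_⟩)
      unfold cell
      rw [if_neg (not_not.2 h7), if_neg (not_not.2 h8)]
    · refine Or.inr (Or.inl ⟨h7, h8, by omega, ?_⟩)
      unfold cell
      rw [if_neg (not_not.2 h7), if_pos h8]
  · refine Or.inl ⟨h7, by omega, by omega, ?_⟩
    unfold cell
    rw [if_pos h7]

end Pool.Agent.PHI
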