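import Pool.Agent.PHI.Bas

/-! Module PHI-Nxa.  The next farther pair `(i, j)` of a record pair `(y, j)`: its box is the sub-box of `(y, j)`, its farther visitor
is `y`, its closer visitor is `zz X y j`; it is unique; its value `pj`. -/

set_option autoImplicit false

namespace Pool.Agent.PHI

variable {X : ℤ → ℝ} {u v : ℤ → ℕ} {D : ℕ} {eps F : ℝ} {n0 K1 : ℕ}

private theorem Nxa_A {X : ℤ → ℝ} {y j : ℤ} (hyj : y < j) :
    j - (sa X y j : ℤ) = y ∧ j + (sb X y j : ℤ) = zz X y j ∧ sa X y j = nn y j ∧ sb X y j = ww X y j := by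
  unfold sa sb zz ww
  rw [if_pos hyj, if_pos hyj, if_pos hyj, if_pos hyj]
  unfold nn
  omega

private theorem Nxa_B {X : ℤ → ℝ} {y j : ℤ} (hyj : j < y) :
    j - (sa X y j : ℤ) = zz X y j ∧ j + (sb X y j : ℤ) = y ∧ sa X y j = ww X y j ∧ sb X y j = nn y j := by
  have h2 : ¬ y < j := by omega
  unfold sa sb zz ww
  rw [if_neg h2, if_neg h2, if_neg h2, if_neg h2]
  unfold nn
  omega

theorem nf_lt (h : Sys X u v D eps F n0 K1) {y j i : ℤ} (hr : Rec X y j) (hn : Nf X y j i) : X i < X y := by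
  obtain ⟨h1, h2, h3, _⟩ := hn
  by_contra hlt
  rw [not_lt] at hlt
  obtain ⟨s1, s2, _⟩ := hr.sab
  have hne : y ≠ i := by
    rcases lt_or_gt_of_ne hr.ne with hyj | hyj
    · have := Nxa_A (X := X) hyj
      omega
    · have := Nxa_B (X := X) hyj
      omega
  have hlt2 : X y < X i := lt_of_le_of_ne hlt (fun he => hne (h.inj he))
  exact not_btw i (by omega) (by omega) ⟨hlt2, h1⟩

private theorem Nxa_ends (h : Sys X u v D eps F n0 K1) {y j i : ℤ} (hr : Rec X y j) (hn : Nf X y j i) :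
    0 < sa X y j ∧ 0 < sb X y j ∧ Btw X i j (j - (sa X y j : ℤ)) ∧ Btw X i j (j + (sb X y j : ℤ)) ∧
      Btw X i j y ∧ X y < X (zz X y j) := by
  have hlt := nf_lt h hr hn
  have hz := zz_btw h hr.1
  have hy : Btw X i j y := ⟨hlt, hr.1⟩
  have hzi : Btw X i j (zz X y j) := ⟨lt_trans hlt hz.1, hz.2⟩
  have he := (ee_spec h hr.1).1
  have hf := (ff_spec h hr.1).1
  have hnn := hr.nn_pos
  rcases lt_or_gt_of_ne hr.ne with hyj | hyj
  · obtain ⟨a1, a2, a3, a4⟩ := Nxa_A (X := X) hyj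
    refine ⟨by omega, ?_, by rw [a1]; exact hy, by rw [a2]; exact hzi, hy, hz.1⟩
    rw [a4]
    unfold ww
    rw [if_pos hyj]
    exact hf
  · obtain ⟨a1, a2, a3, a4⟩ := Nxa_B (X := X) hyj
    refine ⟨?_, by omega, by rw [a1]; exact hzi, by rw [a2]; exact hy, hy, hz.1⟩
    have h2 : ¬ y < j := by omega
    rw [a3]
    unfold ww
    rw [if_neg h2]
    exact he

theorem nf_ee (h : Sys X u v D eps F n0 K1) {y j i : ℤ} (hr : Rec X y j) (hn : Nf X y j i) : ee X i j = sa X y j := by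
  obtain ⟨p1, p2, b1, b2, _, _⟩ := Nxa_ends h hr hn
  refine ee_eq p1 b1 ?_
  intro l hl1 hl2
  exact hn.2.2.2 _ (by omega) (by omega)

theorem nf_ff (h : Sys X u v D eps F n0 K1) {y j i : ℤ} (hr : Rec X y j) (hn : Nf X y j i) : ff X i j = sb X y j := by
  obtain ⟨p1, p2, b1, b2, _, _⟩ := Nxa_ends h hr hn
  refine ff_eq p2 b2 ?_
  intro l hl1 hl2
  exact hn.2.2.2 _ (by omega) (by omega)

theorem nf_hh (h : Sys X u v D eps F n0 K1) {y j i : ℤ} (hr : Rec X y j) (hn : Nf X y j i) : hh X i j = hs X y j := by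
  unfold hh hs
  rw [nf_ee h hr hn, nf_ff h hr hn]

theorem nf_rec (h : Sys X u v D eps F n0 K1) {y j i : ℤ} (hr : Rec X y j) (hn : Nf X y j i) : Rec X i j := by
  refine ⟨hn.1, ?_, ?_⟩
  · rw [nf_ee h hr hn]
    exact hn.2.1
  · rw [nf_ff h hr hn]
    exact hn.2.2.1

theorem nf_y1 (h : Sys X u v D eps F n0 K1) {y j i : ℤ} (hr : Rec X y j) (hn : Nf X y j i) : y1 X i j = y := by
  obtain ⟨_, _, _, _, _, hz⟩ := Nxa_ends h hr hn
  unfold y1
  rw [nf_ee h hr hn, nf_ff h hr hn]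
  rcases lt_or_gt_of_ne hr.ne with hyj | hyj
  · obtain ⟨a1, a2, a3, a4⟩ := Nxa_A (X := X) hyj
    rw [a1, a2, if_pos hz]
  · obtain ⟨a1, a2, a3, a4⟩ := Nxa_B (X := X) hyj
    rw [a1, a2, if_neg (not_lt.2 hz.le)]

theorem nf_y2 (h : Sys X u v D eps F n0 K1) {y j i : ℤ} (hr : Rec X y j) (hn : Nf X y j i) : y2 X i j = zz X y j := by
  obtain ⟨_, _, _, _, _, hz⟩ := Nxa_ends h hr hn
  unfold y2
  rw [nf_ee h hr hn, nf_ff h hr hn]
  rcases lt_or_gt_of_ne hr.ne with hyj | hyj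
  · obtain ⟨a1, a2, a3, a4⟩ := Nxa_A (X := X) hyj
    rw [a1, a2, if_pos hz]
  · obtain ⟨a1, a2, a3, a4⟩ := Nxa_B (X := X) hyj
    rw [a1, a2, if_neg (not_lt.2 hz.le)]

theorem nf_unique (h : Sys X u v D eps F n0 K1) {y j i i' : ℤ} (hn : Nf X y j i) (hn' : Nf X y j i') : i = i' := by
  by_contra hne
  rcases lt_trichotomy (X i) (X i') with hlt | heq | hlt
  · exact hn.2.2.2 i' hn'.2.1 hn'.2.2.1 ⟨hlt, hn'.1⟩
  · exact hne (h.inj heq)
  · exact hn'.2.2.2 i hn.2.1 hn.2.2.1 ⟨hlt, hn.1⟩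

/-- the value of the next farther pair in terms of the data of `(y, j)` -/
theorem nf_pj (h : Sys X u v D eps F n0 K1) (P : Fl → Fl → ℝ → ℝ → ℝ → ℝ) {y j i : ℤ} (hr : Rec X y j) (hn : Nf X y j i) :
    pj P eps X u v i j = P (fb X v i j) (fd X u i j) (ww X y j) (nn y j) (life u v i j / eps) := by
  obtain ⟨_, _, _, _, _, hz⟩ := Nxa_ends h hr hn
  unfold pj
  rw [nf_ee h hr hn, nf_ff h hr hn]
  rcases lt_or_gt_of_ne hr.ne with hyj | hyj
  · obtain ⟨a1, a2, a3, a4⟩ := Nxa_A (X := X) hyj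
    rw [a1, a2, if_pos hz, a3, a4]
  · obtain ⟨a1, a2, a3, a4⟩ := Nxa_B (X := X) hyj
    rw [a1, a2, if_neg (not_lt.2 hz.le), a3, a4]

end Pool.Agent.PHI
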