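import Pool.Agent.PHI.Lfb
import Pool.Agent.PHI.Fne
import Pool.Agent.PHI.Nxa

/-! Module PHI-Bds.  Bounds of the values: `Cert.bd` with `life/eps` below the extents of the box (`life_rec`, `life_box`), divided by
the life; `log_bd` from `1/eps ≤ life/eps ≤ nn < K`; `FF_bd` from both, applied to the pair and to the next farther pair. -/

set_option autoImplicit false

namespace Pool.Agent.PHI

variable {X : ℤ → ℝ} {u v : ℤ → ℕ} {D : ℕ} {eps F : ℝ} {n0 K1 : ℕ}

private theorem Bds_div {C eps l a : ℝ} (hl : 0 < l) (ha : |a| ≤ C * (l / eps)) :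
    |a / l| ≤ C / eps := by
  rw [abs_div, abs_of_pos hl, div_le_iff₀ hl]
  refine ha.trans (le_of_eq ?_)
  ring

private theorem Bds_le {eps l w : ℝ} (he : 0 < eps) (h : l ≤ eps * w) : l / eps ≤ w := by
  rw [div_le_iff₀ he]
  linarith

private theorem Bds_life (u v : ℤ → ℕ) (i j : ℤ) : (1 : ℝ) ≤ life u v i j := by
  exact_mod_cast life_pos u v i j

theorem bj_bd (h : Sys X u v D eps F n0 K1) {P : Fl → Fl → ℝ → ℝ → ℝ → ℝ} {C : ℝ} (hP : Cert P C) (he : 0 < eps)
    {i j : ℤ} (hr : Rec X i j) (hK : K1 < hh X i j) : |bj P eps X u v i j / life u v i j| ≤ C / eps := by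
  obtain ⟨h1, h2, -⟩ := life_rec h hr hK
  have hl : (0 : ℝ) < life u v i j := lt_of_lt_of_le one_pos (Bds_life u v i j)
  refine Bds_div hl ?_
  unfold bj
  exact hP.bd _ _ _ _ _ (div_pos hl he).le (Bds_le he h2) (Bds_le he h1)

theorem pj_bd (h : Sys X u v D eps F n0 K1) {P : Fl → Fl → ℝ → ℝ → ℝ → ℝ} {C : ℝ} (hP : Cert P C) (he : 0 < eps)
    {i j : ℤ} (hr : Rec X i j) (hK : K1 < hh X i j) : |pj P eps X u v i j / life u v i j| ≤ C / eps := by
  obtain ⟨h1, h2⟩ := life_box h he.le hr hK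
  have hl : (0 : ℝ) < life u v i j := lt_of_lt_of_le one_pos (Bds_life u v i j)
  refine Bds_div hl ?_
  unfold pj
  split_ifs
  · exact hP.bd _ _ _ _ _ (div_pos hl he).le (Bds_le he h2) (Bds_le he h1)
  · exact hP.bd _ _ _ _ _ (div_pos hl he).le (Bds_le he h1) (Bds_le he h2)

theorem log_bd (h : Sys X u v D eps F n0 K1) (he : 0 < eps) {K : ℕ} {i j : ℤ} (hr : Rec X i j) (hK : K1 < hh X i j)
    (hn : nn i j < K) : |Real.log (life u v i j / eps)| ≤ |Real.log eps| + Real.log K := by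
  obtain ⟨h1, -, -⟩ := life_rec h hr hK
  have hl1 := Bds_life u v i j
  have hl : (0 : ℝ) < life u v i j := lt_of_lt_of_le one_pos hl1
  have hK0 : 0 ≤ Real.log K := Real.log_natCast_nonneg K
  rw [abs_le]
  constructor
  · rw [Real.log_div hl.ne' he.ne']
    have h2 : 0 ≤ Real.log (life u v i j) := Real.log_nonneg hl1
    have h3 := le_abs_self (Real.log eps)
    linarith
  · have h2 : (life u v i j : ℝ) / eps ≤ K := by
      refine (Bds_le he h1).trans ?_
      exact_mod_cast hn.le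
    have h3 := Real.log_le_log (div_pos hl he) h2
    have h4 := abs_nonneg (Real.log eps)
    linarith

private theorem Bds_nn {X : ℤ → ℝ} {i j : ℤ} (hr : Rec X i j) : nn i j < hh X i j := by
  obtain ⟨-, -, h3, -, h5⟩ := hr.sab
  omega

theorem FF_bd (h : Sys X u v D eps F n0 K1) {P : Fl → Fl → ℝ → ℝ → ℝ → ℝ} {C : ℝ} (hP : Cert P C) (he : 0 < eps) (K : ℕ) :
    ∃ B : ℝ, ∀ j : ℤ, ∀ m ∈ RR X K1 K j, |FF P eps X u v (j + m) j| ≤ B := by
  refine ⟨C / eps + phi ^ 2 / eps * (2 * (|Real.log eps| + Real.log K)), fun j m hm => ?_⟩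
  simp only [RR, Finset.mem_filter] at hm
  obtain ⟨-, hr, hK, hlt⟩ := hm
  obtain ⟨-, -, h3, -, h5⟩ := hr.sab
  have hL := log_bd h he (K := K) hr (by omega) (by omega)
  have hM : 0 ≤ |Real.log eps| + Real.log K :=
    add_nonneg (abs_nonneg _) (Real.log_natCast_nonneg K)
  have hp : 0 ≤ phi ^ 2 / eps := div_nonneg (sq_nonneg _) he.le
  have hC : 0 ≤ C / eps := div_nonneg hP.C0 he.le
  unfold FF
  split_ifs with hc
  · have hnf := hc.choose_spec
    have hr2 := nf_rec h hr hnf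
    have hh2 := nf_hh h hr hnf
    have hn2 := Bds_nn hr2
    have h6 := pj_bd h hP he hr2 (by rw [hh2]; exact hK)
    have h7 := log_bd h he (K := K) hr2 (by rw [hh2]; exact hK) (by omega)
    refine (abs_add_le _ _).trans (add_le_add h6 ?_)
    rw [abs_mul, abs_of_nonneg hp]
    refine mul_le_mul_of_nonneg_left ?_ hp
    refine (abs_sub _ _).trans ?_
    linarith
  · rw [abs_mul, abs_of_nonneg hp]
    have h8 := mul_le_mul_of_nonneg_left hL hp
    have h9 : 0 ≤ phi ^ 2 / eps * (|Real.log eps| + Real.log K) := mul_nonneg hp hM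
    have h10 : phi ^ 2 / eps * (2 * (|Real.log eps| + Real.log K)) =
      phi ^ 2 / eps * (|Real.log eps| + Real.log K) + phi ^ 2 / eps * (|Real.log eps| + Real.log K) := by
      ring
    rw [h10]
    linarith

end Pool.Agent.PHI
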