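import Pool.Agent.PHI.Defs

/-! Module PHI-Mna.  Bounded functions and the formal rules of a mean. -/

set_option autoImplicit false

namespace Pool.Agent.PHI

theorem Bd.const (c : ℝ) : Bd (fun _ => c) := ⟨|c|, fun _ => le_rfl⟩

theorem Bd.add {f g : ℤ → ℝ} (hf : Bd f) (hg : Bd g) : Bd (fun t => f t + g t) := by
  obtain ⟨C, hC⟩ := hf
  obtain ⟨D, hD⟩ := hg
  refine ⟨C + D, fun t => ?_⟩
  have h1 := abs_le.1 (hC t)
  have h2 := abs_le.1 (hD t)
  exact abs_le.2 ⟨by linarith [h1.1, h2.1], by linarith [h1.2, h2.2]⟩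

theorem Bd.sub {f g : ℤ → ℝ} (hf : Bd f) (hg : Bd g) : Bd (fun t => f t - g t) := by
  obtain ⟨C, hC⟩ := hf
  obtain ⟨D, hD⟩ := hg
  refine ⟨C + D, fun t => ?_⟩
  have h1 := abs_le.1 (hC t)
  have h2 := abs_le.1 (hD t)
  exact abs_le.2 ⟨by linarith [h1.1, h2.2], by linarith [h1.2, h2.1]⟩

theorem Bd.smul {f : ℤ → ℝ} (c : ℝ) (hf : Bd f) : Bd (fun t => c * f t) := by
  obtain ⟨C, hC⟩ := hf
  refine ⟨|c| * C, fun t => ?_⟩
  show |c * f t| ≤ |c| * C
  rw [abs_mul]
  exact mul_le_mul_of_nonneg_left (hC t) (abs_nonneg c)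

theorem Bd.shiftk {f : ℤ → ℝ} (k : ℤ) (hf : Bd f) : Bd (fun t => f (t + k)) := by
  obtain ⟨C, hC⟩ := hf
  exact ⟨C, fun t => hC (t + k)⟩

theorem Bd.sum {ι : Type} (s : Finset ι) {f : ι → ℤ → ℝ} (hf : ∀ i ∈ s, Bd (f i)) : Bd (fun t => ∑ i ∈ s, f i t) := by
  classical
  induction s using Finset.induction_on with
  | empty => simpa using Bd.const 0
  | insert a s ha ih =>
    have h := Bd.add (hf a (Finset.mem_insert_self a s))
      (ih fun i hi => hf i (Finset.mem_insert_of_mem hi))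
    have e : (fun t => ∑ i ∈ insert a s, f i t) = fun t => f a t + ∑ i ∈ s, f i t := by
      funext t
      exact Finset.sum_insert ha
    rw [e]
    exact h

private theorem Mna_ite {p : ℤ → Prop} [∀ t, Decidable (p t)] {f : ℤ → ℝ} {C : ℝ}
    (h : ∀ t, p t → |f t| ≤ C) : Bd (fun t => if p t then f t else 0) := by
  refine ⟨max C 0, fun t => ?_⟩
  show |if p t then f t else 0| ≤ max C 0
  by_cases hp : p t
  · rw [if_pos hp]
    exact (h t hp).trans (le_max_left _ _)
  · rw [if_neg hp, abs_zero]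
    exact le_max_right _ _

open Classical in
theorem Bd.ite {p : ℤ → Prop} {f : ℤ → ℝ} {C : ℝ} (h : ∀ t, p t → |f t| ≤ C) : Bd (fun t => if p t then f t else 0) := by
  exact Mna_ite h

open Classical in
/-- sums over index sets `S t ⊆ s` -/
theorem Bd.sum_filter {ι : Type} (s : Finset ι) (S : ℤ → Finset ι) (hS : ∀ t, S t ⊆ s) {f : ι → ℤ → ℝ} {C : ℝ}
    (h : ∀ t, ∀ i ∈ S t, |f i t| ≤ C) : Bd (fun t => ∑ i ∈ S t, f i t) := by
  have h1 : Bd (fun t => ∑ i ∈ s, if i ∈ S t then f i t else 0) :=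
    Bd.sum s fun i _ => Mna_ite (p := fun t => i ∈ S t) (f := f i) fun t ht => h t i ht
  have e : (fun t => ∑ i ∈ S t, f i t) = fun t => ∑ i ∈ s, if i ∈ S t then f i t else 0 := by
    funext t
    rw [← Finset.sum_subset (hS t) fun i _ hi => if_neg hi]
    exact Finset.sum_congr rfl fun i hi => (if_pos hi).symm
  rw [e]
  exact h1

section
variable {E : (ℤ → ℝ) → ℝ} (hE : Mean E)
include hE

theorem Mean.const (c : ℝ) : E (fun _ => c) = c := by
  have h := hE.smul c (fun _ => 1) (Bd.const 1)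
  rw [hE.one, mul_one] at h
  simpa using h

theorem Mean.sub {f g : ℤ → ℝ} (hf : Bd f) (hg : Bd g) : E (fun t => f t - g t) = E f - E g := by
  have h := hE.add f (fun t => (-1) * g t) hf (Bd.smul (-1) hg)
  rw [hE.smul (-1) g hg] at h
  have e : (fun t => f t - g t) = fun t => f t + (-1) * g t := by
    funext t
    ring
  rw [e, h]
  ring

theorem Mean.sum {ι : Type} (s : Finset ι) {f : ι → ℤ → ℝ} (hf : ∀ i ∈ s, Bd (f i)) :
    E (fun t => ∑ i ∈ s, f i t) = ∑ i ∈ s, E (f i) := by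
  classical
  induction s using Finset.induction_on with
  | empty => simpa using Mean.const hE 0
  | insert a s ha ih =>
    have hs : ∀ i ∈ s, Bd (f i) := fun i hi => hf i (Finset.mem_insert_of_mem hi)
    have e : (fun t => ∑ i ∈ insert a s, f i t) = fun t => f a t + ∑ i ∈ s, f i t := by
      funext t
      exact Finset.sum_insert ha
    rw [e, hE.add (f a) (fun t => ∑ i ∈ s, f i t) (hf a (Finset.mem_insert_self a s))
      (Bd.sum s hs), ih hs, Finset.sum_insert ha]

theorem Mean.shiftk {f : ℤ → ℝ} (hf : Bd f) (k : ℤ) : E (fun t => f (t + k)) = E f := by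
  induction k using Int.induction_on with
  | zero => simp
  | succ i ih =>
    have h := hE.shift (fun t => f (t + i)) (Bd.shiftk i hf)
    rw [← ih, ← h]
    congr 1
    funext t
    congr 1
    ring
  | pred i ih =>
    have h := hE.shift (fun t => f (t + (-(i : ℤ) - 1))) (Bd.shiftk _ hf)
    rw [← ih, ← h]
    congr 1
    funext t
    congr 1
    ring

theorem Mean.nonneg {f : ℤ → ℝ} (hf : Bd f) (h : ∀ t, 0 ≤ f t) : 0 ≤ E f := by
  have h1 := hE.mono (fun _ => 0) f (Bd.const 0) hf h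
  rwa [Mean.const hE 0] at h1

theorem Mean.le_const {f : ℤ → ℝ} (hf : Bd f) {c : ℝ} (h : ∀ t, f t ≤ c) : E f ≤ c := by
  have h1 := hE.mono f (fun _ => c) hf (Bd.const c) h
  rwa [Mean.const hE c] at h1

open Classical in
/-- `E` of a sum over index sets `S t ⊆ s` -/
theorem Mean.sum_filter {ι : Type} (s : Finset ι) (S : ℤ → Finset ι) (hS : ∀ t, S t ⊆ s) {f : ι → ℤ → ℝ} {C : ℝ}
    (h : ∀ t, ∀ i ∈ S t, |f i t| ≤ C) :
    E (fun t => ∑ i ∈ S t, f i t) = ∑ i ∈ s, E (fun t => if i ∈ S t then f i t else 0) := by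
  have e : (fun t => ∑ i ∈ S t, f i t) = fun t => ∑ i ∈ s, if i ∈ S t then f i t else 0 := by
    funext t
    rw [← Finset.sum_subset (hS t) fun i _ hi => if_neg hi]
    exact Finset.sum_congr rfl fun i hi => (if_pos hi).symm
  rw [e]
  exact Mean.sum hE s fun i _ => Mna_ite (p := fun t => i ∈ S t) (f := f i) fun t ht => h t i ht

end

end Pool.Agent.PHI
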