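import Pool.Agent.PHI.D1L
import Pool.Agent.PHI.Mna
import Pool.Agent.PHI.Bds

/-! Module PHI-G5p.  Both views.  The mean of a sum over the reflected record pairs is the mean of the sum over the record pairs seen from
the other end: for each time distance `m` shift by `-m` and replace `m` by `-m`.  Then the inequality `d1` of each pair is divided by the
common `life` and averaged. -/

set_option autoImplicit false

namespace Pool.Agent.PHI

variable {X : ℤ → ℝ} {u v : ℤ → ℕ} {D : ℕ} {eps F : ℝ} {n0 K1 : ℕ}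

private theorem G5p_mem {X : ℤ → ℝ} {K1 K : ℕ} {j m : ℤ} (hm : m ∈ QQ X K1 K j) :
    (m ∈ Finset.Icc (-(K : ℤ)) K) ∧ Rec X (j + m) j ∧ K1 < hh X (j + m) j ∧ hh X (j + m) j < K := by
  simpa only [QQ, Finset.mem_filter] using hm

private theorem G5p_sub (X : ℤ → ℝ) (K1 K : ℕ) (j : ℤ) : QQ X K1 K j ⊆ Finset.Icc (-(K : ℤ)) K := by
  intro m hm
  exact (G5p_mem hm).1

private theorem G5p_fw (h : Sys X u v D eps F n0 K1) {K : ℕ} {j m : ℤ} (hm : m ∈ QQ X K1 K j) :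
    -m ∈ QQ (Xr X) K1 K (j + m) := by
  obtain ⟨h1, h2, h3, h4⟩ := G5p_mem hm
  have e : j + m + -m = j := by ring
  have h5 := rf_rec h h2
  have h6 := rf_hh h h2
  rw [Finset.mem_Icc] at h1
  simp only [QQ, Finset.mem_filter, Finset.mem_Icc]
  rw [e, h6]
  exact ⟨⟨by omega, by omega⟩, h5, h3, h4⟩

private theorem G5p_iff (h : Sys X u v D eps F n0 K1) {K : ℕ} {j m : ℤ} :
    m ∈ QQ (Xr X) K1 K (j + -m) ↔ -m ∈ QQ X K1 K j := by
  constructor
  · intro hm
    have h1 := G5p_fw h.refl hm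
    rw [Xr_Xr] at h1
    have e : j + -m + m = j := by ring
    rwa [e] at h1
  · intro hm
    have h1 := G5p_fw h hm
    rwa [neg_neg] at h1

theorem g5_shift {E : (ℤ → ℝ) → ℝ} (hE : Mean E) (h : Sys X u v D eps F n0 K1) (K : ℕ) (g : ℤ → ℤ → ℝ) {B : ℝ}
    (hB : ∀ j, ∀ m ∈ QQ (Xr X) K1 K j, |g (j + m) j| ≤ B) :
    E (fun j => ∑ m ∈ QQ (Xr X) K1 K j, g (j + m) j) = E (fun j => ∑ m ∈ QQ X K1 K j, g j (j + m)) := by
  have hB' : ∀ j, ∀ m ∈ QQ X K1 K j, |g j (j + m)| ≤ B := by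
    intro j m hm
    have h1 := hB (j + m) (-m) (G5p_fw h hm)
    have e : j + m + -m = j := by ring
    rwa [e] at h1
  have h1 := Mean.sum_filter hE (Finset.Icc (-(K : ℤ)) K) (QQ (Xr X) K1 K) (G5p_sub (Xr X) K1 K)
    (f := fun m j => g (j + m) j) hB
  have h2 := Mean.sum_filter hE (Finset.Icc (-(K : ℤ)) K) (QQ X K1 K) (G5p_sub X K1 K)
    (f := fun m j => g j (j + m)) hB'
  rw [h1, h2]
  refine Finset.sum_bij' (fun m _ => -m) (fun m _ => -m) ?_ ?_ ?_ ?_ ?_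
  · intro m hm
    rw [Finset.mem_Icc] at hm ⊢
    omega
  · intro m hm
    rw [Finset.mem_Icc] at hm ⊢
    omega
  · intro m _
    exact neg_neg m
  · intro m _
    exact neg_neg m
  · intro m _
    have hbd := Bd.ite (p := fun t => m ∈ QQ (Xr X) K1 K t) (f := fun t => g (t + m) t) fun t ht => hB t m ht
    have h3 := Mean.shiftk hE hbd (-m)
    refine (congrArg E (funext fun t => ?_)).trans (h3.symm.trans (congrArg E (funext fun t => ?_)))
    · by_cases hc : m ∈ QQ (Xr X) K1 K t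
      · rw [if_pos hc, if_pos hc]
      · rw [if_neg hc, if_neg hc]
    · have e : t + -m + m = t := by ring
      by_cases hc : -m ∈ QQ X K1 K t
      · rw [if_pos hc, if_pos ((G5p_iff h).2 hc), e]
      · rw [if_neg hc, if_neg fun hh => hc ((G5p_iff h).1 hh)]

theorem g5 {E : (ℤ → ℝ) → ℝ} (hE : Mean E) (h : Sys X u v D eps F n0 K1) {P : Fl → Fl → ℝ → ℝ → ℝ → ℝ} {C : ℝ}
    (hP : Cert P C) (he : 0 < eps) (K : ℕ) :
    E (fun j => ∑ m ∈ QQ X K1 K j, bj P eps X u v (j + m) j / life u v (j + m) j) +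
      E (fun j => ∑ m ∈ QQ (Xr X) K1 K j, bj P eps (Xr X) (ur D u) (ur D v) (j + m) j / life (ur D u) (ur D v) (j + m) j) ≤
    E (fun j => ∑ m ∈ QQ X K1 K j, pj P eps X u v (j + m) j / life u v (j + m) j) +
      E (fun j => ∑ m ∈ QQ (Xr X) K1 K j, pj P eps (Xr X) (ur D u) (ur D v) (j + m) j / life (ur D u) (ur D v) (j + m) j) := by
  have b1 : ∀ j, ∀ m ∈ QQ X K1 K j, |bj P eps X u v (j + m) j / life u v (j + m) j| ≤ C / eps := by
    intro j m hm
    obtain ⟨-, h2, h3, -⟩ := G5p_mem hm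
    exact bj_bd h hP he h2 h3
  have b2 : ∀ j, ∀ m ∈ QQ (Xr X) K1 K j,
      |bj P eps (Xr X) (ur D u) (ur D v) (j + m) j / life (ur D u) (ur D v) (j + m) j| ≤ C / eps := by
    intro j m hm
    obtain ⟨-, h2, h3, -⟩ := G5p_mem hm
    exact bj_bd h.refl hP he h2 h3
  have b3 : ∀ j, ∀ m ∈ QQ X K1 K j, |pj P eps X u v (j + m) j / life u v (j + m) j| ≤ C / eps := by
    intro j m hm
    obtain ⟨-, h2, h3, -⟩ := G5p_mem hm
    exact pj_bd h hP he h2 h3
  have b4 : ∀ j, ∀ m ∈ QQ (Xr X) K1 K j,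
      |pj P eps (Xr X) (ur D u) (ur D v) (j + m) j / life (ur D u) (ur D v) (j + m) j| ≤ C / eps := by
    intro j m hm
    obtain ⟨-, h2, h3, -⟩ := G5p_mem hm
    exact pj_bd h.refl hP he h2 h3
  have flip : ∀ g : ℤ → ℤ → ℝ, (∀ j, ∀ m ∈ QQ (Xr X) K1 K j, |g (j + m) j| ≤ C / eps) →
      ∀ j, ∀ m ∈ QQ X K1 K j, |g j (j + m)| ≤ C / eps := by
    intro g hg j m hm
    have h1 := hg (j + m) (-m) (G5p_fw h hm)
    have e : j + m + -m = j := by ring
    rwa [e] at h1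
  rw [g5_shift hE h K (fun a b => bj P eps (Xr X) (ur D u) (ur D v) a b / life (ur D u) (ur D v) a b) b2,
    g5_shift hE h K (fun a b => pj P eps (Xr X) (ur D u) (ur D v) a b / life (ur D u) (ur D v) a b) b4]
  have c2 := flip (fun a b => bj P eps (Xr X) (ur D u) (ur D v) a b / life (ur D u) (ur D v) a b) b2
  have c4 := flip (fun a b => pj P eps (Xr X) (ur D u) (ur D v) a b / life (ur D u) (ur D v) a b) b4
  have B1 := Bd.sum_filter (Finset.Icc (-(K : ℤ)) K) (QQ X K1 K) (G5p_sub X K1 K)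
    (f := fun m j => bj P eps X u v (j + m) j / life u v (j + m) j) b1
  have B2 := Bd.sum_filter (Finset.Icc (-(K : ℤ)) K) (QQ X K1 K) (G5p_sub X K1 K)
    (f := fun m j => bj P eps (Xr X) (ur D u) (ur D v) j (j + m) / life (ur D u) (ur D v) j (j + m)) c2
  have B3 := Bd.sum_filter (Finset.Icc (-(K : ℤ)) K) (QQ X K1 K) (G5p_sub X K1 K)
    (f := fun m j => pj P eps X u v (j + m) j / life u v (j + m) j) b3
  have B4 := Bd.sum_filter (Finset.Icc (-(K : ℤ)) K) (QQ X K1 K) (G5p_sub X K1 K)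
    (f := fun m j => pj P eps (Xr X) (ur D u) (ur D v) j (j + m) / life (ur D u) (ur D v) j (j + m)) c4
  rw [← hE.add _ _ B1 B2, ← hE.add _ _ B3 B4]
  refine hE.mono _ _ (Bd.add B1 B2) (Bd.add B3 B4) fun j => ?_
  rw [← Finset.sum_add_distrib, ← Finset.sum_add_distrib]
  refine Finset.sum_le_sum fun m hm => ?_
  obtain ⟨-, h2, h3, -⟩ := G5p_mem hm
  have hd := d1 h hP he h2 h3
  rw [rf_life h (j + m) j, ← add_div, ← add_div]
  exact div_le_div_of_nonneg_right hd (Nat.cast_nonneg _)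

end Pool.Agent.PHI
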