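import Pool.Agent.PHI.G1f
import Pool.Agent.PHI.G5p
import Pool.Agent.PHI.G3p

/-! Module PHI-Asm.  Assembly for fixed `K`: the views of `(X, u, v)` and of the reflected orbit are added, `bnd` and `g5` cancel the
values of the pairs, and the entropy terms of both orbits are bounded from below by `tel` and `g3`. -/

set_option autoImplicit false

namespace Pool.Agent.PHI

variable {X : ℤ → ℝ} {u v : ℤ → ℕ} {D : ℕ} {eps F : ℝ} {n0 K1 : ℕ}

open Classical in
private theorem Asm_RR {K : ℕ} {j m : ℤ} (hm : m ∈ RR X K1 K j) :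
    Rec X (j + m) j ∧ K1 < hh X (j + m) j ∧ nn (j + m) j < K := by
  unfold RR at hm
  rw [Finset.mem_filter] at hm
  obtain ⟨-, h1, h2, h3⟩ := hm
  have h4 := h1.sab
  exact ⟨h1, by omega, by omega⟩

open Classical in
private theorem Asm_QQ {K : ℕ} {j m : ℤ} (hm : m ∈ QQ X K1 K j) :
    Rec X (j + m) j ∧ K1 < hh X (j + m) j ∧ nn (j + m) j < K := by
  unfold QQ at hm
  rw [Finset.mem_filter] at hm
  obtain ⟨-, h1, h2, h3⟩ := hm
  have h4 := h1.sab
  exact ⟨h1, h2, by omega⟩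

open Classical in
private theorem Asm_CC {K : ℕ} (hK : K1 < K) {j m : ℤ} (hm : m ∈ CC X K j) :
    Rec X (j + m) j ∧ K1 < hh X (j + m) j ∧ nn (j + m) j < K := by
  unfold CC at hm
  rw [Finset.mem_filter] at hm
  obtain ⟨-, h1, h2, h3⟩ := hm
  have h4 := h1.sab
  exact ⟨h1, by omega, by omega⟩

open Classical in
private theorem Asm_subR (K : ℕ) (t : ℤ) : RR X K1 K t ⊆ Finset.Icc (-(K : ℤ)) K := by
  unfold RR
  exact Finset.filter_subset _ _

open Classical in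
private theorem Asm_subQ (K : ℕ) (t : ℤ) : QQ X K1 K t ⊆ Finset.Icc (-(K : ℤ)) K := by
  unfold QQ
  exact Finset.filter_subset _ _

open Classical in
private theorem Asm_subC (K : ℕ) (t : ℤ) : CC X K t ⊆ Finset.Icc (-(K : ℤ)) K := by
  unfold CC
  exact Finset.filter_subset _ _

/-- the values of the divided pairs -/
private theorem Asm_b {E : (ℤ → ℝ) → ℝ} (hE : Mean E) (h : Sys X u v D eps F n0 K1) {P : Fl → Fl → ℝ → ℝ → ℝ → ℝ} {C : ℝ}
    (hP : Cert P C) (he : 0 < eps) {K : ℕ} (hK : K1 < K) :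
    E (fun j => ∑ m ∈ RR X K1 K j, bj P eps X u v (j + m) j / life u v (j + m) j) ≤
      E (fun j => ∑ m ∈ QQ X K1 K j, bj P eps X u v (j + m) j / life u v (j + m) j) + 2 * C / eps := by
  have hR : Bd (fun j => ∑ m ∈ RR X K1 K j, bj P eps X u v (j + m) j / life u v (j + m) j) :=
    Bd.sum_filter (Finset.Icc (-(K : ℤ)) K) (fun j => RR X K1 K j) (Asm_subR K)
      (f := fun m j => bj P eps X u v (j + m) j / life u v (j + m) j) fun t m hm =>
      bj_bd h hP he (Asm_RR hm).1 (Asm_RR hm).2.1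
  have hQ : Bd (fun j => ∑ m ∈ QQ X K1 K j, bj P eps X u v (j + m) j / life u v (j + m) j) :=
    Bd.sum_filter (Finset.Icc (-(K : ℤ)) K) (fun j => QQ X K1 K j) (Asm_subQ K)
      (f := fun m j => bj P eps X u v (j + m) j / life u v (j + m) j) fun t m hm =>
      bj_bd h hP he (Asm_QQ hm).1 (Asm_QQ hm).2.1
  have h1 := hE.mono _ _ hR (hQ.add (Bd.const (2 * C / eps))) fun j => bnd h hP he hK j
  rw [hE.add _ _ hQ (Bd.const _), hE.const] at h1
  exact h1

/-- the entropy terms -/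
private theorem Asm_l {E : (ℤ → ℝ) → ℝ} (hE : Mean E) (h : Sys X u v D eps F n0 K1)
    (he : 0 < eps) (hn0 : 1 ≤ n0) {K : ℕ} (hK : K1 < K)
    (hn : 2 * n0 ≤ K) (hK4 : 4 ≤ K) (hl : Real.log 4 + Real.log eps ≤ Real.log K) :
    (1 - D / n0) * (Real.log K - Real.log 4 - Real.log eps) - F * D - D - 2 * Real.log (K1 + 1) ≤
      E (fun j => ∑ m ∈ RR X K1 K j, Real.log (life u v (j + m) j / eps) -
        ∑ m ∈ QQ X K1 K j, Real.log (life u v (j + m) j / eps)) := by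
  have hR : Bd (fun j => ∑ m ∈ RR X K1 K j, Real.log (life u v (j + m) j / eps)) :=
    Bd.sum_filter (Finset.Icc (-(K : ℤ)) K) (fun j => RR X K1 K j) (Asm_subR K)
      (f := fun m j => Real.log (life u v (j + m) j / eps)) fun t m hm =>
      log_bd h he (Asm_RR hm).1 (Asm_RR hm).2.1 (Asm_RR hm).2.2
  have hQ : Bd (fun j => ∑ m ∈ QQ X K1 K j, Real.log (life u v (j + m) j / eps)) :=
    Bd.sum_filter (Finset.Icc (-(K : ℤ)) K) (fun j => QQ X K1 K j) (Asm_subQ K)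
      (f := fun m j => Real.log (life u v (j + m) j / eps)) fun t m hm =>
      log_bd h he (Asm_QQ hm).1 (Asm_QQ hm).2.1 (Asm_QQ hm).2.2
  have hC : Bd (fun j => ∑ m ∈ CC X K j, Real.log (life u v (j + m) j / eps)) :=
    Bd.sum_filter (Finset.Icc (-(K : ℤ)) K) (fun j => CC X K j) (Asm_subC K)
      (f := fun m j => Real.log (life u v (j + m) j / eps)) fun t m hm =>
      log_bd h he (Asm_CC hK hm).1 (Asm_CC hK hm).2.1 (Asm_CC hK hm).2.2
  have h1 := hE.mono _ _ (hC.sub (Bd.const (2 * Real.log (K1 + 1)))) (hR.sub hQ) fun j => tel h he hK j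
  rw [hE.sub hC (Bd.const _), hE.const] at h1
  have h2 := g3 hE h he hn0 hK hn hK4 hl
  linarith

/-- one view -/
private theorem Asm_one {E : (ℤ → ℝ) → ℝ} (hE : Mean E) (h : Sys X u v D eps F n0 K1) {P : Fl → Fl → ℝ → ℝ → ℝ → ℝ}
    {C eta : ℝ} (hP : Cert P C) (he : 0 < eps) (hn0 : 1 ≤ n0) (ht : 0 ≤ eta)
    (hv : ∀ e f : ℕ, n0 ≤ e → n0 ≤ f → VV e f + err C eps e f ≤ (1 + eta) * Vd e f) {K : ℕ} (hK : K1 < K)
    (hn : 2 * n0 ≤ K) (hK4 : 4 ≤ K) (hl : Real.log 4 + Real.log eps ≤ Real.log K) :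
    E (fun j => ∑ m ∈ QQ X K1 K j, pj P eps X u v (j + m) j / life u v (j + m) j) +
      phi ^ 2 / eps * ((1 - D / n0) * (Real.log K - Real.log 4 - Real.log eps) - F * D - D - 2 * Real.log (K1 + 1)) ≤
      E (fun j => ∑ m ∈ QQ X K1 K j, bj P eps X u v (j + m) j / life u v (j + m) j) + 2 * C / eps +
        (1 + eta) * (D * (1 + Real.log K)) := by
  have h1 := g1 hE h hP he hn0 ht hv (K := K) (by omega)
  have h2 := Asm_b hE h hP he hK
  have h3 := Asm_l hE h he hn0 hK hn hK4 hl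
  have h4 : 0 ≤ phi ^ 2 / eps := by positivity
  have h5 := mul_le_mul_of_nonneg_left h3 h4
  linarith

theorem asm {E : (ℤ → ℝ) → ℝ} (hE : Mean E) (h : Sys X u v D eps F n0 K1) {P : Fl → Fl → ℝ → ℝ → ℝ → ℝ} {C eta : ℝ}
    (hP : Cert P C) (he : 0 < eps) (hn0 : 1 ≤ n0) (ht : 0 ≤ eta)
    (hv : ∀ e f : ℕ, n0 ≤ e → n0 ≤ f → VV e f + err C eps e f ≤ (1 + eta) * Vd e f) {K : ℕ} (hK : K1 < K)
    (hn : 2 * n0 ≤ K) (hK4 : 4 ≤ K) (hl : Real.log 4 + Real.log eps ≤ Real.log K) :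
    phi ^ 2 / eps * ((1 - D / n0) * (Real.log K - Real.log 4 - Real.log eps) - F * D - D - 2 * Real.log (K1 + 1)) ≤
      (1 + eta) * (D * (1 + Real.log K)) + 2 * C / eps := by
  have h1 := Asm_one hE h hP he hn0 ht hv hK hn hK4 hl
  have h2 := Asm_one hE h.refl hP he hn0 ht hv hK hn hK4 hl
  have h3 := g5 hE h hP he K
  linarith

end Pool.Agent.PHI
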