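import Pool.Agent.PHI.Defs

/-! Module PHI-Bas.  Visitors of a gap and record pairs: elementary facts.  The visitors `j - ee`, `j + ff` exist by `Sys.vis`
(time windows `[j - K, j)` and `(j, j + K]`), and there is no visitor in the open time window between them. -/

set_option autoImplicit false

namespace Pool.Agent.PHI

variable {X : ℤ → ℝ} {u v : ℤ → ℕ} {D : ℕ} {eps F : ℝ} {n0 K1 : ℕ}

theorem ee_spec (h : Sys X u v D eps F n0 K1) {i j : ℤ} (hij : X i < X j) :
    0 < ee X i j ∧ Btw X i j (j - ee X i j) ∧ ∀ k : ℕ, 0 < k → k < ee X i j → ¬ Btw X i j (j - k) := by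
  have hne : {k : ℕ | 0 < k ∧ Btw X i j (j - k)}.Nonempty := by
    obtain ⟨K, hK⟩ := h.vis i j hij
    obtain ⟨k, h1, h2, h3⟩ := hK (j - K)
    refine ⟨(j - k).toNat, ?_, ?_⟩
    · omega
    · have h4 : j - ((j - k).toNat : ℤ) = k := by omega
      rw [h4]
      exact h3
  have hm := Nat.sInf_mem hne
  refine ⟨hm.1, hm.2, fun k hk hk2 hb => ?_⟩
  exact Nat.notMem_of_lt_sInf hk2 ⟨hk, hb⟩

theorem ff_spec (h : Sys X u v D eps F n0 K1) {i j : ℤ} (hij : X i < X j) :
    0 < ff X i j ∧ Btw X i j (j + ff X i j) ∧ ∀ k : ℕ, 0 < k → k < ff X i j → ¬ Btw X i j (j + k) := by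
  have hne : {k : ℕ | 0 < k ∧ Btw X i j (j + k)}.Nonempty := by
    obtain ⟨K, hK⟩ := h.vis i j hij
    obtain ⟨k, h1, h2, h3⟩ := hK (j + 1)
    refine ⟨(k - j).toNat, ?_, ?_⟩
    · omega
    · have h4 : j + ((k - j).toNat : ℤ) = k := by omega
      rw [h4]
      exact h3
  have hm := Nat.sInf_mem hne
  refine ⟨hm.1, hm.2, fun k hk hk2 hb => ?_⟩
  exact Nat.notMem_of_lt_sInf hk2 ⟨hk, hb⟩

theorem ee_eq {X : ℤ → ℝ} {i j : ℤ} {k : ℕ} (hk : 0 < k) (hb : Btw X i j (j - k))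
    (hm : ∀ l : ℕ, 0 < l → l < k → ¬ Btw X i j (j - l)) : ee X i j = k := by
  refine le_antisymm (Nat.sInf_le ⟨hk, hb⟩) ?_
  by_contra hlt
  rw [not_le] at hlt
  have hmem : ee X i j ∈ {k : ℕ | 0 < k ∧ Btw X i j (j - k)} := Nat.sInf_mem ⟨k, hk, hb⟩
  exact hm _ hmem.1 hlt hmem.2

theorem ff_eq {X : ℤ → ℝ} {i j : ℤ} {k : ℕ} (hk : 0 < k) (hb : Btw X i j (j + k))
    (hm : ∀ l : ℕ, 0 < l → l < k → ¬ Btw X i j (j + l)) : ff X i j = k := by
  refine le_antisymm (Nat.sInf_le ⟨hk, hb⟩) ?_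
  by_contra hlt
  rw [not_le] at hlt
  have hmem : ff X i j ∈ {k : ℕ | 0 < k ∧ Btw X i j (j + k)} := Nat.sInf_mem ⟨k, hk, hb⟩
  exact hm _ hmem.1 hlt hmem.2

/-- no visitor in the open time window `(j - e, j + f)` -/
theorem not_btw {X : ℤ → ℝ} {i j : ℤ} (k : ℤ) (h1 : j - ee X i j < k) (h2 : k < j + ff X i j) : ¬ Btw X i j k := by
  intro hb
  rcases lt_trichotomy k j with hk | hk | hk
  · have h3 : (j - k).toNat < ee X i j := by omega
    refine Nat.notMem_of_lt_sInf h3 ⟨by omega, ?_⟩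
    have h4 : j - ((j - k).toNat : ℤ) = k := by omega
    rw [h4]
    exact hb
  · rw [hk] at hb
    exact lt_irrefl _ hb.2
  · have h3 : (k - j).toNat < ff X i j := by omega
    refine Nat.notMem_of_lt_sInf h3 ⟨by omega, ?_⟩
    have h4 : j + ((k - j).toNat : ℤ) = k := by omega
    rw [h4]
    exact hb

theorem y1_btw (h : Sys X u v D eps F n0 K1) {i j : ℤ} (hij : X i < X j) : Btw X i j (y1 X i j) := by
  unfold y1
  split_ifs
  · exact (ee_spec h hij).2.1
  · exact (ff_spec h hij).2.1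

theorem y2_btw (h : Sys X u v D eps F n0 K1) {i j : ℤ} (hij : X i < X j) : Btw X i j (y2 X i j) := by
  unfold y2
  split_ifs
  · exact (ff_spec h hij).2.1
  · exact (ee_spec h hij).2.1

theorem y1_lt_y2 (h : Sys X u v D eps F n0 K1) {i j : ℤ} (hij : X i < X j) : X (y1 X i j) < X (y2 X i j) := by
  unfold y1 y2
  split_ifs with hc
  · exact hc
  · refine lt_of_le_of_ne (not_lt.1 hc) fun he => ?_
    have h1 := h.inj he
    have h2 := (ee_spec h hij).1
    have h3 := (ff_spec h hij).1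
    omega

/-- a point strictly closer in space than the farther visitor `y1` and visiting the gap `(y1, j)`: `zz` of a pair is a visitor -/
theorem zz_btw (h : Sys X u v D eps F n0 K1) {i j : ℤ} (hij : X i < X j) : Btw X i j (zz X i j) := by
  unfold zz
  split_ifs
  · exact (ff_spec h hij).2.1
  · exact (ee_spec h hij).2.1

theorem Rec.ne {X : ℤ → ℝ} {i j : ℤ} (h : Rec X i j) : i ≠ j := by
  rintro rfl
  exact lt_irrefl _ h.1

theorem Rec.nn_pos {X : ℤ → ℝ} {i j : ℤ} (h : Rec X i j) : 0 < nn i j := by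
  have h1 := h.ne
  unfold nn
  omega

theorem Rec.pa {X : ℤ → ℝ} {i j : ℤ} (h : Rec X i j) (hij : i < j) : (nn i j : ℤ) = j - i ∧ nn i j < ee X i j := by
  have h1 := h.2.1
  unfold nn
  omega

theorem Rec.fu {X : ℤ → ℝ} {i j : ℤ} (h : Rec X i j) (hij : j < i) : (nn i j : ℤ) = i - j ∧ nn i j < ff X i j := by
  have h1 := h.2.2
  unfold nn
  omega

/-- `(sa, sb)` is `(n, w)` or `(w, n)`, the sub-box is contained in the box and is smaller. -/
theorem Rec.sab {X : ℤ → ℝ} {i j : ℤ} (h : Rec X i j) : sa X i j ≤ ee X i j ∧ sb X i j ≤ ff X i j ∧ hs X i j < hh X i j ∧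
    hs X i j = nn i j + ww X i j ∧ nn i j ≤ hs X i j := by
  unfold hs hh sa sb ww
  rcases lt_or_gt_of_ne h.ne with hij | hij
  · have h1 := h.pa hij
    rw [if_pos hij, if_pos hij, if_pos hij]
    omega
  · have h1 := h.fu hij
    have h2 : ¬ i < j := by omega
    rw [if_neg h2, if_neg h2, if_neg h2]
    omega

end Pool.Agent.PHI
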