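import Pool.Agent.PHI.Tsp
import Pool.Agent.PHI.Dcw
import Pool.Agent.PHI.Tel

/-! Module PHI-Cra.  Crossing pairs, first estimate.  For fixed `m` transport along the lives turns the sum of the constant value
divided by the life into the value at the time of death; at one base there is at most one crossing pair, and its value is bounded by
the number of the windows of length `K / 2` in which the base is the leftmost point of its label. -/

set_option autoImplicit false

namespace Pool.Agent.PHI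

variable {X : ℤ → ℝ} {u v : ℤ → ℕ} {D : ℕ} {eps F : ℝ} {n0 K1 : ℕ}

private def Cra_A (X : ℤ → ℝ) (K : ℕ) (i j : ℤ) : Prop := Rec X i j ∧ hs X i j < K ∧ K ≤ hh X i j

private noncomputable def Cra_n (X : ℤ → ℝ) (K : ℕ) (i j : ℤ) : ℝ :=
  ((min (min (ee X i j) (ff X i j)) (K / 2) : ℕ) : ℝ)

private theorem Cra_n0 (X : ℤ → ℝ) (K : ℕ) (i j : ℤ) : 0 ≤ Cra_n X K i j ∧ Cra_n X K i j ≤ K := by
  unfold Cra_n
  refine ⟨Nat.cast_nonneg _, ?_⟩
  rw [Nat.cast_le]
  exact (min_le_right _ _).trans (Nat.div_le_self K 2)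

private theorem Cra_succ (h : Sys X u v D eps F n0 K1) {K : ℕ} {i j : ℤ} (hij : X i < X j) (hu : u i = u j) :
    (Cra_A X K (i + 1) (j + 1) ↔ Cra_A X K i j) ∧ Cra_n X K (i + 1) (j + 1) = Cra_n X K i j := by
  unfold Cra_A Cra_n
  rw [Rec_succ h hij hu, hs_succ h hij hu, hh_succ h hij hu, ee_succ h hij hu, ff_succ h hij hu]
  exact ⟨Iff.rfl, rfl⟩

private theorem Cra_back (h : Sys X u v D eps F n0 K1) {K : ℕ} {i j : ℤ} (hA : Cra_A X K i j) (hd : dv v i j ≠ 0) :
    Cra_A X K (i - 1) (j - 1) ∧ dv v (i - 1) (j - 1) + 1 = dv v i j ∧ du u (i - 1) (j - 1) = du u i j + 1 ∧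
      life u v (i - 1) (j - 1) = life u v i j ∧ Cra_n X K (i - 1) (j - 1) = Cra_n X K i j := by
  have hv : v i = v j := by
    by_contra hc
    exact hd ((dv_zero h hA.1.ne).2 hc)
  obtain ⟨h5, h6⟩ := pred_of_v h hA.1.1 hv
  have hne : i - 1 ≠ j - 1 := by
    have := hA.1.ne
    omega
  have h1 := du_succ h hne h6
  have h2 := dv_succ h hne h6
  have h3 := life_succ h hne h6
  obtain ⟨h7, h8⟩ := Cra_succ (K := K) h h5 h6
  rw [sub_add_cancel, sub_add_cancel] at h1 h2 h3 h7 h8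
  exact ⟨h7.1 hA, h2.symm, h1.symm, h3.symm, h8.symm⟩

private theorem Cra_iter (h : Sys X u v D eps F n0 K1) {K : ℕ} {i j : ℤ} (hA : Cra_A X K i j) (k : ℕ) (hk : k ≤ dv v i j) :
    Cra_A X K (i - k) (j - k) ∧ dv v (i - k) (j - k) + k = dv v i j ∧ life u v (i - k) (j - k) = life u v i j ∧
      Cra_n X K (i - k) (j - k) = Cra_n X K i j := by
  induction k with
  | zero =>
    simp only [Nat.cast_zero, sub_zero, add_zero, and_self, and_true]
    exact hA
  | succ k ih =>
    obtain ⟨h1, h2, h3, h4⟩ := ih (by omega)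
    obtain ⟨h5, h6, -, h7, h8⟩ := Cra_back h h1 (by omega)
    have e1 : i - ((k + 1 : ℕ) : ℤ) = i - k - 1 := by push_cast; ring
    have e2 : j - ((k + 1 : ℕ) : ℤ) = j - k - 1 := by push_cast; ring
    rw [e1, e2]
    exact ⟨h5, by omega, by rw [h7, h3], by rw [h8, h4]⟩

private theorem Cra_abs (K : ℕ) (i j : ℤ) : |Cra_n X K i j / (life u v i j : ℝ)| ≤ K := by
  obtain ⟨h0, h1⟩ := Cra_n0 X K i j
  have h2 : (1 : ℝ) ≤ (life u v i j : ℝ) := by exact_mod_cast life_pos u v i j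
  rw [abs_of_nonneg (div_nonneg h0 (by linarith))]
  exact (div_le_self h0 h2).trans h1

open Classical in
private theorem Cra_tr {E : (ℤ → ℝ) → ℝ} (hE : Mean E) (h : Sys X u v D eps F n0 K1) (K : ℕ) (m : ℤ) :
    E (fun t => if Cra_A X K (t + m) t then Cra_n X K (t + m) t / (life u v (t + m) t : ℝ) else 0) =
      E (fun t => if Cra_A X K (t + m) t ∧ du u (t + m) t = 0 then Cra_n X K (t + m) t else 0) := by
  have key := transport (A := fun t => Cra_A X K (t + m) t) (g := fun t => du u (t + m) t)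
    (h := fun t => dv v (t + m) t) (F := fun t => Cra_n X K (t + m) t / (life u v (t + m) t : ℝ))
    (B := ⌊F * (m.natAbs : ℝ)⌋₊) (C := (K : ℝ)) hE ?_ ?_ ?_ ?_
  · rw [key]
    congr 1
    funext t
    by_cases hc : Cra_A X K (t + m) t ∧ du u (t + m) t = 0
    · rw [if_pos hc, if_pos hc]
      obtain ⟨hA, h0⟩ := hc
      have hL : life u v (t + m) t = dv v (t + m) t + 1 := by
        unfold life
        rw [h0]
        omega
      have hs : ∑ k ∈ Finset.range (dv v (t + m) t + 1),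
            Cra_n X K (t - (k : ℤ) + m) (t - (k : ℤ)) / (life u v (t - (k : ℤ) + m) (t - (k : ℤ)) : ℝ) =
          ∑ k ∈ Finset.range (dv v (t + m) t + 1), Cra_n X K (t + m) t / (life u v (t + m) t : ℝ) := by
        refine Finset.sum_congr rfl fun k hk => ?_
        rw [Finset.mem_range] at hk
        obtain ⟨-, -, h1, h2⟩ := Cra_iter h hA k (by omega)
        have e1 : t - (k : ℤ) + m = t + m - k := by ring
        rw [e1, h1, h2]
      rw [hs, Finset.sum_const, Finset.card_range, nsmul_eq_mul, hL]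
      have : ((dv v (t + m) t + 1 : ℕ) : ℝ) ≠ 0 := by positivity
      field_simp
    · rw [if_neg hc, if_neg hc]
  · intro t hA hg
    have hne := hA.1.ne
    have hu : u (t + m) = u t := by
      by_contra hc
      exact hg ((du_zero h hne).2 hc)
    have e1 : t + 1 + m = t + m + 1 := by ring
    simp only [e1]
    exact ⟨(Cra_succ h hA.1.1 hu).1.2 hA, du_succ h hne hu, dv_succ h hne hu⟩
  · intro t hA hg
    have e1 : t - 1 + m = t + m - 1 := by ring
    simp only [e1]
    obtain ⟨h1, h2, h3, -, -⟩ := Cra_back h hA hg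
    exact ⟨h1, h2, h3⟩
  · intro t hA
    have h1 := life_le0 h hA.1.ne
    have h2 : nn (t + m) t = m.natAbs := by
      unfold nn
      congr 1
      ring
    rw [h2] at h1
    refine Nat.le_floor ?_
    unfold life at h1
    push_cast at h1 ⊢
    linarith
  · intro t _
    exact Cra_abs _ _ _

private theorem Cra_CC {K : ℕ} {j m : ℤ} : m ∈ CC X K j ↔ m ∈ Finset.Icc (-(K : ℤ)) K ∧ Cra_A X K (j + m) j := by
  classical
  unfold CC Cra_A
  rw [Finset.mem_filter]

private theorem Cra_sum {s : Finset ℤ} {g : ℤ → ℝ} {B : ℝ} (hB : 0 ≤ B) (hc : s.card ≤ 1) (hg : ∀ m ∈ s, g m ≤ B) :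
    ∑ m ∈ s, g m ≤ B := by
  have h1 := Finset.sum_le_card_nsmul s g B hg
  rw [nsmul_eq_mul] at h1
  have h2 : (s.card : ℝ) ≤ 1 := by exact_mod_cast hc
  nlinarith

open Classical in
private theorem Cra_pt (h : Sys X u v D eps F n0 K1) (K : ℕ) (j : ℤ) :
    ∑ m ∈ Finset.Icc (-(K : ℤ)) K, (if Cra_A X K (j + m) j ∧ du u (j + m) j = 0 then Cra_n X K (j + m) j else 0) ≤
      ∑ a ∈ Finset.range (K / 2), dif X u j a (K / 2 - 1 - a) := by
  have hB : 0 ≤ ∑ a ∈ Finset.range (K / 2), dif X u j a (K / 2 - 1 - a) :=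
    Finset.sum_nonneg fun a _ => (dif_nonneg X u j a _).1
  have hsub : CC X K j ⊆ Finset.Icc (-(K : ℤ)) K := fun m hm => (Cra_CC.1 hm).1
  rw [← Finset.sum_subset hsub]
  · refine Cra_sum hB (CC_card h K j) fun m hm => ?_
    obtain ⟨-, hA⟩ := Cra_CC.1 hm
    split_ifs with hc
    · have hu : u (j + m) ≠ u j := (du_zero h hA.1.ne).1 hc.2
      have h1 := hA.2.2
      exact cnt_dif h hA.1.1 hu (by omega)
    · exact hB
  · intro m hm hm'
    rw [if_neg fun hc => hm' (Cra_CC.2 ⟨hm, hc.1⟩)]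

theorem cr1 {E : (ℤ → ℝ) → ℝ} (hE : Mean E) (h : Sys X u v D eps F n0 K1) (K : ℕ) :
    E (fun j => ∑ m ∈ CC X K j,
      ((min (min (ee X (j + m) j) (ff X (j + m) j)) (K / 2) : ℕ) : ℝ) / life u v (j + m) j) ≤ D := by
  classical
  have hsub : ∀ j, CC X K j ⊆ Finset.Icc (-(K : ℤ)) K := fun j m hm => (Cra_CC.1 hm).1
  have h1 : E (fun j => ∑ m ∈ CC X K j,
      ((min (min (ee X (j + m) j) (ff X (j + m) j)) (K / 2) : ℕ) : ℝ) / life u v (j + m) j) =
      ∑ m ∈ Finset.Icc (-(K : ℤ)) K,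
        E (fun t => if Cra_A X K (t + m) t then Cra_n X K (t + m) t / (life u v (t + m) t : ℝ) else 0) := by
    have h2 := hE.sum_filter (Finset.Icc (-(K : ℤ)) K) (fun j => CC X K j) hsub
      (f := fun m j => Cra_n X K (j + m) j / (life u v (j + m) j : ℝ)) (C := (K : ℝ)) fun t m _ => Cra_abs _ _ _
    unfold Cra_n at h2
    rw [h2]
    refine Finset.sum_congr rfl fun m hm => ?_
    congr 1
    funext t
    by_cases hc : Cra_A X K (t + m) t
    · rw [if_pos (Cra_CC.2 ⟨hm, hc⟩), if_pos hc]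
      rfl
    · rw [if_neg fun hc' => hc (Cra_CC.1 hc').2, if_neg hc]
  have hbd : ∀ m ∈ Finset.Icc (-(K : ℤ)) K,
      Bd (fun t => if Cra_A X K (t + m) t ∧ du u (t + m) t = 0 then Cra_n X K (t + m) t else 0) := by
    intro m _
    refine ⟨(K : ℝ), fun t => ?_⟩
    obtain ⟨h3, h4⟩ := Cra_n0 X K (t + m) t
    beta_reduce
    split_ifs
    · rw [abs_of_nonneg h3]
      exact h4
    · rw [abs_zero]
      exact Nat.cast_nonneg K
  have hbd2 : Bd (fun j => ∑ a ∈ Finset.range (K / 2), dif X u j a (K / 2 - 1 - a)) :=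
    Bd.sum _ fun a _ => ⟨1, fun t => by
      obtain ⟨h1, h2⟩ := dif_nonneg X u t a (K / 2 - 1 - a)
      rw [abs_of_nonneg h1]
      exact h2⟩
  rw [h1, Finset.sum_congr rfl fun m _ => Cra_tr hE h K m, ← hE.sum _ hbd]
  exact (hE.mono _ _ (Bd.sum _ hbd) hbd2 fun t => Cra_pt h K t).trans (dc hE h (K / 2))

end Pool.Agent.PHI
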