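import Pool.Agent.PHI.Lfa

/-! Module PHI-Lfb.  The flags and the values `pj`, `bj` are constant along a life: `i + 1 + du (i+1) (j+1) = i + du i j` and
`i + 1 - dv (i+1) (j+1) = i - dv i j`. -/

set_option autoImplicit false

namespace Pool.Agent.PHI

variable {X : ℤ → ℝ} {u v : ℤ → ℕ} {D : ℕ} {eps F : ℝ} {n0 K1 : ℕ}

private theorem Lfb_du (h : Sys X u v D eps F n0 K1) {i j : ℤ} (hij : i ≠ j) (hu : u i = u j) (k : ℤ) :
    k + 1 + (du u (i + 1) (j + 1) : ℤ) = k + du u i j := by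
  rw [← du_succ h hij hu]
  push_cast
  ring

private theorem Lfb_dv (h : Sys X u v D eps F n0 K1) {i j : ℤ} (hij : i ≠ j) (hu : u i = u j) (k : ℤ) :
    k + 1 - (dv v (i + 1) (j + 1) : ℤ) = k - dv v i j := by
  rw [dv_succ h hij hu]
  push_cast
  ring

private theorem Lfb_ne {i j : ℤ} (hij : X i < X j) : i ≠ j := by
  intro h
  rw [h] at hij
  exact lt_irrefl _ hij

theorem fd_succ (h : Sys X u v D eps F n0 K1) {i j : ℤ} (hij : i ≠ j) (hu : u i = u j) :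
    fd X u (i + 1) (j + 1) = fd X u i j := by
  unfold fd
  rw [Lfb_du h hij hu, Lfb_du h hij hu]

theorem fb_succ (h : Sys X u v D eps F n0 K1) {i j : ℤ} (hij : i ≠ j) (hu : u i = u j) :
    fb X v (i + 1) (j + 1) = fb X v i j := by
  unfold fb
  rw [Lfb_dv h hij hu, Lfb_dv h hij hu]

theorem Lfd_succ (h : Sys X u v D eps F n0 K1) {i j : ℤ} (hij : i ≠ j) (hu : u i = u j) :
    Lfd X u (i + 1) (j + 1) = Lfd X u i j := by
  unfold Lfd
  rw [Lfb_du h hij hu, Lfb_du h hij hu]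

theorem Lfb_succ (h : Sys X u v D eps F n0 K1) {i j : ℤ} (hij : i ≠ j) (hu : u i = u j) :
    Lfb X v (i + 1) (j + 1) = Lfb X v i j := by
  unfold Lfb
  rw [Lfb_dv h hij hu, Lfb_dv h hij hu]

theorem pj_succ (h : Sys X u v D eps F n0 K1) (P : Fl → Fl → ℝ → ℝ → ℝ → ℝ) {i j : ℤ} (hij : X i < X j) (hu : u i = u j) :
    pj P eps X u v (i + 1) (j + 1) = pj P eps X u v i j := by
  unfold pj
  by_cases hc : X (j - ee X i j) < X (j + ff X i j)
  · rw [if_pos ((lt_vis_succ h hij hu).2 hc), if_pos hc, fb_succ h (Lfb_ne hij) hu, fd_succ h (Lfb_ne hij) hu,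
      ff_succ h hij hu, ee_succ h hij hu, life_succ h (Lfb_ne hij) hu]
  · rw [if_neg (fun h1 => hc ((lt_vis_succ h hij hu).1 h1)), if_neg hc, fb_succ h (Lfb_ne hij) hu,
      fd_succ h (Lfb_ne hij) hu, ff_succ h hij hu, ee_succ h hij hu, life_succ h (Lfb_ne hij) hu]

theorem bj_succ (h : Sys X u v D eps F n0 K1) (P : Fl → Fl → ℝ → ℝ → ℝ → ℝ) {i j : ℤ} (hij : X i < X j) (hu : u i = u j) :
    bj P eps X u v (i + 1) (j + 1) = bj P eps X u v i j := by
  unfold bj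
  rw [Lfb_succ h (Lfb_ne hij) hu, Lfd_succ h (Lfb_ne hij) hu, ww_succ h hij hu, nn_succ, life_succ h (Lfb_ne hij) hu]

end Pool.Agent.PHI
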