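import Pool.Agent.PHI.Rfb
import Pool.Agent.PHI.Lfb

/-! Module PHI-D1L.  The inequality between the values of one record pair with `K1 < h`, seen from its two ends.  At the times of birth and
death the pair is a record pair with the same data; the flags seen from the next farther pairs and the flags of the reflected pair are
functions of the flags of the pair, and the inequality is `dP` or `dF` of the certificate. -/

set_option autoImplicit false

namespace Pool.Agent.PHI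

variable {X : ℤ → ℝ} {u v : ℤ → ℕ} {D : ℕ} {eps F : ℝ} {n0 K1 : ℕ}

/-- the data kept along a life -/
private structure D1L_Same (X : ℤ → ℝ) (i j i' j' : ℤ) : Prop where
  lt : X i' < X j'
  rc : Rec X i' j'
  hE : ee X i' j' = ee X i j
  hF : ff X i' j' = ff X i j
  vis : X (j' - ee X i j) < X (j' + ff X i j) ↔ X (j - ee X i j) < X (j + ff X i j)

private theorem D1L_fw (h : Sys X u v D eps F n0 K1) {i j : ℤ} (hr : Rec X i j) (m : ℕ)
    (hm : ∀ l : ℕ, l < m → u (i + l) = u (j + l)) : D1L_Same X i j (i + m) (j + m) := by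
  induction m with
  | zero =>
    simp only [Nat.cast_zero, add_zero]
    exact ⟨hr.1, hr, rfl, rfl, Iff.rfl⟩
  | succ m ih =>
    obtain ⟨a, b, c, d, e⟩ := ih fun l hl => hm l (by omega)
    have hu := hm m (by omega)
    have e1 : i + ((m + 1 : ℕ) : ℤ) = i + m + 1 := by push_cast; ring
    have e2 : j + ((m + 1 : ℕ) : ℤ) = j + m + 1 := by push_cast; ring
    rw [e1, e2]
    refine ⟨lt_succ h a hu, (Rec_succ h a hu).2 b, (ee_succ h a hu).trans c, (ff_succ h a hu).trans d, ?_⟩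
    have h3 := lt_vis_succ h a hu
    rw [ee_succ h a hu, ff_succ h a hu, c, d] at h3
    exact h3.trans e

private theorem D1L_bw (h : Sys X u v D eps F n0 K1) {i j : ℤ} (hr : Rec X i j) (m : ℕ)
    (hm : ∀ l : ℕ, l < m → v (i - l) = v (j - l)) : D1L_Same X i j (i - m) (j - m) := by
  induction m with
  | zero =>
    simp only [Nat.cast_zero, sub_zero]
    exact ⟨hr.1, hr, rfl, rfl, Iff.rfl⟩
  | succ m ih =>
    obtain ⟨a, b, c, d, e⟩ := ih fun l hl => hm l (by omega)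
    have hv := hm m (by omega)
    obtain ⟨hx, hu⟩ := pred_of_v h a hv
    have e1 : i - ((m + 1 : ℕ) : ℤ) = i - m - 1 := by push_cast; ring
    have e2 : j - ((m + 1 : ℕ) : ℤ) = j - m - 1 := by push_cast; ring
    have e3 : i - m - 1 + 1 = i - m := by ring
    have e4 : j - m - 1 + 1 = j - m := by ring
    rw [e1, e2]
    have h1 := ee_succ h hx hu
    have h2 := ff_succ h hx hu
    have h3 := lt_vis_succ h hx hu
    have h4 := Rec_succ h hx hu
    rw [e3, e4] at h1 h2 h3 h4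
    refine ⟨hx, h4.1 b, h1.symm.trans c, h2.symm.trans d, ?_⟩
    rw [← h1, ← h2, c, d] at h3
    exact h3.symm.trans e

private theorem D1L_ne (h : Sys X u v D eps F n0 K1) {i j : ℤ} (hr : Rec X i j) :
    X (j - ee X i j) ≠ X (j + ff X i j) := by
  intro hE
  have h1 := (ee_spec h hr.1).1
  have h2 := (ff_spec h hr.1).1
  have := h.inj hE
  omega

private theorem D1L_ur {w : ℤ → ℕ} {D : ℕ} (hw : ∀ i, w i ≤ D) (i j : ℤ) : ur D w i ≠ ur D w j ↔ w i ≠ w j := by
  have h1 := hw i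
  have h2 := hw j
  simp only [ur]
  omega

/-- the flags seen from the next farther pairs -/
private theorem D1L_cell (h : Sys X u v D eps F n0 K1) {i j : ℤ} (hr : Rec X i j) (hK : K1 < hh X i j) (w : ℤ → ℕ)
    (hw : w = u ∨ w = v) (hne : w i ≠ w j) :
    (i < j → ¬ X (j - ee X i j) < X (j + ff X i j) → cellL w X i j = fa (cell w X i j) ∧
      cellL (ur D w) (Xr X) j i = fc (cell w X i j)) ∧
    (i < j → X (j - ee X i j) < X (j + ff X i j) → cellL w X i j = gc (cell w X i j) ∧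
      cellL (ur D w) (Xr X) j i = ga (cell w X i j)) ∧
    (j < i → ¬ X (j - ee X i j) < X (j + ff X i j) → cellL w X i j = gc (cell w X i j) ∧
      cellL (ur D w) (Xr X) j i = ga (cell w X i j)) ∧
    (j < i → X (j - ee X i j) < X (j + ff X i j) → cellL w X i j = fa (cell w X i j) ∧
      cellL (ur D w) (Xr X) j i = fc (cell w X i j)) := by
  have hD : ∀ i, w i ≤ D := by
    rcases hw with rfl | rfl
    · exact h.ule
    · exact h.vle
  have hc := cell_cases h hr hK w hw hne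
  have key : ∀ z z' : ℤ, zz X i j = z → zz (Xr X) j i = z' →
      cellL w X i j = (if w i ≠ w z then .b else .c) ∧
      cellL (ur D w) (Xr X) j i = (if w j ≠ w z' then .b else .c) := by
    intro z z' h1 h2
    unfold cellL
    rw [h1, h2]
    simp only [D1L_ur hD]
    exact ⟨trivial, trivial⟩
  have z1 : i < j → zz X i j = j + ff X i j ∧ zz (Xr X) j i = j - ee X i j := by
    intro hij
    obtain ⟨a, b⟩ := rf_P h hr hij
    obtain ⟨c, d⟩ := hr.pa hij
    unfold zz
    rw [if_pos hij, if_neg (by omega : ¬ j < i)]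
    refine ⟨rfl, ?_⟩
    omega
  have z2 : j < i → zz X i j = j - ee X i j ∧ zz (Xr X) j i = j + ff X i j := by
    intro hij
    obtain ⟨a, b⟩ := rf_F h hr hij
    obtain ⟨c, d⟩ := hr.fu hij
    unfold zz
    rw [if_neg (by omega : ¬ i < j), if_pos hij]
    refine ⟨rfl, ?_⟩
    omega
  have y1t : X (j - ee X i j) < X (j + ff X i j) → y1 X i j = j - ee X i j ∧ y2 X i j = j + ff X i j := by
    intro hl
    unfold y1 y2
    rw [if_pos hl, if_pos hl]
    exact ⟨rfl, rfl⟩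
  have y1f : ¬ X (j - ee X i j) < X (j + ff X i j) → y1 X i j = j + ff X i j ∧ y2 X i j = j - ee X i j := by
    intro hl
    unfold y1 y2
    rw [if_neg hl, if_neg hl]
    exact ⟨rfl, rfl⟩
  refine ⟨fun hij hl => ?_, fun hij hl => ?_, fun hij hl => ?_, fun hij hl => ?_⟩
  · obtain ⟨a, b⟩ := z1 hij
    obtain ⟨c, d⟩ := y1f hl
    obtain ⟨k1, k2⟩ := key _ _ (a.trans c.symm) (b.trans d.symm)
    rw [k1, k2]
    rcases hc with ⟨c1, c2, c3, c4⟩ | ⟨c1, c2, c3, c4⟩ | ⟨c1, c2, c3, c4⟩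
    · rw [c4, if_pos c1, if_neg (not_not.mpr c3.symm)]; exact ⟨rfl, rfl⟩
    · rw [c4, if_neg (not_not.mpr c1), if_neg (not_not.mpr c3.symm)]; exact ⟨rfl, rfl⟩
    · rw [c4, if_neg (not_not.mpr c1), if_pos c3.symm]; exact ⟨rfl, rfl⟩
  · obtain ⟨a, b⟩ := z1 hij
    obtain ⟨c, d⟩ := y1t hl
    obtain ⟨k1, k2⟩ := key _ _ (a.trans d.symm) (b.trans c.symm)
    rw [k1, k2]
    rcases hc with ⟨c1, c2, c3, c4⟩ | ⟨c1, c2, c3, c4⟩ | ⟨c1, c2, c3, c4⟩
    · rw [c4, if_pos (c2 ▸ c1), if_neg (not_not.mpr (c2.trans c3).symm)]; exact ⟨rfl, rfl⟩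
    · rw [c4, if_pos (c1.symm ▸ c2), if_pos (fun hh => c2 (hh.symm.trans c3.symm))]; exact ⟨rfl, rfl⟩
    · rw [c4, if_neg (not_not.mpr (c1.trans c2)), if_pos (fun hh => c3 (c2.symm.trans hh.symm))]; exact ⟨rfl, rfl⟩
  · obtain ⟨a, b⟩ := z2 hij
    obtain ⟨c, d⟩ := y1f hl
    obtain ⟨k1, k2⟩ := key _ _ (a.trans d.symm) (b.trans c.symm)
    rw [k1, k2]
    rcases hc with ⟨c1, c2, c3, c4⟩ | ⟨c1, c2, c3, c4⟩ | ⟨c1, c2, c3, c4⟩
    · rw [c4, if_pos (c2 ▸ c1), if_neg (not_not.mpr (c2.trans c3).symm)]; exact ⟨rfl, rfl⟩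
    · rw [c4, if_pos (c1.symm ▸ c2), if_pos (fun hh => c2 (hh.symm.trans c3.symm))]; exact ⟨rfl, rfl⟩
    · rw [c4, if_neg (not_not.mpr (c1.trans c2)), if_pos (fun hh => c3 (c2.symm.trans hh.symm))]; exact ⟨rfl, rfl⟩
  · obtain ⟨a, b⟩ := z2 hij
    obtain ⟨c, d⟩ := y1t hl
    obtain ⟨k1, k2⟩ := key _ _ (a.trans c.symm) (b.trans d.symm)
    rw [k1, k2]
    rcases hc with ⟨c1, c2, c3, c4⟩ | ⟨c1, c2, c3, c4⟩ | ⟨c1, c2, c3, c4⟩
    · rw [c4, if_pos c1, if_neg (not_not.mpr c3.symm)]; exact ⟨rfl, rfl⟩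
    · rw [c4, if_neg (not_not.mpr c1), if_neg (not_not.mpr c3.symm)]; exact ⟨rfl, rfl⟩
    · rw [c4, if_neg (not_not.mpr c1), if_pos c3.symm]; exact ⟨rfl, rfl⟩

theorem d1 (h : Sys X u v D eps F n0 K1) {P : Fl → Fl → ℝ → ℝ → ℝ → ℝ} {C : ℝ} (hP : Cert P C) (he : 0 < eps)
    {i j : ℤ} (hr : Rec X i j) (hK : K1 < hh X i j) :
    bj P eps X u v i j + bj P eps (Xr X) (ur D u) (ur D v) j i ≤
      pj P eps X u v i j + pj P eps (Xr X) (ur D u) (ur D v) j i := by
  have hij : i ≠ j := hr.ne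
  have Sd := D1L_fw h hr (du u i j) (du_spec h hij).2
  have Sb := D1L_bw h hr (dv v i j) (dv_spec h hij).2
  have hKd : K1 < hh X (i + du u i j) (j + du u i j) := by
    unfold hh
    rw [Sd.hE, Sd.hF]
    exact hK
  have hKb : K1 < hh X (i - dv v i j) (j - dv v i j) := by
    unfold hh
    rw [Sb.hE, Sb.hF]
    exact hK
  have nd := (du_spec h hij).1
  have nb := (dv_spec h hij).1
  have Cd := D1L_cell h Sd.rc hKd u (Or.inl rfl) nd
  have Cb := D1L_cell h Sb.rc hKb v (Or.inr rfl) nb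
  rw [Sd.hE, Sd.hF, Sd.vis] at Cd
  rw [Sb.hE, Sb.hF, Sb.vis] at Cb
  -- the reflected flags
  have fd' : fd (Xr X) (ur D u) j i = (fd X u i j).star := by
    unfold fd
    rw [rf_du h]
    exact rf_cell h Sd.rc hKd u (Or.inl rfl) nd
  have fb' : fb (Xr X) (ur D v) j i = (fb X v i j).star := by
    unfold fb
    rw [rf_dv h]
    exact rf_cell h Sb.rc hKb v (Or.inr rfl) nb
  have Ld' : Lfd (Xr X) (ur D u) j i = cellL (ur D u) (Xr X) (j + du u i j) (i + du u i j) := by
    unfold Lfd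
    rw [rf_du h]
  have Lb' : Lfb (Xr X) (ur D v) j i = cellL (ur D v) (Xr X) (j - dv v i j) (i - dv v i j) := by
    unfold Lfb
    rw [rf_dv h]
  have Ld : Lfd X u i j = cellL u X (i + du u i j) (j + du u i j) := rfl
  have Lb : Lfb X v i j = cellL v X (i - dv v i j) (j - dv v i j) := rfl
  have fdE : cell u X (i + du u i j) (j + du u i j) = fd X u i j := rfl
  have fbE : cell v X (i - dv v i j) (j - dv v i j) = fb X v i j := rfl
  rw [fdE] at Cd
  rw [fbE] at Cb
  obtain ⟨l1, l2, l3⟩ := life_rec h hr hK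
  have l0 : 0 ≤ (life u v i j : ℝ) / eps := div_nonneg (Nat.cast_nonneg _) he.le
  have l1' : (life u v i j : ℝ) / eps ≤ nn i j := by rw [div_le_iff₀' he]; exact l1
  have l2' : (life u v i j : ℝ) / eps ≤ ww X i j := by rw [div_le_iff₀' he]; exact l2
  have l3' : (life u v i j : ℝ) / eps ≤ ((hh X i j - nn i j - ww X i j : ℕ) : ℝ) := by rw [div_le_iff₀' he]; exact l3
  have hns : nn j i = nn i j := by unfold nn; omega
  have hvis : (Xr X (i - ee (Xr X) j i) < Xr X (i + ff (Xr X) j i)) ↔ ¬ X (j - ee X i j) < X (j + ff X i j) := by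
    have e1 : i - (ee (Xr X) j i : ℤ) = j - ee X i j ∧ i + (ff (Xr X) j i : ℤ) = j + ff X i j := by
      rcases lt_or_gt_of_ne hij with hlt | hlt
      · obtain ⟨a, b⟩ := rf_P h hr hlt
        obtain ⟨c, d⟩ := hr.pa hlt
        constructor <;> omega
      · obtain ⟨a, b⟩ := rf_F h hr hlt
        obtain ⟨c, d⟩ := hr.fu hlt
        constructor <;> omega
    rw [e1.1, e1.2]
    simp only [Xr]
    rw [neg_lt_neg_iff, not_lt]
    exact ⟨le_of_lt, fun hle => lt_of_le_of_ne hle (D1L_ne h hr).symm⟩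
  set l : ℝ := (life u v i j : ℝ) / eps with hl
  have hbj : bj P eps X u v i j = P (Lfb X v i j) (Lfd X u i j) (ww X i j) (nn i j) l := rfl
  have hbj' : bj P eps (Xr X) (ur D u) (ur D v) j i =
      P (Lfb (Xr X) (ur D v) j i) (Lfd (Xr X) (ur D u) j i) (ww (Xr X) j i) (nn i j) l := by
    unfold bj
    rw [rf_life h, hns]
  have hpj : pj P eps X u v i j = if X (j - ee X i j) < X (j + ff X i j) then
      P (fb X v i j) (fd X u i j) (ff X i j) (ee X i j) l else P (fb X v i j) (fd X u i j) (ee X i j) (ff X i j) l := rfl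
  have hpj' : pj P eps (Xr X) (ur D u) (ur D v) j i = if ¬ X (j - ee X i j) < X (j + ff X i j) then
      P (fb X v i j).star (fd X u i j).star (ff (Xr X) j i) (ee (Xr X) j i) l
      else P (fb X v i j).star (fd X u i j).star (ee (Xr X) j i) (ff (Xr X) j i) l := by
    unfold pj
    rw [rf_life h, fb', fd']
    simp only [hvis]
    rfl
  rw [hbj, hbj', hpj, hpj', Lb, Ld, Lb', Ld']
  rcases lt_or_gt_of_ne hij with hlt | hlt
  · obtain ⟨a, b⟩ := rf_P h hr hlt
    obtain ⟨c, d⟩ := hr.pa hlt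
    have hw : ww X i j = ff X i j := by unfold ww; rw [if_pos hlt]
    have hw' : ww (Xr X) j i = ee (Xr X) j i := by unfold ww; rw [if_neg (by omega : ¬ j < i)]
    have h3 : ((hh X i j - nn i j - ww X i j : ℕ) : ℝ) = ((ee X i j - nn i j : ℕ) : ℝ) := by
      congr 1
      rw [hw]
      unfold hh
      omega
    rw [h3] at l3'
    rw [hw] at l2'
    have eE : (ee X i j : ℝ) = nn i j + ((ee X i j - nn i j : ℕ) : ℝ) := by
      rw [← Nat.cast_add]
      congr 1
      omega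
    have eF : (ff (Xr X) j i : ℝ) = nn i j + (ff X i j : ℝ) := by
      rw [← Nat.cast_add]
      congr 1
      omega
    rw [hw, hw', a, eF]
    by_cases hv : X (j - ee X i j) < X (j + ff X i j)
    · obtain ⟨d1, d2⟩ := Cd.2.1 (by omega) hv
      obtain ⟨b1, b2⟩ := Cb.2.1 (by omega) hv
      rw [d1, d2, b1, b2, if_pos hv, if_neg (not_not.mpr hv), eE]
      exact hP.dF _ _ _ _ l0 l1' l2' l3' _ _
    · obtain ⟨d1, d2⟩ := Cd.1 (by omega) hv
      obtain ⟨b1, b2⟩ := Cb.1 (by omega) hv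
      rw [d1, d2, b1, b2, if_neg hv, if_pos hv, eE]
      exact hP.dP _ _ _ _ l0 l1' l3' l2' _ _
  · obtain ⟨a, b⟩ := rf_F h hr hlt
    obtain ⟨c, d⟩ := hr.fu hlt
    have hw : ww X i j = ee X i j := by unfold ww; rw [if_neg (by omega : ¬ i < j)]
    have hw' : ww (Xr X) j i = ff (Xr X) j i := by unfold ww; rw [if_pos hlt]
    have h3 : ((hh X i j - nn i j - ww X i j : ℕ) : ℝ) = ((ff X i j - nn i j : ℕ) : ℝ) := by
      congr 1
      rw [hw]
      unfold hh
      omega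
    rw [h3] at l3'
    rw [hw] at l2'
    have eF : (ff X i j : ℝ) = nn i j + ((ff X i j - nn i j : ℕ) : ℝ) := by
      rw [← Nat.cast_add]
      congr 1
      omega
    have eE : (ee (Xr X) j i : ℝ) = nn i j + (ee X i j : ℝ) := by
      rw [← Nat.cast_add]
      congr 1
      omega
    rw [hw, hw', b, eE]
    by_cases hv : X (j - ee X i j) < X (j + ff X i j)
    · obtain ⟨d1, d2⟩ := Cd.2.2.2 (by omega) hv
      obtain ⟨b1, b2⟩ := Cb.2.2.2 (by omega) hv
      rw [d1, d2, b1, b2, if_pos hv, if_neg (not_not.mpr hv), eF]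
      exact hP.dP _ _ _ _ l0 l1' l3' l2' _ _
    · obtain ⟨d1, d2⟩ := Cd.2.2.1 (by omega) hv
      obtain ⟨b1, b2⟩ := Cb.2.2.1 (by omega) hv
      rw [d1, d2, b1, b2, if_neg hv, if_pos hv, eF]
      exact hP.dF _ _ _ _ l0 l1' l2' l3' _ _

end Pool.Agent.PHI
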