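import Pool.Agent.PHI.Hst
import Pool.Agent.PHI.Ana

/-! Module PHI-D3L.  The inequality for one dying pair.

`D3L_back`: the data of `(y - k, j - k)` are those of `(y, j)` for `k ≤ dv`.  `D3L_FF`: the value `FF` at such a time in terms of the
flags and the life of the next farther pair.  `d3`: `hist` and `ana`. -/

set_option autoImplicit false

namespace Pool.Agent.PHI

variable {X : ℤ → ℝ} {u v : ℤ → ℕ} {D : ℕ} {eps F : ℝ} {n0 K1 : ℕ}

private theorem D3L_back (h : Sys X u v D eps F n0 K1) {y j : ℤ} (hr : Rec X y j) : ∀ k : ℕ, k ≤ dv v y j →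
    Rec X (y - k) (j - k) ∧ ww X (y - k) (j - k) = ww X y j ∧ nn (y - k) (j - k) = nn y j ∧
      life u v (y - k) (j - k) = life u v y j
  | 0, _ => by
    rw [Nat.cast_zero, sub_zero, sub_zero]
    exact ⟨hr, rfl, rfl, rfl⟩
  | k + 1, hk => by
    obtain ⟨h1, h2, h3, h4⟩ := D3L_back h hr k (by omega)
    have hv := (dv_spec h hr.ne).2 k (by omega)
    obtain ⟨h6, h7⟩ := pred_of_v h h1.1 hv
    have e1 : y - ((k + 1 : ℕ) : ℤ) = y - k - 1 := by
      push_cast
      ring
    have e2 : j - ((k + 1 : ℕ) : ℤ) = j - k - 1 := by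
      push_cast
      ring
    have e3 : y - (k : ℤ) = y - k - 1 + 1 := by ring
    have e4 : j - (k : ℤ) = j - k - 1 + 1 := by ring
    have hne : y - (k : ℤ) - 1 ≠ j - k - 1 := by
      intro he
      rw [he] at h6
      exact lt_irrefl _ h6
    have h8 := Rec_succ h h6 h7
    have h9 := ww_succ h h6 h7
    have h10 := nn_succ (y - (k : ℤ) - 1) (j - k - 1)
    have h11 := life_succ h hne h7
    rw [← e3, ← e4] at h8 h9 h10 h11
    rw [e1, e2]
    exact ⟨h8.1 h1, h9.symm.trans h2, h10.symm.trans h3, h11.symm.trans h4⟩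

open Classical in
private theorem D3L_FF (h : Sys X u v D eps F n0 K1) (P : Fl → Fl → ℝ → ℝ → ℝ → ℝ) {y j : ℤ} (hr : Rec X y j) (k : ℕ)
    (hk : k ≤ dv v y j) :
    FF P eps X u v (y - k) (j - k) =
      (if hN : ∃ i, Nf X (y - k) (j - k) i then
        (fun (q r : Fl) (l : ℕ) => P q r (ww X y j) (nn y j) (l / eps) / l - phi ^ 2 / eps * Real.log (l / eps))
          (fb X v hN.choose (j - k)) (fd X u hN.choose (j - k)) (life u v hN.choose (j - k)) else 0) +
        phi ^ 2 / eps * Real.log (life u v y j / eps) := by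
  obtain ⟨h1, h2, h3, h4⟩ := D3L_back h hr k hk
  unfold FF
  by_cases hN : ∃ i, Nf X (y - k) (j - k) i
  · rw [dif_pos hN, dif_pos hN, nf_pj h P h1 hN.choose_spec, h2, h3, h4]
    ring
  · rw [dif_neg hN, dif_neg hN, h4, zero_add]

private theorem D3L_cellL (w : ℤ → ℕ) (X : ℤ → ℝ) (y j : ℤ) : cellL w X y j ≠ .a := by
  unfold cellL
  split_ifs
  · intro h
    cases h
  · intro h
    cases h

open Classical in
theorem d3 (h : Sys X u v D eps F n0 K1) {P : Fl → Fl → ℝ → ℝ → ℝ → ℝ} {C : ℝ} (hP : Cert P C) (he : 0 < eps) (hn0 : 1 ≤ n0)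
    {y j : ℤ} (hr : Rec X y j) (hK : K1 < hs X y j) (hu : u y ≠ u j) :
    ∑ k ∈ Finset.range (dv v y j + 1), FF P eps X u v (y - k) (j - k) ≤
      bj P eps X u v y j + (∑ k ∈ Finset.range (dv v y j + 1), (if acut X u (y - k) (j - k) then (1 : ℝ) else 0)) *
        (VV (ww X y j) (nn y j) + err C eps (ww X y j) (nn y j)) := by
  have hKh : K1 < hh X y j := hK.trans hr.sab.2.2.1
  obtain ⟨n1, n2, -, -, -⟩ := fine_rec h hr hKh
  obtain ⟨l1, l2, -⟩ := life_rec h hr hKh
  have hdu : du u y j = 0 := (du_zero h hr.ne).2 hu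
  have hlife : life u v y j = dv v y j + 1 := by
    unfold life
    rw [hdu, zero_add]
  obtain ⟨ps, hA, hlen, hval, hcut⟩ := hist h hr hK hu
    (fun (q r : Fl) (l : ℕ) => P q r (ww X y j) (nn y j) (l / eps) / l - phi ^ 2 / eps * Real.log (l / eps)) 0
  have hlen' : len ps = life u v y j := by rw [hlen, hlife]
  have hsum : ∑ k ∈ Finset.range (dv v y j + 1), FF P eps X u v (y - k) (j - k) =
      val (fun (q r : Fl) (l : ℕ) => P q r (ww X y j) (nn y j) (l / eps) / l - phi ^ 2 / eps * Real.log (l / eps)) 0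
        (Lfb X v y j) (Lfd X u y j) ps + phi ^ 2 * ((life u v y j : ℝ) / eps * Real.log (life u v y j / eps)) := by
    rw [Finset.sum_congr rfl (fun k hk => D3L_FF h P hr k (by
      have := Finset.mem_range.1 hk
      omega)), Finset.sum_add_distrib, hval, Finset.sum_const, Finset.card_range, ← hlife, nsmul_eq_mul]
    ring
  have h1 : (len ps : ℝ) / eps ≤ (ww X y j : ℕ) := by
    rw [hlen', div_le_iff₀ he, mul_comm]
    exact l2
  have h2 : (len ps : ℝ) / eps ≤ (nn y j : ℕ) := by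
    rw [hlen', div_le_iff₀ he, mul_comm]
    exact l1
  have h3 := ana hP he (e := ww X y j) (f := nn y j) (hn0.trans n2) (hn0.trans n1) (x := Lfb X v y j) (y := Lfd X u y j)
    (D3L_cellL _ _ _ _) (D3L_cellL _ _ _ _) hA h1 h2
  rw [hlen'] at h3
  rw [hsum, hcut]
  unfold bj
  linarith

end Pool.Agent.PHI
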