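import Pool.Agent.PHI.MOrb

/-!
# PHI/MFin: gaps which are not visited for a long time are small

Let `δ > 0` be at most the number of `sep` for `n0` and at most all lengths `E.len j`; `K1` from `ob_vis` for `δ`.
`fine`: if `X j - X i ≥ δ` then `(X i, X i + δ) ⊆ (X i, X j)` is visited; so `X j - X i < δ`.  Then `n0 ≤ |i - j|`: `i ≠ j`, and if
`k = |i - j| < n0` then `|X i - X j| = |T^k x - x| ≥ δ` with `x = X (min i j)`.  `ulab j ≤ ulab i + 1`: otherwise the interval with index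
`ulab i + 1` lies between `X i` and `X j` (`left_add_le`), so `X j - X i ≥ δ`; the same for the image intervals, ordered by `E.perm`
(`imageLeft_add_le`).  `visu`, `visv`: the interval (image interval) contains `(y, y + δ)` with `y` its left end.
-/

set_option autoImplicit false

namespace Pool.Agent.PHI

open Pool.Agent.Helper44.IET

variable {d : ℕ}

private theorem MFin_len (E : Exchange d) (hd : 2 ≤ d) {δ₀ : ℝ} (h : 0 < δ₀) :
    ∃ δ : ℝ, 0 < δ ∧ δ ≤ δ₀ ∧ ∀ j, δ ≤ E.len j := by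
  have hne : (Finset.univ : Finset (Fin d)).Nonempty := ⟨⟨0, by omega⟩, Finset.mem_univ _⟩
  obtain ⟨m, -, hm⟩ := Finset.exists_min_image Finset.univ E.len hne
  exact ⟨min δ₀ (E.len m), lt_min h (E.len_pos m), min_le_left _ _,
    fun j => (min_le_right _ _).trans (hm j (Finset.mem_univ _))⟩

theorem ob_fine {E : Exchange d} (hd : 2 ≤ d) (hI : E.Irreducible) (hK : E.Keane) {X : ℤ → ℝ} (h : Ob E X) (n0 : ℕ) :
    ∃ K1 : ℕ,
      (∀ i j t : ℤ, X i < X j → (∀ k : ℤ, t ≤ k → k < t + K1 → ¬ Btw X i j k) →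
        (n0 : ℤ) ≤ |i - j| ∧ ulab E X j ≤ ulab E X i + 1 ∧ vlab E X j ≤ vlab E X i + 1) ∧
      (∀ t : ℤ, ∀ c : ℕ, c ≤ d - 1 → ∃ k : ℤ, t ≤ k ∧ k < t + K1 ∧ ulab E X k = c) ∧
      (∀ t : ℤ, ∀ c : ℕ, c ≤ d - 1 → ∃ k : ℤ, t ≤ k ∧ k < t + K1 ∧ vlab E X k = c) := by
  obtain ⟨δ₀, hδ₀, hsep⟩ := sep E hd hI hK n0
  obtain ⟨δ, hδ, hδle, hlen⟩ := MFin_len E hd hδ₀
  obtain ⟨K1, hK1⟩ := ob_vis hd hI hK h hδ
  refine ⟨K1, ?_, ?_, ?_⟩
  · intro i j t hij hno
    have hsmall : X j - X i < δ := by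
      by_contra hge
      push Not at hge
      obtain ⟨k, hk1, hk2, hk3, hk4⟩ := hK1 t (X i) (h.pos i).le (by linarith [h.lt j])
      exact hno k hk1 hk2 ⟨hk3, by linarith⟩
    refine ⟨?_, ?_, ?_⟩
    · by_contra hlt
      push Not at hlt
      rcases lt_trichotomy i j with h1 | h1 | h1
      · have e1 : j = i + ((j - i).toNat : ℤ) := by omega
        have h2 := hsep (X i) (h.pos i).le (h.lt i) (j - i).toNat (by omega) (by
          rw [abs_of_neg (by omega)] at hlt
          omega)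
        rw [← ob_iter h i, ← e1, abs_of_pos (by linarith)] at h2
        linarith
      · subst h1
        exact lt_irrefl _ hij
      · have e1 : i = j + ((i - j).toNat : ℤ) := by omega
        have h2 := hsep (X j) (h.pos j).le (h.lt j) (i - j).toNat (by omega) (by
          rw [abs_of_pos (by omega)] at hlt
          omega)
        rw [← ob_iter h j, ← e1, abs_of_neg (by linarith)] at h2
        linarith
    · obtain ⟨a, ha⟩ := cov E (h.pos i).le (h.lt i)
      obtain ⟨b, hb⟩ := cov E (h.pos j).le (h.lt j)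
      rw [ulab_eq E ha, ulab_eq E hb]
      by_contra hlt
      push Not at hlt
      have hb2 := b.2
      have hc : (a : ℕ) + 1 < d := by omega
      have h1 : a < (⟨a + 1, hc⟩ : Fin d) := by
        rw [Fin.lt_def]
        exact Nat.lt_succ_self _
      have h2 : (⟨a + 1, hc⟩ : Fin d) < b := by
        rw [Fin.lt_def]
        exact hlt
      have h3 := E.left_add_le h1
      have h4 := E.left_add_le h2
      have h5 := hlen ⟨a + 1, hc⟩
      have h6 := ha.2
      have h7 := hb.1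
      linarith
    · obtain ⟨a, ha⟩ := covi E (h.pos i).le (h.lt i)
      obtain ⟨b, hb⟩ := covi E (h.pos j).le (h.lt j)
      rw [vlab_eq E ha, vlab_eq E hb]
      by_contra hlt
      push Not at hlt
      have hb2 := (E.perm b).2
      have hc : (E.perm a : ℕ) + 1 < d := by omega
      have h1 : E.perm a < E.perm (E.perm.symm (⟨E.perm a + 1, hc⟩ : Fin d)) := by
        rw [Equiv.apply_symm_apply, Fin.lt_def]
        exact Nat.lt_succ_self _
      have h2 : E.perm (E.perm.symm (⟨E.perm a + 1, hc⟩ : Fin d)) < E.perm b := by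
        rw [Equiv.apply_symm_apply, Fin.lt_def]
        exact hlt
      have h3 := E.imageLeft_add_le h1
      have h4 := E.imageLeft_add_le h2
      have h5 := hlen (E.perm.symm (⟨E.perm a + 1, hc⟩ : Fin d))
      have h6 := ha.2
      have h7 := hb.1
      linarith
  · intro t c hc
    have hcd : c < d := by omega
    have hm1 := left_mem E (⟨c, hcd⟩ : Fin d)
    have h1 := hlen ⟨c, hcd⟩
    have hle : E.left ⟨c, hcd⟩ + E.len ⟨c, hcd⟩ ≤ 1 := by
      by_contra hcon
      push Not at hcon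
      have h2 : (1 : ℝ) ∈ E.interval ⟨c, hcd⟩ := ⟨(left_lt E _).le, hcon⟩
      exact lt_irrefl _ (ivl E h2).2
    obtain ⟨k, hk1, hk2, hk3, hk4⟩ := hK1 t (E.left ⟨c, hcd⟩) (left_nonneg E _) (by linarith)
    exact ⟨k, hk1, hk2, ulab_eq E (j := ⟨c, hcd⟩) ⟨hk3.le, by linarith⟩⟩
  · intro t c hc
    have hcd : c < d := by omega
    have h1 := hlen (E.perm.symm ⟨c, hcd⟩)
    have hmem : E.imageLeft (E.perm.symm ⟨c, hcd⟩) ∈ img E (E.perm.symm ⟨c, hcd⟩) :=
      ⟨le_refl _, by linarith⟩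
    have h0 := imgl E hmem
    have hle : E.imageLeft (E.perm.symm ⟨c, hcd⟩) + E.len (E.perm.symm ⟨c, hcd⟩) ≤ 1 := by
      by_contra hcon
      push Not at hcon
      have h2 : (1 : ℝ) ∈ img E (E.perm.symm ⟨c, hcd⟩) := ⟨h0.2.le, hcon⟩
      exact lt_irrefl _ (imgl E h2).2
    obtain ⟨k, hk1, hk2, hk3, hk4⟩ := hK1 t (E.imageLeft (E.perm.symm ⟨c, hcd⟩)) h0.1 (by linarith)
    refine ⟨k, hk1, hk2, ?_⟩
    rw [vlab_eq E (j := E.perm.symm ⟨c, hcd⟩) ⟨hk3.le, by linarith⟩, Equiv.apply_symm_apply]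

end Pool.Agent.PHI
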