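import Pool.Agent.PHI.MOrb

/-!
# PHI/MOe: existence of a two-sided orbit avoiding `0`

`E.T` is a bijection of `[0,1)` (`T_Ico`, `T_inj'`, `T_surj`), so every point has a two-sided orbit (`Equiv.ofBijective` on the subtype
`Set.Ico 0 1` and its integer powers `e ^ t`, `t : ℤ`, in `Equiv.Perm`); the points whose two-sided orbit contains `0` are the points
`(e ^ t) 0`, a countable set; `(0,1)` is uncountable (`Cardinal` or volume: a countable set has volume `0`).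
-/

set_option autoImplicit false

namespace Pool.Agent.PHI

open Pool.Agent.Helper44.IET

variable {d : ℕ}

private theorem MOe_unc : ¬ (Set.Ico (0 : ℝ) 1).Countable := by
  intro h
  have h1 := h.measure_zero MeasureTheory.volume
  rw [Real.volume_Ico] at h1
  simp at h1

theorem ex_ob (E : Exchange d) : ∃ X : ℤ → ℝ, Ob E X := by
  classical
  let f : Set.Ico (0 : ℝ) 1 → Set.Ico (0 : ℝ) 1 := fun x => ⟨E.T x.1, T_Ico E x.2.1 x.2.2⟩
  have hf : Function.Bijective f := by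
    constructor
    · intro x y hxy
      have h := congrArg Subtype.val hxy
      exact Subtype.ext (T_inj' E x.2.1 x.2.2 y.2.1 y.2.2 h)
    · intro y
      obtain ⟨x, h0, h1, hx⟩ := T_surj E y.2.1 y.2.2
      exact ⟨⟨x, h0, h1⟩, Subtype.ext hx⟩
  let e : Equiv.Perm (Set.Ico (0 : ℝ) 1) := Equiv.ofBijective f hf
  have he : ∀ x : Set.Ico (0 : ℝ) 1, ((e x : Set.Ico (0 : ℝ) 1) : ℝ) = E.T x.1 := fun _ => rfl
  let z : Set.Ico (0 : ℝ) 1 := ⟨0, le_refl _, one_pos⟩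
  have hc : (Set.range fun t : ℤ => (((e ^ t) z : Set.Ico (0 : ℝ) 1) : ℝ)).Countable :=
    Set.countable_range _
  obtain ⟨x, hx, hxn⟩ : ∃ x ∈ Set.Ico (0 : ℝ) 1,
      x ∉ Set.range fun t : ℤ => (((e ^ t) z : Set.Ico (0 : ℝ) 1) : ℝ) := by
    by_contra hh
    push Not at hh
    exact MOe_unc (hc.mono hh)
  refine ⟨fun t => (((e ^ t) ⟨x, hx⟩ : Set.Ico (0 : ℝ) 1) : ℝ), ?_, ?_, ?_⟩
  · intro t
    have h0 : (0 : ℝ) ≤ (((e ^ t) ⟨x, hx⟩ : Set.Ico (0 : ℝ) 1) : ℝ) := ((e ^ t) ⟨x, hx⟩).2.1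
    refine lt_of_le_of_ne h0 fun h => hxn ⟨-t, ?_⟩
    have h1 : (e ^ t) ⟨x, hx⟩ = z := Subtype.ext h.symm
    have h2 : (e ^ (-t)) z = ⟨x, hx⟩ := by
      rw [← h1, ← Equiv.Perm.mul_apply, ← zpow_add]
      simp
    simp only [h2]
  · intro t
    exact ((e ^ t) ⟨x, hx⟩).2.2
  · intro t
    have h1 : (e ^ (t + 1)) ⟨x, hx⟩ = e ((e ^ t) ⟨x, hx⟩) := by
      rw [add_comm, zpow_add, zpow_one, Equiv.Perm.mul_apply]
    simp only [h1, he]

end Pool.Agent.PHI
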