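import Pool.Agent.PHI.MOrb

/-!
# PHI/MOo: the two-sided orbit of an exchange is an `Orb`

`inj`: for `s < t`, `X t = T^k (X s)`, `k = t - s ≥ 1` (`ob_iter`), `noper`.  `umono`, `vmono`: the intervals are ordered by the index
(`left_add_le`), the image intervals by `E.perm` (`imageLeft_add_le`).  `uv`: `vlab (t+1)` is `E.perm` of the label at `t` (`T_img`,
`vlab_eq`, `ulab_eq`).  `ord`: `T` translates each interval (`T_of_mem`).  `irr0`, `irrD`: irreducibility with `k = 1` and `k = d - 1`
(if `E.perm` fixes the last index then it maps the indices `< d - 1` to themselves).  `nomin`, `nomax`: `ob_vis` with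
`δ = X t`, `y = 0`, and `δ = 1 - X t`, `y = X t`.
-/

set_option autoImplicit false

namespace Pool.Agent.PHI

open Pool.Agent.Helper44.IET

variable {d : ℕ}

private theorem MOo_int {E : Exchange d} {X : ℤ → ℝ} (h : Ob E X) (t : ℤ) : ∃ j, X t ∈ E.interval j :=
  cov E (h.pos t).le (h.lt t)

private theorem MOo_im {E : Exchange d} {X : ℤ → ℝ} (h : Ob E X) (t : ℤ) : ∃ j, X t ∈ img E j :=
  covi E (h.pos t).le (h.lt t)

private theorem MOo_next {E : Exchange d} {X : ℤ → ℝ} (h : Ob E X) {t : ℤ} {j : Fin d} (hj : X t ∈ E.interval j) :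
    vlab E X (t + 1) = E.perm j := by
  apply vlab_eq
  rw [h.step t]
  exact T_img E hj

private theorem MOo_ne {E : Exchange d} (hd : 2 ≤ d) (hI : E.Irreducible) (hK : E.Keane) {X : ℤ → ℝ} (h : Ob E X)
    {s t : ℤ} (hst : s < t) : X t ≠ X s := by
  have h1 := ob_iter h s (t - s).toNat
  have h2 : s + ((t - s).toNat : ℤ) = t := by omega
  rw [h2] at h1
  rw [h1]
  exact noper E hd hI hK (h.pos s).le (h.lt s) (by omega)

theorem ob_orb {E : Exchange d} (hd : 2 ≤ d) (hI : E.Irreducible) (hK : E.Keane) {X : ℤ → ℝ} (h : Ob E X) :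
    Orb X (ulab E X) (vlab E X) (d - 1) where
  inj := by
    intro s t hst
    rcases lt_trichotomy s t with h1 | h1 | h1
    · exact absurd hst.symm (MOo_ne hd hI hK h h1)
    · exact h1
    · exact absurd hst (MOo_ne hd hI hK h h1)
  umono := by
    intro i j hij
    obtain ⟨a, ha⟩ := MOo_int h i
    obtain ⟨b, hb⟩ := MOo_int h j
    rw [ulab_eq E ha, ulab_eq E hb]
    by_contra hc
    have h1 : b < a := by
      rw [Fin.lt_def]
      omega
    have h2 := E.left_add_le h1
    have h3 := ha.1
    have h4 := hb.2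
    linarith
  vmono := by
    intro i j hij
    obtain ⟨a, ha⟩ := MOo_im h i
    obtain ⟨b, hb⟩ := MOo_im h j
    rw [vlab_eq E ha, vlab_eq E hb]
    by_contra hc
    have h1 : E.perm b < E.perm a := by
      rw [Fin.lt_def]
      omega
    have h2 := E.imageLeft_add_le h1
    have h3 := ha.1
    have h4 := hb.2
    linarith
  ule := by
    intro i
    obtain ⟨a, ha⟩ := MOo_int h i
    rw [ulab_eq E ha]
    have := a.2
    omega
  vle := by
    intro i
    obtain ⟨a, ha⟩ := MOo_im h i
    rw [vlab_eq E ha]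
    have := (E.perm a).2
    omega
  uv := by
    intro i j
    obtain ⟨a, ha⟩ := MOo_int h i
    obtain ⟨b, hb⟩ := MOo_int h j
    rw [ulab_eq E ha, ulab_eq E hb, MOo_next h ha, MOo_next h hb]
    constructor
    · intro h1
      rw [Fin.ext h1]
    · intro h1
      rw [E.perm.injective (Fin.ext h1)]
  ord := by
    intro i j hu
    obtain ⟨a, ha⟩ := MOo_int h i
    obtain ⟨b, hb⟩ := MOo_int h j
    rw [ulab_eq E ha, ulab_eq E hb] at hu
    have hab : a = b := Fin.ext hu
    subst hab
    rw [h.step i, h.step j, E.T_of_mem ha, E.T_of_mem hb]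
    exact (add_lt_add_iff_right _).symm
  irr0 := by
    intro t hu hv
    obtain ⟨a, ha⟩ := MOo_int h t
    rw [ulab_eq E ha] at hu
    rw [MOo_next h ha] at hv
    refine hI 1 one_pos (by omega) fun i hi => ?_
    have h1 : i = a := Fin.ext (by omega)
    rw [h1, hv]
    exact one_pos
  irrD := by
    intro t hu hv
    obtain ⟨a, ha⟩ := MOo_int h t
    rw [ulab_eq E ha] at hu
    rw [MOo_next h ha] at hv
    refine hI (d - 1) (by omega) (by omega) fun i hi => ?_
    have h1 : E.perm i ≠ E.perm a := by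
      intro h2
      have h3 := E.perm.injective h2
      rw [h3] at hi
      omega
    have h2 : (E.perm i : ℕ) ≠ (E.perm a : ℕ) := fun h3 => h1 (Fin.ext h3)
    have h3 := (E.perm i).2
    omega
  nomin := by
    intro t
    obtain ⟨K, hKk⟩ := ob_vis hd hI hK h (h.pos t)
    obtain ⟨k, _, _, _, h4⟩ := hKk t 0 le_rfl (by have := h.lt t; linarith)
    exact ⟨k, by linarith⟩
  nomax := by
    intro t
    obtain ⟨K, hKk⟩ := ob_vis hd hI hK h (show 0 < 1 - X t by have := h.lt t; linarith)
    obtain ⟨k, _, _, h3, _⟩ := hKk t (X t) (h.pos t).le (by linarith)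
    exact ⟨k, h3⟩

end Pool.Agent.PHI
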