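import Pool.Agent.Helper44.IETDefs

/-!
# PHI/MRun: bounds for the powers of a word with small asymptotic critical exponent

The critical exponent is not `⊤`, so `critExp u0 ≤ M` for a real `M`, and `(n + t) / n ≤ M` gives `t + 1 ≤ M * n`.  There are `N1`
(`iInf_lt_iff`) and a real `q` with `critExpFrom u0 N1 < q < 1 + eps` (`EReal.lt_iff_exists_real_btwn`); for `n ≥ N1`:
`(n + t) / n ≤ q`, so `t + 1 ≤ (q - 1) * n + 1 ≤ eps * n` if also `1 ≤ (1 + eps - q) * n`.
-/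

set_option autoImplicit false

namespace Pool.Agent.PHI

open Pool.Agent.Helper44.IET

variable {d : ℕ}

theorem run_bd (u0 : ℕ → Fin d) {eps : ℝ} (h : asympCritExp u0 < ((1 + eps : ℝ) : EReal)) :
    ∃ F : ℝ, ∃ N0 : ℕ, ∀ i n t : ℕ, 0 < n → HasPower u0 i n (n + t) →
      (t : ℝ) + 1 ≤ F * n ∧ (N0 ≤ n → (t : ℝ) + 1 ≤ eps * n) := by
  unfold asympCritExp at h
  split_ifs at h with htop
  · exact absurd h (not_lt_of_ge le_top)
  obtain ⟨N1, hN1⟩ := iInf_lt_iff.mp h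
  obtain ⟨q, hq, hq'⟩ := EReal.lt_iff_exists_real_btwn.mp hN1
  obtain ⟨M, hM, _⟩ := EReal.lt_iff_exists_real_btwn.mp (lt_top_iff_ne_top.mpr htop)
  have hq1 : q < 1 + eps := by exact_mod_cast hq'
  have H1 : ∀ i p l, 0 < p → N1 ≤ p → HasPower u0 i p l → (l : ℝ) / (p : ℝ) ≤ q := by
    intro i p l hp hnp hpow
    have h3 : (((l : ℝ) / (p : ℝ) : ℝ) : EReal) ≤ critExpFrom u0 N1 := by
      unfold critExpFrom
      exact le_iSup_of_le i (le_iSup_of_le p (le_iSup_of_le l (le_iSup_of_le hp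
        (le_iSup_of_le hnp (le_iSup_of_le hpow le_rfl)))))
    exact_mod_cast (lt_of_le_of_lt h3 hq).le
  have H2 : ∀ i p l, 0 < p → HasPower u0 i p l → (l : ℝ) / (p : ℝ) ≤ M := by
    intro i p l hp hpow
    have h3 : (((l : ℝ) / (p : ℝ) : ℝ) : EReal) ≤ critExp u0 := by
      unfold critExp
      exact le_iSup_of_le i (le_iSup_of_le p (le_iSup_of_le l (le_iSup_of_le hp
        (le_iSup_of_le hpow le_rfl))))
    exact_mod_cast (lt_of_le_of_lt h3 hM).le
  obtain ⟨N2, hN2⟩ := exists_nat_gt (1 / (1 + eps - q))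
  have hpos : 0 < 1 + eps - q := by linarith
  refine ⟨M, max N1 N2, ?_⟩
  intro i n t hn hpow
  have hn0 : (0 : ℝ) < (n : ℝ) := by exact_mod_cast hn
  have hn1 : (1 : ℝ) ≤ (n : ℝ) := by exact_mod_cast hn
  constructor
  · have h4 := H2 i n (n + t) hn hpow
    rw [div_le_iff₀ hn0] at h4
    push_cast at h4
    linarith
  · intro hN
    have h5 := H1 i n (n + t) hn (le_trans (le_max_left _ _) hN) hpow
    rw [div_le_iff₀ hn0] at h5
    push_cast at h5
    have h6 : (N2 : ℝ) ≤ (n : ℝ) := by exact_mod_cast le_trans (le_max_right _ _) hN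
    have h7 : 1 / (1 + eps - q) ≤ (n : ℝ) := le_trans hN2.le h6
    rw [div_le_iff₀ hpos] at h7
    nlinarith [h7, h5]

end Pool.Agent.PHI
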