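import Pool.Agent.PHI.MFac
import Pool.Agent.PHI.MRun
import Pool.Agent.PHI.MOe
import Pool.Agent.PHI.MOo
import Pool.Agent.PHI.MFin

/-!
# PHI/MSys: the system of a coding

`X` from `ex_ob`, `u = ulab E X`, `v = vlab E X`, `F`, `N0` from `run_bd`.  `run`, `run0`: equality of the labels of the points `i + m`,
`j + m` for `m < t` gives a power with period `n = j - i` and length `n + t` of the two-sided coding, hence of `u0` (`fac` with `a = i`,
`L = n + t`).  `vis`: `ob_vis` with `δ = X j - X i`, `y = X i`.  The other fields: `ob_orb`, `ob_fine`.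
-/

set_option autoImplicit false

namespace Pool.Agent.PHI

open Pool.Agent.Helper44.IET

variable {d : ℕ}

theorem ex_sys (hd : 2 ≤ d) {u0 : ℕ → Fin d} (hu : u0 ∈ Codings d) {eps : ℝ}
    (h : asympCritExp u0 < ((1 + eps : ℝ) : EReal)) :
    ∃ (X : ℤ → ℝ) (u v : ℤ → ℕ) (F : ℝ) (N0 : ℕ), ∀ n0 : ℕ, N0 ≤ n0 → ∃ K1 : ℕ, Sys X u v (d - 1) eps F n0 K1 := by
  obtain ⟨E, hI, hK, hc⟩ := hu
  obtain ⟨X, hX⟩ := ex_ob E
  obtain ⟨F, N0, hF⟩ := run_bd u0 h
  have hrun : ∀ i j : ℤ, i < j → ∀ t : ℕ, (∀ m : ℕ, m < t → ulab E X (i + m) = ulab E X (j + m)) →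
      (t : ℝ) + 1 ≤ F * ((j - i : ℤ) : ℝ) ∧ ((N0 : ℤ) ≤ j - i → (t : ℝ) + 1 ≤ eps * ((j - i : ℤ) : ℝ)) := by
    intro i j hij t ht
    obtain ⟨n, hn⟩ : ∃ n : ℕ, (n : ℤ) = j - i := ⟨(j - i).toNat, by omega⟩
    obtain ⟨p, hp⟩ := fac hd hI hK hX hc i (n + t)
    have h1 : HasPower u0 p n (n + t) := by
      intro m hm
      apply Fin.ext
      have h2 := hp m (by omega)
      have h3 := hp (m + n) (by omega)
      have h4 := ht m (by omega)
      have h5 : i + ((m + n : ℕ) : ℤ) = j + m := by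
        push_cast
        omega
      rw [h5, ← h4, h2] at h3
      rw [h3, Nat.add_assoc]
    have h2 := hF p n t (by omega) h1
    have h3 : ((j - i : ℤ) : ℝ) = n := by
      rw [← hn]
      simp
    rw [h3]
    refine ⟨h2.1, fun h4 => h2.2 (by omega)⟩
  refine ⟨X, ulab E X, vlab E X, F, N0, fun n0 hn0 => ?_⟩
  obtain ⟨K1, h1, h2, h3⟩ := ob_fine hd hI hK hX n0
  refine ⟨K1, { toOrb := ob_orb hd hI hK hX, run := ?_, run0 := ?_, vis := ?_, fine := h1, visu := h2, visv := h3 }⟩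
  · intro i j hij hn t ht
    exact (hrun i j hij t ht).2 (le_trans (by exact_mod_cast hn0) hn)
  · intro i j hij t ht
    exact (hrun i j hij t ht).1
  · intro i j hij
    obtain ⟨K, hK1⟩ := ob_vis hd hI hK hX (sub_pos.2 hij)
    refine ⟨K, fun t => ?_⟩
    obtain ⟨k, h4, h5, h6, h7⟩ := hK1 t (X i) (hX.pos i).le (by have := hX.lt j; linarith)
    exact ⟨k, h4, h5, h6, by linarith⟩

end Pool.Agent.PHI
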