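import Pool.Agent.PHI.Lim
import Pool.Agent.PHI.MSys

/-! Module PHI-End: from the certificate to the repetition threshold. -/

set_option autoImplicit false

namespace Pool.Agent.PHI

open Pool.Agent.Helper44.IET

theorem lower_phi {P : Fl → Fl → ℝ → ℝ → ℝ → ℝ} {C : ℝ} (hP : Cert P C) (d : ℕ) (hd : 2 ≤ d) (u0 : ℕ → Fin d)
    (hu : u0 ∈ Codings d) : ((1 + phi ^ 2 / ((d : ℝ) - 1) : ℝ) : EReal) ≤ asympCritExp u0 := by
  by_contra hc
  push Not at hc
  have hd0 : (0 : ℝ) < (d : ℝ) - 1 := by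
    have : (2 : ℝ) ≤ d := by exact_mod_cast hd
    linarith
  have hphi : 0 < phi := by
    unfold phi
    have := Real.sqrt_nonneg 5
    linarith
  set c := phi ^ 2 / ((d : ℝ) - 1) with hcdef
  have hc0 : 0 < c := by rw [hcdef]; positivity
  obtain ⟨E1, hE1, hE1'⟩ := EReal.lt_iff_exists_real_btwn.mp hc
  have hlt : E1 < 1 + c := by exact_mod_cast hE1'
  set eps := max (E1 - 1) (c / 2) with heps
  have he0 : 0 < eps := lt_of_lt_of_le (by linarith) (le_max_right _ _)
  have he1 : eps < c := max_lt (by linarith) (by linarith)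
  have h1 : asympCritExp u0 < ((1 + eps : ℝ) : EReal) := by
    refine lt_of_lt_of_le hE1 ?_
    have : E1 ≤ 1 + eps := by
      have := le_max_left (E1 - 1) (c / 2)
      linarith
    exact_mod_cast this
  obtain ⟨X, u, v, F, N0, hs⟩ := ex_sys hd hu h1
  have h2 := main hP he0 N0 hs
  have h3 : ((d - 1 : ℕ) : ℝ) = (d : ℝ) - 1 := by
    rw [Nat.cast_sub (by omega)]
    simp
  rw [h3] at h2
  have h4 : eps * ((d : ℝ) - 1) < c * ((d : ℝ) - 1) := mul_lt_mul_of_pos_right he1 hd0
  have h5 : c * ((d : ℝ) - 1) = phi ^ 2 := by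
    rw [hcdef]
    field_simp
  linarith

end Pool.Agent.PHI
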