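import Pool.Agent.PHI.Dcw
import Pool.Agent.PHI.Nxb
import Pool.Agent.PHI.Fne

/-! Module PHI-G2p.  Mean of the cuts in the first cell: at most one record pair of a base is cut in its first cell, and for it every
window of its box has `dif = 1`; regroup by the length of the window and use the double counting `dc` and the harmonic sum. -/

set_option autoImplicit false

namespace Pool.Agent.PHI

variable {X : ℤ → ℝ} {u v : ℤ → ℕ} {D : ℕ} {eps F : ℝ} {n0 K1 : ℕ}

private theorem G2p_mem {K : ℕ} {j m : ℤ} (hm : m ∈ QQ X K1 K j) :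
    Rec X (j + m) j ∧ K1 < hh X (j + m) j ∧ hh X (j + m) j < K := by
  classical
  exact (Finset.mem_filter.1 hm).2

private theorem G2p_u1 (h : Sys X u v D eps F n0 K1) {K : ℕ} {j m m' : ℤ} (hm : m ∈ QQ X K1 K j) (hm' : m' ∈ QQ X K1 K j)
    (hu : u (j + m) ≠ u j) (hc' : cell u X (j + m') j = .a) (hlt : X (j + m') < X (j + m)) : False := by
  obtain ⟨hr, -, -⟩ := G2p_mem hm
  obtain ⟨hr', hK', -⟩ := G2p_mem hm'
  have hy : X (y1 X (j + m') j) ≤ X (j + m) := by
    by_contra hy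
    rw [not_le] at hy
    obtain ⟨e0, e1, -⟩ := ee_spec h hr'.1
    obtain ⟨f0, f1, -⟩ := ff_spec h hr'.1
    have h12 := y1_lt_y2 h hr'.1
    have he : X (j + m) < X (j - ee X (j + m') j) := by
      unfold y1 at hy
      unfold y1 y2 at h12
      split_ifs at hy h12 with hc
      · exact hy
      · exact hy.trans h12
    have hf : X (j + m) < X (j + ff X (j + m') j) := by
      unfold y1 at hy
      unfold y1 y2 at h12
      split_ifs at hy h12 with hc
      · exact hy.trans h12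
      · exact hy
    have h1 : ee X (j + m) j ≤ ee X (j + m') j := Nat.sInf_le ⟨e0, he, e1.2⟩
    have h2 : ff X (j + m) j ≤ ff X (j + m') j := Nat.sInf_le ⟨f0, hf, f1.2⟩
    have h3 := hr.2.1
    have h4 := hr.2.2
    exact not_btw (j + m) (by omega) (by omega) ⟨hlt, hr.1⟩
  have h5 := h.umono _ _ hy
  have h6 := h.umono _ _ hr.1.le
  have h7 := h.umono _ _ (y1_btw h hr'.1).1.le
  have h8 : u (j + m') ≠ u (y1 X (j + m') j) := by
    intro h9
    unfold cell at hc'
    rw [if_neg (not_not.2 h9)] at hc'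
    split_ifs at hc'
  have h9 := (fine_rec h hr' hK').2.2.2.1
  omega

private theorem G2p_uniq (h : Sys X u v D eps F n0 K1) {K : ℕ} {j m m' : ℤ} (hm : m ∈ QQ X K1 K j) (hm' : m' ∈ QQ X K1 K j)
    (hg : u (j + m) ≠ u j ∧ cell u X (j + m) j = .a) (hg' : u (j + m') ≠ u j ∧ cell u X (j + m') j = .a) : m = m' := by
  rcases lt_trichotomy (X (j + m)) (X (j + m')) with h1 | h1 | h1
  · exact (G2p_u1 h hm' hm hg'.1 hg.2 h1).elim
  · have h2 := h.inj h1
    omega
  · exact (G2p_u1 h hm hm' hg.1 hg'.2 h1).elim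

private theorem G2p_V (h : Sys X u v D eps F n0 K1) {K : ℕ} {i j : ℤ} (hij : X i < X j) (hu : u i ≠ u j)
    (hK : hh X i j < K) :
    Vd (ee X i j) (ff X i j) ≤ ∑ N ∈ Finset.range K, 1 / (N : ℝ) * ∑ a ∈ Finset.range N, dif X u j a (N - 1 - a) := by
  unfold Vd
  rw [← Finset.sum_product' (f := fun (a b : ℕ) => 1 / ((a : ℝ) + b + 1))]
  simp_rw [Finset.mul_sum]
  rw [Finset.sum_sigma']
  have hinj : Set.InjOn (fun p : ℕ × ℕ => (⟨p.1 + p.2 + 1, p.1⟩ : Σ _ : ℕ, ℕ))
      (Finset.range (ee X i j) ×ˢ Finset.range (ff X i j) : Finset (ℕ × ℕ)) := by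
    rintro ⟨a, b⟩ - ⟨a', b'⟩ - hp
    simp only [Sigma.mk.injEq, heq_eq_eq] at hp
    rw [Prod.mk.injEq]
    omega
  have h1 : ∑ p ∈ Finset.range (ee X i j) ×ˢ Finset.range (ff X i j), 1 / ((p.1 : ℝ) + p.2 + 1) =
      ∑ q ∈ (Finset.range (ee X i j) ×ˢ Finset.range (ff X i j)).image
        (fun p : ℕ × ℕ => (⟨p.1 + p.2 + 1, p.1⟩ : Σ _ : ℕ, ℕ)), 1 / (q.1 : ℝ) * dif X u j q.2 (q.1 - 1 - q.2) := by
    rw [Finset.sum_image hinj]
    refine Finset.sum_congr rfl ?_
    rintro ⟨a, b⟩ hp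
    rw [Finset.mem_product, Finset.mem_range, Finset.mem_range] at hp
    have h2 : a + b + 1 - 1 - a = b := by omega
    simp only [h2]
    rw [dif_one h hij hu hp.1 hp.2, mul_one]
    push_cast
    rfl
  rw [h1]
  refine Finset.sum_le_sum_of_subset_of_nonneg ?_ ?_
  · intro q hq
    rw [Finset.mem_image] at hq
    obtain ⟨⟨a, b⟩, hp, rfl⟩ := hq
    rw [Finset.mem_product, Finset.mem_range, Finset.mem_range] at hp
    rw [Finset.mem_sigma, Finset.mem_range, Finset.mem_range]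
    unfold hh at hK
    simp only at hp ⊢
    omega
  · rintro q - -
    exact mul_nonneg (by positivity) (dif_nonneg X u j _ _).1

private theorem G2p_nonneg (X : ℤ → ℝ) (u : ℤ → ℕ) (K : ℕ) (j : ℤ) :
    0 ≤ ∑ N ∈ Finset.range K, 1 / (N : ℝ) * ∑ a ∈ Finset.range N, dif X u j a (N - 1 - a) :=
  Finset.sum_nonneg fun N _ => mul_nonneg (by positivity) (Finset.sum_nonneg fun a _ => (dif_nonneg X u j _ _).1)

open Classical in
theorem g2_pt (h : Sys X u v D eps F n0 K1) (K : ℕ) (j : ℤ) :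
    ∑ m ∈ QQ X K1 K j, (if u (j + m) ≠ u j ∧ cell u X (j + m) j = .a then Vd (ee X (j + m) j) (ff X (j + m) j) else 0) ≤
      ∑ N ∈ Finset.range K, 1 / (N : ℝ) * ∑ a ∈ Finset.range N, dif X u j a (N - 1 - a) := by
  by_cases hex : ∃ m ∈ QQ X K1 K j, u (j + m) ≠ u j ∧ cell u X (j + m) j = .a
  · obtain ⟨m, hm, hg⟩ := hex
    rw [Finset.sum_eq_single_of_mem m hm, if_pos hg]
    · have hm2 := G2p_mem hm
      exact G2p_V h hm2.1.1 hg.1 hm2.2.2
    · intro m' hm' hne
      rw [if_neg]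
      intro hg'
      exact hne (G2p_uniq h hm' hm hg' hg)
  · rw [Finset.sum_eq_zero]
    · exact G2p_nonneg X u K j
    · intro m hm
      rw [if_neg]
      intro hg
      exact hex ⟨m, hm, hg⟩

private theorem G2p_harm {K : ℕ} (hK : 1 ≤ K) : ∑ N ∈ Finset.range K, 1 / (N : ℝ) ≤ 1 + Real.log K := by
  obtain ⟨n, rfl⟩ := Nat.exists_eq_add_of_le' hK
  rw [Finset.sum_range_succ']
  have h1 := harmonic_le_one_add_log n
  unfold harmonic at h1
  push_cast at h1
  simp only [Nat.cast_add, Nat.cast_one, Nat.cast_zero, div_zero, add_zero, one_div]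
  refine h1.trans ?_
  rcases Nat.eq_zero_or_pos n with h0 | h0
  · rw [h0]
    simp
  · have h2 : Real.log (n : ℝ) ≤ Real.log ((n : ℝ) + 1) :=
      Real.log_le_log (by exact_mod_cast h0) (by linarith)
    linarith

private theorem G2p_bdif (X : ℤ → ℝ) (u : ℤ → ℕ) (a b : ℕ) : Bd (fun j => dif X u j a b) := by
  refine ⟨1, fun j => ?_⟩
  have h1 := dif_nonneg X u j a b
  rw [abs_of_nonneg h1.1]
  exact h1.2

open Classical in
theorem g2 {E : (ℤ → ℝ) → ℝ} (hE : Mean E) (h : Sys X u v D eps F n0 K1) {K : ℕ} (hK : 1 ≤ K) :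
    E (fun j => ∑ m ∈ QQ X K1 K j,
      (if u (j + m) ≠ u j ∧ cell u X (j + m) j = .a then Vd (ee X (j + m) j) (ff X (j + m) j) else 0)) ≤
        D * (1 + Real.log K) := by
  have b1 : ∀ N : ℕ, Bd (fun j => ∑ a ∈ Finset.range N, dif X u j a (N - 1 - a)) := fun N =>
    Bd.sum _ fun a _ => G2p_bdif X u a _
  have b2 : ∀ N ∈ Finset.range K, Bd (fun j => 1 / (N : ℝ) * ∑ a ∈ Finset.range N, dif X u j a (N - 1 - a)) :=
    fun N _ => (b1 N).smul _
  have b3 := Bd.sum (Finset.range K) b2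
  have p1 := g2_pt h K
  have p0 : ∀ j : ℤ, 0 ≤ ∑ m ∈ QQ X K1 K j,
      (if u (j + m) ≠ u j ∧ cell u X (j + m) j = .a then Vd (ee X (j + m) j) (ff X (j + m) j) else 0) := by
    intro j
    refine Finset.sum_nonneg fun m _ => ?_
    split_ifs
    · unfold Vd
      exact Finset.sum_nonneg fun a _ => Finset.sum_nonneg fun b _ => by positivity
    · exact le_refl _
  have b4 : Bd (fun j => ∑ m ∈ QQ X K1 K j,
      (if u (j + m) ≠ u j ∧ cell u X (j + m) j = .a then Vd (ee X (j + m) j) (ff X (j + m) j) else 0)) := by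
    obtain ⟨C, hC⟩ := b3
    refine ⟨C, fun j => ?_⟩
    rw [abs_of_nonneg (p0 j)]
    exact (p1 j).trans ((le_abs_self _).trans (hC j))
  refine (hE.mono _ _ b4 b3 p1).trans ?_
  rw [hE.sum _ b2]
  have h1 : ∀ N ∈ Finset.range K, E (fun j => 1 / (N : ℝ) * ∑ a ∈ Finset.range N, dif X u j a (N - 1 - a)) ≤
      1 / (N : ℝ) * D := by
    intro N _
    rw [hE.smul _ _ (b1 N)]
    exact mul_le_mul_of_nonneg_left (dc hE h N) (by positivity)
  refine (Finset.sum_le_sum h1).trans ?_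
  rw [← Finset.sum_mul, mul_comm]
  exact mul_le_mul_of_nonneg_left (G2p_harm hK) (Nat.cast_nonneg D)

end Pool.Agent.PHI
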