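import Pool.Agent.PHI.Nxa
import Pool.Agent.PHI.Nxb

/-! Module PHI-Rqq.  Bijection between the record pairs with `K1 < h_sub < K` having a next farther pair and the record pairs with
`K1 < h < K`: the farther record pair `(j + m, j)` corresponds to the pair `(y1, j)` of its farther visitor.  Sums over the two
index sets are compared. -/

set_option autoImplicit false

namespace Pool.Agent.PHI

variable {X : ℤ → ℝ} {u v : ℤ → ℕ} {D : ℕ} {eps F : ℝ} {n0 K1 : ℕ}

private theorem Rqq_nn {i j : ℤ} {K : ℕ} (hk : nn i j < K) : i - j ∈ Finset.Icc (-(K : ℤ)) K := by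
  unfold nn at hk
  rw [Finset.mem_Icc]
  omega

open Classical in
private theorem Rqq_key (h : Sys X u v D eps F n0 K1) (K : ℕ) (j : ℤ) (f g : ℤ → ℝ)
    (hfg : ∀ m ∈ QQ X K1 K j, g m = f (y1 X (j + m) j - j))
    (hf : ∀ m ∈ RR X K1 K j, (¬ ∃ i, Nf X (j + m) j i) → f m = 0) :
    ∑ m ∈ RR X K1 K j, f m = ∑ m ∈ QQ X K1 K j, g m := by
  symm
  refine Finset.sum_of_injOn (fun m => y1 X (j + m) j - j) ?_ ?_ ?_ hfg
  · intro a ha b hb hab
    have ha' := (Finset.mem_filter.mp (Finset.mem_coe.mp ha)).2.1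
    have hb' := (Finset.mem_filter.mp (Finset.mem_coe.mp hb)).2.1
    have h1 := nc_Nf h ha'
    have h2 := nc_Nf h hb'
    have hy : y1 X (j + a) j = y1 X (j + b) j := by
      have hab' : y1 X (j + a) j - j = y1 X (j + b) j - j := hab
      omega
    rw [hy] at h1
    have h3 := nf_unique h h1 h2
    omega
  · intro a ha
    have ha' := (Finset.mem_filter.mp (Finset.mem_coe.mp ha)).2
    have hr := nc_rec h ha'.1
    have hs9 := nc_hs h ha'.1
    have hy : j + (y1 X (j + a) j - j) = y1 X (j + a) j := by ring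
    have hn := hr.sab.2.2.2.2
    refine Finset.mem_coe.mpr (Finset.mem_filter.mpr ⟨Rqq_nn (by omega), ?_⟩)
    show Rec X (j + (y1 X (j + a) j - j)) j ∧ K1 < hs X (j + (y1 X (j + a) j - j)) j ∧
      hs X (j + (y1 X (j + a) j - j)) j < K
    rw [hy]
    exact ⟨hr, by omega, by omega⟩
  · intro m hm hnot
    have hm' := (Finset.mem_filter.mp hm).2
    refine hf m hm ?_
    rintro ⟨i, hi⟩
    refine hnot ⟨i - j, ?_, ?_⟩
    · have hr := nf_rec h hm'.1 hi
      have hh1 := nf_hh h hm'.1 hi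
      have hs := hr.sab
      have hij : j + (i - j) = i := by ring
      refine Finset.mem_coe.mpr (Finset.mem_filter.mpr ⟨Rqq_nn (by omega), ?_⟩)
      rw [hij]
      exact ⟨hr, by omega, by omega⟩
    · show y1 X (j + (i - j)) j - j = m
      have hij : j + (i - j) = i := by ring
      rw [hij, nf_y1 h hm'.1 hi]
      ring

open Classical in
private theorem Rqq_choose (h : Sys X u v D eps F n0 K1) {y i j : ℤ} (g : ℤ → ℝ) (hi : Nf X y j i) :
    (if hN : ∃ i, Nf X y j i then g hN.choose else 0) = g i := by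
  have hN : ∃ i, Nf X y j i := ⟨i, hi⟩
  rw [dif_pos hN, nf_unique h hN.choose_spec hi]

open Classical in
theorem rqq (h : Sys X u v D eps F n0 K1) (K : ℕ) (j : ℤ) (g : ℤ → ℝ) :
    ∑ m ∈ RR X K1 K j, (if hN : ∃ i, Nf X (j + m) j i then g hN.choose else 0) = ∑ m ∈ QQ X K1 K j, g (j + m) := by
  refine Rqq_key h K j (fun m => if hN : ∃ i, Nf X (j + m) j i then g hN.choose else 0)
    (fun m => g (j + m)) (fun m hm => ?_) (fun m hm hno => dif_neg hno)
  have hm' := (Finset.mem_filter.mp hm).2.1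
  have hy : j + (y1 X (j + m) j - j) = y1 X (j + m) j := by ring
  show g (j + m) = (if hN : ∃ i, Nf X (j + (y1 X (j + m) j - j)) j i then g hN.choose else 0)
  rw [hy]
  exact (Rqq_choose h g (nc_Nf h hm')).symm

open Classical in
/-- the cuts of the next farther pairs -/
theorem rqq_cut (h : Sys X u v D eps F n0 K1) (K : ℕ) (j : ℤ) (G : ℕ → ℕ → ℝ) :
    ∑ m ∈ RR X K1 K j, (if acut X u (j + m) j then G (sa X (j + m) j) (sb X (j + m) j) else 0) =
      ∑ m ∈ QQ X K1 K j, (if u (j + m) ≠ u j ∧ cell u X (j + m) j = .a then G (ee X (j + m) j) (ff X (j + m) j) else 0) := by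
  refine Rqq_key h K j (fun m => if acut X u (j + m) j then G (sa X (j + m) j) (sb X (j + m) j) else 0)
    (fun m => if u (j + m) ≠ u j ∧ cell u X (j + m) j = .a then G (ee X (j + m) j) (ff X (j + m) j) else 0)
    (fun m hm => ?_) (fun m hm hno => if_neg ?_)
  · have hm' := (Finset.mem_filter.mp hm).2.1
    have hy : j + (y1 X (j + m) j - j) = y1 X (j + m) j := by ring
    have hN := nc_Nf h hm'
    show (if u (j + m) ≠ u j ∧ cell u X (j + m) j = .a then G (ee X (j + m) j) (ff X (j + m) j) else 0) =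
      (if acut X u (j + (y1 X (j + m) j - j)) j then
        G (sa X (j + (y1 X (j + m) j - j)) j) (sb X (j + (y1 X (j + m) j - j)) j) else 0)
    rw [hy, nc_sa h hm', nc_sb h hm']
    refine if_congr ⟨fun hc => ⟨j + m, hN, hc⟩, ?_⟩ rfl rfl
    rintro ⟨i, hi, hc⟩
    rw [nf_unique h hN hi]
    exact hc
  · rintro ⟨i, hi, hc⟩
    exact hno ⟨i, hi⟩

end Pool.Agent.PHI
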