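import Pool.Agent.PHI.Defs

/-! Module PHI-Vdl.  `V` versus `V_disc`.  Both `VV e f` and a bounded error are double sums of second differences over the box
`a < e`, `b < f`: with `g m = m log m` the second difference is at most `1/(m+1)` plus 15 times the second difference of `1/(m+1)`,
so `VV e f ≤ Vd e f + 15`.  Further `VV e f ≥ min e f`, and `err` is `o(min e f)`, so `VV + err ≤ (1 + eta) Vd` for large `min e f`. -/

set_option autoImplicit false

namespace Pool.Agent.PHI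

/-- sum over a box of the second differences of `g` -/
private theorem Vdl_box (g : ℕ → ℝ) (e f : ℕ) :
    ∑ a ∈ Finset.range e, ∑ b ∈ Finset.range f, (g (a + b + 2) - 2 * g (a + b + 1) + g (a + b)) =
      g (e + f) - g e - g f + g 0 := by
  have h1 : ∀ a : ℕ, ∑ b ∈ Finset.range f, (g (a + b + 2) - 2 * g (a + b + 1) + g (a + b)) =
      (g (a + f + 1) - g (a + f)) - (g (a + 1) - g a) := by
    intro a
    induction f with
    | zero => simp
    | succ n ih =>
      rw [Finset.sum_range_succ, ih]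
      have : a + (n + 1) + 1 = a + n + 2 := by ring
      rw [this, show a + (n + 1) = a + n + 1 by ring]
      ring
  rw [Finset.sum_congr rfl (fun a _ => h1 a)]
  induction e with
  | zero => simp
  | succ n ih =>
    rw [Finset.sum_range_succ, ih]
    have : n + 1 + f = n + f + 1 := by ring
    rw [this]
    ring

private theorem Vdl_log3 {x : ℝ} (hx0 : 0 ≤ x) (hx : x ≤ 1 / 2) :
    (1 + x) * Real.log (1 + x) + (1 - x) * Real.log (1 - x) ≤ x ^ 2 + 5 * x ^ 4 := by
  have ha : |x| = x := abs_of_nonneg hx0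
  have h1 := Real.abs_log_sub_add_sum_range_le (x := x) (by rw [ha]; linarith) 3
  have h2 := Real.abs_log_sub_add_sum_range_le (x := -x) (by rw [abs_neg, ha]; linarith) 3
  rw [abs_neg, ha] at h2
  rw [ha] at h1
  simp only [Finset.sum_range_succ, Finset.sum_range_zero] at h1 h2
  have hb : x ^ (3 + 1) / (1 - x) ≤ 2 * x ^ 4 := by
    rw [div_le_iff₀ (by linarith)]
    have h0 : 0 ≤ x ^ 4 * (1 - 2 * x) := mul_nonneg (by positivity) (by linarith)
    have h0' : x ^ (3 + 1) = x ^ 4 := by norm_num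
    rw [h0']
    linarith
  have h1' := (abs_le.mp (h1.trans hb)).2
  have h2' := (abs_le.mp (h2.trans hb)).2
  rw [sub_neg_eq_add] at h2'
  push_cast at h1' h2'
  have e1 : Real.log (1 - x) ≤ 2 * x ^ 4 - x - x ^ 2 / 2 - x ^ 3 / 3 := by
    norm_num at h1'
    linarith
  have e2 : Real.log (1 + x) ≤ 2 * x ^ 4 + x - x ^ 2 / 2 + x ^ 3 / 3 := by
    have : (-x) ^ 2 = x ^ 2 := by ring
    have h3 : (-x) ^ 3 = -x ^ 3 := by ring
    norm_num at h2'
    rw [h3] at h2'
    linarith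
  have p1 : (1 + x) * Real.log (1 + x) ≤ (1 + x) * (2 * x ^ 4 + x - x ^ 2 / 2 + x ^ 3 / 3) :=
    mul_le_mul_of_nonneg_left e2 (by linarith)
  have p2 : (1 - x) * Real.log (1 - x) ≤ (1 - x) * (2 * x ^ 4 - x - x ^ 2 / 2 - x ^ 3 / 3) :=
    mul_le_mul_of_nonneg_left e1 (by linarith)
  have h4 : 0 ≤ x ^ 4 := by positivity
  nlinarith

private theorem Vdl_w (m : ℕ) :
    ((m + 2 : ℕ) : ℝ) * Real.log ((m + 2 : ℕ) : ℝ) - 2 * (((m + 1 : ℕ) : ℝ) * Real.log ((m + 1 : ℕ) : ℝ)) + (m : ℝ) * Real.log m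
      ≤ 1 / ((m : ℝ) + 1) + 15 * (1 / (((m + 2 : ℕ) : ℝ) + 1) - 2 * (1 / (((m + 1 : ℕ) : ℝ) + 1)) + 1 / ((m : ℝ) + 1)) := by
  rcases Nat.eq_zero_or_pos m with h0 | hpos
  · subst h0
    have : Real.log 2 < 0.6931471808 := Real.log_two_lt_d9
    norm_num
    linarith
  · have hm : (1 : ℝ) ≤ m := by exact_mod_cast hpos
    push_cast
    set n : ℝ := (m : ℝ) + 1 with hn
    have hn2 : 2 ≤ n := by rw [hn]; linarith
    have hn0 : 0 < n := by linarith
    have hx := Vdl_log3 (x := 1 / n) (by positivity) (by rw [div_le_div_iff₀ hn0 (by norm_num)]; linarith)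
    have e1 : Real.log (1 + 1 / n) = Real.log (n + 1) - Real.log n := by
      rw [← Real.log_div (by linarith) (by linarith)]
      congr 1
      field_simp
    have e2 : Real.log (1 - 1 / n) = Real.log (n - 1) - Real.log n := by
      rw [← Real.log_div (by linarith) (by linarith)]
      congr 1
      field_simp
    rw [e1, e2] at hx
    have hm2 : (m : ℝ) + 2 = n + 1 := by rw [hn]; ring
    have hm0 : (m : ℝ) = n - 1 := by rw [hn]; ring
    rw [hm2, hm0]
    have key : (n + 1) * Real.log (n + 1) - 2 * (n * Real.log n) + (n - 1) * Real.log (n - 1) =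
        n * ((1 + 1 / n) * (Real.log (n + 1) - Real.log n) + (1 - 1 / n) * (Real.log (n - 1) - Real.log n)) := by
      field_simp
      ring
    rw [key]
    have h3 := mul_le_mul_of_nonneg_left hx hn0.le
    refine h3.trans ?_
    have h5 : n * ((1 / n) ^ 2 + 5 * (1 / n) ^ 4) = 1 / n + 5 / n ^ 3 := by
      field_simp
    rw [h5]
    have h6 : 1 / (n + 1 + 1) - 2 * (1 / (n + 1)) + 1 / n = 2 / (n * (n + 1) * (n + 2)) := by
      field_simp
      ring
    have h7 : 5 / n ^ 3 ≤ 15 * (2 / (n * (n + 1) * (n + 2))) := by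
      rw [← mul_div_assoc, div_le_div_iff₀ (by positivity) (by positivity)]
      nlinarith [mul_pos hn0 hn0, mul_pos (mul_pos hn0 hn0) hn0, mul_nonneg hn0.le (sub_nonneg.mpr hn2)]
    have h8 : n - 1 + 1 = n := by ring
    rw [h6]
    linarith

theorem Vd_comm (e f : ℕ) : Vd e f = Vd f e := by
  unfold Vd
  rw [Finset.sum_comm]
  refine Finset.sum_congr rfl (fun a _ => Finset.sum_congr rfl (fun b _ => ?_))
  rw [add_comm (b : ℝ) (a : ℝ)]

private theorem Vdl_VV (e f : ℕ) : VV e f ≤ Vd e f + 15 := by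
  have h1 := Vdl_box (fun m => (m : ℝ) * Real.log m) e f
  have h2 := Vdl_box (fun m => 1 / ((m : ℝ) + 1)) e f
  have h3 : VV e f = ∑ a ∈ Finset.range e, ∑ b ∈ Finset.range f,
      ((((a + b + 2 : ℕ) : ℝ) * Real.log ((a + b + 2 : ℕ) : ℝ)) - 2 * (((a + b + 1 : ℕ) : ℝ) * Real.log ((a + b + 1 : ℕ) : ℝ)) +
        (((a + b : ℕ) : ℝ) * Real.log ((a + b : ℕ) : ℝ))) := by
    rw [h1]
    unfold VV
    push_cast
    simp
  have h4 : VV e f ≤ ∑ a ∈ Finset.range e, ∑ b ∈ Finset.range f, (1 / ((a : ℝ) + b + 1) +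
      15 * (1 / (((a + b + 2 : ℕ) : ℝ) + 1) - 2 * (1 / (((a + b + 1 : ℕ) : ℝ) + 1)) + 1 / (((a + b : ℕ) : ℝ) + 1))) := by
    rw [h3]
    refine Finset.sum_le_sum (fun a _ => Finset.sum_le_sum (fun b _ => ?_))
    have := Vdl_w (a + b)
    have h5 : ((a + b : ℕ) : ℝ) + 1 = (a : ℝ) + b + 1 := by push_cast; ring
    rw [← h5]
    exact this
  have h5 : ∑ a ∈ Finset.range e, ∑ b ∈ Finset.range f, (1 / ((a : ℝ) + b + 1) +
      15 * (1 / (((a + b + 2 : ℕ) : ℝ) + 1) - 2 * (1 / (((a + b + 1 : ℕ) : ℝ) + 1)) + 1 / (((a + b : ℕ) : ℝ) + 1))) =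
      Vd e f + 15 * (1 / (((e + f : ℕ) : ℝ) + 1) - 1 / ((e : ℝ) + 1) - 1 / ((f : ℝ) + 1) + 1 / (((0 : ℕ) : ℝ) + 1)) := by
    rw [← h2]
    unfold Vd
    rw [Finset.mul_sum, ← Finset.sum_add_distrib]
    refine Finset.sum_congr rfl (fun a _ => ?_)
    rw [Finset.mul_sum, ← Finset.sum_add_distrib]
  rw [h5] at h4
  have h6 : 1 / (((e + f : ℕ) : ℝ) + 1) ≤ 1 / ((e : ℝ) + 1) := by
    apply one_div_le_one_div_of_le (by positivity)
    push_cast
    have : (0 : ℝ) ≤ f := Nat.cast_nonneg f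
    linarith
  have h7 : (0 : ℝ) ≤ 1 / ((f : ℝ) + 1) := by positivity
  have h8 : 1 / (((0 : ℕ) : ℝ) + 1) = 1 := by norm_num
  rw [h8] at h4
  linarith

theorem VV_le_Vd : ∃ c : ℝ, ∀ e f : ℕ, 1 ≤ e → 1 ≤ f → VV e f ≤ Vd e f + c :=
  ⟨15, fun e f _ _ => Vdl_VV e f⟩

private theorem Vdl_min {x y : ℝ} (hx : 0 < x) (hxy : x ≤ y) : x ≤ VV x y := by
  have hy : 0 < y := lt_of_lt_of_le hx hxy
  have hs : 0 < x + y := by linarith
  have h1 : Real.log 2 ≤ Real.log (x + y) - Real.log x := by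
    rw [← Real.log_div hs.ne' hx.ne']
    apply Real.log_le_log (by norm_num)
    rw [le_div_iff₀ hx]
    linarith
  have h2 : 1 - ((x + y) / y)⁻¹ ≤ Real.log (x + y) - Real.log y := by
    rw [← Real.log_div hs.ne' hy.ne']
    exact Real.one_sub_inv_le_log_of_pos (by positivity)
  have h3 : y * (1 - ((x + y) / y)⁻¹) ≥ x / 2 := by
    have : y * (1 - ((x + y) / y)⁻¹) = x * y / (x + y) := by
      field_simp
      ring
    rw [this, ge_iff_le, div_le_div_iff₀ (by norm_num) hs]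
    nlinarith
  have h4 := mul_le_mul_of_nonneg_left h1 hx.le
  have h5 := mul_le_mul_of_nonneg_left h2 hy.le
  have h6 : 0.6931471803 < Real.log 2 := Real.log_two_gt_d9
  have h7 : x / 2 ≤ x * Real.log 2 := by nlinarith
  unfold VV
  nlinarith

private theorem Vdl_VVcomm (x y : ℝ) : VV x y = VV y x := by
  unfold VV
  rw [add_comm x y]
  ring

theorem le_VV {e f : ℕ} (he : 1 ≤ e) (hf : 1 ≤ f) : min (e : ℝ) f ≤ VV e f := by
  have he' : (0 : ℝ) < e := by exact_mod_cast he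
  have hf' : (0 : ℝ) < f := by exact_mod_cast hf
  rcases le_total (e : ℝ) f with h | h
  · rw [min_eq_left h]
    exact Vdl_min he' h
  · rw [min_eq_right h, Vdl_VVcomm]
    exact Vdl_min hf' h

theorem vdl {C eps0 eta : ℝ} (hC : 0 ≤ C) (he : 0 < eps0) (ht : 0 < eta) :
    ∃ n1 : ℕ, 1 ≤ n1 ∧ ∀ eps, eps0 ≤ eps → ∀ e f : ℕ, n1 ≤ e → n1 ≤ f → VV e f + err C eps e f ≤ (1 + eta) * Vd e f := by
  have hphi : 0 ≤ phi ^ 2 := sq_nonneg _
  set del : ℝ := eta * eps0 / (2 * (phi ^ 2 + 1)) with hdel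
  have hdel0 : 0 < del := by positivity
  have hlo := (Real.isLittleO_log_id_atTop).bound hdel0
  obtain ⟨X0, hX0⟩ := Filter.eventually_atTop.mp hlo
  set B : ℝ := (C + phi ^ 2) / eps0 + (1 + eta) * 15 with hB
  have hB0 : 0 ≤ B := by positivity
  obtain ⟨n1, hn1⟩ := exists_nat_ge (max (max X0 (2 * B / eta)) 1)
  have hn1a : X0 ≤ n1 := (le_max_left _ _).trans ((le_max_left _ _).trans hn1)
  have hn1b : 2 * B / eta ≤ n1 := (le_max_right _ _).trans ((le_max_left _ _).trans hn1)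
  have hn1c : (1 : ℝ) ≤ n1 := (le_max_right _ _).trans hn1
  refine ⟨n1, by exact_mod_cast hn1c, fun eps heps e f hne hnf => ?_⟩
  have hne' : (n1 : ℝ) ≤ e := by exact_mod_cast hne
  have hnf' : (n1 : ℝ) ≤ f := by exact_mod_cast hnf
  have h1 := le_VV (e := e) (f := f) (by exact_mod_cast hn1c.trans hne') (by exact_mod_cast hn1c.trans hnf')
  have h2 := Vdl_VV e f
  set M : ℝ := min (e : ℝ) f with hM
  have hMn : (n1 : ℝ) ≤ M := le_min hne' hnf'
  have hM1 : 1 ≤ M := hn1c.trans hMn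
  have hlog0 : 0 ≤ Real.log M := Real.log_nonneg hM1
  have h3 := hX0 M (hn1a.trans hMn)
  simp only [id, Real.norm_eq_abs] at h3
  rw [abs_of_nonneg hlog0, abs_of_nonneg (by linarith : (0 : ℝ) ≤ M)] at h3
  have h4 : err C eps e f ≤ (C + phi ^ 2 * (1 + Real.log M)) / eps0 := by
    unfold err
    apply div_le_div_of_nonneg_left _ he heps
    positivity
  have h5 : phi ^ 2 * Real.log M / eps0 ≤ eta / 2 * M := by
    rw [div_le_iff₀ he]
    have h6 : phi ^ 2 * Real.log M ≤ (phi ^ 2 + 1) * (del * M) := by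
      nlinarith [mul_nonneg hdel0.le (by linarith : (0 : ℝ) ≤ M)]
    have h7 : (phi ^ 2 + 1) * (del * M) = eta / 2 * M * eps0 := by
      rw [hdel]
      field_simp
    linarith
  have h8 : B ≤ eta / 2 * M := by
    have : 2 * B / eta ≤ M := hn1b.trans hMn
    rw [div_le_iff₀ ht] at this
    linarith
  have h9 : (C + phi ^ 2 * (1 + Real.log M)) / eps0 = (C + phi ^ 2) / eps0 + phi ^ 2 * Real.log M / eps0 := by
    rw [← add_div]
    ring
  have h10 : eta * M ≤ eta * VV e f := mul_le_mul_of_nonneg_left h1 ht.le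
  have h11 : (1 + eta) * VV e f ≤ (1 + eta) * (Vd e f + 15) := mul_le_mul_of_nonneg_left h2 (by linarith)
  rw [h9] at h4
  nlinarith

end Pool.Agent.PHI
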