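import Pool.Agent.PHI.Glb
import Pool.Agent.PHI.Rqq
import Pool.Agent.PHI.G2p
import Pool.Agent.PHI.Vdl

/-! Module PHI-G1f.  One view.  In `glb` the value `V + err` of a cut is at most `(1 + eta) Vd (sa) (sb)` (`G1f_cut`), the sum of
`FF` over the record pairs with `K1 < h_sub < K` is the sum of `pj / life` over the pairs with `K1 < h < K` plus a difference of two
sums of logarithms (`G1f_FF`), and the mean of the cuts is bounded by `g2`. -/

set_option autoImplicit false

namespace Pool.Agent.PHI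

variable {X : ℤ → ℝ} {u v : ℤ → ℕ} {D : ℕ} {eps F : ℝ} {n0 K1 : ℕ}

private theorem G1f_RR {K : ℕ} {j m : ℤ} (hm : m ∈ RR X K1 K j) :
    Rec X (j + m) j ∧ K1 < hs X (j + m) j ∧ hs X (j + m) j < K := by
  simp only [RR, Finset.mem_filter] at hm
  exact hm.2

private theorem G1f_QQ {K : ℕ} {j m : ℤ} (hm : m ∈ QQ X K1 K j) :
    Rec X (j + m) j ∧ K1 < hh X (j + m) j ∧ hh X (j + m) j < K := by
  simp only [QQ, Finset.mem_filter] at hm
  exact hm.2

private theorem G1f_RRs (K : ℕ) (j : ℤ) : RR X K1 K j ⊆ Finset.Icc (-(K : ℤ)) K := by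
  classical
  unfold RR
  exact Finset.filter_subset _ _

private theorem G1f_QQs (K : ℕ) (j : ℤ) : QQ X K1 K j ⊆ Finset.Icc (-(K : ℤ)) K := by
  classical
  unfold QQ
  exact Finset.filter_subset _ _

private theorem G1f_Vd (e f : ℕ) : 0 ≤ Vd e f ∧ Vd e f ≤ e * f := by
  constructor
  · unfold Vd
    exact Finset.sum_nonneg fun a _ => Finset.sum_nonneg fun b _ => by positivity
  · unfold Vd
    have h1 : ∀ a ∈ Finset.range e, ∑ b ∈ Finset.range f, 1 / ((a : ℝ) + b + 1) ≤ f := by
      intro a _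
      have h2 : ∀ b ∈ Finset.range f, 1 / ((a : ℝ) + b + 1) ≤ 1 := by
        intro b _
        rw [div_le_one (by positivity)]
        have h3 : (0 : ℝ) ≤ a := Nat.cast_nonneg a
        have h4 : (0 : ℝ) ≤ b := Nat.cast_nonneg b
        linarith
      refine (Finset.sum_le_sum h2).trans ?_
      rw [Finset.sum_const, Finset.card_range, nsmul_eq_mul, mul_one]
    refine (Finset.sum_le_sum h1).trans ?_
    rw [Finset.sum_const, Finset.card_range, nsmul_eq_mul]

private theorem G1f_cut (h : Sys X u v D eps F n0 K1) {C eta : ℝ}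
    (hv : ∀ e f : ℕ, n0 ≤ e → n0 ≤ f → VV e f + err C eps e f ≤ (1 + eta) * Vd e f) {K : ℕ} {j m : ℤ}
    (hm : m ∈ RR X K1 K j) :
    VV (ww X (j + m) j) (nn (j + m) j) + err C eps (ww X (j + m) j) (nn (j + m) j) ≤
      (1 + eta) * Vd (sa X (j + m) j) (sb X (j + m) j) := by
  obtain ⟨hr, h1, -⟩ := G1f_RR hm
  have h2 := fine_rec h hr (lt_trans h1 hr.sab.2.2.1)
  have h3 := hv _ _ h2.2.1 h2.1
  have h4 : Vd (ww X (j + m) j) (nn (j + m) j) = Vd (sa X (j + m) j) (sb X (j + m) j) := by
    unfold ww sa sb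
    by_cases hc : j + m < j
    · rw [if_pos hc, if_pos hc, if_pos hc]
      exact Vd_comm _ _
    · rw [if_neg hc, if_neg hc, if_neg hc]
  rwa [h4] at h3

open Classical in
private theorem G1f_FF (h : Sys X u v D eps F n0 K1) (P : Fl → Fl → ℝ → ℝ → ℝ → ℝ) (K : ℕ) (j : ℤ) :
    ∑ m ∈ RR X K1 K j, FF P eps X u v (j + m) j =
      ∑ m ∈ QQ X K1 K j, pj P eps X u v (j + m) j / life u v (j + m) j +
        phi ^ 2 / eps * (∑ m ∈ RR X K1 K j, Real.log (life u v (j + m) j / eps) -
          ∑ m ∈ QQ X K1 K j, Real.log (life u v (j + m) j / eps)) := by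
  have e : ∀ m : ℤ, FF P eps X u v (j + m) j =
      (if hN : ∃ i, Nf X (j + m) j i then
        (fun i => pj P eps X u v i j / life u v i j - phi ^ 2 / eps * Real.log (life u v i j / eps)) hN.choose else 0) +
      phi ^ 2 / eps * Real.log (life u v (j + m) j / eps) := by
    intro m
    unfold FF
    split_ifs
    · ring
    · ring
  rw [Finset.sum_congr rfl fun m _ => e m, Finset.sum_add_distrib,
    rqq h K j (fun i => pj P eps X u v i j / life u v i j - phi ^ 2 / eps * Real.log (life u v i j / eps)),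
    Finset.sum_sub_distrib, ← Finset.mul_sum, ← Finset.mul_sum]
  ring

open Classical in
theorem g1 {E : (ℤ → ℝ) → ℝ} (hE : Mean E) (h : Sys X u v D eps F n0 K1) {P : Fl → Fl → ℝ → ℝ → ℝ → ℝ} {C eta : ℝ}
    (hP : Cert P C) (he : 0 < eps) (hn0 : 1 ≤ n0) (ht : 0 ≤ eta)
    (hv : ∀ e f : ℕ, n0 ≤ e → n0 ≤ f → VV e f + err C eps e f ≤ (1 + eta) * Vd e f) {K : ℕ} (hK : 1 ≤ K) :
    E (fun j => ∑ m ∈ QQ X K1 K j, pj P eps X u v (j + m) j / life u v (j + m) j) +
      phi ^ 2 / eps * E (fun j => ∑ m ∈ RR X K1 K j, Real.log (life u v (j + m) j / eps) -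
        ∑ m ∈ QQ X K1 K j, Real.log (life u v (j + m) j / eps)) ≤
      E (fun j => ∑ m ∈ RR X K1 K j, bj P eps X u v (j + m) j / life u v (j + m) j) + (1 + eta) * (D * (1 + Real.log K)) := by
  have hphi : 0 ≤ 1 + eta := by linarith
  -- bounded functions
  have b1 : Bd (fun j => ∑ m ∈ QQ X K1 K j, pj P eps X u v (j + m) j / life u v (j + m) j) :=
    Bd.sum_filter (Finset.Icc (-(K : ℤ)) K) (fun j => QQ X K1 K j) (fun j => G1f_QQs K j)
      (f := fun m j => pj P eps X u v (j + m) j / life u v (j + m) j) (C := C / eps) fun j m hm =>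
        pj_bd h hP he (G1f_QQ hm).1 (G1f_QQ hm).2.1
  have b2 : Bd (fun j => ∑ m ∈ RR X K1 K j, Real.log (life u v (j + m) j / eps)) :=
    Bd.sum_filter (Finset.Icc (-(K : ℤ)) K) (fun j => RR X K1 K j) (fun j => G1f_RRs K j)
      (f := fun m j => Real.log (life u v (j + m) j / eps)) (C := |Real.log eps| + Real.log K) fun j m hm => by
        obtain ⟨hr, h1, h2⟩ := G1f_RR hm
        have h3 := hr.sab
        exact log_bd h he hr (by omega) (by omega)
  have b3 : Bd (fun j => ∑ m ∈ QQ X K1 K j, Real.log (life u v (j + m) j / eps)) :=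
    Bd.sum_filter (Finset.Icc (-(K : ℤ)) K) (fun j => QQ X K1 K j) (fun j => G1f_QQs K j)
      (f := fun m j => Real.log (life u v (j + m) j / eps)) (C := |Real.log eps| + Real.log K) fun j m hm => by
        obtain ⟨hr, h1, h2⟩ := G1f_QQ hm
        have h3 := hr.sab
        exact log_bd h he hr (by omega) (by omega)
  have b4 : Bd (fun j => ∑ m ∈ RR X K1 K j, bj P eps X u v (j + m) j / life u v (j + m) j) :=
    Bd.sum_filter (Finset.Icc (-(K : ℤ)) K) (fun j => RR X K1 K j) (fun j => G1f_RRs K j)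
      (f := fun m j => bj P eps X u v (j + m) j / life u v (j + m) j) (C := C / eps) fun j m hm => by
        obtain ⟨hr, h1, h2⟩ := G1f_RR hm
        exact bj_bd h hP he hr (lt_trans h1 hr.sab.2.2.1)
  have b5 : Bd (fun j => ∑ m ∈ QQ X K1 K j,
      (if u (j + m) ≠ u j ∧ cell u X (j + m) j = .a then Vd (ee X (j + m) j) (ff X (j + m) j) else 0)) :=
    Bd.sum_filter (Finset.Icc (-(K : ℤ)) K) (fun j => QQ X K1 K j) (fun j => G1f_QQs K j)
      (f := fun m j => if u (j + m) ≠ u j ∧ cell u X (j + m) j = .a then Vd (ee X (j + m) j) (ff X (j + m) j) else 0)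
      (C := (K : ℝ) * K) fun j m hm => by
        obtain ⟨hr, h1, h2⟩ := G1f_QQ hm
        have h3 := G1f_Vd (ee X (j + m) j) (ff X (j + m) j)
        have h4 : (ee X (j + m) j : ℝ) ≤ K := by
          have : ee X (j + m) j ≤ K := by unfold hh at h2; omega
          exact_mod_cast this
        have h5 : (ff X (j + m) j : ℝ) ≤ K := by
          have : ff X (j + m) j ≤ K := by unfold hh at h2; omega
          exact_mod_cast this
        have h6 : (ee X (j + m) j : ℝ) * ff X (j + m) j ≤ K * K :=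
          mul_le_mul h4 h5 (Nat.cast_nonneg _) (Nat.cast_nonneg _)
        show |(if u (j + m) ≠ u j ∧ cell u X (j + m) j = .a then Vd (ee X (j + m) j) (ff X (j + m) j) else 0)| ≤ _
        split_ifs
        · rw [abs_of_nonneg h3.1]
          exact h3.2.trans h6
        · rw [abs_zero]
          positivity
  have b6 : Bd (fun j => ∑ m ∈ RR X K1 K j, (if acut X u (j + m) j then VV (ww X (j + m) j) (nn (j + m) j) +
      err C eps (ww X (j + m) j) (nn (j + m) j) else 0)) :=
    Bd.sum_filter (Finset.Icc (-(K : ℤ)) K) (fun j => RR X K1 K j) (fun j => G1f_RRs K j)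
      (f := fun m j => if acut X u (j + m) j then VV (ww X (j + m) j) (nn (j + m) j) +
        err C eps (ww X (j + m) j) (nn (j + m) j) else 0)
      (C := ∑ a ∈ Finset.range K, ∑ b ∈ Finset.range K, |VV (a : ℝ) (b : ℝ) + err C eps a b|) fun j m hm => by
        obtain ⟨hr, h1, h2⟩ := G1f_RR hm
        have h3 := hr.sab
        have hV : |VV (ww X (j + m) j) (nn (j + m) j) + err C eps (ww X (j + m) j) (nn (j + m) j)| ≤
            ∑ a ∈ Finset.range K, ∑ b ∈ Finset.range K, |VV (a : ℝ) (b : ℝ) + err C eps a b| := by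
          have h4 : |VV (ww X (j + m) j) (nn (j + m) j) + err C eps (ww X (j + m) j) (nn (j + m) j)| ≤
              ∑ b ∈ Finset.range K, |VV (ww X (j + m) j) (b : ℝ) + err C eps (ww X (j + m) j) b| :=
            Finset.single_le_sum (f := fun b : ℕ => |VV (ww X (j + m) j) (b : ℝ) + err C eps (ww X (j + m) j) b|)
              (fun _ _ => abs_nonneg _) (Finset.mem_range.2 (by omega))
          refine h4.trans ?_
          exact Finset.single_le_sum
            (f := fun a : ℕ => ∑ b ∈ Finset.range K, |VV (a : ℝ) (b : ℝ) + err C eps a b|)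
            (fun _ _ => Finset.sum_nonneg (fun _ _ => abs_nonneg _)) (Finset.mem_range.2 (by omega))
        show |(if acut X u (j + m) j then VV (ww X (j + m) j) (nn (j + m) j) +
          err C eps (ww X (j + m) j) (nn (j + m) j) else 0)| ≤ _
        split_ifs
        · exact hV
        · rw [abs_zero]
          exact Finset.sum_nonneg fun _ _ => Finset.sum_nonneg fun _ _ => abs_nonneg _
  have b7 := b2.sub b3
  have b8 := b7.smul (phi ^ 2 / eps)
  have b9 := b5.smul (1 + eta)
  -- the sum in `glb`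
  have hpt : ∀ j : ℤ, ∑ m ∈ RR X K1 K j, (FF P eps X u v (j + m) j - bj P eps X u v (j + m) j / life u v (j + m) j -
      (if acut X u (j + m) j then VV (ww X (j + m) j) (nn (j + m) j) + err C eps (ww X (j + m) j) (nn (j + m) j) else 0)) =
      (∑ m ∈ QQ X K1 K j, pj P eps X u v (j + m) j / life u v (j + m) j +
        phi ^ 2 / eps * (∑ m ∈ RR X K1 K j, Real.log (life u v (j + m) j / eps) -
          ∑ m ∈ QQ X K1 K j, Real.log (life u v (j + m) j / eps)) -
        ∑ m ∈ RR X K1 K j, bj P eps X u v (j + m) j / life u v (j + m) j) -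
        ∑ m ∈ RR X K1 K j, (if acut X u (j + m) j then VV (ww X (j + m) j) (nn (j + m) j) +
          err C eps (ww X (j + m) j) (nn (j + m) j) else 0) := by
    intro j
    rw [Finset.sum_sub_distrib, Finset.sum_sub_distrib, G1f_FF h P K j]
  have hcut : ∀ j : ℤ, ∑ m ∈ RR X K1 K j, (if acut X u (j + m) j then VV (ww X (j + m) j) (nn (j + m) j) +
      err C eps (ww X (j + m) j) (nn (j + m) j) else 0) ≤
      (1 + eta) * ∑ m ∈ QQ X K1 K j,
        (if u (j + m) ≠ u j ∧ cell u X (j + m) j = .a then Vd (ee X (j + m) j) (ff X (j + m) j) else 0) := by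
    intro j
    rw [← rqq_cut h K j Vd, Finset.mul_sum]
    refine Finset.sum_le_sum fun m hm => ?_
    split_ifs
    · exact G1f_cut h hv hm
    · rw [mul_zero]
  have key := glb hE h hP he hn0 K
  have e1 := congrArg E (funext hpt)
  rw [e1, hE.sub ((b1.add b8).sub b4) b6, hE.sub (b1.add b8) b4, hE.add _ _ b1 b8, hE.smul _ _ b7] at key
  have hc := hE.mono _ _ b6 b9 hcut
  rw [hE.smul _ _ b5] at hc
  have hg := g2 hE h hK
  have hg' := mul_le_mul_of_nonneg_left hg hphi
  linarith

end Pool.Agent.PHI
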