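import Pool.Agent.PHI.Tsp
import Pool.Agent.PHI.D3L
import Pool.Agent.PHI.Bds

/-! Module PHI-Glb.  The mean of `FF` over the record pairs with `K1 < h_sub < K`: for each fixed difference of the indices the sum over
complete lives is nonpositive (`d3`), and the mean is a sum of means over lives (`transport_nonpos`). -/

set_option autoImplicit false

namespace Pool.Agent.PHI

variable {X : ℤ → ℝ} {u v : ℤ → ℕ} {D : ℕ} {eps F : ℝ} {n0 K1 : ℕ}

/-- the pairs that are counted -/
private def Glb_R (X : ℤ → ℝ) (K1 K : ℕ) (i j : ℤ) : Prop := Rec X i j ∧ K1 < hs X i j ∧ hs X i j < K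

private theorem Glb_fw (h : Sys X u v D eps F n0 K1) {K : ℕ} {i j : ℤ} (hR : Glb_R X K1 K i j)
    (hg : du u i j ≠ 0) : Glb_R X K1 K (i + 1) (j + 1) ∧ du u (i + 1) (j + 1) + 1 = du u i j ∧
      dv v (i + 1) (j + 1) = dv v i j + 1 := by
  obtain ⟨h1, h2, h3⟩ := hR
  have hne := h1.ne
  have hlt : X i < X j := h1.1
  have hu : u i = u j := by
    by_contra hc
    exact hg ((du_zero h hne).2 hc)
  refine ⟨⟨(Rec_succ h hlt hu).2 h1, ?_, ?_⟩, du_succ h hne hu, dv_succ h hne hu⟩
  · rw [hs_succ h hlt hu]; exact h2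
  · rw [hs_succ h hlt hu]; exact h3

private theorem Glb_bw (h : Sys X u v D eps F n0 K1) {K : ℕ} {i j : ℤ} (hR : Glb_R X K1 K i j)
    (hg : dv v i j ≠ 0) : Glb_R X K1 K (i - 1) (j - 1) ∧ dv v (i - 1) (j - 1) + 1 = dv v i j ∧
      du u (i - 1) (j - 1) = du u i j + 1 := by
  obtain ⟨h1, h2, h3⟩ := hR
  have hne := h1.ne
  have hlt : X i < X j := h1.1
  have hv : v i = v j := by
    by_contra hc
    exact hg ((dv_zero h hne).2 hc)
  obtain ⟨h4, h5⟩ := pred_of_v h hlt hv
  have hne' : i - 1 ≠ j - 1 := fun hc => hne (by omega)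
  have e1 : i - 1 + 1 = i := by ring
  have e2 : j - 1 + 1 = j := by ring
  have h6 := Rec_succ h h4 h5
  have h7 := hs_succ h h4 h5
  have h8 := du_succ h hne' h5
  have h9 := dv_succ h hne' h5
  rw [e1, e2] at h6 h7 h8 h9
  exact ⟨⟨h6.1 h1, by rw [← h7]; exact h2, by rw [← h7]; exact h3⟩, h9.symm, h8.symm⟩

private theorem Glb_iter (h : Sys X u v D eps F n0 K1) (P : Fl → Fl → ℝ → ℝ → ℝ → ℝ) {y j : ℤ}
    (hne : y ≠ j) (hlt : X y < X j) : ∀ k : ℕ, k ≤ dv v y j →
      X (y - k) < X (j - k) ∧ dv v (y - k) (j - k) + k = dv v y j ∧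
      bj P eps X u v (y - k) (j - k) = bj P eps X u v y j ∧
      life u v (y - k) (j - k) = life u v y j ∧ ww X (y - k) (j - k) = ww X y j ∧
      nn (y - k) (j - k) = nn y j := by
  intro k
  induction k with
  | zero =>
    intro _
    have e1 : y - ((0 : ℕ) : ℤ) = y := by simp
    have e2 : j - ((0 : ℕ) : ℤ) = j := by simp
    rw [e1, e2]
    exact ⟨hlt, by simp, rfl, rfl, rfl, rfl⟩
  | succ k ih =>
    intro hk
    obtain ⟨h1, h2, h3, h4, h5, h6⟩ := ih (by omega)
    have hne1 : y - (k : ℤ) ≠ j - k := fun hc => hne (by omega)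
    have hv : v (y - k) = v (j - k) := by
      by_contra hc
      have := (dv_zero h hne1).2 hc
      omega
    obtain ⟨h7, h8⟩ := pred_of_v h h1 hv
    have e1 : y - ((k + 1 : ℕ) : ℤ) = y - k - 1 := by push_cast; ring
    have e2 : j - ((k + 1 : ℕ) : ℤ) = j - k - 1 := by push_cast; ring
    have hne2 : y - (k : ℤ) - 1 ≠ j - k - 1 := fun hc => hne (by omega)
    have e3 : y - (k : ℤ) - 1 + 1 = y - k := by ring
    have e4 : j - (k : ℤ) - 1 + 1 = j - k := by ring
    have g1 := dv_succ h hne2 h8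
    have g2 := bj_succ h P h7 h8
    have g3 := life_succ h hne2 h8
    have g4 := ww_succ h h7 h8
    have g5 := nn_succ (y - (k : ℤ) - 1) (j - k - 1)
    rw [e3, e4] at g1 g2 g3 g4 g5
    rw [e1, e2]
    refine ⟨h7, by omega, by rw [← g2]; exact h3, by rw [← g3]; exact h4, by rw [← g4]; exact h5,
      by rw [← g5]; exact h6⟩

private theorem Glb_F (h : Sys X u v D eps F n0 K1) {K : ℕ} {i j : ℤ} (hR : Glb_R X K1 K i j) :
    du u i j + dv v i j ≤ ⌈F * K⌉₊ := by
  obtain ⟨h1, -, h3⟩ := hR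
  have h4 := life_le0 h h1.ne
  have h5 : (1 : ℝ) ≤ life u v i j := by exact_mod_cast life_pos u v i j
  have h6 : (0 : ℝ) < nn i j := by exact_mod_cast h1.nn_pos
  have hF : 0 < F := by
    by_contra hc
    have : F * (nn i j : ℝ) ≤ 0 := mul_nonpos_of_nonpos_of_nonneg (not_lt.1 hc) h6.le
    linarith
  have h7 : (nn i j : ℝ) ≤ K := by
    have h8 : nn i j ≤ K := (h1.sab.2.2.2.2).trans h3.le
    exact_mod_cast h8
  have h9 : F * (nn i j : ℝ) ≤ F * K := mul_le_mul_of_nonneg_left h7 hF.le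
  have h10 : ((du u i j + dv v i j : ℕ) : ℝ) ≤ ⌈F * K⌉₊ := by
    have h11 : (life u v i j : ℝ) = ((du u i j + dv v i j : ℕ) : ℝ) + 1 := by
      unfold life
      push_cast
      ring
    have h12 := Nat.le_ceil (F * (K : ℝ))
    linarith
  exact_mod_cast h10

open Classical in
theorem glb {E : (ℤ → ℝ) → ℝ} (hE : Mean E) (h : Sys X u v D eps F n0 K1) {P : Fl → Fl → ℝ → ℝ → ℝ → ℝ} {C : ℝ}
    (hP : Cert P C) (he : 0 < eps) (hn0 : 1 ≤ n0) (K : ℕ) :
    E (fun j => ∑ m ∈ RR X K1 K j, (FF P eps X u v (j + m) j - bj P eps X u v (j + m) j / life u v (j + m) j -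
      (if acut X u (j + m) j then VV (ww X (j + m) j) (nn (j + m) j) + err C eps (ww X (j + m) j) (nn (j + m) j) else 0))) ≤ 0 := by
  obtain ⟨B, hB⟩ := FF_bd h hP he K
  let Bv : ℝ := ∑ a ∈ Finset.range K, ∑ b ∈ Finset.range K, |VV (a : ℝ) (b : ℝ) + err C eps a b|
  have hRR : ∀ j m, m ∈ RR X K1 K j ↔ m ∈ Finset.Icc (-(K : ℤ)) K ∧ Glb_R X K1 K (j + m) j := by
    intro j m
    unfold RR Glb_R
    rw [Finset.mem_filter]
  have hVb : ∀ a b : ℕ, a < K → b < K → |VV (a : ℝ) (b : ℝ) + err C eps a b| ≤ Bv := by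
    intro a b ha hb
    have h1 : |VV (a : ℝ) (b : ℝ) + err C eps a b| ≤
        ∑ b ∈ Finset.range K, |VV (a : ℝ) (b : ℝ) + err C eps a b| :=
      Finset.single_le_sum (f := fun b : ℕ => |VV (a : ℝ) (b : ℝ) + err C eps a b|)
        (fun _ _ => abs_nonneg _) (Finset.mem_range.2 hb)
    refine h1.trans ?_
    exact Finset.single_le_sum
      (f := fun a : ℕ => ∑ b ∈ Finset.range K, |VV (a : ℝ) (b : ℝ) + err C eps a b|)
      (fun _ _ => Finset.sum_nonneg (fun _ _ => abs_nonneg _)) (Finset.mem_range.2 ha)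
  have hBv : 0 ≤ Bv := Finset.sum_nonneg (fun _ _ => Finset.sum_nonneg (fun _ _ => abs_nonneg _))
  have hbd : ∀ j, ∀ m ∈ RR X K1 K j, |FF P eps X u v (j + m) j -
      bj P eps X u v (j + m) j / life u v (j + m) j -
      (if acut X u (j + m) j then VV (ww X (j + m) j) (nn (j + m) j) +
        err C eps (ww X (j + m) j) (nn (j + m) j) else 0)| ≤ B + C / eps + Bv := by
    intro j m hm
    have h1 := hB j m hm
    obtain ⟨-, hr, h2, h3⟩ := (hRR j m).1 hm
    have hsab := hr.sab
    have h4 := bj_bd h hP he hr (lt_trans h2 hsab.2.2.1)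
    have h5 : |(if acut X u (j + m) j then VV (ww X (j + m) j) (nn (j + m) j) +
        err C eps (ww X (j + m) j) (nn (j + m) j) else 0)| ≤ Bv := by
      split_ifs
      · exact hVb _ _ (by omega) (by omega)
      · rw [abs_zero]
        exact hBv
    calc _ ≤ |FF P eps X u v (j + m) j - bj P eps X u v (j + m) j / life u v (j + m) j| +
          |(if acut X u (j + m) j then VV (ww X (j + m) j) (nn (j + m) j) +
            err C eps (ww X (j + m) j) (nn (j + m) j) else 0)| := abs_sub _ _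
      _ ≤ (|FF P eps X u v (j + m) j| + |bj P eps X u v (j + m) j / life u v (j + m) j|) + Bv :=
          add_le_add (abs_sub _ _) h5
      _ ≤ _ := by linarith
  rw [hE.sum_filter (Finset.Icc (-(K : ℤ)) K) (fun j => RR X K1 K j)
    (fun j m hm => ((hRR j m).1 hm).1)
    (f := fun m j => FF P eps X u v (j + m) j - bj P eps X u v (j + m) j / life u v (j + m) j -
      (if acut X u (j + m) j then VV (ww X (j + m) j) (nn (j + m) j) +
        err C eps (ww X (j + m) j) (nn (j + m) j) else 0)) hbd]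
  refine Finset.sum_nonpos (fun m hm => ?_)
  have hA : ∀ t, m ∈ RR X K1 K t ↔ Glb_R X K1 K (t + m) t := fun t =>
    ⟨fun h1 => ((hRR t m).1 h1).2, fun h1 => (hRR t m).2 ⟨hm, h1⟩⟩
  refine le_of_eq_of_le (congrArg E ?_) (transport_nonpos hE (A := fun t => m ∈ RR X K1 K t)
    (g := fun t => du u (t + m) t) (h := fun t => dv v (t + m) t)
    (F := fun t => FF P eps X u v (t + m) t - bj P eps X u v (t + m) t / life u v (t + m) t -
      (if acut X u (t + m) t then VV (ww X (t + m) t) (nn (t + m) t) +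
        err C eps (ww X (t + m) t) (nn (t + m) t) else 0))
    (B := ⌈F * K⌉₊) (C := B + C / eps + Bv) ?_ ?_ ?_ ?_ ?_)
  · funext t
    by_cases ht : m ∈ RR X K1 K t
    · rw [if_pos ht, if_pos ht]
    · rw [if_neg ht, if_neg ht]
  · intro t ht hg
    obtain ⟨h1, h2, h3⟩ := Glb_fw h ((hA t).1 ht) hg
    have e1 : t + m + 1 = t + 1 + m := by ring
    rw [e1] at h1 h2 h3
    exact ⟨(hA _).2 h1, h2, h3⟩
  · intro t ht hg
    obtain ⟨h1, h2, h3⟩ := Glb_bw h ((hA t).1 ht) hg
    have e1 : t + m - 1 = t - 1 + m := by ring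
    rw [e1] at h1 h2 h3
    exact ⟨(hA _).2 h1, h2, h3⟩
  · intro t ht
    exact Glb_F h ((hA t).1 ht)
  · intro t ht
    exact hbd t m ht
  · intro t ht hg
    obtain ⟨hr, h2, h3⟩ := (hA t).1 ht
    have hne := hr.ne
    have hu : u (t + m) ≠ u t := (du_zero h hne).1 hg
    have key := d3 h hP he hn0 hr h2 hu
    have hlife : (life u v (t + m) t : ℝ) = ((dv v (t + m) t + 1 : ℕ) : ℝ) := by
      have : life u v (t + m) t = dv v (t + m) t + 1 := by
        unfold life
        rw [show du u (t + m) t = 0 from hg, zero_add]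
      rw [this]
    have hit := Glb_iter (eps := eps) h P hne hr.1
    have hterm : ∀ k ∈ Finset.range (dv v (t + m) t + 1),
        (FF P eps X u v (t - (k : ℤ) + m) (t - k) -
          bj P eps X u v (t - (k : ℤ) + m) (t - k) / life u v (t - (k : ℤ) + m) (t - k) -
          (if acut X u (t - (k : ℤ) + m) (t - k) then
            VV (ww X (t - (k : ℤ) + m) (t - k)) (nn (t - (k : ℤ) + m) (t - k)) +
            err C eps (ww X (t - (k : ℤ) + m) (t - k)) (nn (t - (k : ℤ) + m) (t - k)) else 0)) =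
        FF P eps X u v (t + m - k) (t - k) -
          bj P eps X u v (t + m) t / life u v (t + m) t -
          (if acut X u (t + m - (k : ℤ)) (t - k) then (1 : ℝ) else 0) *
            (VV (ww X (t + m) t) (nn (t + m) t) + err C eps (ww X (t + m) t) (nn (t + m) t)) := by
      intro k hk
      rw [Finset.mem_range] at hk
      obtain ⟨-, -, g3, g4, g5, g6⟩ := hit k (by omega)
      have e1 : t - (k : ℤ) + m = t + m - k := by ring
      rw [e1, g3, g4, g5, g6]
      split_ifs <;> ring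
    have hsum : ∑ k ∈ Finset.range (dv v (t + m) t + 1),
        (FF P eps X u v (t - (k : ℤ) + m) (t - k) -
          bj P eps X u v (t - (k : ℤ) + m) (t - k) / life u v (t - (k : ℤ) + m) (t - k) -
          (if acut X u (t - (k : ℤ) + m) (t - k) then
            VV (ww X (t - (k : ℤ) + m) (t - k)) (nn (t - (k : ℤ) + m) (t - k)) +
            err C eps (ww X (t - (k : ℤ) + m) (t - k)) (nn (t - (k : ℤ) + m) (t - k)) else 0)) =
        ∑ k ∈ Finset.range (dv v (t + m) t + 1), FF P eps X u v (t + m - k) (t - k) -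
          bj P eps X u v (t + m) t -
          (∑ k ∈ Finset.range (dv v (t + m) t + 1),
            (if acut X u (t + m - (k : ℤ)) (t - k) then (1 : ℝ) else 0)) *
            (VV (ww X (t + m) t) (nn (t + m) t) + err C eps (ww X (t + m) t) (nn (t + m) t)) := by
      rw [Finset.sum_congr rfl hterm, Finset.sum_sub_distrib, Finset.sum_sub_distrib,
        ← Finset.sum_mul, Finset.sum_const, Finset.card_range, nsmul_eq_mul, hlife]
      have h5 : ((dv v (t + m) t + 1 : ℕ) : ℝ) ≠ 0 := by positivity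
      rw [mul_div_cancel₀ _ h5]
    show ∑ k ∈ Finset.range (dv v (t + m) t + 1),
        (FF P eps X u v (t - (k : ℤ) + m) (t - k) -
          bj P eps X u v (t - (k : ℤ) + m) (t - k) / life u v (t - (k : ℤ) + m) (t - k) -
          (if acut X u (t - (k : ℤ) + m) (t - k) then
            VV (ww X (t - (k : ℤ) + m) (t - k)) (nn (t - (k : ℤ) + m) (t - k)) +
            err C eps (ww X (t - (k : ℤ) + m) (t - k)) (nn (t - (k : ℤ) + m) (t - k)) else 0)) ≤ 0
    rw [hsum]
    linarith

end Pool.Agent.PHI
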