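import Pool.Agent.PHI.Trb
import Pool.Agent.PHI.Lfb

/-! Module PHI-Hst.  The history of a dying pair: the next farther pairs at the times of its life form a list of pieces; strong
induction on the time before the death at which a next farther pair is newborn. -/

set_option autoImplicit false

namespace Pool.Agent.PHI

variable {X : ℤ → ℝ} {u v : ℤ → ℕ} {D : ℕ} {eps F : ℝ} {n0 K1 : ℕ}

open Classical in
private noncomputable def Hst_tm (X : ℤ → ℝ) (u v : ℤ → ℕ) (G : Fl → Fl → ℕ → ℝ) (w : ℝ) (y j : ℤ) (k : ℕ) : ℝ :=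
  if hN : ∃ i, Nf X (y - k) (j - k) i then
    G (fb X v hN.choose (j - k)) (fd X u hN.choose (j - k)) (life u v hN.choose (j - k)) else w

open Classical in
private noncomputable def Hst_am (X : ℤ → ℝ) (u : ℤ → ℕ) (y j : ℤ) (k : ℕ) : ℝ :=
  if acut X u (y - k) (j - k) then (1 : ℝ) else 0

private theorem Hst_tm_of (h : Sys X u v D eps F n0 K1) {G : Fl → Fl → ℕ → ℝ} {w : ℝ} {y j i : ℤ} {k : ℕ}
    (hn : Nf X (y - k) (j - k) i) :
    Hst_tm X u v G w y j k = G (fb X v i (j - k)) (fd X u i (j - k)) (life u v i (j - k)) := by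
  unfold Hst_tm
  have hN : ∃ i, Nf X (y - k) (j - k) i := ⟨i, hn⟩
  rw [dif_pos hN, nf_unique h hN.choose_spec hn]

private theorem Hst_tm_no {G : Fl → Fl → ℕ → ℝ} {w : ℝ} {y j : ℤ} {k : ℕ}
    (hn : ¬ ∃ i, Nf X (y - k) (j - k) i) : Hst_tm X u v G w y j k = w := by
  unfold Hst_tm
  rw [dif_neg hn]

private theorem Hst_am_zero (h : Sys X u v D eps F n0 K1) {y j i : ℤ} {k : ℕ} (hn : Nf X (y - k) (j - k) i)
    (hne : u i = u (j - k) ∨ cell u X i (j - k) ≠ .a) : Hst_am X u y j k = 0 := by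
  unfold Hst_am
  rw [if_neg]
  rintro ⟨i', h1, h2, h3⟩
  have h4 := nf_unique h h1 hn
  rw [h4] at h2 h3
  rcases hne with h5 | h5
  · exact h2 h5
  · exact h5 h3

private theorem Hst_am_no {y j : ℤ} {k : ℕ} (hn : ¬ ∃ i, Nf X (y - k) (j - k) i) : Hst_am X u y j k = 0 := by
  unfold Hst_am
  rw [if_neg]
  rintro ⟨i', h1, _⟩
  exact hn ⟨i', h1⟩

private theorem Hst_am_one {y j i : ℤ} {k : ℕ} (hn : Nf X (y - k) (j - k) i) (hne : u i ≠ u (j - k))
    (hc : cell u X i (j - k) = .a) : Hst_am X u y j k = 1 := by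
  unfold Hst_am
  rw [if_pos ⟨i, hn, hne, hc⟩]

private theorem Hst_back (h : Sys X u v D eps F n0 K1) {y j : ℤ} (hr : Rec X y j) (k : ℕ) (hk : k ≤ dv v y j) :
    X (y - k) < X (j - k) ∧ Rec X (y - k) (j - k) ∧ hs X (y - k) (j - k) = hs X y j ∧
      (0 < k → u (y - k) = u (j - k)) := by
  induction k with
  | zero =>
    simp only [Nat.cast_zero, sub_zero]
    exact ⟨hr.1, hr, trivial, fun h0 => absurd h0 (lt_irrefl _)⟩
  | succ k ih =>
    obtain ⟨h1, h2, h3, _⟩ := ih (by omega)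
    have hv := (dv_spec h hr.ne).2 k (by omega)
    obtain ⟨h4, h5⟩ := pred_of_v h h1 hv
    have e1 : y - ((k + 1 : ℕ) : ℤ) = y - k - 1 := by push_cast; ring
    have e2 : j - ((k + 1 : ℕ) : ℤ) = j - k - 1 := by push_cast; ring
    have h6 := Rec_succ h h4 h5
    have h7 := hs_succ h h4 h5
    rw [sub_add_cancel, sub_add_cancel] at h6 h7
    rw [e1, e2]
    exact ⟨h4, h6.1 h2, h7.symm.trans h3, fun _ => h5⟩

private theorem Hst_fwd (h : Sys X u v D eps F n0 K1) {y j : ℤ} (hr : Rec X y j) {t : ℕ} (ht : t ≤ dv v y j) {i : ℤ}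
    (hn : Nf X (y - t) (j - t) i) (m : ℕ) (hm : m ≤ t) (hu : ∀ l : ℕ, l < m → u (i + l) = u (j - t + l)) :
    Nf X (y - ((t - m : ℕ) : ℤ)) (j - ((t - m : ℕ) : ℤ)) (i + m) ∧
      life u v (i + m) (j - ((t - m : ℕ) : ℤ)) = life u v i (j - t) ∧
      fb X v (i + m) (j - ((t - m : ℕ) : ℤ)) = fb X v i (j - t) ∧
      fd X u (i + m) (j - ((t - m : ℕ) : ℤ)) = fd X u i (j - t) := by
  induction m with
  | zero =>
    simp only [Nat.cast_zero, add_zero, Nat.sub_zero]
    exact ⟨hn, trivial, trivial, trivial⟩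
  | succ m ih =>
    obtain ⟨h1, h2, h3, h4⟩ := ih (by omega) fun l hl => hu l (by omega)
    obtain ⟨_, b2, _, b4⟩ := Hst_back h hr (t - m) (by omega)
    have h5 := b4 (by omega)
    have h6 := hu m (Nat.lt_succ_self m)
    have e0 : j - (t : ℤ) + m = j - ((t - m : ℕ) : ℤ) := by omega
    rw [e0] at h6
    have h7 := tr_keep h b2 h5 h1 h6
    have e1 : y - ((t - (m + 1) : ℕ) : ℤ) = y - ((t - m : ℕ) : ℤ) + 1 := by omega
    have e2 : j - ((t - (m + 1) : ℕ) : ℤ) = j - ((t - m : ℕ) : ℤ) + 1 := by omega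
    have e3 : i + ((m + 1 : ℕ) : ℤ) = i + m + 1 := by push_cast; ring
    have hne : i + (m : ℤ) ≠ j - ((t - m : ℕ) : ℤ) := (nf_rec h b2 h1).ne
    rw [e1, e2, e3, life_succ h hne h6, fb_succ h hne h6, fd_succ h hne h6]
    exact ⟨h7, h2, h3, h4⟩

private theorem Hst_split (f : ℕ → ℝ) (t d : ℕ) (hd : d ≤ t) :
    ∑ k ∈ Finset.range (t + 1), f k = ∑ k ∈ Finset.range (t - d), f k + ∑ m ∈ Finset.range (d + 1), f (t - m) := by
  induction d with
  | zero =>
    rw [Nat.sub_zero, Finset.sum_range_succ]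
    simp
  | succ d ih =>
    rw [ih (by omega), Finset.sum_range_succ (fun m => f (t - m)) (d + 1)]
    have e1 : t - d = t - (d + 1) + 1 := by omega
    rw [e1, Finset.sum_range_succ]
    ring

private theorem Hst_main (h : Sys X u v D eps F n0 K1) {y j : ℤ} (hr : Rec X y j) (hK : K1 < hs X y j) (hu : u y ≠ u j)
    (G : Fl → Fl → ℕ → ℝ) (w : ℝ) (t : ℕ) : t ≤ dv v y j → ∀ i : ℤ, Nf X (y - t) (j - t) i → v i ≠ v (j - t) →
    ∃ ps : List (ℕ × ℕ), Adm ps ∧ len ps = t + 1 ∧
      ∑ k ∈ Finset.range (t + 1), Hst_tm X u v G w y j k = val G w (cell v X i (j - t)) (cellL u X y j) ps ∧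
      ∑ k ∈ Finset.range (t + 1), Hst_am X u y j k = (ps.length : ℝ) - 1 := by
  induction t using Nat.strong_induction_on with
  | _ t ih =>
    intro ht i hn hv
    obtain ⟨_, b2, b3, _⟩ := Hst_back h hr t ht
    have hne : i ≠ j - (t : ℤ) := (nf_rec h b2 hn).ne
    have hdv : dv v i (j - t) = 0 := (dv_zero h hne).2 hv
    obtain ⟨hd1, hd2⟩ := du_spec h hne
    set d : ℕ := du u i (j - t) with hd
    have hdt : d ≤ t := by
      by_contra hlt
      push Not at hlt
      obtain ⟨c1, _⟩ := Hst_fwd h hr ht hn t le_rfl fun l hl => hd2 l (by omega)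
      rw [Nat.sub_self, Nat.cast_zero, sub_zero, sub_zero] at c1
      have c2 := (tr_cell h hr hK c1 u (Or.inl rfl) hu).1
      have c3 := hd2 t hlt
      rw [sub_add_cancel] at c3
      exact c2 c3
    have hlife : life u v i (j - t) = d + 1 := by
      unfold life
      rw [hdv]
    have hfb : fb X v i (j - t) = cell v X i (j - t) := by
      unfold fb
      rw [hdv, Nat.cast_zero, sub_zero, sub_zero]
    have hfd : fd X u i (j - t) = cell u X (i + d) (j - ((t - d : ℕ) : ℤ)) := by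
      unfold fd
      rw [← hd]
      congr 1
      omega
    have hfw : ∀ m : ℕ, m ≤ d → Nf X (y - ((t - m : ℕ) : ℤ)) (j - ((t - m : ℕ) : ℤ)) (i + m) ∧
        life u v (i + m) (j - ((t - m : ℕ) : ℤ)) = life u v i (j - t) ∧
        fb X v (i + m) (j - ((t - m : ℕ) : ℤ)) = fb X v i (j - t) ∧
        fd X u (i + m) (j - ((t - m : ℕ) : ℤ)) = fd X u i (j - t) := fun m hm =>
      Hst_fwd h hr ht hn m (by omega) fun l hl => hd2 l (by omega)
    have htm : ∑ m ∈ Finset.range (d + 1), Hst_tm X u v G w y j (t - m) =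
        ((d + 1 : ℕ) : ℝ) * G (cell v X i (j - t)) (cell u X (i + d) (j - ((t - d : ℕ) : ℤ))) (d + 1) := by
      have hc : ∀ m ∈ Finset.range (d + 1), Hst_tm X u v G w y j (t - m) =
          G (cell v X i (j - t)) (cell u X (i + d) (j - ((t - d : ℕ) : ℤ))) (d + 1) := by
        intro m hm
        obtain ⟨c1, c2, c3, c4⟩ := hfw m (by have := Finset.mem_range.1 hm; omega)
        rw [Hst_tm_of h c1, c2, c3, c4, hlife, hfb, hfd]
      rw [Finset.sum_congr rfl hc, Finset.sum_const, Finset.card_range, nsmul_eq_mul]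
    have ham : ∑ m ∈ Finset.range (d + 1), Hst_am X u y j (t - m) = Hst_am X u y j (t - d) := by
      rw [Finset.sum_range_succ]
      have hc : ∀ m ∈ Finset.range d, Hst_am X u y j (t - m) = 0 := by
        intro m hm
        have hm' := Finset.mem_range.1 hm
        obtain ⟨c1, _⟩ := hfw m hm'.le
        refine Hst_am_zero h c1 (Or.inl ?_)
        have c2 := hd2 m hm'
        have e0 : j - (t : ℤ) + m = j - ((t - m : ℕ) : ℤ) := by omega
        rwa [e0] at c2
      rw [Finset.sum_eq_zero hc, zero_add]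
    rw [Hst_split _ t d hdt, Hst_split _ t d hdt, htm, ham]
    obtain ⟨n1, _⟩ := hfw d le_rfl
    have hdn : u (i + d) ≠ u (j - ((t - d : ℕ) : ℤ)) := by
      have e0 : j - (t : ℤ) + d = j - ((t - d : ℕ) : ℤ) := by omega
      rwa [e0] at hd1
    rcases Nat.eq_zero_or_pos (t - d) with h0 | h0
    · rw [h0] at n1 hdn ⊢
      have n1' := n1
      have hdn' := hdn
      rw [Nat.cast_zero, sub_zero, sub_zero] at n1'
      rw [Nat.cast_zero, sub_zero] at hdn'
      obtain ⟨_, c2⟩ := tr_cell h hr hK n1' u (Or.inl rfl) hu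
      refine ⟨[(d + 1, 0)], ⟨by simp, rfl⟩, ?_, ?_, ?_⟩
      · show d + 1 + 0 + 0 = t + 1
        omega
      · show _ = ((d + 1 : ℕ) : ℝ) * G (cell v X i (j - t)) (cellL u X y j) (d + 1) + ((0 : ℕ) : ℝ) * w
        rw [Finset.sum_range_zero, Nat.cast_zero, sub_zero, c2]
        ring
      · rw [Finset.sum_range_zero, zero_add, Hst_am_zero h n1 (Or.inr ?_)]
        · simp
        · rw [Nat.cast_zero, sub_zero, c2]
          unfold cellL
          split_ifs <;> simp
    · obtain ⟨_, r2, r3, r4⟩ := Hst_back h hr (t - d) (by omega)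
      have hu' := r4 h0
      have hK' : K1 < hs X (y - ((t - d : ℕ) : ℤ)) (j - ((t - d : ℕ) : ℤ)) := by rw [r3]; exact hK
      have hca := tr_cella h r2 hK' n1 u (Or.inl rfl) hu' hdn
      have ham1 := Hst_am_one n1 hdn hca
      have e1 : y - ((t - d : ℕ) : ℤ) + 1 = y - ((t - d - 1 : ℕ) : ℤ) := by omega
      have e2 : j - ((t - d : ℕ) : ℤ) + 1 = j - ((t - d - 1 : ℕ) : ℤ) := by omega
      by_cases hex : ∃ i', Nf X (y - ((t - d - 1 : ℕ) : ℤ)) (j - ((t - d - 1 : ℕ) : ℤ)) i'
      · obtain ⟨i', hn'⟩ := hex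
        have hn2 := hn'
        rw [← e1, ← e2] at hn2
        obtain ⟨c1, c2⟩ := tr_new h r2 hK' hu' n1 hdn hn2
        rw [e2] at c1 c2
        obtain ⟨ps, p1, p2, p3, p4⟩ := ih (t - d - 1) (by omega) (by omega) i' hn' c1
        have e3 : t - d - 1 + 1 = t - d := by omega
        rw [e3] at p2 p3 p4
        rw [c2] at p3
        rcases ps with - | ⟨q, ps⟩
        · exact absurd p1 id
        · refine ⟨(d + 1, 0) :: q :: ps, ⟨by simp, by simp, p1⟩, ?_, ?_, ?_⟩
          · show d + 1 + 0 + len (q :: ps) = t + 1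
            omega
          · show _ = ((d + 1 : ℕ) : ℝ) * G (cell v X i (j - t)) .a (d + 1) + ((0 : ℕ) : ℝ) * w +
              val G w .a (cellL u X y j) (q :: ps)
            rw [p3, hca, Nat.cast_zero]
            ring
          · rw [p4, ham1]
            simp only [List.length_cons]
            push_cast
            ring
      · obtain ⟨_, s2, s3, s4⟩ := Hst_back h hr (t - d - 1) (by omega)
        have hK'' : K1 < hs X (y - ((t - d - 1 : ℕ) : ℤ)) (j - ((t - d - 1 : ℕ) : ℤ)) := by rw [s3]; exact hK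
        obtain ⟨c1, i', c2, c3, c4⟩ := tr_virt h s2 hK'' hex
        have hpos : 0 < t - d - 1 := by
          rcases Nat.eq_zero_or_pos (t - d - 1) with h00 | h00
          · rw [h00, Nat.cast_zero, sub_zero, sub_zero] at c1
            exact absurd c1 hu
          · exact h00
        have e4 : y - ((t - d - 1 : ℕ) : ℤ) + 1 = y - ((t - d - 1 - 1 : ℕ) : ℤ) := by omega
        have e5 : j - ((t - d - 1 : ℕ) : ℤ) + 1 = j - ((t - d - 1 - 1 : ℕ) : ℤ) := by omega
        rw [e4, e5] at c2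
        rw [e5] at c3 c4
        obtain ⟨ps, p1, p2, p3, p4⟩ := ih (t - d - 1 - 1) (by omega) (by omega) i' c2 c3
        have e3 : t - d - 1 - 1 + 1 = t - d - 1 := by omega
        rw [e3] at p2 p3 p4
        rw [c4] at p3
        have e6 : t - d = t - d - 1 + 1 := by omega
        have hs1 : ∑ k ∈ Finset.range (t - d), Hst_tm X u v G w y j k =
            val G w .a (cellL u X y j) ps + w := by
          rw [e6, Finset.sum_range_succ, p3, Hst_tm_no hex]
        have hs2 : ∑ k ∈ Finset.range (t - d), Hst_am X u y j k = (ps.length : ℝ) - 1 := by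
          rw [e6, Finset.sum_range_succ, p4, Hst_am_no hex, add_zero]
        rcases ps with - | ⟨q, ps⟩
        · exact absurd p1 id
        · refine ⟨(d + 1, 1) :: q :: ps, ⟨by simp, by simp, p1⟩, ?_, ?_, ?_⟩
          · show d + 1 + 1 + len (q :: ps) = t + 1
            omega
          · show _ = ((d + 1 : ℕ) : ℝ) * G (cell v X i (j - t)) .a (d + 1) + ((1 : ℕ) : ℝ) * w +
              val G w .a (cellL u X y j) (q :: ps)
            rw [hs1, hca, Nat.cast_one]
            ring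
          · rw [hs2, ham1]
            simp only [List.length_cons]
            push_cast
            ring

open Classical in
theorem hist (h : Sys X u v D eps F n0 K1) {y j : ℤ} (hr : Rec X y j) (hK : K1 < hs X y j) (hu : u y ≠ u j)
    (G : Fl → Fl → ℕ → ℝ) (w : ℝ) :
    ∃ ps : List (ℕ × ℕ), Adm ps ∧ len ps = dv v y j + 1 ∧
      (∑ k ∈ Finset.range (dv v y j + 1), (if hN : ∃ i, Nf X (y - k) (j - k) i then
          G (fb X v hN.choose (j - k)) (fd X u hN.choose (j - k)) (life u v hN.choose (j - k)) else w)) =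
        val G w (Lfb X v y j) (Lfd X u y j) ps ∧
      (∑ k ∈ Finset.range (dv v y j + 1), (if acut X u (y - k) (j - k) then (1 : ℝ) else 0)) = (ps.length : ℝ) - 1 := by
  obtain ⟨_, b2, b3, _⟩ := Hst_back h hr (dv v y j) le_rfl
  have hK' : K1 < hs X (y - (dv v y j : ℤ)) (j - (dv v y j : ℤ)) := by rw [b3]; exact hK
  obtain ⟨i, h1, h2, h3⟩ := tr_birth h b2 hK' (dv_spec h hr.ne).1
  obtain ⟨ps, p1, p2, p3, p4⟩ := Hst_main h hr hK hu G w (dv v y j) le_rfl i h1 h2
  have hd : du u y j = 0 := (du_zero h hr.ne).2 hu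
  have hL : Lfd X u y j = cellL u X y j := by
    unfold Lfd
    rw [hd, Nat.cast_zero, add_zero, add_zero]
  refine ⟨ps, p1, p2, ?_, p4⟩
  rw [hL]
  have hb : Lfb X v y j = cell v X i (j - dv v y j) := h3.symm
  rw [hb]
  exact p3

end Pool.Agent.PHI
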