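import Pool.Agent.PHI.Stp

/-! Module PHI-Lfa.  `du`, `dv`, `life`: the sets are nonempty by `run0`, the labels `u` agree on the whole life (`run_of`),
so that the life is bounded by `run0`, `run` at `i - dv`, `j - dv`. -/

set_option autoImplicit false

namespace Pool.Agent.PHI

variable {X : ℤ → ℝ} {u v : ℤ → ℕ} {D : ℕ} {eps F : ℝ} {n0 K1 : ℕ}

private theorem Lfa_du {i j : ℤ} {k : ℕ} (h1 : u (i + k) ≠ u (j + k)) (h2 : ∀ m : ℕ, m < k → u (i + m) = u (j + m)) :
    du u i j = k := by
  apply le_antisymm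
  · exact Nat.sInf_le h1
  · by_contra hlt
    push Not at hlt
    have hne : {k : ℕ | u (i + k) ≠ u (j + k)}.Nonempty := ⟨k, h1⟩
    exact Nat.sInf_mem hne (h2 _ hlt)

private theorem Lfa_dv {i j : ℤ} {k : ℕ} (h1 : v (i - k) ≠ v (j - k)) (h2 : ∀ m : ℕ, m < k → v (i - m) = v (j - m)) :
    dv v i j = k := by
  apply le_antisymm
  · exact Nat.sInf_le h1
  · by_contra hlt
    push Not at hlt
    have hne : {k : ℕ | v (i - k) ≠ v (j - k)}.Nonempty := ⟨k, h1⟩
    exact Nat.sInf_mem hne (h2 _ hlt)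

private theorem Lfa_bd (h : Sys X u v D eps F n0 K1) {i j : ℤ} (hij : i ≠ j) {t : ℕ}
    (ht : ∀ m : ℕ, m < t → u (i + m) = u (j + m)) : (t : ℝ) + 1 ≤ F * nn i j := by
  rcases lt_or_gt_of_ne hij with h1 | h1
  · have h2 := h.run0 i j h1 t ht
    have h3 : ((nn i j : ℕ) : ℝ) = ((j - i : ℤ) : ℝ) := by
      have h4 : ((nn i j : ℕ) : ℤ) = j - i := by
        unfold nn
        omega
      exact_mod_cast congrArg (Int.cast : ℤ → ℝ) h4
    rw [h3]
    exact h2
  · have h2 := h.run0 j i h1 t fun m hm => (ht m hm).symm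
    have h3 : ((nn i j : ℕ) : ℝ) = ((i - j : ℤ) : ℝ) := by
      have h4 : ((nn i j : ℕ) : ℤ) = i - j := by
        unfold nn
        omega
      exact_mod_cast congrArg (Int.cast : ℤ → ℝ) h4
    rw [h3]
    exact h2

theorem du_spec (h : Sys X u v D eps F n0 K1) {i j : ℤ} (hij : i ≠ j) :
    u (i + du u i j) ≠ u (j + du u i j) ∧ ∀ m : ℕ, m < du u i j → u (i + m) = u (j + m) := by
  have hne : {k : ℕ | u (i + k) ≠ u (j + k)}.Nonempty := by
    by_contra hem
    rw [Set.not_nonempty_iff_eq_empty] at hem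
    obtain ⟨t, ht⟩ := exists_nat_gt (F * nn i j)
    have h1 := Lfa_bd h hij (t := t) fun m _ => by
      by_contra h2
      have h3 : m ∈ {k : ℕ | u (i + k) ≠ u (j + k)} := h2
      rw [hem] at h3
      exact h3
    linarith
  refine ⟨Nat.sInf_mem hne, fun m hm => ?_⟩
  by_contra h2
  exact absurd (Nat.sInf_le (show m ∈ {k : ℕ | u (i + k) ≠ u (j + k)} from h2)) (not_le.2 hm)

theorem dv_spec (h : Sys X u v D eps F n0 K1) {i j : ℤ} (hij : i ≠ j) :
    v (i - dv v i j) ≠ v (j - dv v i j) ∧ ∀ m : ℕ, m < dv v i j → v (i - m) = v (j - m) := by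
  have hne : {k : ℕ | v (i - k) ≠ v (j - k)}.Nonempty := by
    by_contra hem
    rw [Set.not_nonempty_iff_eq_empty] at hem
    obtain ⟨t, ht⟩ := exists_nat_gt (F * nn i j)
    have hnn : nn (i - t) (j - t) = nn i j := by
      unfold nn
      congr 1
      ring
    have h1 := Lfa_bd h (i := i - t) (j := j - t) (by omega) (t := t) fun m hm => by
      have h2 : v (i - ((t - m - 1 : ℕ) : ℤ)) = v (j - ((t - m - 1 : ℕ) : ℤ)) := by
        by_contra h2
        have h3 : (t - m - 1) ∈ {k : ℕ | v (i - k) ≠ v (j - k)} := h2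
        rw [hem] at h3
        exact h3
      rw [h.uv]
      have e1 : i - (t : ℤ) + m + 1 = i - ((t - m - 1 : ℕ) : ℤ) := by omega
      have e2 : j - (t : ℤ) + m + 1 = j - ((t - m - 1 : ℕ) : ℤ) := by omega
      rw [e1, e2]
      exact h2
    rw [hnn] at h1
    linarith
  refine ⟨Nat.sInf_mem hne, fun m hm => ?_⟩
  by_contra h2
  exact absurd (Nat.sInf_le (show m ∈ {k : ℕ | v (i - k) ≠ v (j - k)} from h2)) (not_le.2 hm)

theorem du_zero (h : Sys X u v D eps F n0 K1) {i j : ℤ} (hij : i ≠ j) : du u i j = 0 ↔ u i ≠ u j := by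
  constructor
  · intro h0
    have h1 := (du_spec h hij).1
    rw [h0] at h1
    simpa using h1
  · intro h0
    exact Lfa_du (by simpa using h0) fun m hm => absurd hm (Nat.not_lt_zero m)

theorem dv_zero (h : Sys X u v D eps F n0 K1) {i j : ℤ} (hij : i ≠ j) : dv v i j = 0 ↔ v i ≠ v j := by
  constructor
  · intro h0
    have h1 := (dv_spec h hij).1
    rw [h0] at h1
    simpa using h1
  · intro h0
    exact Lfa_dv (by simpa using h0) fun m hm => absurd hm (Nat.not_lt_zero m)

theorem du_succ (h : Sys X u v D eps F n0 K1) {i j : ℤ} (hij : i ≠ j) (hu : u i = u j) :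
    du u (i + 1) (j + 1) + 1 = du u i j := by
  have h1 := du_spec h (i := i + 1) (j := j + 1) (by omega)
  refine (Lfa_du ?_ ?_).symm
  · have h2 := h1.1
    push_cast
    rwa [add_assoc, add_assoc, add_comm 1] at h2
  · intro m hm
    rcases m with _ | m
    · simpa using hu
    · have h2 := h1.2 m (by omega)
      push_cast
      rwa [add_assoc, add_assoc, add_comm 1] at h2

theorem dv_succ (h : Sys X u v D eps F n0 K1) {i j : ℤ} (hij : i ≠ j) (hu : u i = u j) :
    dv v (i + 1) (j + 1) = dv v i j + 1 := by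
  have h1 := dv_spec h hij
  refine Lfa_dv ?_ ?_
  · have h2 := h1.1
    have e1 : i + 1 - ((dv v i j + 1 : ℕ) : ℤ) = i - dv v i j := by
      push_cast
      ring
    have e2 : j + 1 - ((dv v i j + 1 : ℕ) : ℤ) = j - dv v i j := by
      push_cast
      ring
    rw [e1, e2]
    exact h2
  · intro m hm
    rcases m with _ | m
    · have h2 := (h.uv i j).1 hu
      simpa using h2
    · have h2 := h1.2 m (by omega)
      have e1 : i + 1 - ((m + 1 : ℕ) : ℤ) = i - m := by
        push_cast
        ring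
      have e2 : j + 1 - ((m + 1 : ℕ) : ℤ) = j - m := by
        push_cast
        ring
      rw [e1, e2]
      exact h2

theorem life_succ (h : Sys X u v D eps F n0 K1) {i j : ℤ} (hij : i ≠ j) (hu : u i = u j) :
    life u v (i + 1) (j + 1) = life u v i j := by
  have h1 := du_succ h hij hu
  have h2 := dv_succ h hij hu
  unfold life
  omega

theorem run_of (h : Sys X u v D eps F n0 K1) {i j : ℤ} (hij : i ≠ j) (m : ℕ) (hm : m < dv v i j + du u i j) :
    u (i - dv v i j + m) = u (j - dv v i j + m) := by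
  by_cases h1 : m < dv v i j
  · rw [h.uv]
    have h2 := (dv_spec h hij).2 (dv v i j - m - 1) (by omega)
    have e1 : i - (dv v i j : ℤ) + m + 1 = i - ((dv v i j - m - 1 : ℕ) : ℤ) := by omega
    have e2 : j - (dv v i j : ℤ) + m + 1 = j - ((dv v i j - m - 1 : ℕ) : ℤ) := by omega
    rw [e1, e2]
    exact h2
  · have h2 := (du_spec h hij).2 (m - dv v i j) (by omega)
    have e1 : i - (dv v i j : ℤ) + m = i + ((m - dv v i j : ℕ) : ℤ) := by omega
    have e2 : j - (dv v i j : ℤ) + m = j + ((m - dv v i j : ℕ) : ℤ) := by omega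
    rw [e1, e2]
    exact h2

theorem life_pos (u v : ℤ → ℕ) (i j : ℤ) : 1 ≤ life u v i j := by
  unfold life
  omega

theorem life_le0 (h : Sys X u v D eps F n0 K1) {i j : ℤ} (hij : i ≠ j) : (life u v i j : ℝ) ≤ F * nn i j := by
  have h1 := Lfa_bd h (i := i - dv v i j) (j := j - dv v i j) (by omega) (t := dv v i j + du u i j)
    fun m hm => run_of h hij m hm
  have hnn : nn (i - dv v i j) (j - dv v i j) = nn i j := by
    unfold nn
    congr 1
    ring
  rw [hnn] at h1
  unfold life
  push_cast at h1 ⊢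
  linarith

theorem life_le (h : Sys X u v D eps F n0 K1) {i j : ℤ} (hij : i ≠ j) (hn : n0 ≤ nn i j) :
    (life u v i j : ℝ) ≤ eps * nn i j := by
  have hr := fun (m : ℕ) (hm : m < dv v i j + du u i j) => run_of h hij m hm
  rcases lt_or_gt_of_ne hij with h1 | h1
  · have h4 : ((nn i j : ℕ) : ℤ) = j - i := by
      unfold nn
      omega
    have h2 := h.run (i - dv v i j) (j - dv v i j) (by omega) (by omega) _ hr
    have h3 : ((nn i j : ℕ) : ℝ) = ((j - dv v i j - (i - dv v i j) : ℤ) : ℝ) := by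
      have h5 : ((nn i j : ℕ) : ℤ) = j - dv v i j - (i - dv v i j) := by omega
      exact_mod_cast congrArg (Int.cast : ℤ → ℝ) h5
    rw [h3]
    unfold life
    push_cast at h2 ⊢
    linarith
  · have h4 : ((nn i j : ℕ) : ℤ) = i - j := by
      unfold nn
      omega
    have h2 := h.run (j - dv v i j) (i - dv v i j) (by omega) (by omega) _ fun m hm => (hr m hm).symm
    have h3 : ((nn i j : ℕ) : ℝ) = ((i - dv v i j - (j - dv v i j) : ℤ) : ℝ) := by
      have h5 : ((nn i j : ℕ) : ℤ) = i - dv v i j - (j - dv v i j) := by omega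
      exact_mod_cast congrArg (Int.cast : ℤ → ℝ) h5
    rw [h3]
    unfold life
    push_cast at h2 ⊢
    linarith

end Pool.Agent.PHI
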