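import Pool.Agent.PHI.Defs

/-! Module PHI-Mnb.  Existence of a shift invariant mean.  For an ultrafilter `U ≤ atTop` on `ℕ` (`Filter.hyperfilter ℕ`) and bounded `f` the
Cesaro means `c_M(f) = (∑ t ∈ range M, f t) / M` lie in a compact interval, so they converge along `U`
(`isCompact_Icc.ultrafilter_le_nhds` for the mapped ultrafilter); let `E f` be a limit (0 if `f` is not bounded).  `add`, `smul`, `mono`, `one`
by uniqueness of limits (`tendsto_nhds_unique`, `le_of_tendsto_of_tendsto`), `shift` because `|c_M(f (· + 1)) - c_M(f)| ≤ 2 C / M → 0`.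
Lemmas of PHI.Mna are not needed. -/

set_option autoImplicit false

namespace Pool.Agent.PHI

open Filter Topology

private noncomputable def Mnb_c (f : ℤ → ℝ) (M : ℕ) : ℝ := (∑ t ∈ Finset.range M, f (t : ℤ)) / M

private theorem Mnb_le : (hyperfilter ℕ : Filter ℕ) ≤ atTop := by
  rw [← Nat.cofinite_eq_atTop]
  exact hyperfilter_le_cofinite

private theorem Mnb_bd {f : ℤ → ℝ} {C : ℝ} (h : ∀ t, |f t| ≤ C) (M : ℕ) : Mnb_c f M ∈ Set.Icc (-C) C := by
  have hC : 0 ≤ C := (abs_nonneg _).trans (h 0)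
  rw [Set.mem_Icc, ← abs_le]
  unfold Mnb_c
  rw [abs_div, Nat.abs_cast]
  rcases Nat.eq_zero_or_pos M with h0 | h0
  · rw [h0, Nat.cast_zero, div_zero]
    exact hC
  · rw [div_le_iff₀ (by exact_mod_cast h0)]
    refine (Finset.abs_sum_le_sum_abs _ _).trans ?_
    have h1 : ∑ t ∈ Finset.range M, |f (t : ℤ)| ≤ ∑ _t ∈ Finset.range M, C :=
      Finset.sum_le_sum fun t _ => h (t : ℤ)
    refine h1.trans ?_
    rw [Finset.sum_const, Finset.card_range, nsmul_eq_mul, mul_comm]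

private theorem Mnb_ex {f : ℤ → ℝ} (h : Bd f) : ∃ L, Tendsto (Mnb_c f) (hyperfilter ℕ) (𝓝 L) := by
  obtain ⟨C, hC⟩ := h
  obtain ⟨L, -, hL⟩ := (isCompact_Icc (a := -C) (b := C)).ultrafilter_le_nhds ((hyperfilter ℕ).map (Mnb_c f)) (by
    rw [le_principal_iff, Ultrafilter.coe_map, mem_map]
    exact Eventually.of_forall fun M => Mnb_bd hC M)
  exact ⟨L, hL⟩

open Classical in
private noncomputable def Mnb_E (f : ℤ → ℝ) : ℝ :=
  if h : ∃ L, Tendsto (Mnb_c f) (hyperfilter ℕ) (𝓝 L) then h.choose else 0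

private theorem Mnb_t {f : ℤ → ℝ} (h : Bd f) : Tendsto (Mnb_c f) (hyperfilter ℕ) (𝓝 (Mnb_E f)) := by
  unfold Mnb_E
  rw [dif_pos (Mnb_ex h)]
  exact (Mnb_ex h).choose_spec

private theorem Mnb_u {f : ℤ → ℝ} (h : Bd f) {L : ℝ} (hL : Tendsto (Mnb_c f) (hyperfilter ℕ) (𝓝 L)) : Mnb_E f = L :=
  tendsto_nhds_unique (Mnb_t h) hL

theorem exists_mean : ∃ E : (ℤ → ℝ) → ℝ, Mean E := by
  refine ⟨Mnb_E, ?_, ?_, ?_, ?_, ?_⟩
  · intro f g hf hg
    obtain ⟨C, hC⟩ := hf
    obtain ⟨C', hC'⟩ := hg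
    have h1 : Bd fun t => f t + g t := ⟨C + C', fun t => (abs_add_le _ _).trans (add_le_add (hC t) (hC' t))⟩
    refine Mnb_u h1 (((Mnb_t ⟨C, hC⟩).add (Mnb_t ⟨C', hC'⟩)).congr fun M => ?_)
    unfold Mnb_c
    rw [Finset.sum_add_distrib, add_div]
  · intro c f hf
    obtain ⟨C, hC⟩ := hf
    have h1 : Bd fun t => c * f t := ⟨|c| * C, fun t => by
      rw [abs_mul]
      exact mul_le_mul_of_nonneg_left (hC t) (abs_nonneg c)⟩
    refine Mnb_u h1 (((Mnb_t ⟨C, hC⟩).const_mul c).congr fun M => ?_)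
    unfold Mnb_c
    rw [← Finset.mul_sum, mul_div_assoc]
  · intro f g hf hg hfg
    refine le_of_tendsto_of_tendsto' (Mnb_t hf) (Mnb_t hg) fun M => ?_
    unfold Mnb_c
    exact div_le_div_of_nonneg_right (Finset.sum_le_sum fun t _ => hfg _) (Nat.cast_nonneg M)
  · have h1 : Bd fun _ => (1 : ℝ) := ⟨1, fun _ => by rw [abs_one]⟩
    refine Mnb_u h1 (tendsto_const_nhds.congr' ?_)
    filter_upwards [Mnb_le (eventually_gt_atTop 0)] with M hM
    unfold Mnb_c
    rw [Finset.sum_const, Finset.card_range, nsmul_eq_mul, mul_one]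
    have h2 : (M : ℝ) ≠ 0 := by
      have h3 : 0 < M := hM
      exact_mod_cast h3.ne'
    exact (div_self h2).symm
  · intro f hf
    obtain ⟨C, hC⟩ := hf
    have h1 : Bd fun t => f (t + 1) := ⟨C, fun t => hC _⟩
    have h2 : Tendsto (fun M : ℕ => (f (M : ℤ) - f 0) / (M : ℝ)) atTop (𝓝 0) := by
      refine squeeze_zero_norm (a := fun M : ℕ => (2 * C) / (M : ℝ)) (fun M => ?_) ?_
      · rw [Real.norm_eq_abs, abs_div, Nat.abs_cast]
        refine div_le_div_of_nonneg_right ?_ (Nat.cast_nonneg M)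
        have h3 := abs_sub (f (M : ℤ)) (f 0)
        have h4 := hC (M : ℤ)
        have h5 := hC 0
        linarith
      · exact tendsto_const_div_atTop_nhds_zero_nat (2 * C)
    have h3 := (Mnb_t ⟨C, hC⟩).add (h2.mono_left Mnb_le)
    rw [add_zero] at h3
    refine Mnb_u h1 (h3.congr fun M => ?_)
    unfold Mnb_c
    rw [← add_div]
    congr 1
    induction M with
    | zero => simp
    | succ M ih =>
      rw [Finset.sum_range_succ, Finset.sum_range_succ, ← ih]
      push_cast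
      ring

end Pool.Agent.PHI
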