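import Pool.Agent.PHI.Asm
import Pool.Agent.PHI.Mnb
import Pool.Agent.PHI.Vdl

/-! Module PHI-Lim.  The limits.  `lim1`: with an invariant mean, `asm` reads `a log K + c ≤ b log K + c'` for all large `K`, with
`a = φ²/eps (1 - D/n0)` and `b = (1 + η) D`, so `a ≤ b`.  `main`: for `η > 0` the number `n1` of `vdl` and `lim1` give
`φ²/eps (1 - D/n0) ≤ (1 + η) D` for all large `n0`; let `n0 → ∞`, then `η → 0`. -/

set_option autoImplicit false

namespace Pool.Agent.PHI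

open Filter Topology

private theorem Lim_cmp {a b c d : ℝ} {N : ℕ} (h : ∀ K : ℕ, N ≤ K → a * Real.log K + c ≤ b * Real.log K + d) : a ≤ b := by
  by_contra hab
  push Not at hab
  have h0 : 0 < a - b := sub_pos.2 hab
  have h1 : Tendsto (fun K : ℕ => Real.log (K : ℝ)) atTop atTop :=
    Real.tendsto_log_atTop.comp tendsto_natCast_atTop_atTop
  obtain ⟨K, hK, hN⟩ := ((h1.eventually_gt_atTop ((d - c) / (a - b))).and (eventually_ge_atTop N)).exists
  have h2 := h K hN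
  rw [div_lt_iff₀ h0] at hK
  nlinarith

theorem lim1 {X : ℤ → ℝ} {u v : ℤ → ℕ} {D : ℕ} {eps F : ℝ} {n0 K1 : ℕ} (h : Sys X u v D eps F n0 K1)
    {P : Fl → Fl → ℝ → ℝ → ℝ → ℝ} {C eta : ℝ} (hP : Cert P C) (he : 0 < eps) (hn0 : 1 ≤ n0) (ht : 0 ≤ eta)
    (hv : ∀ e f : ℕ, n0 ≤ e → n0 ≤ f → VV e f + err C eps e f ≤ (1 + eta) * Vd e f) :
    phi ^ 2 / eps * (1 - D / n0) ≤ (1 + eta) * D := by
  obtain ⟨E, hE⟩ := exists_mean
  have h1 : Tendsto (fun K : ℕ => Real.log (K : ℝ)) atTop atTop :=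
    Real.tendsto_log_atTop.comp tendsto_natCast_atTop_atTop
  obtain ⟨N, hN⟩ := eventually_atTop.1 ((h1.eventually_ge_atTop (Real.log 4 + Real.log eps)).and
    (eventually_ge_atTop (K1 + 1 + 2 * n0 + 4)))
  refine Lim_cmp (N := N)
    (c := phi ^ 2 / eps * ((1 - D / n0) * (- Real.log 4 - Real.log eps) - F * D - D - 2 * Real.log (K1 + 1)))
    (d := (1 + eta) * D + 2 * C / eps) fun K hK => ?_
  obtain ⟨h2, h3⟩ := hN K hK
  have h4 := asm hE h hP he hn0 ht hv (K := K) (by omega) (by omega) (by omega) h2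
  linarith

theorem main {X : ℤ → ℝ} {u v : ℤ → ℕ} {D : ℕ} {eps F : ℝ} {P : Fl → Fl → ℝ → ℝ → ℝ → ℝ} {C : ℝ} (hP : Cert P C)
    (he : 0 < eps) (N0 : ℕ) (hs : ∀ n0 : ℕ, N0 ≤ n0 → ∃ K1 : ℕ, Sys X u v D eps F n0 K1) :
    phi ^ 2 ≤ eps * D := by
  have h1 : ∀ eta : ℝ, 0 < eta → phi ^ 2 / eps ≤ (1 + eta) * D := by
    intro eta ht
    obtain ⟨n1, hn1, hv⟩ := vdl hP.C0 he ht
    have h2 : Tendsto (fun n0 : ℕ => phi ^ 2 / eps * (1 - (D : ℝ) / (n0 : ℝ))) atTop (𝓝 (phi ^ 2 / eps * (1 - 0))) :=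
      (tendsto_const_nhds.sub (tendsto_const_div_atTop_nhds_zero_nat (D : ℝ))).const_mul _
    rw [sub_zero, mul_one] at h2
    refine le_of_tendsto h2 ?_
    filter_upwards [eventually_ge_atTop (max N0 n1)] with n0 hn0
    obtain ⟨K1, hK1⟩ := hs n0 ((le_max_left _ _).trans hn0)
    have h3 : n1 ≤ n0 := (le_max_right _ _).trans hn0
    exact lim1 hK1 hP he (hn1.trans h3) ht.le fun e f h4 h5 => hv eps le_rfl e f (h3.trans h4) (h3.trans h5)
  have h2 : phi ^ 2 / eps ≤ D := by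
    refine le_of_forall_pos_le_add fun t ht => ?_
    have h3 := h1 (t / (D + 1)) (by positivity)
    have h4 : t / (D + 1) * D ≤ t := by
      rw [div_mul_eq_mul_div, div_le_iff₀ (by positivity)]
      nlinarith
    linarith
  rw [div_le_iff₀ he] at h2
  linarith

end Pool.Agent.PHI
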