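import Mathlib
import Pool.Agent.Helper44.IETDefs
import Pool.Agent.PHI.Defs

/-!
# PHI/MBas: elementary facts about the exchange map on `[0, 1)`

`img E j` is the image interval.  `cov`: the intervals cover `[0,1)` (the largest `j` with `E.left j ≤ x`; `E.left j + E.len j` is
`E.left (j+1)` or the total length `1`).  `covi`: the same for the image intervals, ordered by `E.perm` (use `cov` for the exchange
with lengths `E.len (E.perm.symm k)` and permutation `E.perm.symm`, its left ends are `E.imageLeft (E.perm.symm k)`).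
`T_Ico`, `T_inj'`, `T_surj`: `E.T` is a bijection of `[0,1)`.  `lbl_eq`: two points of `[0,1)` without interior cut in `(x, y]` have
the same label.  `rigid`: then `E.T` is a translation on `[x, y]`.  `zero_T`: some interior cut is mapped to `0`
(`j = E.perm.symm 0`, irreducibility with `k = 1`).
-/

set_option autoImplicit false

namespace Pool.Agent.PHI

open Pool.Agent.Helper44.IET

variable {d : ℕ}

/-- The image of the `j`-th interval. -/
def img (E : Exchange d) (j : Fin d) : Set ℝ := Set.Ico (E.imageLeft j) (E.imageLeft j + E.len j)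

theorem left_mem (E : Exchange d) (j : Fin d) : E.left j ∈ E.interval j := by
  refine ⟨le_refl _, ?_⟩
  have := E.len_pos j
  linarith

theorem left_nonneg (E : Exchange d) (j : Fin d) : 0 ≤ E.left j :=
  Finset.sum_nonneg fun i _ => (E.len_pos i).le

private theorem MBas_ileft_nonneg (E : Exchange d) (j : Fin d) : 0 ≤ E.imageLeft j :=
  Finset.sum_nonneg fun i _ => (E.len_pos i).le

theorem left_zero (E : Exchange d) (j : Fin d) (h : (j : ℕ) = 0) : E.left j = 0 := by
  unfold Exchange.left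
  apply Finset.sum_eq_zero
  intro i hi
  have h1 := (Finset.mem_filter.1 hi).2
  have h2 : (i : ℕ) < (j : ℕ) := h1
  omega

theorem left_pos (E : Exchange d) (j : Fin d) (h : 0 < (j : ℕ)) : 0 < E.left j := by
  have hd : 0 < d := lt_of_le_of_lt (Nat.zero_le _) j.2
  have h1 : (⟨0, hd⟩ : Fin d) < j := by
    rw [Fin.lt_def]
    exact h
  have h2 := E.left_add_le h1
  have h3 := E.len_pos ⟨0, hd⟩
  have h4 := left_nonneg E ⟨0, hd⟩
  linarith

private theorem MBas_sum_le (E : Exchange d) (j : Fin d) (s : Finset (Fin d)) (hj : j ∉ s) :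
    ∑ i ∈ s, E.len i + E.len j ≤ 1 := by
  rw [add_comm, ← Finset.sum_insert hj, ← E.len_sum]
  exact Finset.sum_le_sum_of_subset_of_nonneg (Finset.subset_univ _) fun i _ _ => (E.len_pos i).le

private theorem MBas_left_le (E : Exchange d) (j : Fin d) : E.left j + E.len j ≤ 1 := by
  unfold Exchange.left
  exact MBas_sum_le E j _ (by simp)

private theorem MBas_ileft_le (E : Exchange d) (j : Fin d) : E.imageLeft j + E.len j ≤ 1 := by
  unfold Exchange.imageLeft
  exact MBas_sum_le E j _ (by simp)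

theorem left_lt (E : Exchange d) (j : Fin d) : E.left j < 1 := by
  have h1 := MBas_left_le E j
  have h2 := E.len_pos j
  linarith

theorem ivl (E : Exchange d) {x : ℝ} {j : Fin d} (h : x ∈ E.interval j) : 0 ≤ x ∧ x < 1 :=
  ⟨le_trans (left_nonneg E j) h.1, lt_of_lt_of_le h.2 (MBas_left_le E j)⟩

theorem imgl (E : Exchange d) {x : ℝ} {j : Fin d} (h : x ∈ img E j) : 0 ≤ x ∧ x < 1 :=
  ⟨le_trans (MBas_ileft_nonneg E j) h.1, lt_of_lt_of_le h.2 (MBas_ileft_le E j)⟩

theorem img_inj (E : Exchange d) {x : ℝ} {i j : Fin d} (hi : x ∈ img E i) (hj : x ∈ img E j) : i = j := by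
  apply E.perm.injective
  rcases lt_trichotomy (E.perm i) (E.perm j) with h | h | h
  · have := E.imageLeft_add_le h
    have h1 := hi.2
    have h2 := hj.1
    linarith
  · exact h
  · have := E.imageLeft_add_le h
    have h1 := hj.2
    have h2 := hi.1
    linarith

private theorem MBas_last (E : Exchange d) (j : Fin d) (hj : (j : ℕ) + 1 = d) : E.left j + E.len j = 1 := by
  unfold Exchange.left
  have h1 : j ∉ Finset.univ.filter (fun i => i < j) := by simp
  rw [add_comm, ← Finset.sum_insert h1, ← E.len_sum]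
  congr 1
  ext i
  simp only [Finset.mem_insert, Finset.mem_filter, Finset.mem_univ, true_and, iff_true]
  rcases lt_or_eq_of_le (show (i : ℕ) ≤ (j : ℕ) by omega) with h | h
  · right
    exact h
  · left
    exact Fin.ext h

private theorem MBas_next (E : Exchange d) (i j : Fin d) (hj : (i : ℕ) + 1 = j) : E.left i + E.len i = E.left j := by
  unfold Exchange.left
  have h1 : i ∉ Finset.univ.filter (fun k => k < i) := by simp
  rw [add_comm, ← Finset.sum_insert h1]
  congr 1
  ext k
  simp only [Finset.mem_insert, Finset.mem_filter, Finset.mem_univ, true_and, Fin.lt_def, Fin.ext_iff]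
  omega

theorem cov (E : Exchange d) {x : ℝ} (h0 : 0 ≤ x) (h1 : x < 1) : ∃ j, x ∈ E.interval j := by
  have hd : 0 < d := by
    rcases Nat.eq_zero_or_pos d with h | h
    · subst h
      have h2 := E.len_sum
      simp at h2
    · exact h
  by_contra hn
  push Not at hn
  have key : ∀ n : ℕ, ∀ hn : n < d, E.left ⟨n, hn⟩ ≤ x := by
    intro n
    induction n with
    | zero =>
      intro hn0
      rw [left_zero E ⟨0, hn0⟩ rfl]
      exact h0
    | succ n ih =>
      intro hn1
      have h2 := ih (by omega)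
      have h3 := MBas_next E ⟨n, by omega⟩ ⟨n + 1, hn1⟩ rfl
      rw [← h3]
      by_contra h4
      exact hn ⟨n, by omega⟩ ⟨h2, not_le.1 h4⟩
  have h2 := key (d - 1) (by omega)
  have h3 := MBas_last E ⟨d - 1, by omega⟩ (by simp; omega)
  apply hn ⟨d - 1, by omega⟩
  refine ⟨h2, ?_⟩
  rw [h3]
  exact h1

private noncomputable def MBas_inv (E : Exchange d) : Exchange d where
  len k := E.len (E.perm.symm k)
  perm := E.perm.symm
  len_pos k := E.len_pos _
  len_sum := by
    rw [Equiv.sum_comp E.perm.symm E.len]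
    exact E.len_sum

private theorem MBas_inv_left (E : Exchange d) (k : Fin d) : (MBas_inv E).left k = E.imageLeft (E.perm.symm k) := by
  unfold Exchange.left Exchange.imageLeft
  refine Finset.sum_equiv E.perm.symm (fun i => ?_) (fun i _ => rfl)
  simp only [Finset.mem_filter, Finset.mem_univ, true_and, Equiv.apply_symm_apply]

theorem covi (E : Exchange d) {x : ℝ} (h0 : 0 ≤ x) (h1 : x < 1) : ∃ j, x ∈ img E j := by
  obtain ⟨k, hk⟩ := cov (MBas_inv E) h0 h1
  refine ⟨E.perm.symm k, ?_⟩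
  unfold Exchange.interval at hk
  rw [MBas_inv_left] at hk
  exact hk

theorem T_img (E : Exchange d) {x : ℝ} {j : Fin d} (h : x ∈ E.interval j) : E.T x ∈ img E j := by
  rw [E.T_of_mem h]
  obtain ⟨h1, h2⟩ := h
  constructor
  · linarith
  · linarith

theorem T_left (E : Exchange d) (j : Fin d) : E.T (E.left j) = E.imageLeft j := by
  rw [E.T_of_mem (left_mem E j)]
  ring

theorem T_Ico (E : Exchange d) {x : ℝ} (h0 : 0 ≤ x) (h1 : x < 1) : 0 ≤ E.T x ∧ E.T x < 1 := by
  obtain ⟨j, hj⟩ := cov E h0 h1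
  exact imgl E (T_img E hj)

theorem Tk_Ico (E : Exchange d) (k : ℕ) {x : ℝ} (h0 : 0 ≤ x) (h1 : x < 1) : 0 ≤ E.T^[k] x ∧ E.T^[k] x < 1 := by
  induction k with
  | zero => exact ⟨h0, h1⟩
  | succ k ih =>
    rw [Function.iterate_succ_apply']
    exact T_Ico E ih.1 ih.2

theorem T_inj' (E : Exchange d) {x y : ℝ} (hx0 : 0 ≤ x) (hx1 : x < 1) (hy0 : 0 ≤ y) (hy1 : y < 1) (h : E.T x = E.T y) :
    x = y := by
  obtain ⟨i, hi⟩ := cov E hx0 hx1
  obtain ⟨j, hj⟩ := cov E hy0 hy1
  exact (E.T_inj hi hj h).1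

theorem Tk_inj (E : Exchange d) (k : ℕ) {x y : ℝ} (hx0 : 0 ≤ x) (hx1 : x < 1) (hy0 : 0 ≤ y) (hy1 : y < 1)
    (h : E.T^[k] x = E.T^[k] y) : x = y := by
  induction k with
  | zero => exact h
  | succ k ih =>
    rw [Function.iterate_succ_apply', Function.iterate_succ_apply'] at h
    exact ih (T_inj' E (Tk_Ico E k hx0 hx1).1 (Tk_Ico E k hx0 hx1).2 (Tk_Ico E k hy0 hy1).1 (Tk_Ico E k hy0 hy1).2 h)

theorem T_surj (E : Exchange d) {y : ℝ} (h0 : 0 ≤ y) (h1 : y < 1) : ∃ x, 0 ≤ x ∧ x < 1 ∧ E.T x = y := by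
  obtain ⟨j, hj⟩ := covi E h0 h1
  have h2 : y - E.imageLeft j + E.left j ∈ E.interval j := by
    obtain ⟨h3, h4⟩ := hj
    constructor
    · linarith
    · linarith
  refine ⟨y - E.imageLeft j + E.left j, (ivl E h2).1, (ivl E h2).2, ?_⟩
  rw [E.T_of_mem h2]
  ring

/-- The image interval containing `E.T x` determines the interval containing `x`. -/
theorem mem_of_img (E : Exchange d) {x : ℝ} (h0 : 0 ≤ x) (h1 : x < 1) {j : Fin d} (h : E.T x ∈ img E j) :
    x ∈ E.interval j := by
  obtain ⟨i, hi⟩ := cov E h0 h1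
  rw [← img_inj E (T_img E hi) h]
  exact hi

theorem lbl_eq (E : Exchange d) {x y : ℝ} {i j : Fin d} (hx : x ∈ E.interval i) (hy : y ∈ E.interval j) (hxy : x ≤ y)
    (h : ∀ c : Fin d, 0 < (c : ℕ) → x < E.left c → ¬ E.left c ≤ y) : i = j := by
  rcases lt_trichotomy i j with h1 | h1 | h1
  · exfalso
    have h2 := E.left_add_le h1
    refine h j ?_ (lt_of_lt_of_le hx.2 h2) hy.1
    exact lt_of_le_of_lt (Nat.zero_le _) h1
  · exact h1
  · exfalso
    have h2 := E.left_add_le h1
    have h3 := hy.2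
    have h4 := hx.1
    linarith

theorem rigid (E : Exchange d) {x y z : ℝ} (h0 : 0 ≤ x) (h1 : y < 1) (hxz : x ≤ z) (hzy : z ≤ y)
    (h : ∀ c : Fin d, 0 < (c : ℕ) → x < E.left c → ¬ E.left c ≤ y) : E.T z = E.T x + (z - x) := by
  obtain ⟨i, hi⟩ := cov E h0 (lt_of_le_of_lt (le_trans hxz hzy) h1)
  obtain ⟨j, hj⟩ := cov E (le_trans h0 hxz) (lt_of_le_of_lt hzy h1)
  have h2 : i = j := lbl_eq E hi hj hxz fun c hc h3 h4 => h c hc h3 (le_trans h4 hzy)
  subst h2
  rw [E.T_of_mem hi, E.T_of_mem hj]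
  ring

theorem zero_T (E : Exchange d) (hd : 2 ≤ d) (hI : E.Irreducible) : ∃ j : Fin d, 0 < (j : ℕ) ∧ E.T (E.left j) = 0 := by
  have hd0 : 0 < d := by omega
  refine ⟨E.perm.symm ⟨0, hd0⟩, ?_, ?_⟩
  · by_contra hcon
    have h0 : ((E.perm.symm ⟨0, hd0⟩ : Fin d) : ℕ) = 0 := by omega
    refine hI 1 one_pos (by omega) fun k hk => ?_
    have h1 : k = E.perm.symm ⟨0, hd0⟩ := by
      apply Fin.ext
      omega
    rw [h1, Equiv.apply_symm_apply]
    exact one_pos
  · rw [T_left]
    unfold Exchange.imageLeft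
    apply Finset.sum_eq_zero
    intro k hk
    rw [Finset.mem_filter, Equiv.apply_symm_apply] at hk
    exact absurd hk.2 (Nat.not_lt_zero _)

end Pool.Agent.PHI
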