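import Pool.Agent.PHI.MOrb

/-!
# PHI/MFac: the factors of the two-sided coding occur in every one-sided coding

`fac`: let `x = X a`.  For every `L` there is `δ > 0` such that the points of `[x, x + δ)` have the same labels as `x` during `L`
steps (the intervals are open on the right; induction on `L`: `T` is a translation on `[x, x + δ)`).  The forward orbit of the point
`x0` coded by `u0` visits `(x, x + δ)` (`min_unif`).
-/

set_option autoImplicit false

namespace Pool.Agent.PHI

open Pool.Agent.Helper44.IET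

variable {d : ℕ}

/-- Points slightly to the right of `x` have the labels of `x` for a long time. -/
theorem rcont (E : Exchange d) (L : ℕ) {x : ℝ} (h0 : 0 ≤ x) (h1 : x < 1) :
    ∃ δ : ℝ, 0 < δ ∧ x + δ ≤ 1 ∧ ∀ y : ℝ, x ≤ y → y < x + δ → ∀ m : ℕ, m < L → ∀ j : Fin d,
      (E.T^[m] x ∈ E.interval j ↔ E.T^[m] y ∈ E.interval j) := by
  induction L generalizing x with
  | zero => exact ⟨1 - x, by linarith, by linarith, fun y _ _ m hm => absurd hm (Nat.not_lt_zero m)⟩
  | succ L ih =>
    obtain ⟨j0, hj0⟩ := cov E h0 h1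
    obtain ⟨hT0, hT1⟩ := T_Ico E h0 h1
    obtain ⟨e, he, he1, hL⟩ := ih hT0 hT1
    have hr : x < E.left j0 + E.len j0 := hj0.2
    refine ⟨min e (min (E.left j0 + E.len j0 - x) (1 - x)), lt_min he (lt_min (by linarith) (by linarith)), ?_, ?_⟩
    · have h2 := (min_le_right e (min (E.left j0 + E.len j0 - x) (1 - x))).trans (min_le_right _ _)
      linarith
    · intro y hxy hy m hm j
      have h2 := min_le_left e (min (E.left j0 + E.len j0 - x) (1 - x))
      have h3 := (min_le_right e (min (E.left j0 + E.len j0 - x) (1 - x))).trans (min_le_left _ _)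
      have hyj : y ∈ E.interval j0 := ⟨hj0.1.trans hxy, by linarith⟩
      have hTy : E.T y = E.T x + (y - x) := by
        rw [E.T_of_mem hj0, E.T_of_mem hyj]
        ring
      cases m with
      | zero =>
        have e1 : E.T^[0] x = x := rfl
        have e2 : E.T^[0] y = y := rfl
        rw [e1, e2]
        constructor
        · intro h4
          rw [E.interval_inj h4 hj0]
          exact hyj
        · intro h4
          rw [E.interval_inj h4 hyj]
          exact hj0
      | succ m =>
        rw [Function.iterate_succ_apply, Function.iterate_succ_apply]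
        exact hL (E.T y) (by linarith) (by linarith) m (by omega) j

theorem fac {E : Exchange d} (hd : 2 ≤ d) (hI : E.Irreducible) (hK : E.Keane) {X : ℤ → ℝ} (h : Ob E X) {u0 : ℕ → Fin d}
    (hu : E.IsCoding u0) (a : ℤ) (L : ℕ) : ∃ p : ℕ, ∀ m : ℕ, m < L → ulab E X (a + m) = (u0 (p + m) : ℕ) := by
  obtain ⟨e, he, he1, hL⟩ := rcont E L (h.pos a).le (h.lt a)
  obtain ⟨x0, hx0, hc⟩ := hu
  obtain ⟨K, hK1⟩ := min_unif E hd hI hK he
  obtain ⟨k, -, hk1, hk2⟩ := hK1 x0 hx0.1 hx0.2 (X a) (h.pos a).le he1
  refine ⟨k, fun m hm => ulab_eq E ?_⟩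
  rw [ob_iter h a m]
  refine (hL (E.T^[k] x0) hk1.le hk2 m hm (u0 (k + m))).2 ?_
  have h1 := hc (k + m)
  rw [Nat.add_comm k m, Function.iterate_add_apply] at h1
  rw [Nat.add_comm k m]
  exact h1

end Pool.Agent.PHI
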