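import Mathlib

/-!
# PHI/MStp: step sets

`Stp F A`: membership in `A` is constant on `[x, y]` if no point of `F` lies in `(x, y]`.  For finite `F`, a nonempty step set has
volume bounded below, its jumps lie in `F`, and a step set without jumps is empty or all of `[0, 1)` (induction on the number
of points of `F` in `(x, y]`).
-/

set_option autoImplicit false

namespace Pool.Agent.PHI

open MeasureTheory

/-- Step set. -/
def Stp (F A : Set ℝ) : Prop :=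
  ∀ x y : ℝ, 0 ≤ x → x < y → y < 1 → (∀ f ∈ F, x < f → ¬ f ≤ y) → (x ∈ A ↔ y ∈ A)

/-- Jumps in `(0, 1)`. -/
def Jmp (A : Set ℝ) : Set ℝ :=
  {c | 0 < c ∧ c < 1 ∧ ∀ ε : ℝ, 0 < ε → ∃ x : ℝ, c - ε < x ∧ x < c ∧ ¬ (x ∈ A ↔ c ∈ A)}

theorem stp_mono {F G A : Set ℝ} (h : Stp F A) (hFG : F ⊆ G) : Stp G A := by
  intro x y hx hxy hy hG
  exact h x y hx hxy hy fun f hf => hG f (hFG hf)

theorem stp_ico (a b : ℝ) : Stp {a, b} (Set.Ico a b) := by
  intro x y _ hxy _ hF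
  have ha := hF a (by simp)
  have hb := hF b (by simp)
  rw [Set.mem_Ico, Set.mem_Ico]
  constructor
  · rintro ⟨h1, h2⟩
    exact ⟨h1.trans hxy.le, not_le.1 (hb h2)⟩
  · rintro ⟨h1, h2⟩
    refine ⟨?_, hxy.trans h2⟩
    by_contra hc
    exact ha (not_le.1 hc) h1

theorem stp_diff {F G A B : Set ℝ} (hA : Stp F A) (hB : Stp G B) : Stp (F ∪ G) (A \ B) := by
  intro x y hx hxy hy hF
  have h1 := hA x y hx hxy hy fun f hf => hF f (Or.inl hf)
  have h2 := hB x y hx hxy hy fun f hf => hF f (Or.inr hf)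
  rw [Set.mem_diff, Set.mem_diff, h1, h2]

theorem stp_ex {N : ℕ} {A : ℕ → Set ℝ} (h : ∀ k < N, ∃ F : Set ℝ, F.Finite ∧ Stp F (A k)) :
    ∃ F : Set ℝ, F.Finite ∧ Stp F {x | ∃ k < N, x ∈ A k} := by
  induction N with
  | zero =>
    refine ⟨∅, Set.finite_empty, ?_⟩
    intro x y _ _ _ _
    simp
  | succ n ih =>
    obtain ⟨F, hF, hS⟩ := ih fun k hk => h k (Nat.lt_succ_of_lt hk)
    obtain ⟨G, hG, hT⟩ := h n (Nat.lt_succ_self n)
    refine ⟨F ∪ G, hF.union hG, ?_⟩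
    intro x y hx hxy hy hFG
    have h1 := hS x y hx hxy hy fun f hf => hFG f (Or.inl hf)
    have h2 := hT x y hx hxy hy fun f hf => hFG f (Or.inr hf)
    rw [Set.mem_setOf_eq, Set.mem_setOf_eq] at h1 ⊢
    constructor
    · rintro ⟨k, hk, hxk⟩
      rcases Nat.lt_succ_iff_lt_or_eq.1 hk with hk' | rfl
      · obtain ⟨j, hj, hyj⟩ := h1.1 ⟨k, hk', hxk⟩
        exact ⟨j, Nat.lt_succ_of_lt hj, hyj⟩
      · exact ⟨k, hk, h2.1 hxk⟩
    · rintro ⟨k, hk, hxk⟩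
      rcases Nat.lt_succ_iff_lt_or_eq.1 hk with hk' | rfl
      · obtain ⟨j, hj, hyj⟩ := h1.2 ⟨k, hk', hxk⟩
        exact ⟨j, Nat.lt_succ_of_lt hj, hyj⟩
      · exact ⟨k, hk, h2.2 hxk⟩

/-- points of a finite set are separated -/
private theorem MStp_sep {G : Set ℝ} (hG : G.Finite) :
    ∃ ε : ℝ, 0 < ε ∧ ∀ a ∈ G, ∀ b ∈ G, a < b → ε ≤ b - a := by
  classical
  have hfin : {r : ℝ | ∃ a ∈ G, ∃ b ∈ G, a < b ∧ r = b - a}.Finite := by
    refine ((hG.prod hG).image fun p : ℝ × ℝ => p.2 - p.1).subset ?_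
    rintro r ⟨a, ha, b, hb, _, rfl⟩
    exact ⟨(a, b), ⟨ha, hb⟩, rfl⟩
  rcases Set.eq_empty_or_nonempty {r : ℝ | ∃ a ∈ G, ∃ b ∈ G, a < b ∧ r = b - a} with h0 | hne
  · refine ⟨1, one_pos, fun a ha b hb hab => ?_⟩
    exfalso
    have h1 : b - a ∈ {r : ℝ | ∃ a ∈ G, ∃ b ∈ G, a < b ∧ r = b - a} := ⟨a, ha, b, hb, hab, rfl⟩
    rw [h0] at h1
    exact h1
  · obtain ⟨m, hm, hmin⟩ := hfin.exists_minimalFor id _ hne
    obtain ⟨a0, _, b0, _, hab0, rfl⟩ := hm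
    refine ⟨b0 - a0, sub_pos.2 hab0, fun a ha b hb hab => ?_⟩
    by_contra hc
    have h2 := hmin (j := b - a) ⟨a, ha, b, hb, hab, rfl⟩ (not_le.1 hc).le
    exact hc h2

theorem stp_vol {F : Set ℝ} (hF : F.Finite) :
    ∃ ε : ℝ, 0 < ε ∧ ∀ A : Set ℝ, Stp F A → A ⊆ Set.Ico (0 : ℝ) 1 → A.Nonempty → ENNReal.ofReal ε ≤ volume A := by
  have hG : (F ∪ {0, 1}).Finite := hF.union (Set.toFinite _)
  obtain ⟨ε, hε, hsep⟩ := MStp_sep hG
  refine ⟨ε, hε, ?_⟩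
  rintro A hA hsub ⟨x, hx⟩
  obtain ⟨hx0, hx1⟩ := hsub hx
  have hlo : ({g ∈ F ∪ {0, 1} | g ≤ x} : Set ℝ).Nonempty := ⟨0, by simp, hx0⟩
  have hhi : ({g ∈ F ∪ {0, 1} | x < g} : Set ℝ).Nonempty := ⟨1, by simp, hx1⟩
  obtain ⟨g, hg, hgmax⟩ := (hG.subset (Set.sep_subset _ _)).exists_maximalFor id _ hlo
  obtain ⟨f, hf, hfmin⟩ := (hG.subset (Set.sep_subset _ _)).exists_minimalFor id _ hhi
  have hg' : ∀ t ∈ F ∪ {0, 1}, t ≤ x → t ≤ g := by
    intro t ht htx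
    by_contra hc
    exact hc (hgmax (j := t) ⟨ht, htx⟩ (not_le.1 hc).le)
  have hf' : ∀ t ∈ F ∪ {0, 1}, x < t → f ≤ t := by
    intro t ht htx
    by_contra hc
    exact hc (hfmin (j := t) ⟨ht, htx⟩ (not_le.1 hc).le)
  have hg0 : 0 ≤ g := hg' 0 (by simp) hx0
  have hf1 : f ≤ 1 := hf' 1 (by simp) hx1
  have hIco : Set.Ico g f ⊆ A := by
    rintro z ⟨hz1, hz2⟩
    rcases lt_trichotomy z x with hzx | rfl | hzx
    · refine (hA z x (hg0.trans hz1) hzx hx1 fun t ht hzt htx => ?_).2 hx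
      exact absurd (hg' t (Or.inl ht) htx) (not_le.2 (hz1.trans_lt hzt))
    · exact hx
    · refine (hA x z hx0 hzx (hz2.trans_le hf1) fun t ht hxt htz => ?_).1 hx
      exact absurd (hf' t (Or.inl ht) hxt) (not_le.2 (htz.trans_lt hz2))
  calc ENNReal.ofReal ε ≤ ENNReal.ofReal (f - g) :=
        ENNReal.ofReal_le_ofReal (hsep g hg.1 f hf.1 (hg.2.trans_lt hf.2))
    _ = volume (Set.Ico g f) := Real.volume_Ico.symm
    _ ≤ volume A := measure_mono hIco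

theorem jmp_sub {F A : Set ℝ} (hF : F.Finite) (h : Stp F A) : Jmp A ⊆ F := by
  rintro c ⟨hc0, hc1, hc⟩
  by_contra hcF
  obtain ⟨ε, hε, hsep⟩ := MStp_sep ((hF.union (Set.toFinite {0, c})))
  obtain ⟨x, hx1, hx2, hx3⟩ := hc ε hε
  have h0 : ε ≤ c - 0 := hsep 0 (by simp) c (by simp) hc0
  refine hx3 (h x c (by linarith) hx2 hc1 fun f hf hxf hfc => ?_)
  have hne : f < c := lt_of_le_of_ne hfc fun h => hcF (h ▸ hf)
  have := hsep f (Or.inl hf) c (by simp) hne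
  linarith

private theorem MStp_iff {F A : Set ℝ} (hF : F.Finite) (h : Stp F A) (hJ : Jmp A = ∅) (n : ℕ) :
    ∀ x y : ℝ, 0 ≤ x → x < y → y < 1 → (F ∩ Set.Ioc x y).ncard ≤ n → (x ∈ A ↔ y ∈ A) := by
  induction n with
  | zero =>
    intro x y hx hxy hy hn
    have h0 : F ∩ Set.Ioc x y = ∅ :=
      (Set.ncard_eq_zero (hF.subset Set.inter_subset_left)).1 (Nat.le_zero.1 hn)
    refine h x y hx hxy hy fun f hf hxf hfy => ?_
    have : f ∈ F ∩ Set.Ioc x y := ⟨hf, hxf, hfy⟩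
    rw [h0] at this
    exact this
  | succ n ih =>
    intro x y hx hxy hy hn
    rcases Set.eq_empty_or_nonempty (F ∩ Set.Ioc x y) with h0 | hne
    · refine h x y hx hxy hy fun f hf hxf hfy => ?_
      have : f ∈ F ∩ Set.Ioc x y := ⟨hf, hxf, hfy⟩
      rw [h0] at this
      exact this
    obtain ⟨f, hf, hfmax⟩ := (hF.subset Set.inter_subset_left).exists_maximalFor id _ hne
    have hf' : ∀ t ∈ F, x < t → t ≤ y → t ≤ f := by
      intro t ht h1 h2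
      by_contra hc
      exact hc (hfmax (j := t) ⟨ht, h1, h2⟩ (not_le.1 hc).le)
    obtain ⟨hfF, hxf, hfy⟩ := hf
    have h1 : f ∈ A ↔ y ∈ A := by
      rcases hfy.eq_or_lt with rfl | hlt
      · exact Iff.rfl
      · refine h f y (hx.trans hxf.le) hlt hy fun t ht hft hty => ?_
        exact absurd (hf' t ht (hxf.trans hft) hty) (not_le.2 hft)
    have hnj : f ∉ Jmp A := by
      rw [hJ]
      exact Set.notMem_empty f
    have h2 : ∃ ε : ℝ, 0 < ε ∧ ∀ t : ℝ, f - ε < t → t < f → (t ∈ A ↔ f ∈ A) := by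
      by_contra hc
      push Not at hc
      refine hnj ⟨hx.trans_lt hxf, hfy.trans_lt hy, fun ε hε => ?_⟩
      obtain ⟨t, ht1, ht2, ht3⟩ := hc ε hε
      refine ⟨t, ht1, ht2, ?_⟩
      intro hiff
      rcases ht3 with ⟨h3, h4⟩ | ⟨h3, h4⟩
      · exact h4 (hiff.1 h3)
      · exact h3 (hiff.2 h4)
    obtain ⟨ε, hε, h2⟩ := h2
    obtain ⟨t, ht1, ht2⟩ : ∃ t : ℝ, max x (f - ε) < t ∧ t < f := by
      exact exists_between (max_lt hxf (by linarith))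
    have h3 : x < t := (le_max_left _ _).trans_lt ht1
    have h4 : f - ε < t := (le_max_right _ _).trans_lt ht1
    have h5 : (F ∩ Set.Ioc x t).ncard < (F ∩ Set.Ioc x y).ncard := by
      apply Set.ncard_lt_ncard _ (hF.subset Set.inter_subset_left)
      refine ⟨fun s hs => ⟨hs.1, hs.2.1, hs.2.2.trans (ht2.le.trans hfy)⟩, fun hsub => ?_⟩
      have h6 := hsub ⟨hfF, hxf, hfy⟩
      exact absurd h6.2.2 (not_le.2 ht2)
    rw [ih x t hx h3 (ht2.trans_le (hfy.trans hy.le)) (by omega), h2 t h4 ht2, h1]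

theorem stp_jmp {F A : Set ℝ} (hF : F.Finite) (h : Stp F A) (hJ : Jmp A = ∅) {x y : ℝ} (hx0 : 0 ≤ x) (hx1 : x < 1)
    (hy0 : 0 ≤ y) (hy1 : y < 1) (hx : x ∈ A) : y ∈ A := by
  rcases lt_trichotomy x y with hxy | rfl | hxy
  · exact (MStp_iff hF h hJ _ x y hx0 hxy hy1 le_rfl).1 hx
  · exact hx
  · exact (MStp_iff hF h hJ _ y x hy0 hxy hx1 le_rfl).2 hx

end Pool.Agent.PHI
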