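import Pool.Agent.PHI.MPer
import Pool.Agent.PHI.MStp

/-!
# PHI/MInv: an invariant step set is empty or everything

`jmp_fwd`: `c` a jump of the invariant set `A`, `c` not a cut: `T` is a translation on `[c - ε, c]` (`rigid`), so `T c` is a jump
(`T c > T (c - ε) ≥ 0`).  `jmp_bwd`: `c` a jump, `c` not the left end of an image interval: for `c` in the image interval of `j` the
points `[c - ε, c]` lie in it, and `T⁻¹` is a translation on it; so the `y` with `T y = c` is a jump.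
`inv_all`: suppose there is a jump `c`.  The set of the jumps is finite (`jmp_sub`).  If no `T^k c`, `k ≥ 0`, is an interior cut, all
`T^k c` are jumps, two of them agree, so there is a periodic point (`Tk_inj`), contradicting `noper`.  So `T^k c = E.left j`, `0 < j`,
for some `k`.  In the same way going backwards there are `m` and a jump `y` with `T^m y = c` and `y = E.imageLeft i = T (E.left i)`
(`T_left`): otherwise there is an infinite sequence of jumps `y_m`, `T y_{m+1} = y_m`, pairwise different by `noper`.  So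
`T^{k+m+1} (E.left i) = E.left j`; if `0 < i` this contradicts Keane; if `i = 0` then `E.left i = 0 = T (E.left j0)`, `0 < j0`
(`zero_T`), so `T^{k+m+2} (E.left j0) = E.left j`, contradicting Keane.  So there are no jumps: `stp_jmp`.
-/

set_option autoImplicit false

namespace Pool.Agent.PHI

open Pool.Agent.Helper44.IET

variable {d : ℕ}

private theorem MInv_trans (E : Exchange d) {A : Set ℝ} (hA : ∀ x : ℝ, 0 ≤ x → x < 1 → (E.T x ∈ A ↔ x ∈ A)) {y : ℝ}
    {j : Fin d} (hy : y ∈ E.interval j) (hlt : E.left j < y) :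
    (y ∈ Jmp A ↔ E.T y ∈ Jmp A) := by
  have hy1 : E.left j ≤ y ∧ y < E.left j + E.len j := hy
  have h0 := left_nonneg E j
  have hyI := ivl E hy
  have hTy := E.T_of_mem hy
  have hTyI := T_Ico E hyI.1 hyI.2
  have hTl := T_Ico E h0 (left_lt E j)
  rw [E.T_of_mem (left_mem E j)] at hTl
  have key : ∀ x : ℝ, E.left j ≤ x → x ≤ y → E.T x = x + (E.imageLeft j - E.left j) ∧ 0 ≤ x ∧ x < 1 := by
    intro x hx1 hx2
    exact ⟨E.T_of_mem ⟨hx1, lt_of_le_of_lt hx2 hy1.2⟩, le_trans h0 hx1, lt_of_le_of_lt hx2 hyI.2⟩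
  constructor
  · rintro ⟨_, _, hJ⟩
    refine ⟨by rw [hTy]; linarith [hTl.1], hTyI.2, ?_⟩
    intro ε hε
    obtain ⟨x, hx1, hx2, hx3⟩ := hJ (min ε (y - E.left j)) (lt_min hε (by linarith))
    have h1 : y - ε < x := by
      have := min_le_left ε (y - E.left j)
      linarith
    have h2 : E.left j ≤ x := by
      have := min_le_right ε (y - E.left j)
      linarith
    obtain ⟨hTx, hx0, hx11⟩ := key x h2 hx2.le
    refine ⟨E.T x, by rw [hTx, hTy]; linarith, by rw [hTx, hTy]; linarith, ?_⟩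
    rw [hA x hx0 hx11, hA y hyI.1 hyI.2]
    exact hx3
  · rintro ⟨_, _, hJ⟩
    refine ⟨lt_of_le_of_lt h0 hlt, hyI.2, ?_⟩
    intro ε hε
    obtain ⟨x, hx1, hx2, hx3⟩ := hJ (min ε (y - E.left j)) (lt_min hε (by linarith))
    have h1 : E.T y - ε < x := by
      have := min_le_left ε (y - E.left j)
      linarith
    have h2 : E.T y - (y - E.left j) < x := by
      have := min_le_right ε (y - E.left j)
      linarith
    rw [hTy] at h1 h2 hx2
    obtain ⟨hTx, hx0, hx11⟩ := key (x - (E.imageLeft j - E.left j)) (by linarith) (by linarith)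
    have hTx' : E.T (x - (E.imageLeft j - E.left j)) = x := by rw [hTx]; ring
    refine ⟨x - (E.imageLeft j - E.left j), by linarith, by linarith, ?_⟩
    rw [← hA _ hx0 hx11, ← hA y hyI.1 hyI.2, hTx']
    exact hx3

theorem jmp_fwd (E : Exchange d) {A : Set ℝ} (hA : ∀ x : ℝ, 0 ≤ x → x < 1 → (E.T x ∈ A ↔ x ∈ A)) {c : ℝ} (hc : c ∈ Jmp A)
    (hn : ∀ j : Fin d, 0 < (j : ℕ) → c ≠ E.left j) : E.T c ∈ Jmp A := by
  obtain ⟨j, hj⟩ := cov E hc.1.le hc.2.1
  have hlt : E.left j < c := by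
    rcases Nat.eq_zero_or_pos (j : ℕ) with h | h
    · rw [left_zero E j h]
      exact hc.1
    · exact lt_of_le_of_ne hj.1 (Ne.symm (hn j h))
  exact (MInv_trans E hA hj hlt).1 hc

theorem jmp_bwd (E : Exchange d) {A : Set ℝ} (hA : ∀ x : ℝ, 0 ≤ x → x < 1 → (E.T x ∈ A ↔ x ∈ A)) {c : ℝ} (hc : c ∈ Jmp A)
    (hn : ∀ j : Fin d, c ≠ E.imageLeft j) : ∃ y : ℝ, E.T y = c ∧ y ∈ Jmp A := by
  obtain ⟨y, hy0, hy1, hTy⟩ := T_surj E hc.1.le hc.2.1
  obtain ⟨j, hj⟩ := cov E hy0 hy1
  refine ⟨y, hTy, ?_⟩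
  have hlt : E.left j < y := by
    refine lt_of_le_of_ne hj.1 ?_
    intro h
    apply hn j
    rw [← hTy, ← h, T_left]
  rw [MInv_trans E hA hj hlt, hTy]
  exact hc

private theorem MInv_jmps (E : Exchange d) (hd : 2 ≤ d) (hI : E.Irreducible) (hK : E.Keane) {A : Set ℝ}
    (hF : (Jmp A).Finite) (hA : ∀ x : ℝ, 0 ≤ x → x < 1 → (E.T x ∈ A ↔ x ∈ A)) : Jmp A = ∅ := by
  by_contra hne
  obtain ⟨c, hc⟩ := Set.nonempty_iff_ne_empty.2 hne
  have hc0 : 0 ≤ c := hc.1.le
  have hc1 : c < 1 := hc.2.1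
  -- forward
  have h1 : ∃ (k : ℕ) (j : Fin d), 0 < (j : ℕ) ∧ E.T^[k] c = E.left j := by
    by_contra hcon
    push Not at hcon
    have hall : ∀ k : ℕ, E.T^[k] c ∈ Jmp A := by
      intro k
      induction k with
      | zero => exact hc
      | succ k ih =>
        rw [Function.iterate_succ_apply']
        exact jmp_fwd E hA ih (fun j hj => hcon k j hj)
    obtain ⟨k, l, hkl, he⟩ := hF.exists_lt_map_eq_of_forall_mem hall
    have e1 : E.T^[k] (E.T^[l - k] c) = E.T^[k] c := by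
      rw [← Function.iterate_add_apply, Nat.add_sub_cancel' hkl.le]
      exact he.symm
    have hI2 := Tk_Ico E (l - k) hc0 hc1
    have e2 := Tk_inj E k hI2.1 hI2.2 hc0 hc1 e1
    exact noper E hd hI hK hc0 hc1 (Nat.sub_pos_of_lt hkl) e2
  -- backward
  have h2 : ∃ (m : ℕ) (y : ℝ) (i : Fin d), E.T^[m] y = c ∧ y = E.imageLeft i := by
    by_contra hcon
    push Not at hcon
    have hall : ∀ m : ℕ, ∃ y, y ∈ Jmp A ∧ E.T^[m] y = c := by
      intro m
      induction m with
      | zero => exact ⟨c, hc, rfl⟩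
      | succ m ih =>
        obtain ⟨y, hy, hym⟩ := ih
        obtain ⟨z, hz, hzJ⟩ := jmp_bwd E hA hy (fun j => hcon m y j hym)
        refine ⟨z, hzJ, ?_⟩
        rw [Function.iterate_succ_apply, hz, hym]
    choose y hy hym using hall
    obtain ⟨k, l, hkl, he⟩ := hF.exists_lt_map_eq_of_forall_mem hy
    have e1 : E.T^[l - k] c = c := by
      conv_lhs => rw [← hym k]
      rw [← Function.iterate_add_apply, Nat.sub_add_cancel hkl.le, he]
      exact hym l
    exact noper E hd hI hK hc0 hc1 (Nat.sub_pos_of_lt hkl) e1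
  obtain ⟨k, j, hj, hkj⟩ := h1
  obtain ⟨m, y, i, hmy, hyi⟩ := h2
  have h3 : E.T^[k + m + 1] (E.left i) = E.left j := by
    rw [Function.iterate_succ_apply, T_left, ← hyi, Function.iterate_add_apply, hmy, hkj]
  rcases Nat.eq_zero_or_pos (i : ℕ) with hi | hi
  · obtain ⟨j0, hj0, hz⟩ := zero_T E hd hI
    have h4 : E.T^[k + m + 1 + 1] (E.left j0) = E.T^[0] (E.left j) := by
      rw [Function.iterate_succ_apply, hz, ← left_zero E i hi, h3]
      rfl
    have := (hK j0 j hj0 hj _ _ h4).2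
    omega
  · have := (hK i j hi hj (k + m + 1) 0 h3).2
    omega

theorem inv_all (E : Exchange d) (hd : 2 ≤ d) (hI : E.Irreducible) (hK : E.Keane) {F A : Set ℝ} (hF : F.Finite)
    (hS : Stp F A) (hA : ∀ x : ℝ, 0 ≤ x → x < 1 → (E.T x ∈ A ↔ x ∈ A)) {x y : ℝ} (hx0 : 0 ≤ x) (hx1 : x < 1) (hx : x ∈ A)
    (hy0 : 0 ≤ y) (hy1 : y < 1) : y ∈ A :=
  stp_jmp hF hS (MInv_jmps E hd hI hK (hF.subset (jmp_sub hF hS)) hA) hx0 hx1 hy0 hy1 hx

end Pool.Agent.PHI
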