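import Pool.Agent.PHI.MBas
import Pool.Agent.PHI.MStp

/-!
# PHI/MPre: preimages of step sets are step sets

`stp_pre`: the new jumps are the cuts and the preimages of the old jumps: between two consecutive ones `T` is a translation.
`stp_prek`: induction on `k`.
-/

set_option autoImplicit false

namespace Pool.Agent.PHI

open Pool.Agent.Helper44.IET

variable {d : ℕ}

theorem stp_pre (E : Exchange d) {F A : Set ℝ} (hF : F.Finite) (h : Stp F A) :
    ∃ G : Set ℝ, G.Finite ∧ Stp G {x : ℝ | x ∈ Set.Ico (0 : ℝ) 1 ∧ E.T x ∈ A} := by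
  refine ⟨(Set.range fun c : Fin d => E.left c) ∪ {x : ℝ | x ∈ Set.Ico (0 : ℝ) 1 ∧ E.T x ∈ F}, ?_, ?_⟩
  · refine (Set.finite_range _).union ?_
    refine Set.Finite.of_finite_image (f := E.T) (hF.subset ?_) ?_
    · rintro _ ⟨x, hx, rfl⟩
      exact hx.2
    · intro x hx y hy hxy
      exact T_inj' E hx.1.1 hx.1.2 hy.1.1 hy.1.2 hxy
  · intro x y hx hxy hy hG
    have hr : ∀ z : ℝ, x ≤ z → z ≤ y → E.T z = E.T x + (z - x) := fun z hxz hzy =>
      rigid E hx hy hxz hzy fun c _ hc => hG (E.left c) (Or.inl ⟨c, rfl⟩) hc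
    have hx1 : x < 1 := hxy.trans hy
    have hy0 : 0 ≤ y := hx.trans hxy.le
    have hTx := T_Ico E hx hx1
    have hTy := T_Ico E hy0 hy
    have hyT := hr y hxy.le le_rfl
    have key : E.T x ∈ A ↔ E.T y ∈ A := by
      refine h (E.T x) (E.T y) hTx.1 (by linarith) hTy.2 ?_
      intro f hf hf1 hf2
      have hz := hr (x + (f - E.T x)) (by linarith) (by linarith)
      have hz' : E.T (x + (f - E.T x)) = f := by
        rw [hz]
        ring
      refine hG (x + (f - E.T x)) (Or.inr ⟨⟨by linarith, by linarith⟩, ?_⟩) (by linarith) (by linarith)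
      rw [hz']
      exact hf
    constructor
    · rintro ⟨-, h2⟩
      exact ⟨⟨hy0, hy⟩, key.1 h2⟩
    · rintro ⟨-, h2⟩
      exact ⟨⟨hx, hx1⟩, key.2 h2⟩

theorem stp_prek (E : Exchange d) (k : ℕ) {F A : Set ℝ} (hF : F.Finite) (h : Stp F A) :
    ∃ G : Set ℝ, G.Finite ∧ Stp G {x : ℝ | x ∈ Set.Ico (0 : ℝ) 1 ∧ E.T^[k] x ∈ A} := by
  induction k with
  | zero =>
    refine ⟨F, hF, ?_⟩
    intro x y hx hxy hy hG
    have key := h x y hx hxy hy hG
    have hx1 : x < 1 := hxy.trans hy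
    have hy0 : 0 ≤ y := hx.trans hxy.le
    constructor
    · rintro ⟨-, h2⟩
      exact ⟨⟨hy0, hy⟩, key.1 h2⟩
    · rintro ⟨-, h2⟩
      exact ⟨⟨hx, hx1⟩, key.2 h2⟩
  | succ k ih =>
    obtain ⟨G, hG, hS⟩ := ih
    obtain ⟨G', hG', hS'⟩ := stp_pre E hG hS
    refine ⟨G', hG', ?_⟩
    have hset : {x : ℝ | x ∈ Set.Ico (0 : ℝ) 1 ∧ E.T^[k + 1] x ∈ A}
        = {x : ℝ | x ∈ Set.Ico (0 : ℝ) 1 ∧ E.T x ∈ {x : ℝ | x ∈ Set.Ico (0 : ℝ) 1 ∧ E.T^[k] x ∈ A}} := by
      ext x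
      constructor
      · rintro ⟨h1, h2⟩
        rw [Function.iterate_succ_apply] at h2
        exact ⟨h1, T_Ico E h1.1 h1.2, h2⟩
      · rintro ⟨h1, -, h2⟩
        refine ⟨h1, ?_⟩
        rw [Function.iterate_succ_apply]
        exact h2
    rw [hset]
    exact hS'

end Pool.Agent.PHI
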