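import Pool.Agent.PHI.MRet
import Pool.Agent.PHI.MInv
import Pool.Agent.PHI.MPre

/-!
# PHI/MMin: uniform minimality

`min_one`: let `N` be from `ret_bd` and `W = {x ∈ [0,1) | ∃ k < N + 1, T^k x ∈ [a,b)}`.  Then `x ∈ W → T x ∈ W` (`k ≥ 1`: `k - 1`;
`k = 0`: `x ∈ [a,b)` returns at a time `1 ≤ k ≤ N`).  `W` is a step set (`stp_prek`, `stp_ico`, `stp_ex`) and measurable (`T_meas`).
`W' = {x ∈ [0,1) | T x ∈ W}` contains `W` and has the same volume (`vol_pre`), `W' \ W` is a step set (`stp_pre`, `stp_diff`) of volume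
`0`, so it is empty (`stp_vol`).  So `W` is invariant and contains `a`: `inv_all`.
`min_unif`: finite grid: `M` with `3 < M * δ`, the intervals `[i/M, (i+1)/M)`, `i < M`, the maximum of the numbers of `min_one`;
`(y, y + δ)` contains `[i/M, (i+1)/M)` for `i = ⌊y M⌋ + 1`.
-/

set_option autoImplicit false

namespace Pool.Agent.PHI

open Pool.Agent.Helper44.IET MeasureTheory

variable {d : ℕ}

theorem min_one (E : Exchange d) (hd : 2 ≤ d) (hI : E.Irreducible) (hK : E.Keane) {a b : ℝ} (ha : 0 ≤ a) (hab : a < b)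
    (hb : b ≤ 1) : ∃ N : ℕ, ∀ x : ℝ, 0 ≤ x → x < 1 → ∃ k : ℕ, k < N ∧ a ≤ E.T^[k] x ∧ E.T^[k] x < b := by
  obtain ⟨N, hN⟩ := ret_bd E ha hb
  let A : ℕ → Set ℝ := fun k => {x : ℝ | x ∈ Set.Ico (0 : ℝ) 1 ∧ E.T^[k] x ∈ Set.Ico a b}
  let W : Set ℝ := {x | ∃ k < N + 1, x ∈ A k}
  have hW01 : W ⊆ Set.Ico (0 : ℝ) 1 := by
    rintro x ⟨k, -, hk, -⟩
    exact hk
  have hfwd : ∀ x ∈ W, E.T x ∈ W := by
    rintro x ⟨k, hkN, hx, hk⟩
    have hTx := T_Ico E hx.1 hx.2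
    rcases Nat.eq_zero_or_pos k with h | h
    · subst h
      obtain ⟨l, hl0, hlN, hl1, hl2⟩ := hN x hk.1 hk.2
      refine ⟨l - 1, by omega, hTx, ?_⟩
      have h1 : E.T^[l - 1] (E.T x) = E.T^[l] x := by
        rw [← Function.iterate_succ_apply]
        congr 2
        omega
      rw [h1]
      exact ⟨hl1, hl2⟩
    · refine ⟨k - 1, by omega, hTx, ?_⟩
      have h1 : E.T^[k - 1] (E.T x) = E.T^[k] x := by
        rw [← Function.iterate_succ_apply]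
        congr 2
        omega
      rw [h1]
      exact hk
  have hWm : MeasurableSet W := by
    have h1 : W = ⋃ k ∈ Finset.range (N + 1), A k := by
      ext x
      simp only [Set.mem_iUnion, Finset.mem_range, exists_prop]
      rfl
    rw [h1]
    refine Finset.measurableSet_biUnion _ fun k _ => ?_
    have h2 : A k = Set.Ico (0 : ℝ) 1 ∩ (E.T^[k]) ⁻¹' (Set.Ico a b) := rfl
    rw [h2]
    exact measurableSet_Ico.inter (((T_meas E).iterate k) measurableSet_Ico)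
  obtain ⟨F, hF, hS⟩ : ∃ F : Set ℝ, F.Finite ∧ Stp F W :=
    stp_ex fun k _ => stp_prek E k (Set.toFinite {a, b}) (stp_ico a b)
  obtain ⟨G, hG, hS'⟩ := stp_pre E hF hS
  have hsub : W ⊆ {x : ℝ | x ∈ Set.Ico (0 : ℝ) 1 ∧ E.T x ∈ W} := fun x hx => ⟨hW01 hx, hfwd x hx⟩
  have hvol := vol_pre E hWm hW01
  have hfin : volume W ≠ ⊤ := by
    have h1 := measure_mono (μ := volume) hW01
    rw [Real.volume_Ico] at h1
    exact (lt_of_le_of_lt h1 ENNReal.ofReal_lt_top).ne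
  have hz : volume ({x : ℝ | x ∈ Set.Ico (0 : ℝ) 1 ∧ E.T x ∈ W} \ W) = 0 := by
    rw [measure_sdiff hsub hWm.nullMeasurableSet hfin, hvol, tsub_self]
  obtain ⟨ε, hε, hv⟩ := stp_vol (hG.union hF)
  have hemp : ¬ ({x : ℝ | x ∈ Set.Ico (0 : ℝ) 1 ∧ E.T x ∈ W} \ W).Nonempty := by
    intro hne
    have h1 := hv _ (stp_diff hS' hS) (fun x hx => hx.1.1) hne
    rw [hz, nonpos_iff_eq_zero, ENNReal.ofReal_eq_zero] at h1
    linarith
  have hinv : ∀ x : ℝ, 0 ≤ x → x < 1 → (E.T x ∈ W ↔ x ∈ W) := by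
    intro x hx0 hx1
    refine ⟨fun h => ?_, hfwd x⟩
    by_contra hn
    exact hemp ⟨x, ⟨⟨hx0, hx1⟩, h⟩, hn⟩
  have ha1 : a < 1 := lt_of_lt_of_le hab hb
  have haW : a ∈ W := ⟨0, Nat.succ_pos N, ⟨ha, ha1⟩, le_rfl, hab⟩
  refine ⟨N + 1, fun x hx0 hx1 => ?_⟩
  obtain ⟨k, hk, -, hk1⟩ := inv_all E hd hI hK hF hS hinv ha ha1 haW hx0 hx1
  exact ⟨k, hk, hk1.1, hk1.2⟩

theorem min_unif (E : Exchange d) (hd : 2 ≤ d) (hI : E.Irreducible) (hK : E.Keane) {δ : ℝ} (hδ : 0 < δ) :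
    ∃ K : ℕ, ∀ x : ℝ, 0 ≤ x → x < 1 → ∀ y : ℝ, 0 ≤ y → y + δ ≤ 1 →
      ∃ k : ℕ, k < K ∧ y < E.T^[k] x ∧ E.T^[k] x < y + δ := by
  obtain ⟨M, hM⟩ := exists_nat_gt (3 / δ)
  have hM1 : 3 < (M : ℝ) * δ := (div_lt_iff₀ hδ).1 hM
  have hM0 : (0 : ℝ) < M := lt_trans (div_pos three_pos hδ) hM
  have hone : ∀ i : ℕ, ∃ N : ℕ, i < M → ∀ x : ℝ, 0 ≤ x → x < 1 →
      ∃ k : ℕ, k < N ∧ (i : ℝ) / M ≤ E.T^[k] x ∧ E.T^[k] x < ((i : ℝ) + 1) / M := by
    intro i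
    by_cases hi : i < M
    · have h1 : ((i : ℝ) + 1) / M ≤ 1 := by
        rw [div_le_one hM0]
        exact_mod_cast hi
      obtain ⟨N, hN⟩ := min_one E hd hI hK (a := (i : ℝ) / M) (b := ((i : ℝ) + 1) / M) (by positivity)
        (by rw [div_lt_div_iff_of_pos_right hM0]; linarith) h1
      exact ⟨N, fun _ => hN⟩
    · exact ⟨0, fun h => absurd h hi⟩
  choose N hN using hone
  refine ⟨(Finset.range M).sup N, fun x hx0 hx1 y hy0 hy1 => ?_⟩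
  have hfl := Nat.floor_le (mul_nonneg hy0 hM0.le)
  have hfl2 := Nat.lt_floor_add_one (y * (M : ℝ))
  have hyM : y * M + δ * M ≤ M := by nlinarith
  have hiM : ⌊y * (M : ℝ)⌋₊ + 1 < M := by
    have h1 : ((⌊y * (M : ℝ)⌋₊ + 1 : ℕ) : ℝ) < M := by
      push_cast
      nlinarith
    exact_mod_cast h1
  obtain ⟨k, hk, hk1, hk2⟩ := hN (⌊y * (M : ℝ)⌋₊ + 1) hiM x hx0 hx1
  refine ⟨k, lt_of_lt_of_le hk (Finset.le_sup (Finset.mem_range.2 hiM)), ?_, ?_⟩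
  · refine lt_of_lt_of_le ?_ hk1
    rw [lt_div_iff₀ hM0]
    push_cast
    exact hfl2
  · refine lt_of_lt_of_le hk2 ?_
    rw [div_le_iff₀ hM0]
    push_cast
    nlinarith

end Pool.Agent.PHI
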