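import Pool.Agent.PHI.MMin

/-!
# PHI/MOrb: two-sided orbits

`Ob E X`: `X : ℤ → ℝ` is a two-sided orbit in `(0,1)` (so it avoids `0`).  `ulab E X t` is the index of the interval containing `X t`,
`vlab E X t` the position of the image interval containing `X t`.

`ob_vis`: uniform minimality along the orbit: `X (t + k) = T^k (X t)`.
-/

set_option autoImplicit false

namespace Pool.Agent.PHI

open Pool.Agent.Helper44.IET

variable {d : ℕ}

/-- Two-sided orbit avoiding `0`. -/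
structure Ob (E : Exchange d) (X : ℤ → ℝ) : Prop where
  pos : ∀ t, 0 < X t
  lt : ∀ t, X t < 1
  step : ∀ t, X (t + 1) = E.T (X t)

open Classical in
/-- Index of the interval containing `X t`. -/
noncomputable def ulab (E : Exchange d) (X : ℤ → ℝ) (t : ℤ) : ℕ :=
  if h : ∃ j, X t ∈ E.interval j then (h.choose : ℕ) else 0

open Classical in
/-- Position of the image interval containing `X t`. -/
noncomputable def vlab (E : Exchange d) (X : ℤ → ℝ) (t : ℤ) : ℕ :=
  if h : ∃ j, X t ∈ img E j then (E.perm h.choose : ℕ) else 0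

theorem ulab_eq (E : Exchange d) {X : ℤ → ℝ} {t : ℤ} {j : Fin d} (h : X t ∈ E.interval j) : ulab E X t = j := by
  have hex : ∃ j, X t ∈ E.interval j := ⟨j, h⟩
  unfold ulab
  rw [dif_pos hex, E.interval_inj hex.choose_spec h]

theorem vlab_eq (E : Exchange d) {X : ℤ → ℝ} {t : ℤ} {j : Fin d} (h : X t ∈ img E j) : vlab E X t = E.perm j := by
  have hex : ∃ j, X t ∈ img E j := ⟨j, h⟩
  unfold vlab
  rw [dif_pos hex, img_inj E hex.choose_spec h]

theorem ob_iter {E : Exchange d} {X : ℤ → ℝ} (h : Ob E X) (t : ℤ) (k : ℕ) : X (t + k) = E.T^[k] (X t) := by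
  induction k with
  | zero => simp
  | succ k ih =>
    rw [Function.iterate_succ_apply', ← ih, ← h.step]
    congr 1
    push_cast
    ring

theorem ob_vis {E : Exchange d} (hd : 2 ≤ d) (hI : E.Irreducible) (hK : E.Keane) {X : ℤ → ℝ} (h : Ob E X) {δ : ℝ}
    (hδ : 0 < δ) : ∃ K : ℕ, ∀ t : ℤ, ∀ y : ℝ, 0 ≤ y → y + δ ≤ 1 →
      ∃ k : ℤ, t ≤ k ∧ k < t + K ∧ y < X k ∧ X k < y + δ := by
  obtain ⟨K, hKK⟩ := min_unif E hd hI hK hδ
  refine ⟨K, fun t y hy0 hy1 => ?_⟩
  obtain ⟨k, hk, hk1, hk2⟩ := hKK (X t) (h.pos t).le (h.lt t) y hy0 hy1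
  refine ⟨t + k, by omega, by omega, ?_, ?_⟩
  · rw [ob_iter h]
    exact hk1
  · rw [ob_iter h]
    exact hk2

end Pool.Agent.PHI
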