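import Pool.Agent.PHI.MBas

/-!
# PHI/MPer: no periodic points; lower bound for `|T^k x - x|`

`noper`: suppose `T^p x = x`, `p ≥ 1`.  Let `δ i = T^i x - E.left (label of T^i x) ≥ 0`, periodic in `i`; let `δ` be the minimum of
`δ i`, `i < p`, attained at `i0`, and `e = x - δ`.  By induction `T^i e = T^i x - δ` (`T^i x - δ` lies in the interval of `T^i x`
since `δ ≤ δ i`), so `T^p e = e`, and `T^{i0} e = E.left j` for a label `j`; hence `T^p (E.left j) = E.left j`.  If `0 < j` this
contradicts Keane (`m = p`, `n = 0`).  If `j = 0` then `E.left j = 0 = E.T (E.left j0)`, `0 < j0` (`zero_T`), so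
`T^{p+1} (E.left j0) = T^1 (E.left j0)`, contradiction.

`sep`: for every `k` the set `{T^k x - x | x ∈ [0,1)}` is finite (induction on `k`: `T^{k+1} x - x = (T^k (T x) - T x) + (T x - x)`
and `T x - x` is one of the numbers `E.imageLeft j - E.left j`); it does not contain `0` if `k ≥ 1` (`noper`); take the minimum of the
absolute values of the nonzero elements of the union over `k < n0`.
-/

set_option autoImplicit false

namespace Pool.Agent.PHI

open Pool.Agent.Helper44.IET

variable {d : ℕ}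

theorem noper (E : Exchange d) (hd : 2 ≤ d) (hI : E.Irreducible) (hK : E.Keane) {x : ℝ} (h0 : 0 ≤ x) (h1 : x < 1) {p : ℕ}
    (hp : 0 < p) : E.T^[p] x ≠ x := by
  intro hx
  -- the labels
  have hj : ∀ i : ℕ, ∃ j : Fin d, E.T^[i] x ∈ E.interval j := fun i =>
    cov E (Tk_Ico E i h0 h1).1 (Tk_Ico E i h0 h1).2
  choose j hj using hj
  have hper : ∀ m i : ℕ, E.T^[i + p * m] x = E.T^[i] x := by
    intro m i
    rw [Function.iterate_add_apply, Function.iterate_mul]
    congr 1
    induction m with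
    | zero => rfl
    | succ m ih => rw [Function.iterate_succ_apply, hx, ih]
  obtain ⟨i0, hi0, hmin⟩ := Finset.exists_min_image (Finset.range p) (fun i => E.T^[i] x - E.left (j i))
    ⟨0, Finset.mem_range.2 hp⟩
  have hmin' : ∀ i : ℕ, E.T^[i0] x - E.left (j i0) ≤ E.T^[i] x - E.left (j i) := by
    intro i
    have h2 := hmin (i % p) (Finset.mem_range.2 (Nat.mod_lt i hp))
    have h3 : E.T^[i] x = E.T^[i % p] x := by
      conv_lhs => rw [← Nat.mod_add_div i p]
      exact hper (i / p) (i % p)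
    have h4 : j i = j (i % p) := by
      apply E.interval_inj (hj i)
      rw [h3]
      exact hj (i % p)
    rw [h3, h4]
    exact h2
  set δ : ℝ := E.T^[i0] x - E.left (j i0) with hδ
  have hδ0 : 0 ≤ δ := sub_nonneg.2 (hj i0).1
  have hTe : ∀ i : ℕ, E.T^[i] (x - δ) = E.T^[i] x - δ := by
    intro i
    induction i with
    | zero => rfl
    | succ i ih =>
      rw [Function.iterate_succ_apply', Function.iterate_succ_apply', ih]
      have h2 : E.T^[i] x - δ ∈ E.interval (j i) := by
        constructor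
        · have := hmin' i
          linarith
        · have := (hj i).2
          linarith
      rw [E.T_of_mem h2, E.T_of_mem (hj i)]
      ring
  have h2 : E.T^[p] (x - δ) = x - δ := by rw [hTe, hx]
  have h3 : E.T^[i0] (x - δ) = E.left (j i0) := by rw [hTe, hδ]; ring
  have h4 : E.T^[p] (E.left (j i0)) = E.left (j i0) := by
    rw [← h3, ← Function.iterate_add_apply, add_comm, Function.iterate_add_apply, h2]
  rcases Nat.eq_zero_or_pos ((j i0 : Fin d) : ℕ) with h5 | h5
  · have h6 := left_zero E (j i0) h5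
    rw [h6] at h4
    obtain ⟨j0, hj0, hT⟩ := zero_T E hd hI
    have h7 : E.T^[p + 1] (E.left j0) = E.T^[1] (E.left j0) := by
      rw [Function.iterate_succ_apply, hT, h4, Function.iterate_one, hT]
    have := (hK j0 j0 hj0 hj0 (p + 1) 1 h7).2
    omega
  · have := (hK (j i0) (j i0) h5 h5 p 0 (by rw [h4]; rfl)).2
    omega

private theorem MPer_fin (E : Exchange d) (k : ℕ) :
    ∃ F : Finset ℝ, ∀ x : ℝ, 0 ≤ x → x < 1 → E.T^[k] x - x ∈ F := by
  classical
  induction k with
  | zero =>
    refine ⟨{0}, fun x _ _ => ?_⟩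
    rw [Function.iterate_zero, id, sub_self]
    exact Finset.mem_singleton_self 0
  | succ k ih =>
    obtain ⟨F, hF⟩ := ih
    refine ⟨Finset.image₂ (fun a b => a + b) F
      (Finset.univ.image fun j : Fin d => E.imageLeft j - E.left j), fun x h0 h1 => ?_⟩
    obtain ⟨j, hj⟩ := cov E h0 h1
    have h2 := hF (E.T x) (T_Ico E h0 h1).1 (T_Ico E h0 h1).2
    have h3 : E.T^[k + 1] x - x = (E.T^[k] (E.T x) - E.T x) + (E.imageLeft j - E.left j) := by
      rw [Function.iterate_succ_apply]
      have := E.T_of_mem hj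
      linarith
    rw [h3]
    exact Finset.mem_image₂_of_mem h2 (Finset.mem_image_of_mem _ (Finset.mem_univ j))

private theorem MPer_min (F : Finset ℝ) : ∃ δ : ℝ, 0 < δ ∧ ∀ y ∈ F, y ≠ 0 → δ ≤ |y| := by
  classical
  induction F using Finset.induction_on with
  | empty => exact ⟨1, one_pos, fun y hy => absurd hy (Finset.notMem_empty y)⟩
  | insert a F _ ih =>
    obtain ⟨δ, hδ, h⟩ := ih
    by_cases ha : a = 0
    · refine ⟨δ, hδ, fun y hy hy0 => ?_⟩
      rcases Finset.mem_insert.1 hy with rfl | hy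
      · exact absurd ha hy0
      · exact h y hy hy0
    · refine ⟨min δ |a|, lt_min hδ (abs_pos.2 ha), fun y hy hy0 => ?_⟩
      rcases Finset.mem_insert.1 hy with rfl | hy
      · exact min_le_right _ _
      · exact (min_le_left _ _).trans (h y hy hy0)

theorem sep (E : Exchange d) (hd : 2 ≤ d) (hI : E.Irreducible) (hK : E.Keane) (n0 : ℕ) :
    ∃ δ : ℝ, 0 < δ ∧ ∀ x : ℝ, 0 ≤ x → x < 1 → ∀ k : ℕ, 0 < k → k < n0 → δ ≤ |E.T^[k] x - x| := by
  induction n0 with
  | zero => exact ⟨1, one_pos, fun x _ _ k _ hk => absurd hk (Nat.not_lt_zero k)⟩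
  | succ n ih =>
    obtain ⟨δ, hδ, h⟩ := ih
    obtain ⟨F, hF⟩ := MPer_fin E n
    obtain ⟨δ', hδ', h'⟩ := MPer_min F
    refine ⟨min δ δ', lt_min hδ hδ', fun x h0 h1 k hk hkn => ?_⟩
    rcases Nat.lt_succ_iff_lt_or_eq.1 hkn with hkn | rfl
    · exact (min_le_left _ _).trans (h x h0 h1 k hk hkn)
    · exact (min_le_right _ _).trans
        (h' _ (hF x h0 h1) (sub_ne_zero.2 (noper E hd hI hK h0 h1 hk)))

end Pool.Agent.PHI
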