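import Pool.Agent.PHI.MVol
import Pool.Agent.PHI.MStp

/-!
# PHI/MRet: every point of `[a, b)` returns within bounded time

`RN E a b N` is the set of the points of `[a, b)` that do not return during the times `1, …, N`.

`hit_fin`: for a point `c` the set `Hit c` of the `y ∈ [a,b)` with `T^k y = c` for some `k ≥ 1` such that `T^l y ∉ [a,b)` for
`0 < l < k` has at most one point (two points with `k < k'`: `T^{k'-k} y' = y ∈ [a,b)` by `Tk_inj`; with `k = k'`: `Tk_inj`).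
So `FF0 = {a, b} ∪ {cuts} ∪ ⋃_{c ∈ {a, b} ∪ {cuts}} Hit c` is finite, and it does not depend on `N`.

`rn_stp`: `Stp FF0 (RN E a b N)`: let `x < y` with no point of `FF0` in `(x, y]`.  As `a, b ∈ FF0`, `x ∈ [a,b) ↔ y ∈ [a,b)`; let both
be in `[a,b)`, so `[x,y] ⊆ [a,b)`.  Induction on `k ≤ N`: either there is `l ∈ [1,k]` with `T^l x, T^l y ∈ [a,b)`, or
`T^l z = T^l x + (z - x)` for all `z ∈ [x,y]`, `l ≤ k`, and `T^l z ∉ [a,b)` for `1 ≤ l ≤ k`.  Step from the second alternative: no cut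
in `(T^k x, T^k y]` (it would be `T^k z`, `z ∈ (x,y]`, so `z ∈ Hit` or, for `k = 0`, `z` a cut), so `T` is a translation on
`[T^k x, T^k y]` (`rigid`); `a, b` are not in `(T^{k+1} x, T^{k+1} y]` (else `z ∈ Hit a` or `Hit b`), so the segment
`[T^{k+1} x, T^{k+1} y]` is contained in `[a,b)` or disjoint from it.

`ret_bd`: the sets `{x ∈ [0,1) | T^k x ∈ RN E a b N}`, `0 ≤ k ≤ N`, are pairwise disjoint (`T^k x, T^l x ∈ RN`, `k < l`: `T^k x`
returns at time `l - k ≤ N`) and have the same volume (`vol_prek`), so `(N + 1) volume (RN E a b N) ≤ 1`; by `stp_vol` the set is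
empty for large `N`.
-/

set_option autoImplicit false

namespace Pool.Agent.PHI

open Pool.Agent.Helper44.IET MeasureTheory

variable {d : ℕ}

/-- The points of `[a, b)` that do not return to `[a, b)` during the times `1, …, N`. -/
def RN (E : Exchange d) (a b : ℝ) (N : ℕ) : Set ℝ :=
  {x | x ∈ Set.Ico a b ∧ ∀ k : ℕ, 0 < k → k ≤ N → E.T^[k] x ∉ Set.Ico a b}

/-- first visits of the point `c` -/
private def MRet_Hit (E : Exchange d) (a b c : ℝ) : Set ℝ :=
  {y | y ∈ Set.Ico a b ∧ ∃ k : ℕ, 0 < k ∧ E.T^[k] y = c ∧ ∀ l : ℕ, 0 < l → l < k → E.T^[l] y ∉ Set.Ico a b}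

private theorem MRet_hit_sub (E : Exchange d) {a b : ℝ} (ha : 0 ≤ a) (hb : b ≤ 1) (c : ℝ) :
    (MRet_Hit E a b c).Subsingleton := by
  have key : ∀ y y' : ℝ, ∀ k k' : ℕ, y ∈ Set.Ico a b → y' ∈ Set.Ico a b → 0 < k → k ≤ k' →
      E.T^[k] y = c → E.T^[k'] y' = c → (∀ l : ℕ, 0 < l → l < k' → E.T^[l] y' ∉ Set.Ico a b) → y = y' := by
    intro y y' k k' hy hy' hk hkk h1 h2 h3
    have hy0 : 0 ≤ y := ha.trans hy.1
    have hy1 : y < 1 := lt_of_lt_of_le hy.2 hb
    have hy0' : 0 ≤ y' := ha.trans hy'.1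
    have hy1' : y' < 1 := lt_of_lt_of_le hy'.2 hb
    rcases Nat.eq_or_lt_of_le hkk with h | h
    · subst h
      exact Tk_inj E k hy0 hy1 hy0' hy1' (h1.trans h2.symm)
    · exfalso
      have h4 : k' = k + (k' - k) := by omega
      rw [h4, Function.iterate_add_apply] at h2
      have h5 := Tk_Ico E (k' - k) hy0' hy1'
      have h6 : y = E.T^[k' - k] y' := Tk_inj E k hy0 hy1 h5.1 h5.2 (h1.trans h2.symm)
      refine h3 (k' - k) (by omega) (by omega) ?_
      rw [← h6]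
      exact hy
  intro y hy y' hy'
  obtain ⟨hyI, k, hk, h1, h2⟩ := hy
  obtain ⟨hyI', k', hk', h1', h2'⟩ := hy'
  rcases le_total k k' with h | h
  · exact key y y' k k' hyI hyI' hk h h1 h1' h2'
  · exact (key y' y k' k hyI' hyI hk' h h1' h1 h2).symm

private theorem MRet_key (E : Exchange d) {a b : ℝ} (ha : 0 ≤ a) (hb : b ≤ 1) {F : Set ℝ}
    (hcut : ∀ c : Fin d, 0 < (c : ℕ) → E.left c ∈ F)
    (hHc : ∀ c : Fin d, 0 < (c : ℕ) → MRet_Hit E a b (E.left c) ⊆ F)
    (hHa : MRet_Hit E a b a ⊆ F) (hHb : MRet_Hit E a b b ⊆ F)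
    {x y : ℝ} (hxy : x < y) (hno : ∀ f ∈ F, x < f → ¬ f ≤ y) (hax : a ≤ x) (hyb : y < b) (k : ℕ) :
    (∃ l : ℕ, 0 < l ∧ l ≤ k ∧ E.T^[l] x ∈ Set.Ico a b ∧ E.T^[l] y ∈ Set.Ico a b) ∨
      ((∀ l : ℕ, l ≤ k → ∀ z, x ≤ z → z ≤ y → E.T^[l] z = E.T^[l] x + (z - x)) ∧
        ∀ l : ℕ, 0 < l → l ≤ k → ∀ z, x ≤ z → z ≤ y → E.T^[l] z ∉ Set.Ico a b) := by
  induction k with
  | zero =>
    right
    refine ⟨?_, ?_⟩
    · intro l hl z _ _
      have hl0 : l = 0 := by omega
      subst hl0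
      simp only [Function.iterate_zero, id]
      ring
    · intro l h1 h2
      omega
  | succ k ih =>
    rcases ih with ⟨l, h1, h2, h3⟩ | ⟨h1, h2⟩
    · exact Or.inl ⟨l, h1, by omega, h3⟩
    have hx0 : 0 ≤ x := ha.trans hax
    have hx1 : x < 1 := lt_of_lt_of_le (hxy.trans hyb) hb
    have hy0 : 0 ≤ y := hx0.trans hxy.le
    have hy1 : y < 1 := lt_of_lt_of_le hyb hb
    have hTx := Tk_Ico E k hx0 hx1
    have hTy := Tk_Ico E k hy0 hy1
    have hky := h1 k le_rfl y hxy.le le_rfl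
    -- no cut
    have hnc : ∀ c : Fin d, 0 < (c : ℕ) → E.T^[k] x < E.left c → ¬ E.left c ≤ E.T^[k] y := by
      intro c hc h3 h4
      have hz1 : x < x + (E.left c - E.T^[k] x) := by linarith
      have hz2 : x + (E.left c - E.T^[k] x) ≤ y := by linarith
      have hz3 := h1 k le_rfl (x + (E.left c - E.T^[k] x)) hz1.le hz2
      have hz4 : E.T^[k] (x + (E.left c - E.T^[k] x)) = E.left c := by
        rw [hz3]
        ring
      rcases Nat.eq_zero_or_pos k with hk | hk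
      · subst hk
        simp only [Function.iterate_zero, id] at hz4
        exact hno _ (hcut c hc) (by rw [← hz4]; exact hz1) (by rw [← hz4]; exact hz2)
      · refine hno _ (hHc c hc ⟨⟨hax.trans hz1.le, lt_of_le_of_lt hz2 hyb⟩, k, hk, hz4, ?_⟩) hz1 hz2
        intro l hl1 hl2
        exact h2 l hl1 hl2.le _ hz1.le hz2
    have htr : ∀ z, x ≤ z → z ≤ y → E.T^[k + 1] z = E.T^[k + 1] x + (z - x) := by
      intro z hz1 hz2
      have hz3 := h1 k le_rfl z hz1 hz2
      have h5 := rigid E hTx.1 hTy.2 (z := E.T^[k] z) (by linarith) (by linarith) hnc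
      rw [Function.iterate_succ_apply', Function.iterate_succ_apply', h5, hz3]
      ring
    have hky1 := htr y hxy.le le_rfl
    have hpt : ∀ c : ℝ, MRet_Hit E a b c ⊆ F → E.T^[k + 1] x < c → ¬ c ≤ E.T^[k + 1] y := by
      intro c hc h3 h4
      have hz1 : x < x + (c - E.T^[k + 1] x) := by linarith
      have hz2 : x + (c - E.T^[k + 1] x) ≤ y := by linarith
      have hz3 := htr (x + (c - E.T^[k + 1] x)) hz1.le hz2
      have hz4 : E.T^[k + 1] (x + (c - E.T^[k + 1] x)) = c := by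
        rw [hz3]
        ring
      refine hno _ (hc ⟨⟨hax.trans hz1.le, lt_of_le_of_lt hz2 hyb⟩, k + 1, Nat.succ_pos k, hz4, ?_⟩) hz1 hz2
      intro l hl1 hl2
      exact h2 l hl1 (by omega) _ hz1.le hz2
    have hpa := hpt a hHa
    have hpb := hpt b hHb
    by_cases hin : E.T^[k + 1] x ∈ Set.Ico a b
    · left
      refine ⟨k + 1, Nat.succ_pos k, le_rfl, hin, ?_, ?_⟩
      · have := hin.1
        linarith
      · by_contra h6
        exact hpb hin.2 (not_lt.1 h6)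
    · right
      refine ⟨?_, ?_⟩
      · intro l hl z hz1 hz2
        rcases Nat.lt_or_ge l (k + 1) with h | h
        · exact h1 l (by omega) z hz1 hz2
        · have hl' : l = k + 1 := by omega
          subst hl'
          exact htr z hz1 hz2
      · intro l hl1 hl z hz1 hz2
        rcases Nat.lt_or_ge l (k + 1) with h | h
        · exact h2 l hl1 (by omega) z hz1 hz2
        · have hl' : l = k + 1 := by omega
          subst hl'
          intro h7
          have hz3 := htr z hz1 hz2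
          apply hin
          constructor
          · by_contra h8
            refine hpa (not_le.1 h8) ?_
            have := h7.1
            linarith
          · have := h7.2
            linarith

theorem rn_stp (E : Exchange d) {a b : ℝ} (ha : 0 ≤ a) (hb : b ≤ 1) :
    ∃ F : Set ℝ, F.Finite ∧ ∀ N : ℕ, Stp F (RN E a b N) := by
  classical
  let S : Set ℝ := {a, b} ∪ Set.range fun c : Fin d => E.left c
  have hSf : S.Finite := ((Set.finite_singleton b).insert a).union (Set.finite_range _)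
  refine ⟨S ∪ ⋃ c ∈ S, MRet_Hit E a b c, hSf.union (hSf.biUnion fun c _ => (MRet_hit_sub E ha hb c).finite), ?_⟩
  intro N x y hx0 hxy hy1 hno
  have haS : a ∈ S := Or.inl (Or.inl rfl)
  have hbS : b ∈ S := Or.inl (Or.inr rfl)
  have hcS : ∀ c : Fin d, E.left c ∈ S := fun c => Or.inr ⟨c, rfl⟩
  have hHS : ∀ c ∈ S, MRet_Hit E a b c ⊆ S ∪ ⋃ c ∈ S, MRet_Hit E a b c := by
    intro c hc z hz
    exact Or.inr (Set.mem_biUnion hc hz)
  have hna := hno a (Or.inl haS)
  have hnb := hno b (Or.inl hbS)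
  by_cases hax : a ≤ x
  swap
  · have h1 : x < a := not_le.1 hax
    have h2 : ¬ a ≤ y := hna h1
    constructor
    · intro h
      exact absurd h.1.1 hax
    · intro h
      exact absurd h.1.1 h2
  by_cases hyb : y < b
  swap
  · have h1 : b ≤ y := not_lt.1 hyb
    have h2 : ¬ x < b := fun h => hnb h h1
    constructor
    · intro h
      exact absurd h.1.2 h2
    · intro h
      exact absurd h.1.2 hyb
  have hk := MRet_key E ha hb (F := S ∪ ⋃ c ∈ S, MRet_Hit E a b c) (fun c _ => Or.inl (hcS c))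
    (fun c _ => hHS _ (hcS c)) (hHS a haS) (hHS b hbS) hxy hno hax hyb N
  have hxI : x ∈ Set.Ico a b := ⟨hax, hxy.trans hyb⟩
  have hyI : y ∈ Set.Ico a b := ⟨hax.trans hxy.le, hyb⟩
  rcases hk with ⟨l, h1, h2, h3, h4⟩ | ⟨-, h2⟩
  · constructor
    · intro h
      exact absurd h3 (h.2 l h1 h2)
    · intro h
      exact absurd h4 (h.2 l h1 h2)
  · constructor
    · intro _
      exact ⟨hyI, fun l h3 h4 => h2 l h3 h4 y hxy.le le_rfl⟩
    · intro _
      exact ⟨hxI, fun l h3 h4 => h2 l h3 h4 x le_rfl hxy.le⟩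

private theorem MRet_meas (E : Exchange d) (a b : ℝ) (N : ℕ) : MeasurableSet (RN E a b N) := by
  have h1 : RN E a b N = Set.Ico a b ∩ ⋂ k : ℕ, ⋂ _ : 0 < k, ⋂ _ : k ≤ N, (E.T^[k]) ⁻¹' (Set.Ico a b)ᶜ := by
    ext x
    simp only [RN, Set.mem_ofPred_eq, Set.mem_inter_iff, Set.mem_iInter, Set.mem_preimage, Set.mem_compl_iff]
  rw [h1]
  refine measurableSet_Ico.inter ?_
  refine MeasurableSet.iInter fun k => MeasurableSet.iInter fun _ => MeasurableSet.iInter fun _ => ?_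
  exact ((T_meas E).iterate k) measurableSet_Ico.compl

theorem rn_vol (E : Exchange d) {a b : ℝ} (ha : 0 ≤ a) (hb : b ≤ 1) (N : ℕ) :
    ((N : ENNReal) + 1) * volume (RN E a b N) ≤ 1 := by
  have hsub : RN E a b N ⊆ Set.Ico (0 : ℝ) 1 := fun x hx => ⟨ha.trans hx.1.1, lt_of_lt_of_le hx.1.2 hb⟩
  have hm := MRet_meas E a b N
  have hmk : ∀ k : ℕ, MeasurableSet {x : ℝ | x ∈ Set.Ico (0 : ℝ) 1 ∧ E.T^[k] x ∈ RN E a b N} := by
    intro k
    have h1 : {x : ℝ | x ∈ Set.Ico (0 : ℝ) 1 ∧ E.T^[k] x ∈ RN E a b N} =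
        Set.Ico (0 : ℝ) 1 ∩ (E.T^[k]) ⁻¹' (RN E a b N) := rfl
    rw [h1]
    exact measurableSet_Ico.inter (((T_meas E).iterate k) hm)
  have hlt : ∀ k l : ℕ, k < l → l ≤ N →
      Disjoint {x : ℝ | x ∈ Set.Ico (0 : ℝ) 1 ∧ E.T^[k] x ∈ RN E a b N}
        {x : ℝ | x ∈ Set.Ico (0 : ℝ) 1 ∧ E.T^[l] x ∈ RN E a b N} := by
    intro k l hkl hl
    rw [Set.disjoint_left]
    intro x hx hx'
    have h1 : E.T^[l] x = E.T^[l - k] (E.T^[k] x) := by
      rw [← Function.iterate_add_apply]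
      congr 2
      omega
    have h2 := hx'.2.1
    rw [h1] at h2
    exact hx.2.2 (l - k) (by omega) (by omega) h2
  have hdis : Set.PairwiseDisjoint (↑(Finset.range (N + 1)))
      fun k : ℕ => {x : ℝ | x ∈ Set.Ico (0 : ℝ) 1 ∧ E.T^[k] x ∈ RN E a b N} := by
    intro k hk l hl hkl
    have hk' : k ≤ N := by
      have := Finset.mem_range.1 (Finset.mem_coe.1 hk)
      omega
    have hl' : l ≤ N := by
      have := Finset.mem_range.1 (Finset.mem_coe.1 hl)
      omega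
    rcases Nat.lt_or_ge k l with h | h
    · exact hlt k l h hl'
    · exact (hlt l k (by omega) hk').symm
  have h1 := measure_biUnion_finset (μ := volume) hdis (fun k _ => hmk k)
  have h2 : ∑ k ∈ Finset.range (N + 1), volume {x : ℝ | x ∈ Set.Ico (0 : ℝ) 1 ∧ E.T^[k] x ∈ RN E a b N} =
      ((N : ENNReal) + 1) * volume (RN E a b N) := by
    rw [Finset.sum_congr rfl (fun k _ => vol_prek E k hm hsub), Finset.sum_const, Finset.card_range, nsmul_eq_mul]
    push_cast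
    rfl
  rw [← h2, ← h1]
  have h3 : (⋃ k ∈ Finset.range (N + 1), {x : ℝ | x ∈ Set.Ico (0 : ℝ) 1 ∧ E.T^[k] x ∈ RN E a b N}) ⊆
      Set.Ico (0 : ℝ) 1 := by
    intro x hx
    obtain ⟨k, hk, hx⟩ := Set.mem_iUnion₂.1 hx
    exact hx.1
  refine (measure_mono h3).trans (le_of_eq ?_)
  rw [Real.volume_Ico]
  simp

theorem ret_bd (E : Exchange d) {a b : ℝ} (ha : 0 ≤ a) (hb : b ≤ 1) :
    ∃ N : ℕ, ∀ x : ℝ, a ≤ x → x < b → ∃ k : ℕ, 0 < k ∧ k ≤ N ∧ a ≤ E.T^[k] x ∧ E.T^[k] x < b := by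
  obtain ⟨F, hF, hS⟩ := rn_stp E ha hb
  obtain ⟨ε, hε, hv⟩ := stp_vol hF
  obtain ⟨N, hN⟩ := exists_nat_gt (1 / ε)
  refine ⟨N, fun x hax hxb => ?_⟩
  by_contra hcon
  push Not at hcon
  have hx : x ∈ RN E a b N := by
    refine ⟨⟨hax, hxb⟩, fun k hk hkN h => ?_⟩
    exact absurd h.2 (not_lt.2 (hcon k hk hkN h.1))
  have hsub : RN E a b N ⊆ Set.Ico (0 : ℝ) 1 := fun x hx => ⟨ha.trans hx.1.1, lt_of_lt_of_le hx.1.2 hb⟩
  have h1 := hv (RN E a b N) (hS N) hsub ⟨x, hx⟩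
  have h2 := rn_vol E ha hb N
  have h3 : ((N : ENNReal) + 1) * ENNReal.ofReal ε ≤ 1 := (mul_le_mul_right h1 _).trans h2
  have h4 : ((N : ENNReal) + 1) * ENNReal.ofReal ε = ENNReal.ofReal (((N : ℝ) + 1) * ε) := by
    rw [ENNReal.ofReal_mul (by positivity), ENNReal.ofReal_add (by positivity) zero_le_one, ENNReal.ofReal_natCast,
      ENNReal.ofReal_one]
  rw [h4, ENNReal.ofReal_le_one] at h3
  rw [div_lt_iff₀ hε] at hN
  nlinarith

end Pool.Agent.PHI
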