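import Pool.Agent.PHI.MBas

/-!
# PHI/MVol: the exchange map preserves Lebesgue measure on `[0,1)`

`T_meas`: `E.T x = x + Σ_j indicator`, each interval is measurable.
`vol_pre`: `{x ∈ [0,1) | E.T x ∈ A}` is the disjoint union over `j` of `{x ∈ E.interval j | E.T x ∈ A}`, and this is the translate of
`A ∩ img E j` by `E.left j - E.imageLeft j` (`T_of_mem`, `mem_of_img`); the volume is translation invariant and `A ⊆ [0,1)` is the
disjoint union of the `A ∩ img E j` (`covi`, `img_inj`).  `vol_prek`: induction on `k`.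
-/

set_option autoImplicit false

namespace Pool.Agent.PHI

open Pool.Agent.Helper44.IET MeasureTheory

variable {d : ℕ}

theorem T_meas (E : Exchange d) : Measurable E.T := by
  unfold Exchange.T
  exact measurable_id.add (Finset.measurable_sum _ fun j _ => measurable_const.indicator measurableSet_Ico)

private theorem MVol_mem (E : Exchange d) {x : ℝ} {j : Fin d} (h : x + (E.imageLeft j - E.left j) ∈ img E j) :
    x ∈ E.interval j := by
  obtain ⟨h1, h2⟩ := h
  constructor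
  · linarith
  · linarith

theorem vol_pre (E : Exchange d) {A : Set ℝ} (hA : MeasurableSet A) (hA1 : A ⊆ Set.Ico (0 : ℝ) 1) :
    volume {x : ℝ | x ∈ Set.Ico (0 : ℝ) 1 ∧ E.T x ∈ A} = volume A := by
  have hm : ∀ j : Fin d, MeasurableSet (A ∩ img E j) := fun j => hA.inter measurableSet_Ico
  have h1 : {x : ℝ | x ∈ Set.Ico (0 : ℝ) 1 ∧ E.T x ∈ A} =
      ⋃ j : Fin d, (fun x : ℝ => x + (E.imageLeft j - E.left j)) ⁻¹' (A ∩ img E j) := by
    ext x
    rw [Set.mem_iUnion]
    constructor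
    · rintro ⟨⟨hx0, hx1⟩, hx⟩
      obtain ⟨j, hj⟩ := cov E hx0 hx1
      have h2 := T_img E hj
      rw [E.T_of_mem hj] at h2 hx
      exact ⟨j, hx, h2⟩
    · rintro ⟨j, hx, hj⟩
      have h2 := MVol_mem E hj
      refine ⟨⟨(ivl E h2).1, (ivl E h2).2⟩, ?_⟩
      rw [E.T_of_mem h2]
      exact hx
  have h2 : A = ⋃ j : Fin d, A ∩ img E j := by
    ext x
    rw [Set.mem_iUnion]
    constructor
    · intro hx
      obtain ⟨j, hj⟩ := covi E (hA1 hx).1 (hA1 hx).2
      exact ⟨j, hx, hj⟩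
    · rintro ⟨j, hx, _⟩
      exact hx
  have h3 : volume (⋃ j : Fin d, A ∩ img E j) = ∑' j : Fin d, volume (A ∩ img E j) := by
    refine measure_iUnion (fun i j hij => ?_) hm
    exact Set.disjoint_left.2 fun x hi hj => hij (img_inj E hi.2 hj.2)
  have h4 : volume (⋃ j : Fin d, (fun x : ℝ => x + (E.imageLeft j - E.left j)) ⁻¹' (A ∩ img E j)) =
      ∑' j : Fin d, volume ((fun x : ℝ => x + (E.imageLeft j - E.left j)) ⁻¹' (A ∩ img E j)) := by
    refine measure_iUnion (fun i j hij => ?_) fun j => (measurable_id.add_const _) (hm j)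
    exact Set.disjoint_left.2 fun x hi hj => hij (E.interval_inj (MVol_mem E hi.2) (MVol_mem E hj.2))
  rw [h1, h4]
  conv_rhs => rw [h2, h3]
  refine tsum_congr fun j => ?_
  exact measure_preimage_add_right volume _ _

theorem vol_prek (E : Exchange d) (k : ℕ) {A : Set ℝ} (hA : MeasurableSet A) (hA1 : A ⊆ Set.Ico (0 : ℝ) 1) :
    volume {x : ℝ | x ∈ Set.Ico (0 : ℝ) 1 ∧ E.T^[k] x ∈ A} = volume A := by
  induction k with
  | zero =>
    congr 1
    ext x
    exact ⟨fun h => h.2, fun h => ⟨hA1 h, h⟩⟩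
  | succ k ih =>
    have h1 : {x : ℝ | x ∈ Set.Ico (0 : ℝ) 1 ∧ E.T^[k + 1] x ∈ A} =
        {x : ℝ | x ∈ Set.Ico (0 : ℝ) 1 ∧ E.T x ∈ {y : ℝ | y ∈ Set.Ico (0 : ℝ) 1 ∧ E.T^[k] y ∈ A}} := by
      ext x
      constructor
      · rintro ⟨hx, h⟩
        rw [Function.iterate_succ_apply] at h
        exact ⟨hx, T_Ico E hx.1 hx.2, h⟩
      · rintro ⟨hx, _, h⟩
        refine ⟨hx, ?_⟩
        rw [Function.iterate_succ_apply]
        exact h
    have h2 : MeasurableSet {y : ℝ | y ∈ Set.Ico (0 : ℝ) 1 ∧ E.T^[k] y ∈ A} :=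
      measurableSet_Ico.inter (((T_meas E).iterate k) hA)
    rw [h1, vol_pre E h2 fun y hy => hy.1, ih]

end Pool.Agent.PHI
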