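import Pool.Agent.PHI.Bas

/-! Module PHI-Nxe.  Existence of left neighbours in the open time window `(j - sa, j + sb)` of a pair `(y, j)`: the point of the
window closest to `j` on the left; a window of length more than `K1` contains a point with label `0`. -/

set_option autoImplicit false

namespace Pool.Agent.PHI

variable {X : ℤ → ℝ} {u v : ℤ → ℕ} {D : ℕ} {eps F : ℝ} {n0 K1 : ℕ}

theorem exists_Nf {X : ℤ → ℝ} {y j : ℤ} {k : ℤ} (h1 : j - sa X y j < k) (h2 : k < j + sb X y j) (h3 : X k < X j) :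
    ∃ i, Nf X y j i := by
  classical
  have hne : ((Finset.Ioo (j - (sa X y j : ℤ)) (j + (sb X y j : ℤ))).filter fun m => X m < X j).Nonempty :=
    ⟨k, Finset.mem_filter.2 ⟨Finset.mem_Ioo.2 ⟨h1, h2⟩, h3⟩⟩
  obtain ⟨i, hi, hmax⟩ := Finset.exists_max_image _ X hne
  obtain ⟨hi1, hi2⟩ := Finset.mem_filter.1 hi
  obtain ⟨hi3, hi4⟩ := Finset.mem_Ioo.1 hi1
  refine ⟨i, hi2, hi3, hi4, fun m hm1 hm2 hb => ?_⟩
  have h4 := hmax m (Finset.mem_filter.2 ⟨Finset.mem_Ioo.2 ⟨hm1, hm2⟩, hb.2⟩)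
  exact absurd hb.1 (not_lt.2 h4)

theorem exists_Nf_of_u (h : Sys X u v D eps F n0 K1) {y j : ℤ} (hK : K1 < hs X y j) (hu : u j ≠ 0) : ∃ i, Nf X y j i := by
  obtain ⟨k, h1, h2, h3⟩ := h.visu (j - sa X y j + 1) 0 (Nat.zero_le D)
  have h4 : hs X y j = sa X y j + sb X y j := rfl
  refine exists_Nf (k := k) (by omega) (by omega) ?_
  by_contra h5
  have h6 := h.umono j k (not_lt.1 h5)
  omega

theorem exists_Nf_of_v (h : Sys X u v D eps F n0 K1) {y j : ℤ} (hK : K1 < hs X y j) (hv : v j ≠ 0) : ∃ i, Nf X y j i := by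
  obtain ⟨k, h1, h2, h3⟩ := h.visv (j - sa X y j + 1) 0 (Nat.zero_le D)
  have h4 : hs X y j = sa X y j + sb X y j := rfl
  refine exists_Nf (k := k) (by omega) (by omega) ?_
  by_contra h5
  have h6 := h.vmono j k (not_lt.1 h5)
  omega

theorem nonf_label (h : Sys X u v D eps F n0 K1) {y j : ℤ} (hr : Rec X y j) (hK : K1 < hs X y j)
    (hn : ¬ ∃ i, Nf X y j i) : u j = 0 ∧ v j = 0 ∧ u y = 0 ∧ v y = 0 := by
  have h1 : u j = 0 := by
    by_contra h2
    exact hn (exists_Nf_of_u h hK h2)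
  have h2 : v j = 0 := by
    by_contra h3
    exact hn (exists_Nf_of_v h hK h3)
  have h3 := h.umono y j hr.1.le
  have h4 := h.vmono y j hr.1.le
  exact ⟨h1, h2, by omega, by omega⟩

end Pool.Agent.PHI
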