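import Pool.Agent.PHI.Defs

/-! Module PHI-Rfa.  Reflection `X ↦ - X`, `w ↦ D - w` of a two-sided orbit is again a two-sided orbit with the same constants. -/

set_option autoImplicit false

namespace Pool.Agent.PHI

variable {X : ℤ → ℝ} {u v : ℤ → ℕ} {D : ℕ} {eps F : ℝ} {n0 K1 : ℕ}

private theorem Rfa_lt (X : ℤ → ℝ) (i j : ℤ) : Xr X i < Xr X j ↔ X j < X i := neg_lt_neg_iff

private theorem Rfa_eq {D a b : ℕ} (ha : a ≤ D) (hb : b ≤ D) : D - a = D - b ↔ a = b := by omega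

theorem btw_refl {X : ℤ → ℝ} (i j k : ℤ) : Btw (Xr X) i j k ↔ Btw X j i k := by
  unfold Btw
  rw [Rfa_lt, Rfa_lt]
  exact and_comm

private theorem Rfa_orb (h : Orb X u v D) : Orb (Xr X) (ur D u) (ur D v) D where
  inj := fun i j hij => h.inj (neg_injective hij)
  umono := fun i j hij => Nat.sub_le_sub_left (h.umono j i (neg_le_neg_iff.1 hij)) D
  vmono := fun i j hij => Nat.sub_le_sub_left (h.vmono j i (neg_le_neg_iff.1 hij)) D
  ule := fun i => Nat.sub_le _ _
  vle := fun i => Nat.sub_le _ _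
  uv := fun i j => by
    unfold ur
    rw [Rfa_eq (h.ule i) (h.ule j), Rfa_eq (h.vle (i + 1)) (h.vle (j + 1))]
    exact h.uv i j
  ord := fun i j hij => by
    unfold ur at hij
    rw [Rfa_eq (h.ule i) (h.ule j)] at hij
    rw [Rfa_lt, Rfa_lt]
    exact h.ord j i hij.symm
  irr0 := fun t ht => by
    unfold ur at ht ⊢
    have h1 := h.ule t
    have h2 := h.vle (t + 1)
    have h3 := h.irrD t (by omega)
    omega
  irrD := fun t ht => by
    unfold ur at ht ⊢
    have h1 := h.ule t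
    have h2 := h.vle (t + 1)
    have h3 := h.irr0 t (by omega)
    omega
  nomin := fun t => by
    obtain ⟨s, hs⟩ := h.nomax t
    exact ⟨s, (Rfa_lt X s t).2 hs⟩
  nomax := fun t => by
    obtain ⟨s, hs⟩ := h.nomin t
    exact ⟨s, (Rfa_lt X t s).2 hs⟩

theorem Sys.refl (h : Sys X u v D eps F n0 K1) : Sys (Xr X) (ur D u) (ur D v) D eps F n0 K1 where
  toOrb := Rfa_orb h.toOrb
  run := fun i j hij hn t ht => h.run i j hij hn t fun m hm =>
    (Rfa_eq (h.ule (i + m)) (h.ule (j + m))).1 (ht m hm)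
  run0 := fun i j hij t ht => h.run0 i j hij t fun m hm =>
    (Rfa_eq (h.ule (i + m)) (h.ule (j + m))).1 (ht m hm)
  vis := fun i j hij => by
    obtain ⟨K, hK⟩ := h.vis j i ((Rfa_lt X i j).1 hij)
    refine ⟨K, fun t => ?_⟩
    obtain ⟨k, h1, h2, h3⟩ := hK t
    exact ⟨k, h1, h2, (btw_refl i j k).2 h3⟩
  fine := fun i j t hij hk => by
    obtain ⟨h1, h2, h3⟩ := h.fine j i t ((Rfa_lt X i j).1 hij) fun k h1 h2 h3 =>
      hk k h1 h2 ((btw_refl i j k).2 h3)
    rw [abs_sub_comm] at h1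
    unfold ur
    exact ⟨h1, by omega, by omega⟩
  visu := fun t c hc => by
    obtain ⟨k, h1, h2, h3⟩ := h.visu t (D - c) (Nat.sub_le _ _)
    refine ⟨k, h1, h2, ?_⟩
    unfold ur
    omega
  visv := fun t c hc => by
    obtain ⟨k, h1, h2, h3⟩ := h.visv t (D - c) (Nat.sub_le _ _)
    refine ⟨k, h1, h2, ?_⟩
    unfold ur
    omega

theorem Xr_Xr (X : ℤ → ℝ) : Xr (Xr X) = X := by
  funext t
  unfold Xr
  exact neg_neg (X t)

theorem ur_ur {u : ℤ → ℕ} {D : ℕ} (h : ∀ i, u i ≤ D) : ur D (ur D u) = u := by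
  funext t
  unfold ur
  exact Nat.sub_sub_self (h t)

end Pool.Agent.PHI
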