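import Pool.Agent.PHI.Rfa
import Pool.Agent.PHI.Fne

/-! Module PHI-Rfb.  The reflected pair `(j, i)` with base `i` in the orbit `Xr X`: its visitors are at the same times `j - e`, `j + f`
as those of `(i, j)`, so `y1` and `y2` are exchanged, and the lives are the same. -/

set_option autoImplicit false

namespace Pool.Agent.PHI

variable {X : ℤ → ℝ} {u v : ℤ → ℕ} {D : ℕ} {eps F : ℝ} {n0 K1 : ℕ}

private theorem Rfb_times (h : Sys X u v D eps F n0 K1) {i j : ℤ} (hr : Rec X i j) :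
    i - ee (Xr X) j i = j - ee X i j ∧ i + ff (Xr X) j i = j + ff X i j := by
  obtain ⟨hx, h1, h2⟩ := hr
  obtain ⟨he0, heb, -⟩ := ee_spec h hx
  obtain ⟨hf0, hfb, -⟩ := ff_spec h hx
  have hE : ee (Xr X) j i = (i - (j - ee X i j)).toNat := by
    apply ee_eq
    · omega
    · rw [btw_refl]
      have : i - ((i - (j - ee X i j)).toNat : ℤ) = j - ee X i j := by omega
      rw [this]; exact heb
    · intro l hl0 hl hb
      rw [btw_refl] at hb
      exact not_btw (i - l) (by omega) (by omega) hb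
  have hF : ff (Xr X) j i = ((j + ff X i j) - i).toNat := by
    apply ff_eq
    · omega
    · rw [btw_refl]
      have : i + (((j + ff X i j) - i).toNat : ℤ) = j + ff X i j := by omega
      rw [this]; exact hfb
    · intro l hl0 hl hb
      rw [btw_refl] at hb
      exact not_btw (i + l) (by omega) (by omega) hb
  constructor <;> omega

theorem rf_P (h : Sys X u v D eps F n0 K1) {i j : ℤ} (hr : Rec X i j) (hij : i < j) :
    ee (Xr X) j i = ee X i j - nn i j ∧ ff (Xr X) j i = ff X i j + nn i j := by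
  obtain ⟨a, b⟩ := Rfb_times h hr
  obtain ⟨c, d⟩ := hr.pa hij
  constructor <;> omega

theorem rf_F (h : Sys X u v D eps F n0 K1) {i j : ℤ} (hr : Rec X i j) (hij : j < i) :
    ee (Xr X) j i = ee X i j + nn i j ∧ ff (Xr X) j i = ff X i j - nn i j := by
  obtain ⟨a, b⟩ := Rfb_times h hr
  obtain ⟨c, d⟩ := hr.fu hij
  constructor <;> omega

theorem rf_hh (h : Sys X u v D eps F n0 K1) {i j : ℤ} (hr : Rec X i j) : hh (Xr X) j i = hh X i j := by
  obtain ⟨a, b⟩ := Rfb_times h hr
  unfold hh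
  omega

theorem rf_rec (h : Sys X u v D eps F n0 K1) {i j : ℤ} (hr : Rec X i j) : Rec (Xr X) j i := by
  obtain ⟨a, b⟩ := Rfb_times h hr
  have h1 := (ee_spec h hr.1).1
  have h2 := (ff_spec h hr.1).1
  refine ⟨?_, by omega, by omega⟩
  have := hr.1
  simp only [Xr]
  linarith

private theorem Rfb_ne (h : Sys X u v D eps F n0 K1) {i j : ℤ} (hr : Rec X i j) :
    X (j - ee X i j) ≠ X (j + ff X i j) := by
  intro hE
  have h1 := (ee_spec h hr.1).1
  have h2 := (ff_spec h hr.1).1
  have := h.inj hE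
  omega

theorem rf_y1 (h : Sys X u v D eps F n0 K1) {i j : ℤ} (hr : Rec X i j) : y1 (Xr X) j i = y2 X i j := by
  obtain ⟨a, b⟩ := Rfb_times h hr
  unfold y1 y2
  rw [a, b]
  rcases lt_or_gt_of_ne (Rfb_ne h hr) with hl | hl
  · have : ¬ (Xr X (j - ee X i j) < Xr X (j + ff X i j)) := by simp only [Xr]; linarith
    rw [if_neg this, if_pos hl]
  · have : Xr X (j - ee X i j) < Xr X (j + ff X i j) := by simp only [Xr]; linarith
    rw [if_pos this, if_neg (not_lt.mpr hl.le)]

theorem rf_y2 (h : Sys X u v D eps F n0 K1) {i j : ℤ} (hr : Rec X i j) : y2 (Xr X) j i = y1 X i j := by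
  obtain ⟨a, b⟩ := Rfb_times h hr
  unfold y1 y2
  rw [a, b]
  rcases lt_or_gt_of_ne (Rfb_ne h hr) with hl | hl
  · have : ¬ (Xr X (j - ee X i j) < Xr X (j + ff X i j)) := by simp only [Xr]; linarith
    rw [if_neg this, if_pos hl]
  · have : Xr X (j - ee X i j) < Xr X (j + ff X i j) := by simp only [Xr]; linarith
    rw [if_pos this, if_neg (not_lt.mpr hl.le)]

private theorem Rfb_ur {w : ℤ → ℕ} {D : ℕ} (hw : ∀ i, w i ≤ D) (i j : ℤ) : ur D w i ≠ ur D w j ↔ w i ≠ w j := by
  have h1 := hw i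
  have h2 := hw j
  simp only [ur]
  omega

theorem rf_du (h : Sys X u v D eps F n0 K1) (i j : ℤ) : du (ur D u) j i = du u i j := by
  unfold du
  congr 1
  ext k
  simp only [Set.mem_setOf_eq]
  rw [Rfb_ur h.ule]
  exact ne_comm

theorem rf_dv (h : Sys X u v D eps F n0 K1) (i j : ℤ) : dv (ur D v) j i = dv v i j := by
  unfold dv
  congr 1
  ext k
  simp only [Set.mem_setOf_eq]
  rw [Rfb_ur h.vle]
  exact ne_comm

theorem rf_life (h : Sys X u v D eps F n0 K1) (i j : ℤ) : life (ur D u) (ur D v) j i = life u v i j := by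
  unfold life
  rw [rf_du h, rf_dv h]

theorem rf_cell (h : Sys X u v D eps F n0 K1) {i j : ℤ} (hr : Rec X i j) (hK : K1 < hh X i j) (w : ℤ → ℕ)
    (hw : w = u ∨ w = v) (hne : w i ≠ w j) : cell (ur D w) (Xr X) j i = (cell w X i j).star := by
  have hD : ∀ i, w i ≤ D := by
    rcases hw with rfl | rfl
    · exact h.ule
    · exact h.vle
  have hE : cell (ur D w) (Xr X) j i =
      if w j ≠ w (y2 X i j) then .a else if w (y2 X i j) ≠ w (y1 X i j) then .b else .c := by
    unfold cell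
    rw [rf_y1 h hr, rf_y2 h hr]
    simp only [Rfb_ur hD]
  rcases cell_cases h hr hK w hw hne with ⟨c1, c2, c3, c4⟩ | ⟨c1, c2, c3, c4⟩ | ⟨c1, c2, c3, c4⟩
  · rw [hE, c4, if_neg (not_not.mpr c3.symm), if_neg (not_not.mpr c2.symm)]; rfl
  · rw [hE, c4, if_neg (not_not.mpr c3.symm), if_pos c2.symm]; rfl
  · rw [hE, c4, if_pos c3.symm]; rfl

end Pool.Agent.PHI
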