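import Pool.Agent.PHI.Bas

/-! Module PHI-Stp.  One step of time keeps all data of a pair: if `X i < X j` and `u i = u j` then the visitors of the gap
`(i + 1, j + 1)` are the visitors of `(i, j)` one step later (`btw_succ`), and all quantities defined by the visitors agree. -/

set_option autoImplicit false

namespace Pool.Agent.PHI

variable {X : ℤ → ℝ} {u v : ℤ → ℕ} {D : ℕ} {eps F : ℝ} {n0 K1 : ℕ}

theorem lt_succ (h : Sys X u v D eps F n0 K1) {i j : ℤ} (hij : X i < X j) (hu : u i = u j) : X (i + 1) < X (j + 1) :=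
  (h.ord i j hu).1 hij

theorem btw_succ (h : Sys X u v D eps F n0 K1) {i j : ℤ} (hij : X i < X j) (hu : u i = u j) (k : ℤ) :
    Btw X (i + 1) (j + 1) (k + 1) ↔ Btw X i j k := by
  constructor
  · rintro ⟨h1, h2⟩
    have h3 : v (i + 1) = v (j + 1) := (h.uv i j).1 hu
    have h4 : v (i + 1) ≤ v (k + 1) := h.vmono _ _ h1.le
    have h5 : v (k + 1) ≤ v (j + 1) := h.vmono _ _ h2.le
    have h6 : u i = u k := (h.uv i k).2 (by omega)
    have h7 : u k = u j := (h.uv k j).2 (by omega)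
    exact ⟨(h.ord i k h6).2 h1, (h.ord k j h7).2 h2⟩
  · rintro ⟨h1, h2⟩
    have h4 : u i ≤ u k := h.umono _ _ h1.le
    have h5 : u k ≤ u j := h.umono _ _ h2.le
    have h6 : u i = u k := by omega
    have h7 : u k = u j := by omega
    exact ⟨(h.ord i k h6).1 h1, (h.ord k j h7).1 h2⟩

/-- one step back -/
theorem pred_of_v (h : Sys X u v D eps F n0 K1) {i j : ℤ} (hij : X i < X j) (hv : v i = v j) :
    X (i - 1) < X (j - 1) ∧ u (i - 1) = u (j - 1) := by
  have h1 : i - 1 + 1 = i := by ring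
  have h2 : j - 1 + 1 = j := by ring
  have h3 : u (i - 1) = u (j - 1) := (h.uv _ _).2 (by rw [h1, h2]; exact hv)
  refine ⟨(h.ord _ _ h3).2 ?_, h3⟩
  rw [h1, h2]
  exact hij

/-- visitors have the common label -/
theorem u_of_btw (h : Sys X u v D eps F n0 K1) {i j k : ℤ} (hu : u i = u j) (hk : Btw X i j k) : u k = u j := by
  have h4 : u i ≤ u k := h.umono _ _ hk.1.le
  have h5 : u k ≤ u j := h.umono _ _ hk.2.le
  omega

theorem v_of_btw (h : Sys X u v D eps F n0 K1) {i j k : ℤ} (hv : v i = v j) (hk : Btw X i j k) : v k = v j := by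
  have h4 : v i ≤ v k := h.vmono _ _ hk.1.le
  have h5 : v k ≤ v j := h.vmono _ _ hk.2.le
  omega

theorem ee_succ (h : Sys X u v D eps F n0 K1) {i j : ℤ} (hij : X i < X j) (hu : u i = u j) :
    ee X (i + 1) (j + 1) = ee X i j := by
  unfold ee
  congr 1
  ext k
  simp only [Set.mem_setOf_eq]
  have h1 : j + 1 - (k : ℤ) = j - k + 1 := by ring
  rw [h1, btw_succ h hij hu]

theorem ff_succ (h : Sys X u v D eps F n0 K1) {i j : ℤ} (hij : X i < X j) (hu : u i = u j) :
    ff X (i + 1) (j + 1) = ff X i j := by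
  unfold ff
  congr 1
  ext k
  simp only [Set.mem_setOf_eq]
  have h1 : j + 1 + (k : ℤ) = j + k + 1 := by ring
  rw [h1, btw_succ h hij hu]

theorem Rec_succ (h : Sys X u v D eps F n0 K1) {i j : ℤ} (hij : X i < X j) (hu : u i = u j) :
    Rec X (i + 1) (j + 1) ↔ Rec X i j := by
  unfold Rec
  rw [ee_succ h hij hu, ff_succ h hij hu]
  constructor
  · rintro ⟨_, h2, h3⟩
    exact ⟨hij, by omega, by omega⟩
  · rintro ⟨_, h2, h3⟩
    exact ⟨lt_succ h hij hu, by omega, by omega⟩

theorem nn_succ (i j : ℤ) : nn (i + 1) (j + 1) = nn i j := by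
  unfold nn
  omega

theorem sa_succ (h : Sys X u v D eps F n0 K1) {i j : ℤ} (hij : X i < X j) (hu : u i = u j) :
    sa X (i + 1) (j + 1) = sa X i j := by
  unfold sa
  rw [nn_succ, ee_succ h hij hu]
  simp only [add_lt_add_iff_right]

theorem sb_succ (h : Sys X u v D eps F n0 K1) {i j : ℤ} (hij : X i < X j) (hu : u i = u j) :
    sb X (i + 1) (j + 1) = sb X i j := by
  unfold sb
  rw [nn_succ, ff_succ h hij hu]
  simp only [add_lt_add_iff_right]

theorem ww_succ (h : Sys X u v D eps F n0 K1) {i j : ℤ} (hij : X i < X j) (hu : u i = u j) :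
    ww X (i + 1) (j + 1) = ww X i j := by
  unfold ww
  rw [ee_succ h hij hu, ff_succ h hij hu]
  simp only [add_lt_add_iff_right]

theorem hh_succ (h : Sys X u v D eps F n0 K1) {i j : ℤ} (hij : X i < X j) (hu : u i = u j) :
    hh X (i + 1) (j + 1) = hh X i j := by
  unfold hh
  rw [ee_succ h hij hu, ff_succ h hij hu]

theorem hs_succ (h : Sys X u v D eps F n0 K1) {i j : ℤ} (hij : X i < X j) (hu : u i = u j) :
    hs X (i + 1) (j + 1) = hs X i j := by
  unfold hs
  rw [sa_succ h hij hu, sb_succ h hij hu]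

theorem lt_vis_succ (h : Sys X u v D eps F n0 K1) {i j : ℤ} (hij : X i < X j) (hu : u i = u j) :
    X (j + 1 - ee X (i + 1) (j + 1)) < X (j + 1 + ff X (i + 1) (j + 1)) ↔ X (j - ee X i j) < X (j + ff X i j) := by
  rw [ee_succ h hij hu, ff_succ h hij hu]
  have h1 : u (j - ee X i j) = u j := u_of_btw h hu (ee_spec h hij).2.1
  have h2 : u (j + ff X i j) = u j := u_of_btw h hu (ff_spec h hij).2.1
  have h3 : j + 1 - (ee X i j : ℤ) = j - ee X i j + 1 := by ring
  have h4 : j + 1 + (ff X i j : ℤ) = j + ff X i j + 1 := by ring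
  rw [h3, h4]
  exact (h.ord _ _ (h1.trans h2.symm)).symm

theorem Nf_succ (h : Sys X u v D eps F n0 K1) {y j i : ℤ} (hy : X y < X j) (huy : u y = u j) (hi : X i < X j)
    (hui : u i = u j) : Nf X (y + 1) (j + 1) (i + 1) ↔ Nf X y j i := by
  unfold Nf
  rw [sa_succ h hy huy, sb_succ h hy huy]
  constructor
  · rintro ⟨_, h2, h3, h4⟩
    refine ⟨hi, by omega, by omega, fun k hk1 hk2 hb => ?_⟩
    exact h4 (k + 1) (by omega) (by omega) ((btw_succ h hi hui k).2 hb)
  · rintro ⟨_, h2, h3, h4⟩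
    refine ⟨lt_succ h hi hui, by omega, by omega, fun k hk1 hk2 hb => ?_⟩
    have h5 : k = k - 1 + 1 := by ring
    rw [h5] at hb
    exact h4 (k - 1) (by omega) (by omega) ((btw_succ h hi hui (k - 1)).1 hb)

/-- `m` steps forwards -/
theorem btw_iter (h : Sys X u v D eps F n0 K1) {i j : ℤ} (hij : X i < X j) (m : ℕ)
    (hu : ∀ l : ℕ, l < m → u (i + l) = u (j + l)) :
    X (i + m) < X (j + m) ∧ ∀ k, Btw X (i + m) (j + m) (k + m) ↔ Btw X i j k := by
  induction m with
  | zero => simp [hij]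
  | succ m ih =>
    obtain ⟨h1, h2⟩ := ih fun l hl => hu l (by omega)
    have h3 : u (i + m) = u (j + m) := hu m (by omega)
    have h4 : ∀ a : ℤ, a + ((m + 1 : ℕ) : ℤ) = a + m + 1 := fun a => by push_cast; ring
    rw [h4 i, h4 j]
    refine ⟨lt_succ h h1 h3, fun k => ?_⟩
    rw [h4 k, btw_succ h h1 h3]
    exact h2 k

/-- `m` steps backwards -/
theorem btw_iterb (h : Sys X u v D eps F n0 K1) {i j : ℤ} (hij : X i < X j) (m : ℕ)
    (hv : ∀ l : ℕ, l < m → v (i - l) = v (j - l)) :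
    X (i - m) < X (j - m) ∧ ∀ k, Btw X (i - m) (j - m) (k - m) ↔ Btw X i j k := by
  induction m with
  | zero => simp [hij]
  | succ m ih =>
    obtain ⟨h1, h2⟩ := ih fun l hl => hv l (by omega)
    have h3 : v (i - m) = v (j - m) := hv m (by omega)
    obtain ⟨h5, h6⟩ := pred_of_v h h1 h3
    have h4 : ∀ a : ℤ, a - ((m + 1 : ℕ) : ℤ) = a - m - 1 := fun a => by push_cast; ring
    rw [h4 i, h4 j]
    refine ⟨h5, fun k => ?_⟩
    rw [h4 k, ← btw_succ h h5 h6 (k - m - 1)]
    have h7 : ∀ a : ℤ, a - m - 1 + 1 = a - m := fun a => by ring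
    rw [h7, h7, h7]
    exact h2 k

end Pool.Agent.PHI
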