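import Pool.Agent.PHI.Stp
import Pool.Agent.PHI.Nxa
import Pool.Agent.PHI.Nxb
import Pool.Agent.PHI.Fne

/-! Module PHI-Tra.  Transitions, first part: a change of the labels in `(y, j)` is a change in the next farther pair (`tr_cell`), other
changes of the next farther pair are in its first cell (`tr_cella`); the next farther pair survives one step if it is not cut
(`tr_keep`), and otherwise the next one is newborn with cell `a` (`tr_new`). -/

set_option autoImplicit false

namespace Pool.Agent.PHI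

variable {X : ℤ → ℝ} {u v : ℤ → ℕ} {D : ℕ} {eps F : ℝ} {n0 K1 : ℕ}

private theorem Tra_cases (h : Sys X u v D eps F n0 K1) {y j i : ℤ} (hr : Rec X y j) (hK : K1 < hs X y j)
    (hn : Nf X y j i) (w : ℤ → ℕ) (hw : w = u ∨ w = v) (hne : w i ≠ w j) :
    (w i ≠ w y ∧ w y = w (zz X y j) ∧ w (zz X y j) = w j ∧ cell w X i j = .a) ∨
    (w i = w y ∧ w y ≠ w (zz X y j) ∧ w (zz X y j) = w j ∧ cell w X i j = .b) ∨
    (w i = w y ∧ w y = w (zz X y j) ∧ w (zz X y j) ≠ w j ∧ cell w X i j = .c) := by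
  have h1 := cell_cases h (nf_rec h hr hn) (by rw [nf_hh h hr hn]; exact hK) w hw hne
  rw [nf_y1 h hr hn, nf_y2 h hr hn] at h1
  exact h1

theorem tr_cell (h : Sys X u v D eps F n0 K1) {y j i : ℤ} (hr : Rec X y j) (hK : K1 < hs X y j) (hn : Nf X y j i)
    (w : ℤ → ℕ) (hw : w = u ∨ w = v) (hne : w y ≠ w j) : w i ≠ w j ∧ cell w X i j = cellL w X y j := by
  have hm : ∀ a b : ℤ, X a ≤ X b → w a ≤ w b := by
    rcases hw with rfl | rfl
    · exact h.umono
    · exact h.vmono
  have h1 : w i ≤ w y := hm i y (nf_lt h hr hn).le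
  have h2 : w y ≤ w j := hm y j hr.1.le
  have h3 : w i ≠ w j := by
    intro h4
    apply hne
    omega
  refine ⟨h3, ?_⟩
  rcases Tra_cases h hr hK hn w hw h3 with h4 | h4 | h4
  · exact absurd (h4.2.1.trans h4.2.2.1) hne
  · rw [h4.2.2.2, cellL, if_pos h4.2.1]
  · rw [h4.2.2.2, cellL, if_neg (not_not_intro h4.2.1)]

theorem tr_cella (h : Sys X u v D eps F n0 K1) {y j i : ℤ} (hr : Rec X y j) (hK : K1 < hs X y j) (hn : Nf X y j i)
    (w : ℤ → ℕ) (hw : w = u ∨ w = v) (he : w y = w j) (hne : w i ≠ w j) : cell w X i j = .a := by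
  rcases Tra_cases h hr hK hn w hw hne with h4 | h4 | h4
  · exact h4.2.2.2
  · exact absurd (h4.1.trans he) hne
  · exact absurd (h4.1.trans he) hne

/-- the next farther pair survives if it is not cut -/
theorem tr_keep (h : Sys X u v D eps F n0 K1) {y j i : ℤ} (hr : Rec X y j) (hu : u y = u j) (hn : Nf X y j i)
    (hi : u i = u j) : Nf X (y + 1) (j + 1) (i + 1) :=
  (Nf_succ h hr.1 hu hn.1 hi).2 hn

/-- if the next farther pair is cut, the next one is newborn with cell `a` -/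
theorem tr_new (h : Sys X u v D eps F n0 K1) {y j i : ℤ} (hr : Rec X y j) (hK : K1 < hs X y j) (hu : u y = u j)
    (hn : Nf X y j i) (hi : u i ≠ u j) {i' : ℤ} (hn' : Nf X (y + 1) (j + 1) i') :
    v i' ≠ v (j + 1) ∧ cell v X i' (j + 1) = .a := by
  have h1 : v i' ≠ v (j + 1) := by
    intro hv
    have h2 := pred_of_v h hn'.1 hv
    rw [add_sub_cancel_right] at h2
    obtain ⟨t, rfl⟩ : ∃ t, i' = t + 1 := ⟨i' - 1, by ring⟩
    rw [add_sub_cancel_right] at h2
    have h3 : Nf X y j t := (Nf_succ h hr.1 hu h2.1 h2.2).1 hn'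
    have h4 := nf_unique h hn h3
    rw [h4] at hi
    exact hi h2.2
  exact ⟨h1, tr_cella h ((Rec_succ h hr.1 hu).2 hr) (by rw [hs_succ h hr.1 hu]; exact hK) hn' v (Or.inr rfl)
    ((h.uv y j).1 hu) h1⟩

end Pool.Agent.PHI
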