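import Pool.Agent.PHI.Tra
import Pool.Agent.PHI.Nxe

/-! Module PHI-Trb.  Transitions, second part.  A change of the labels in `(y, j)` forces a next farther pair (`tr_birth`,
`tr_death`); a pair without next farther pair is followed by a pair whose next farther pair is newborn with cell `a` (`tr_virt`)
and preceded by a pair whose next farther pair is cut (`tr_virt_back`). -/

set_option autoImplicit false

namespace Pool.Agent.PHI

variable {X : ℤ → ℝ} {u v : ℤ → ℕ} {D : ℕ} {eps F : ℝ} {n0 K1 : ℕ}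

theorem tr_birth (h : Sys X u v D eps F n0 K1) {y j : ℤ} (hr : Rec X y j) (hK : K1 < hs X y j) (hv : v y ≠ v j) :
    ∃ i, Nf X y j i ∧ v i ≠ v j ∧ cell v X i j = cellL v X y j := by
  have h1 := h.vmono y j hr.1.le
  obtain ⟨i, hi⟩ := exists_Nf_of_v h hK (by omega)
  obtain ⟨h2, h3⟩ := tr_cell h hr hK hi v (Or.inr rfl) hv
  exact ⟨i, hi, h2, h3⟩

theorem tr_death (h : Sys X u v D eps F n0 K1) {y j : ℤ} (hr : Rec X y j) (hK : K1 < hs X y j) (hu : u y ≠ u j) :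
    ∃ i, Nf X y j i ∧ u i ≠ u j ∧ cell u X i j = cellL u X y j := by
  have h1 := h.umono y j hr.1.le
  obtain ⟨i, hi⟩ := exists_Nf_of_u h hK (by omega)
  obtain ⟨h2, h3⟩ := tr_cell h hr hK hi u (Or.inl rfl) hu
  exact ⟨i, hi, h2, h3⟩

theorem tr_virt (h : Sys X u v D eps F n0 K1) {y j : ℤ} (hr : Rec X y j) (hK : K1 < hs X y j)
    (hn : ¬ ∃ i, Nf X y j i) : u y = u j ∧ ∃ i', Nf X (y + 1) (j + 1) i' ∧ v i' ≠ v (j + 1) ∧ cell v X i' (j + 1) = .a := by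
  obtain ⟨h1, -, h3, -⟩ := nonf_label h hr hK hn
  have hu : u y = u j := h3.trans h1.symm
  have hr' := (Rec_succ h hr.1 hu).2 hr
  have hK' : K1 < hs X (y + 1) (j + 1) := by
    rw [hs_succ h hr.1 hu]
    exact hK
  obtain ⟨i', hi'⟩ := exists_Nf_of_v h hK' (h.irr0 j h1)
  have hv : v i' ≠ v (j + 1) := by
    intro hv
    have h5 := pred_of_v h hi'.1 hv
    rw [add_sub_cancel_right] at h5
    obtain ⟨t, rfl⟩ : ∃ t, i' = t + 1 := ⟨i' - 1, by ring⟩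
    rw [add_sub_cancel_right] at h5
    exact hn ⟨t, (Nf_succ h hr.1 hu h5.1 h5.2).1 hi'⟩
  exact ⟨hu, i', hi', hv, tr_cella h hr' hK' hi' v (Or.inr rfl) ((h.uv y j).1 hu) hv⟩

/-- a pair without next farther pair follows a cut of the next farther pair in cell `a` -/
theorem tr_virt_back (h : Sys X u v D eps F n0 K1) {y j : ℤ} (hr : Rec X y j) (hK : K1 < hs X y j)
    (hn : ¬ ∃ i, Nf X y j i) : v y = v j ∧ Rec X (y - 1) (j - 1) ∧ u (y - 1) = u (j - 1) ∧ sa X (y - 1) (j - 1) = sa X y j ∧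
      sb X (y - 1) (j - 1) = sb X y j ∧ ∃ i, Nf X (y - 1) (j - 1) i ∧ u i ≠ u (j - 1) := by
  obtain ⟨-, h2, -, h4⟩ := nonf_label h hr hK hn
  have hv : v y = v j := h4.trans h2.symm
  obtain ⟨h5, h6⟩ := pred_of_v h hr.1 hv
  obtain ⟨y', rfl⟩ : ∃ t, y = t + 1 := ⟨y - 1, by ring⟩
  obtain ⟨j', rfl⟩ : ∃ t, j = t + 1 := ⟨j - 1, by ring⟩
  rw [add_sub_cancel_right, add_sub_cancel_right] at h5 h6 ⊢
  have hr' := (Rec_succ h h5 h6).1 hr
  have hK' : K1 < hs X y' j' := by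
    rw [hs_succ h h5 h6] at hK
    exact hK
  refine ⟨hv, hr', h6, (sa_succ h h5 h6).symm, (sb_succ h h5 h6).symm, ?_⟩
  obtain ⟨i, hi⟩ := exists_Nf_of_u h hK' (fun h7 => h.irr0 j' h7 h2)
  refine ⟨i, hi, fun h8 => hn ⟨i + 1, (Nf_succ h h5 h6 hi.1 h8).2 hi⟩⟩

end Pool.Agent.PHI
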