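import Pool.Agent.PHI.Mna

/-! Module PHI-Tsp.  Transport along lives: the mean of a function of the living times is the mean, over the times of death, of the
sums over the complete lives (split by the number `k` of steps until death and shift by `k`). -/

set_option autoImplicit false

namespace Pool.Agent.PHI

private theorem Tsp_fw {A : ℤ → Prop} {g h : ℤ → ℕ}
    (hfw : ∀ t, A t → g t ≠ 0 → A (t + 1) ∧ g (t + 1) + 1 = g t ∧ h (t + 1) = h t + 1) (k : ℕ) :
    ∀ (s : ℤ) (m : ℕ), A s → g s = m + k → A (s + k) ∧ g (s + k) = m ∧ h (s + k) = h s + k := by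
  induction k with
  | zero =>
    intro s m hA hg
    simp only [Nat.cast_zero, add_zero]
    exact ⟨hA, by simpa using hg, trivial⟩
  | succ k ih =>
    intro s m hA hg
    obtain ⟨h1, h2, h3⟩ := hfw s hA (by omega)
    obtain ⟨h4, h5, h6⟩ := ih (s + 1) m h1 (by omega)
    have e : s + 1 + (k : ℤ) = s + ((k + 1 : ℕ) : ℤ) := by
      push_cast
      ring
    rw [e] at h4 h5 h6
    exact ⟨h4, h5, by omega⟩

private theorem Tsp_bw {A : ℤ → Prop} {g h : ℤ → ℕ}
    (hbw : ∀ t, A t → h t ≠ 0 → A (t - 1) ∧ h (t - 1) + 1 = h t ∧ g (t - 1) = g t + 1) (k : ℕ) :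
    ∀ (s : ℤ) (m : ℕ), A s → h s = m + k → A (s - k) ∧ h (s - k) = m ∧ g (s - k) = g s + k := by
  induction k with
  | zero =>
    intro s m hA hg
    simp only [Nat.cast_zero, sub_zero, add_zero]
    exact ⟨hA, by simpa using hg, trivial⟩
  | succ k ih =>
    intro s m hA hg
    obtain ⟨h1, h2, h3⟩ := hbw s hA (by omega)
    obtain ⟨h4, h5, h6⟩ := ih (s - 1) m h1 (by omega)
    have e : s - 1 - (k : ℤ) = s - ((k + 1 : ℕ) : ℤ) := by
      push_cast
      ring
    rw [e] at h4 h5 h6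
    exact ⟨h4, h5, by omega⟩

private theorem Tsp_iff {A : ℤ → Prop} {g h : ℤ → ℕ}
    (hfw : ∀ t, A t → g t ≠ 0 → A (t + 1) ∧ g (t + 1) + 1 = g t ∧ h (t + 1) = h t + 1)
    (hbw : ∀ t, A t → h t ≠ 0 → A (t - 1) ∧ h (t - 1) + 1 = h t ∧ g (t - 1) = g t + 1) (t : ℤ) (k : ℕ) :
    (A (t - k) ∧ g (t - k) = k) ↔ ((A t ∧ g t = 0) ∧ k ≤ h t) := by
  constructor
  · rintro ⟨h1, h2⟩
    obtain ⟨h3, h4, h5⟩ := Tsp_fw hfw k (t - k) 0 h1 (by omega)
    rw [sub_add_cancel] at h3 h4 h5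
    exact ⟨⟨h3, h4⟩, by omega⟩
  · rintro ⟨⟨h1, h2⟩, h3⟩
    obtain ⟨h4, h5, h6⟩ := Tsp_bw hbw k t (h t - k) h1 (by omega)
    exact ⟨h4, by omega⟩

open Classical in
private theorem Tsp_sum {A : ℤ → Prop} {g h : ℤ → ℕ} {F : ℤ → ℝ} {B : ℕ}
    (hfw : ∀ t, A t → g t ≠ 0 → A (t + 1) ∧ g (t + 1) + 1 = g t ∧ h (t + 1) = h t + 1)
    (hbw : ∀ t, A t → h t ≠ 0 → A (t - 1) ∧ h (t - 1) + 1 = h t ∧ g (t - 1) = g t + 1)
    (hB : ∀ t, A t → g t + h t ≤ B) (t : ℤ) :
    (if A t ∧ g t = 0 then ∑ k ∈ Finset.range (h t + 1), F (t - k) else 0) =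
      ∑ k ∈ Finset.range (B + 1), (if A (t - k) ∧ g (t - k) = k then F (t - k) else 0) := by
  have h0 : ∀ k : ℕ, (if A (t - k) ∧ g (t - k) = k then F (t - k) else 0) =
      if (A t ∧ g t = 0) ∧ k ≤ h t then F (t - k) else 0 := by
    intro k
    by_cases hk : A (t - k) ∧ g (t - k) = k
    · rw [if_pos hk, if_pos ((Tsp_iff hfw hbw t k).1 hk)]
    · rw [if_neg hk, if_neg fun hk' => hk ((Tsp_iff hfw hbw t k).2 hk')]
  rw [Finset.sum_congr rfl fun k _ => h0 k]
  by_cases hA : A t ∧ g t = 0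
  · rw [if_pos hA]
    have hle := hB t hA.1
    have hsub : Finset.range (h t + 1) ⊆ Finset.range (B + 1) := by
      intro k hk
      rw [Finset.mem_range] at hk ⊢
      omega
    rw [← Finset.sum_subset hsub]
    · refine Finset.sum_congr rfl fun k hk => ?_
      rw [Finset.mem_range] at hk
      rw [if_pos ⟨hA, by omega⟩]
    · intro k _ hk
      rw [Finset.mem_range] at hk
      rw [if_neg fun hk' => hk (by omega)]
  · rw [if_neg hA]
    refine (Finset.sum_eq_zero fun k _ => ?_).symm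
    rw [if_neg fun hk' => hA hk'.1]

open Classical in
private theorem Tsp_bd {A : ℤ → Prop} {g : ℤ → ℕ} {F : ℤ → ℝ} {C : ℝ} (hC : ∀ t, A t → |F t| ≤ C) (k : ℕ) :
    Bd (fun t => if A t ∧ g t = k then F t else 0) := by
  refine ⟨max C 0, fun t => ?_⟩
  beta_reduce
  by_cases h : A t ∧ g t = k
  · rw [if_pos h]
    exact (hC t h.1).trans (le_max_left _ _)
  · rw [if_neg h, abs_zero]
    exact le_max_right _ _

open Classical in
theorem transport {E : (ℤ → ℝ) → ℝ} (hE : Mean E) {A : ℤ → Prop} {g h : ℤ → ℕ} {F : ℤ → ℝ} {B : ℕ} {C : ℝ}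
    (hfw : ∀ t, A t → g t ≠ 0 → A (t + 1) ∧ g (t + 1) + 1 = g t ∧ h (t + 1) = h t + 1)
    (hbw : ∀ t, A t → h t ≠ 0 → A (t - 1) ∧ h (t - 1) + 1 = h t ∧ g (t - 1) = g t + 1)
    (hB : ∀ t, A t → g t + h t ≤ B) (hC : ∀ t, A t → |F t| ≤ C) :
    E (fun t => if A t then F t else 0) =
      E (fun t => if A t ∧ g t = 0 then ∑ k ∈ Finset.range (h t + 1), F (t - k) else 0) := by
  have h1 : (fun t => if A t then F t else 0) =
      fun t => ∑ k ∈ Finset.range (B + 1), (if A t ∧ g t = k then F t else 0) := by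
    funext t
    by_cases hA : A t
    · have hle := hB t hA
      rw [if_pos hA, Finset.sum_eq_single (g t)]
      · rw [if_pos ⟨hA, rfl⟩]
      · intro k _ hk
        rw [if_neg fun hk' => hk hk'.2.symm]
      · intro hk
        exact absurd (Finset.mem_range.2 (by omega)) hk
    · rw [if_neg hA]
      refine (Finset.sum_eq_zero fun k _ => ?_).symm
      rw [if_neg fun hk' => hA hk'.1]
  have hbd : ∀ k ∈ Finset.range (B + 1), Bd (fun t => if A t ∧ g t = k then F t else 0) := by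
    intro k _
    exact Tsp_bd hC k
  have h2 : (fun t => if A t ∧ g t = 0 then ∑ k ∈ Finset.range (h t + 1), F (t - k) else 0) =
      fun t => ∑ k ∈ Finset.range (B + 1), (fun s : ℤ => if A s ∧ g s = k then F s else 0) (t + (-(k : ℤ))) := by
    funext t
    rw [Tsp_sum hfw hbw hB t]
    rfl
  rw [h1, h2, hE.sum (Finset.range (B + 1)) hbd,
    hE.sum (Finset.range (B + 1)) (f := fun k t => (fun s : ℤ => if A s ∧ g s = k then F s else 0) (t + (-(k : ℤ))))
      fun k hk => Bd.shiftk _ (hbd k hk)]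
  refine Finset.sum_congr rfl fun k hk => ?_
  exact (hE.shiftk (hbd k hk) (-(k : ℤ))).symm

open Classical in
/-- Corollary: if the sums over complete lives are `≤ 0` then the mean is `≤ 0`. -/
theorem transport_nonpos {E : (ℤ → ℝ) → ℝ} (hE : Mean E) {A : ℤ → Prop} {g h : ℤ → ℕ} {F : ℤ → ℝ} {B : ℕ} {C : ℝ}
    (hfw : ∀ t, A t → g t ≠ 0 → A (t + 1) ∧ g (t + 1) + 1 = g t ∧ h (t + 1) = h t + 1)
    (hbw : ∀ t, A t → h t ≠ 0 → A (t - 1) ∧ h (t - 1) + 1 = h t ∧ g (t - 1) = g t + 1)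
    (hB : ∀ t, A t → g t + h t ≤ B) (hC : ∀ t, A t → |F t| ≤ C)
    (hF : ∀ t, A t → g t = 0 → ∑ k ∈ Finset.range (h t + 1), F (t - k) ≤ 0) :
    E (fun t => if A t then F t else 0) ≤ 0 := by
  rw [transport hE hfw hbw hB hC]
  have hbd : ∀ k ∈ Finset.range (B + 1), Bd (fun t => if A t ∧ g t = k then F t else 0) := by
    intro k _
    exact Tsp_bd hC k
  have h2 : (fun t => if A t ∧ g t = 0 then ∑ k ∈ Finset.range (h t + 1), F (t - k) else 0) =
      fun t => ∑ k ∈ Finset.range (B + 1), (fun s : ℤ => if A s ∧ g s = k then F s else 0) (t + (-(k : ℤ))) := by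
    funext t
    rw [Tsp_sum hfw hbw hB t]
    rfl
  have h3 : Bd (fun t => if A t ∧ g t = 0 then ∑ k ∈ Finset.range (h t + 1), F (t - k) else 0) := by
    rw [h2]
    exact Bd.sum (Finset.range (B + 1)) fun k hk => Bd.shiftk _ (hbd k hk)
  refine hE.le_const h3 fun t => ?_
  by_cases hA : A t ∧ g t = 0
  · rw [if_pos hA]
    exact hF t hA.1 hA.2
  · rw [if_neg hA]

end Pool.Agent.PHI
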