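import Pool.Agent.PHI.Tsp
import Pool.Agent.PHI.Dcw
import Pool.Agent.PHI.Lfb

/-! Module PHI-Wlb.  Adjacent pairs.  For fixed extents `a`, `b` of the window and fixed `m` the times `t` at which `t + m` is the left
neighbour of `t` form complete lives of pairs, so transport of the function `1 / life` along the lives counts the deaths, and a death of
an adjacent pair is a cut.  Summation over the windows of length `N` gives `wlb`. -/

set_option autoImplicit false

namespace Pool.Agent.PHI

variable {X : ℤ → ℝ} {u v : ℤ → ℕ} {D : ℕ} {eps F : ℝ} {n0 K1 : ℕ}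

theorem F_nonneg (h : Sys X u v D eps F n0 K1) : 0 ≤ F := by
  have h1 := h.run0 0 1 (by norm_num) 0 (fun m hm => absurd hm (Nat.not_lt_zero m))
  norm_num at h1
  linarith

theorem lab_nonneg (X : ℤ → ℝ) (j : ℤ) (a b : ℕ) : 0 ≤ lab X j a b ∧ lab X j a b ≤ 1 := by
  unfold lab
  split_ifs with h
  · constructor
    · positivity
    · by_cases h0 : nn h.choose j = 0
      · rw [h0]; norm_num
      · have h1 : (1 : ℝ) ≤ (nn h.choose j : ℝ) := by exact_mod_cast Nat.one_le_iff_ne_zero.2 h0
        rw [div_le_one (by linarith)]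
        exact h1
  · exact ⟨le_refl _, zero_le_one⟩

theorem IsNb.unique (h : Sys X u v D eps F n0 K1) {i i' j : ℤ} {a b : ℕ} (h1 : IsNb X i j a b) (h2 : IsNb X i' j a b) : i = i' := by
  rcases lt_trichotomy (X i) (X i') with hlt | heq | hgt
  · exact absurd ⟨hlt, h2.1⟩ (h1.2.2.2 i' h2.2.1 h2.2.2.1)
  · exact h.inj heq
  · exact absurd ⟨hgt, h1.1⟩ (h2.2.2.2 i h1.2.1 h1.2.2.1)

private theorem Wlb_ne {X : ℤ → ℝ} {i j : ℤ} (hij : X i < X j) : i ≠ j := by
  intro h
  rw [h] at hij
  exact lt_irrefl _ hij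

/-- one step forwards -/
private theorem Wlb_succ (h : Sys X u v D eps F n0 K1) {i j : ℤ} {a b : ℕ} (hn : IsNb X i j a b) (hu : u i = u j) :
    IsNb X (i + 1) (j + 1) a b := by
  obtain ⟨h1, h2, h3, h4⟩ := hn
  refine ⟨lt_succ h h1 hu, by omega, by omega, fun k hk1 hk2 hb => ?_⟩
  have h5 := (btw_succ h h1 hu (k - 1)).1 (by rw [sub_add_cancel]; exact hb)
  exact h4 (k - 1) (by omega) (by omega) h5

/-- one step backwards -/
private theorem Wlb_pred (h : Sys X u v D eps F n0 K1) {i j : ℤ} {a b : ℕ} (hn : IsNb X i j a b) (hv : v i = v j) :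
    IsNb X (i - 1) (j - 1) a b := by
  obtain ⟨h1, h2, h3, h4⟩ := hn
  obtain ⟨h5, h6⟩ := pred_of_v h h1 hv
  refine ⟨h5, by omega, by omega, fun k hk1 hk2 hb => ?_⟩
  have h7 := (btw_succ h h5 h6 k).2 hb
  rw [sub_add_cancel, sub_add_cancel] at h7
  exact h4 (k + 1) (by omega) (by omega) h7

/-- the time since the birth and the time until the death, one step back -/
private theorem Wlb_back (h : Sys X u v D eps F n0 K1) {i j : ℤ} (hij : X i < X j) (hv : v i = v j) :
    dv v (i - 1) (j - 1) + 1 = dv v i j ∧ du u (i - 1) (j - 1) = du u i j + 1 ∧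
      life u v (i - 1) (j - 1) = life u v i j := by
  obtain ⟨h5, h6⟩ := pred_of_v h hij hv
  have hne := Wlb_ne h5
  have h1 := du_succ h hne h6
  have h2 := dv_succ h hne h6
  have h3 := life_succ h hne h6
  rw [sub_add_cancel, sub_add_cancel] at h1 h2 h3
  exact ⟨h2.symm, h1.symm, h3.symm⟩

/-- the life is constant -/
private theorem Wlb_life (h : Sys X u v D eps F n0 K1) {i j : ℤ} (hij : X i < X j) (k : ℕ) (hk : k ≤ dv v i j) :
    X (i - k) < X (j - k) ∧ dv v (i - k) (j - k) + k = dv v i j ∧ life u v (i - k) (j - k) = life u v i j := by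
  induction k with
  | zero =>
    simp only [Nat.cast_zero, sub_zero, add_zero, and_self, and_true]
    exact hij
  | succ k ih =>
    obtain ⟨h1, h2, h3⟩ := ih (by omega)
    have hne := Wlb_ne h1
    have hv : v (i - k) = v (j - k) := by
      by_contra hc
      have := (dv_zero h hne).2 hc
      omega
    obtain ⟨h4, h5, h6⟩ := Wlb_back h h1 hv
    obtain ⟨h7, -⟩ := pred_of_v h h1 hv
    have e1 : i - ((k + 1 : ℕ) : ℤ) = i - k - 1 := by push_cast; ring
    have e2 : j - ((k + 1 : ℕ) : ℤ) = j - k - 1 := by push_cast; ring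
    rw [e1, e2]
    exact ⟨h7, by omega, by rw [h6, h3]⟩

/-- the value at one pair of times -/
private theorem Wlb_abs (i j : ℤ) : |(1 : ℝ) / (life u v i j : ℝ)| ≤ 1 := by
  have h1 : (1 : ℝ) ≤ (life u v i j : ℝ) := by exact_mod_cast life_pos u v i j
  rw [abs_of_nonneg (by positivity), div_le_one (by linarith)]
  exact h1

open Classical in
/-- transport of `1 / life` -/
private theorem Wlb_tr {E : (ℤ → ℝ) → ℝ} (hE : Mean E) (h : Sys X u v D eps F n0 K1) (a b : ℕ) (m : ℤ) :
    E (fun t => if IsNb X (t + m) t a b then 1 / (life u v (t + m) t : ℝ) else 0) =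
      E (fun t => if IsNb X (t + m) t a b ∧ du u (t + m) t = 0 then 1 else 0) := by
  have key := transport (A := fun t => IsNb X (t + m) t a b) (g := fun t => du u (t + m) t)
    (h := fun t => dv v (t + m) t) (F := fun t => 1 / (life u v (t + m) t : ℝ)) (B := ⌊F * (m.natAbs : ℝ)⌋₊)
    (C := 1) hE ?_ ?_ ?_ ?_
  · rw [key]
    congr 1
    funext t
    by_cases hc : IsNb X (t + m) t a b ∧ du u (t + m) t = 0
    · rw [if_pos hc, if_pos hc]
      obtain ⟨hA, h0⟩ := hc
      have hL : life u v (t + m) t = dv v (t + m) t + 1 := by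
        unfold life
        rw [h0]
        omega
      have hs : ∑ k ∈ Finset.range (dv v (t + m) t + 1), 1 / (life u v (t - (k : ℤ) + m) (t - (k : ℤ)) : ℝ) =
          ∑ k ∈ Finset.range (dv v (t + m) t + 1), 1 / (life u v (t + m) t : ℝ) := by
        refine Finset.sum_congr rfl fun k hk => ?_
        rw [Finset.mem_range] at hk
        have h1 := (Wlb_life h hA.1 k (by omega)).2.2
        have e1 : t - (k : ℤ) + m = t + m - k := by ring
        rw [e1, h1]
      rw [hs, Finset.sum_const, Finset.card_range, nsmul_eq_mul, hL]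
      have : ((dv v (t + m) t + 1 : ℕ) : ℝ) ≠ 0 := by positivity
      field_simp
    · rw [if_neg hc, if_neg hc]
  · intro t hA hg
    have hne := Wlb_ne hA.1
    have hu : u (t + m) = u t := by
      by_contra hc
      exact hg ((du_zero h hne).2 hc)
    have e1 : t + 1 + m = t + m + 1 := by ring
    simp only [e1]
    exact ⟨Wlb_succ h hA hu, du_succ h hne hu, dv_succ h hne hu⟩
  · intro t hA hg
    have hne := Wlb_ne hA.1
    have hv : v (t + m) = v t := by
      by_contra hc
      exact hg ((dv_zero h hne).2 hc)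
    have e1 : t - 1 + m = t + m - 1 := by ring
    simp only [e1]
    obtain ⟨h1, h2, -⟩ := Wlb_back h hA.1 hv
    exact ⟨Wlb_pred h hA hv, h1, h2⟩
  · intro t hA
    have h1 := life_le0 h (Wlb_ne hA.1)
    have h2 : nn (t + m) t = m.natAbs := by
      unfold nn
      congr 1
      ring
    rw [h2] at h1
    refine Nat.le_floor ?_
    unfold life at h1
    push_cast at h1 ⊢
    linarith
  · intro t _
    exact Wlb_abs _ _

open Classical in
/-- `lab` as a sum over the position of the neighbour -/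
private theorem Wlb_lab (h : Sys X u v D eps F n0 K1) (a b : ℕ) (t : ℤ) :
    lab X t a b ≤ ∑ m ∈ Finset.Icc (-(a : ℤ)) b, F * (if IsNb X (t + m) t a b then 1 / (life u v (t + m) t : ℝ) else 0) := by
  have hF := F_nonneg h
  have hnn : ∀ m ∈ Finset.Icc (-(a : ℤ)) b,
      0 ≤ F * (if IsNb X (t + m) t a b then 1 / (life u v (t + m) t : ℝ) else 0) := by
    intro m _
    refine mul_nonneg hF ?_
    split_ifs
    · positivity
    · exact le_refl _
  by_cases hex : ∃ i, IsNb X i t a b
  · have hlab : lab X t a b = 1 / (nn hex.choose t : ℝ) := by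
      unfold lab
      rw [dif_pos hex]
    have hs := hex.choose_spec
    set i := hex.choose with hi
    have hmem : i - t ∈ Finset.Icc (-(a : ℤ)) b := by
      rw [Finset.mem_Icc]
      have h1 := hs.2.1
      have h2 := hs.2.2.1
      omega
    refine le_trans ?_ (Finset.single_le_sum hnn hmem)
    have e1 : t + (i - t) = i := by ring
    rw [e1, if_pos hs, hlab]
    have hne := Wlb_ne hs.1
    have h1 := life_le0 h hne
    have h2 : (0 : ℝ) < (life u v i t : ℝ) := by
      have := life_pos u v i t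
      positivity
    have h3 : (0 : ℝ) < (nn i t : ℝ) := by
      have : 0 < nn i t := by
        unfold nn
        omega
      exact_mod_cast this
    rw [mul_one_div, div_le_div_iff₀ h3 h2]
    linarith
  · have hlab : lab X t a b = 0 := by
      unfold lab
      rw [dif_neg hex]
    rw [hlab]
    exact Finset.sum_nonneg hnn

open Classical in
/-- the deaths of adjacent pairs are cuts -/
private theorem Wlb_dif (h : Sys X u v D eps F n0 K1) (a b : ℕ) (t : ℤ) :
    ∑ m ∈ Finset.Icc (-(a : ℤ)) b, (if IsNb X (t + m) t a b ∧ du u (t + m) t = 0 then (1 : ℝ) else 0) ≤ dif X u t a b := by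
  by_cases hex : ∃ i, IsNb X i t a b ∧ du u i t = 0
  · obtain ⟨i, hi, h0⟩ := hex
    have hne := Wlb_ne hi.1
    have hu := (du_zero h hne).1 h0
    have hlt : u i < u t := lt_of_le_of_ne (h.umono i t hi.1.le) hu
    have hd : dif X u t a b = 1 := by
      unfold dif
      rw [if_pos]
      refine ⟨by omega, fun k hk1 hk2 hk3 => ?_⟩
      have h1 : X k ≤ X i := by
        by_contra hc
        exact hi.2.2.2 k hk1 hk2 ⟨not_le.1 hc, hk3⟩
      have h2 := h.umono k i h1
      omega
    rw [hd]
    have hle : ∀ m ∈ Finset.Icc (-(a : ℤ)) b,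
        (if IsNb X (t + m) t a b ∧ du u (t + m) t = 0 then (1 : ℝ) else 0) ≤ if m = i - t then 1 else 0 := by
      intro m _
      by_cases hm : IsNb X (t + m) t a b ∧ du u (t + m) t = 0
      · have h1 := IsNb.unique h hm.1 hi
        rw [if_pos hm, if_pos (by omega)]
      · rw [if_neg hm]
        split_ifs
        · exact zero_le_one
        · exact le_refl _
    refine le_trans (Finset.sum_le_sum hle) ?_
    rw [Finset.sum_ite_eq']
    split_ifs
    · exact le_refl _
    · exact zero_le_one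
  · have hz : ∑ m ∈ Finset.Icc (-(a : ℤ)) b,
        (if IsNb X (t + m) t a b ∧ du u (t + m) t = 0 then (1 : ℝ) else 0) = 0 := by
      refine Finset.sum_eq_zero fun m _ => ?_
      rw [if_neg]
      intro hm
      exact hex ⟨t + m, hm⟩
    rw [hz]
    exact (dif_nonneg X u t a b).1

private theorem Wlb_bdlab (X : ℤ → ℝ) (a b : ℕ) : Bd (fun t => lab X t a b) :=
  ⟨1, fun t => by
    have h1 := lab_nonneg X t a b
    rw [abs_of_nonneg h1.1]
    exact h1.2⟩

private theorem Wlb_bddif (X : ℤ → ℝ) (u : ℤ → ℕ) (a b : ℕ) : Bd (fun t => dif X u t a b) :=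
  ⟨1, fun t => by
    have h1 := dif_nonneg X u t a b
    rw [abs_of_nonneg h1.1]
    exact h1.2⟩

/-- one window -/
private theorem Wlb_one {E : (ℤ → ℝ) → ℝ} (hE : Mean E) (h : Sys X u v D eps F n0 K1) (a b : ℕ) :
    E (fun t => lab X t a b) ≤ F * E (fun t => dif X u t a b) := by
  classical
  have hF := F_nonneg h
  have hb1 : ∀ m ∈ Finset.Icc (-(a : ℤ)) b,
      Bd (fun t => if IsNb X (t + m) t a b then 1 / (life u v (t + m) t : ℝ) else 0) := by
    intro m _
    exact Bd.ite (C := 1) (f := fun t => 1 / (life u v (t + m) t : ℝ)) fun t _ => Wlb_abs _ _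
  have hb2 : ∀ m ∈ Finset.Icc (-(a : ℤ)) b,
      Bd (fun t => F * (if IsNb X (t + m) t a b then 1 / (life u v (t + m) t : ℝ) else 0)) := by
    intro m hm
    exact Bd.smul F (hb1 m hm)
  have hb3 : ∀ m ∈ Finset.Icc (-(a : ℤ)) b,
      Bd (fun t => if IsNb X (t + m) t a b ∧ du u (t + m) t = 0 then (1 : ℝ) else 0) := by
    intro m _
    have h0 := Bd.ite (p := fun t => IsNb X (t + m) t a b ∧ du u (t + m) t = 0) (f := fun _ => (1 : ℝ)) (C := 1)
      fun t _ => by rw [abs_one]
    convert h0
  have e1 : E (fun t => lab X t a b) ≤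
      E (fun t => ∑ m ∈ Finset.Icc (-(a : ℤ)) b,
        F * (if IsNb X (t + m) t a b then 1 / (life u v (t + m) t : ℝ) else 0)) :=
    hE.mono _ _ (Wlb_bdlab X a b) (Bd.sum _ hb2) fun t => Wlb_lab h a b t
  have e2 : E (fun t => ∑ m ∈ Finset.Icc (-(a : ℤ)) b,
        F * (if IsNb X (t + m) t a b then 1 / (life u v (t + m) t : ℝ) else 0)) =
      F * E (fun t => ∑ m ∈ Finset.Icc (-(a : ℤ)) b,
        (if IsNb X (t + m) t a b ∧ du u (t + m) t = 0 then (1 : ℝ) else 0)) := by
    rw [hE.sum _ hb2, hE.sum _ hb3, Finset.mul_sum]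
    refine Finset.sum_congr rfl fun m hm => ?_
    rw [hE.smul F _ (hb1 m hm), Wlb_tr hE h a b m]
  have e3 : E (fun t => ∑ m ∈ Finset.Icc (-(a : ℤ)) b,
        (if IsNb X (t + m) t a b ∧ du u (t + m) t = 0 then (1 : ℝ) else 0)) ≤ E (fun t => dif X u t a b) :=
    hE.mono _ _ (Bd.sum _ hb3) (Wlb_bddif X u a b) fun t => Wlb_dif h a b t
  rw [e2] at e1
  exact le_trans e1 (mul_le_mul_of_nonneg_left e3 hF)

theorem wlb {E : (ℤ → ℝ) → ℝ} (hE : Mean E) (h : Sys X u v D eps F n0 K1) (N : ℕ) :
    E (fun j => ∑ a ∈ Finset.range N, lab X j a (N - 1 - a)) ≤ F * D := by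
  have hF := F_nonneg h
  rw [hE.sum _ fun a _ => Wlb_bdlab X a (N - 1 - a)]
  have h1 : ∑ a ∈ Finset.range N, E (fun j => lab X j a (N - 1 - a)) ≤
      ∑ a ∈ Finset.range N, F * E (fun j => dif X u j a (N - 1 - a)) :=
    Finset.sum_le_sum fun a _ => Wlb_one hE h a (N - 1 - a)
  rw [← Finset.mul_sum, ← hE.sum _ fun a _ => Wlb_bddif X u a (N - 1 - a)] at h1
  exact le_trans h1 (mul_le_mul_of_nonneg_left (dc hE h N) hF)

end Pool.Agent.PHI
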