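import Pool.Agent.PHI.ZLow
import Pool.Agent.Helper44.IETUpper

/-!
# PHI/ZFin: both thresholds for all exchanges of `d` intervals, from a certificate
-/

set_option autoImplicit false

namespace Pool.Agent.PHI

open Pool.Agent.Helper44.IET Filter Topology

theorem asymp_le {A : Type*} (u : ℕ → A) : asympCritExp u ≤ critExp u := by
  unfold asympCritExp
  split_ifs with h
  · rw [h]
  · refine iInf_le_of_le 0 ?_
    unfold critExpFrom critExp
    refine iSup_le fun i => iSup_le fun p => iSup_le fun l => iSup_le fun hp => iSup_le fun _ => iSup_le fun hq => ?_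
    exact le_iSup_of_le i (le_iSup_of_le p (le_iSup_of_le l (le_iSup_of_le hp (le_iSup_of_le hq le_rfl))))

theorem RTstar_le (d : ℕ) : RTstar d ≤ RT d :=
  le_iInf₂ fun u hu => (iInf₂_le u hu).trans (asymp_le u)

theorem upper {d : ℕ} (hd : 2 ≤ d) :
    RT d ≤ ((1 + (((1 + Real.sqrt 5) / 2) ^ 2 + 100 / Real.sqrt ((d : ℝ) - 1)) / ((d : ℝ) - 1) : ℝ) : EReal) := by
  obtain ⟨D, rfl⟩ : ∃ D, d = D + 1 := ⟨d - 1, by omega⟩
  have h := upper_all D (by omega)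
  have h1 : ((D + 1 : ℕ) : ℝ) - 1 = D := by push_cast; ring
  have h2 : (1 + Real.sqrt 5) / 2 = ph := by unfold ph; ring
  rw [h1, h2]
  exact h

theorem bounds {P : Fl → Fl → ℝ → ℝ → ℝ → ℝ} {C : ℝ} (hP : Cert P C) {d : ℕ} (hd : 2 ≤ d) :
    ((1 + ((1 + Real.sqrt 5) / 2) ^ 2 / ((d : ℝ) - 1) : ℝ) : EReal) ≤ RTstar d ∧ RTstar d ≤ RT d ∧
      RT d ≤ ((1 + (((1 + Real.sqrt 5) / 2) ^ 2 + 100 / Real.sqrt ((d : ℝ) - 1)) / ((d : ℝ) - 1) : ℝ) : EReal) :=
  ⟨low_RTstar hd hP, RTstar_le d, upper hd⟩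

theorem lim_of {c : ℝ} {R : ℕ → EReal} (h1 : ∀ d : ℕ, 2 ≤ d → ((1 + c / ((d : ℝ) - 1) : ℝ) : EReal) ≤ R d)
    (h2 : ∀ d : ℕ, 2 ≤ d → R d ≤ ((1 + (c + 100 / Real.sqrt ((d : ℝ) - 1)) / ((d : ℝ) - 1) : ℝ) : EReal)) :
    Tendsto (fun d : ℕ => ((d : ℝ) - 1) * ((R d).toReal - 1)) atTop (𝓝 c) := by
  have hs : Tendsto (fun d : ℕ => c + 100 / Real.sqrt ((d : ℝ) - 1)) atTop (𝓝 c) := by
    have h3 : Tendsto (fun d : ℕ => Real.sqrt ((d : ℝ) - 1)) atTop atTop := by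
      refine Real.tendsto_sqrt_atTop.comp ?_
      have h4 : Tendsto (fun d : ℕ => (d : ℝ) + (-1)) atTop atTop :=
        tendsto_atTop_add_const_right _ _ tendsto_natCast_atTop_atTop
      simpa [sub_eq_add_neg] using h4
    have h5 : Tendsto (fun d : ℕ => 100 / Real.sqrt ((d : ℝ) - 1)) atTop (𝓝 0) :=
      h3.const_div_atTop 100
    simpa using tendsto_const_nhds.add h5
  refine tendsto_of_tendsto_of_tendsto_of_le_of_le' tendsto_const_nhds hs ?_ ?_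
  · filter_upwards [eventually_ge_atTop 2] with d hd
    have hd0 : (0 : ℝ) < (d : ℝ) - 1 := by
      have : (2 : ℝ) ≤ d := by exact_mod_cast hd
      linarith
    have h3 := h1 d hd
    have h4 := h2 d hd
    have hb : R d ≠ ⊥ := fun h => by
      rw [h] at h3
      exact absurd h3 (not_le.2 (EReal.bot_lt_coe _))
    have ht : R d ≠ ⊤ := fun h => by
      rw [h] at h4
      exact absurd h4 (not_le.2 (EReal.coe_lt_top _))
    have h5 : 1 + c / ((d : ℝ) - 1) ≤ (R d).toReal := by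
      rw [← EReal.coe_toReal ht hb] at h3
      exact_mod_cast h3
    calc c = ((d : ℝ) - 1) * (1 + c / ((d : ℝ) - 1) - 1) := by field_simp; ring
      _ ≤ ((d : ℝ) - 1) * ((R d).toReal - 1) := mul_le_mul_of_nonneg_left (by linarith) hd0.le
  · filter_upwards [eventually_ge_atTop 2] with d hd
    have hd0 : (0 : ℝ) < (d : ℝ) - 1 := by
      have : (2 : ℝ) ≤ d := by exact_mod_cast hd
      linarith
    have h3 := h1 d hd
    have h4 := h2 d hd
    have hb : R d ≠ ⊥ := fun h => by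
      rw [h] at h3
      exact absurd h3 (not_le.2 (EReal.bot_lt_coe _))
    have ht : R d ≠ ⊤ := fun h => by
      rw [h] at h4
      exact absurd h4 (not_le.2 (EReal.coe_lt_top _))
    have h5 : (R d).toReal ≤ 1 + (c + 100 / Real.sqrt ((d : ℝ) - 1)) / ((d : ℝ) - 1) := by
      rw [← EReal.coe_toReal ht hb] at h4
      exact_mod_cast h4
    calc ((d : ℝ) - 1) * ((R d).toReal - 1)
        ≤ ((d : ℝ) - 1) * (1 + (c + 100 / Real.sqrt ((d : ℝ) - 1)) / ((d : ℝ) - 1) - 1) :=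
          mul_le_mul_of_nonneg_left (by linarith) hd0.le
      _ = c + 100 / Real.sqrt ((d : ℝ) - 1) := by
        rw [add_sub_cancel_left, mul_div_cancel₀]
        exact hd0.ne'

theorem final {P : Fl → Fl → ℝ → ℝ → ℝ → ℝ} {C : ℝ} (hP : Cert P C) :
    (∀ d : ℕ, 2 ≤ d →
      ((1 + ((1 + Real.sqrt 5) / 2) ^ 2 / ((d : ℝ) - 1) : ℝ) : EReal) ≤ RTstar d ∧ RTstar d ≤ RT d ∧
      RT d ≤ ((1 + (((1 + Real.sqrt 5) / 2) ^ 2 + 100 / Real.sqrt ((d : ℝ) - 1)) / ((d : ℝ) - 1) : ℝ) : EReal)) ∧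
    Tendsto (fun d : ℕ => ((d : ℝ) - 1) * ((RTstar d).toReal - 1)) atTop (𝓝 (((1 + Real.sqrt 5) / 2) ^ 2)) ∧
    Tendsto (fun d : ℕ => ((d : ℝ) - 1) * ((RT d).toReal - 1)) atTop (𝓝 (((1 + Real.sqrt 5) / 2) ^ 2)) := by
  refine ⟨fun d hd => bounds hP hd, ?_, ?_⟩
  · exact lim_of (fun d hd => (bounds hP hd).1) (fun d hd => ((bounds hP hd).2.1).trans (bounds hP hd).2.2)
  · exact lim_of (fun d hd => ((bounds hP hd).1).trans (bounds hP hd).2.1) (fun d hd => (bounds hP hd).2.2)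

end Pool.Agent.PHI
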