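import Pool.Agent.PHI.Lim
import Pool.Agent.PHI.MSys

/-!
# PHI/ZLow: the lower bound for the asymptotic critical exponent of a coding, from a certificate
-/

set_option autoImplicit false

namespace Pool.Agent.PHI

open Pool.Agent.Helper44.IET

theorem low {d : ℕ} (hd : 2 ≤ d) {P : Fl → Fl → ℝ → ℝ → ℝ → ℝ} {C : ℝ} (hP : Cert P C) {u0 : ℕ → Fin d}
    (hu : u0 ∈ Codings d) : ((1 + phi ^ 2 / ((d : ℝ) - 1) : ℝ) : EReal) ≤ asympCritExp u0 := by
  by_contra hcon
  push Not at hcon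
  obtain ⟨r, hr1, hr2⟩ := EReal.lt_iff_exists_real_btwn.mp hcon
  have hd0 : (0 : ℝ) < (d : ℝ) - 1 := by
    have : (2 : ℝ) ≤ d := by exact_mod_cast hd
    linarith
  have hphi : 0 < phi := by
    unfold phi
    positivity
  have hc0 : 0 < phi ^ 2 / ((d : ℝ) - 1) := by positivity
  have hr3 : r < 1 + phi ^ 2 / ((d : ℝ) - 1) := by exact_mod_cast hr2
  set c := phi ^ 2 / ((d : ℝ) - 1) with hcdef
  set eps := max (r - 1) (c / 2) with heps
  have he0 : 0 < eps := lt_of_lt_of_le (by linarith) (le_max_right _ _)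
  have hec : eps < c := max_lt (by linarith) (by linarith)
  have h : asympCritExp u0 < ((1 + eps : ℝ) : EReal) := by
    refine lt_of_lt_of_le hr1 ?_
    have : r ≤ 1 + eps := by
      have := le_max_left (r - 1) (c / 2)
      linarith
    exact_mod_cast this
  obtain ⟨X, u, v, F, N0, hs⟩ := ex_sys hd hu h
  have h1 := main hP he0 N0 hs
  have h2 : ((d - 1 : ℕ) : ℝ) = (d : ℝ) - 1 := by
    rw [Nat.cast_sub (by omega)]
    simp
  rw [h2] at h1
  have h3 : eps * ((d : ℝ) - 1) < c * ((d : ℝ) - 1) := mul_lt_mul_of_pos_right hec hd0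
  have h4 : c * ((d : ℝ) - 1) = phi ^ 2 := by
    rw [hcdef]
    field_simp
  linarith

theorem low_RTstar {d : ℕ} (hd : 2 ≤ d) {P : Fl → Fl → ℝ → ℝ → ℝ → ℝ} {C : ℝ} (hP : Cert P C) :
    ((1 + phi ^ 2 / ((d : ℝ) - 1) : ℝ) : EReal) ≤ RTstar d :=
  le_iInf₂ fun _ hu => low hd hP hu

end Pool.Agent.PHI
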